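import Pool.Agent.Y732.Fam

/-!
# Many quadruples with nonsingular marked points
-/

set_option autoImplicit false

namespace Pool.Agent.Y732

open Finset

lemma sum_inv_odd (N : ℕ) : ∑ k ∈ Icc 2 N, (1 : ℚ) / ((2 * k + 1 : ℕ) : ℚ) ^ 2 ≤ 1 / 8 := by
  have h : ∀ N : ℕ, 1 ≤ N →
      ∑ k ∈ Icc 2 N, (1 : ℚ) / ((2 * k + 1 : ℕ) : ℚ) ^ 2 ≤ 1 / 8 - 1 / (4 * (N + 1)) := by
    intro N hN
    induction N, hN using Nat.le_induction with
    | base => norm_num
    | succ n hn ih =>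
      rw [sum_Icc_succ_top (by omega)]
      have hn0 : (0 : ℚ) < n := by
        have : 0 < n := by omega
        exact_mod_cast this
      have h1 : (1 : ℚ) / ((2 * (n + 1) + 1 : ℕ) : ℚ) ^ 2 ≤
          1 / (4 * ((n : ℚ) + 1)) - 1 / (4 * (((n + 1 : ℕ) : ℚ) + 1)) := by
        push_cast
        rw [div_sub_div _ _ (by positivity) (by positivity),
          div_le_div_iff₀ (by positivity) (by positivity)]
        nlinarith
      linarith
  rcases Nat.lt_or_ge N 1 with h2 | h2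
  · rw [Icc_eq_empty (by omega), sum_empty]
    norm_num
  · have h3 := h N h2
    have h4 : (0 : ℚ) ≤ 1 / (4 * (N + 1)) := by positivity
    linarith

/-- the three conditions at the prime `ℓ` -/
def Cond (A a m n : ℤ) (ℓ : ℕ) : Prop :=
  ¬ ((ℓ : ℤ) ∣ a ∧ (ℓ : ℤ) ∣ m) ∧ ¬ ((ℓ : ℤ) ∣ a ∧ (ℓ : ℤ) ∣ n) ∧
    ¬ ((ℓ : ℤ) ∣ a + A * m ∧ (ℓ : ℤ) ∣ n - m)

open scoped Classical in
/-- the triples `(m, a₃, n)` for a given `a₁ = A` -/
lemma line_fibre (A b : ℤ) (N p : ℕ) (hp5 : 5 ≤ p) (hp : p.Prime) (hN : 4608 * p ^ 2 ≤ N)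
    (c₁ c₂ c₃ : ℤ) (h23 : ¬ c₂ ≡ c₃ [ZMOD (6 * p : ℕ)]) :
    (N : ℚ) ^ 3 / (4 * (6 * p) ^ 3) ≤
      ((((Ico b (b + N)).filter fun z => z ≡ c₂ [ZMOD (6 * p : ℕ)]).sigma fun _ =>
        ((Ico (1 : ℤ) (1 + N)).filter fun z => z ≡ c₁ [ZMOD (6 * p : ℕ)]) ×ˢ
        ((Ico b (b + N)).filter fun z => z ≡ c₃ [ZMOD (6 * p : ℕ)])).filter
      fun z : (_ : ℤ) × (ℤ × ℤ) => ∀ ℓ : ℕ, ℓ.Prime → Nat.Coprime (6 * p) ℓ →
        Cond A z.2.1 z.1 z.2.2 ℓ).card := by
  set q : ℕ := 6 * p with hq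
  have hq0 : 0 < q := by omega
  set Ms := (Ico b (b + N)).filter fun z => z ≡ c₂ [ZMOD (q : ℕ)] with hMs
  set As := (Ico (1 : ℤ) (1 + N)).filter fun z => z ≡ c₁ [ZMOD (q : ℕ)] with hAs
  set Ns := (Ico b (b + N)).filter fun z => z ≡ c₃ [ZMOD (q : ℕ)] with hNs
  set S := Ms.sigma fun _ => As ×ˢ Ns with hS
  set G := S.filter fun z : (_ : ℤ) × (ℤ × ℤ) => ∀ ℓ : ℕ, ℓ.Prime → Nat.Coprime q ℓ →
        Cond A z.2.1 z.1 z.2.2 ℓ with hG
  set L : Finset ℕ := (Icc 2 N).filter fun k => Nat.Coprime q (2 * k + 1) with hL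
  set MF : ℕ → ℤ → Finset ℤ := fun ℓ w =>
    (Ico b (b + N)).filter fun z => z ≡ c₂ [ZMOD (q : ℕ)] ∧ (ℓ : ℤ) ∣ z + w with hMF
  set AF : ℕ → ℤ → Finset ℤ := fun ℓ w =>
    (Ico (1 : ℤ) (1 + N)).filter fun z => z ≡ c₁ [ZMOD (q : ℕ)] ∧ (ℓ : ℤ) ∣ z + w with hAF
  set NF : ℕ → ℤ → Finset ℤ := fun ℓ w =>
    (Ico b (b + N)).filter fun z => z ≡ c₃ [ZMOD (q : ℕ)] ∧ (ℓ : ℤ) ∣ z + w with hNF
  set B1 : ℕ → Finset ((_ : ℤ) × (ℤ × ℤ)) := fun ℓ => (MF ℓ 0).sigma fun _ => AF ℓ 0 ×ˢ Ns with hB1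
  set B2 : ℕ → Finset ((_ : ℤ) × (ℤ × ℤ)) := fun ℓ => Ms.sigma fun _ => AF ℓ 0 ×ˢ NF ℓ 0 with hB2
  set B3 : ℕ → Finset ((_ : ℤ) × (ℤ × ℤ)) := fun ℓ =>
    Ms.sigma fun m => AF ℓ (A * m) ×ˢ NF ℓ (-m) with hB3
  have hcover : S ⊆ G ∪ L.biUnion fun k => (B1 (2 * k + 1) ∪ B2 (2 * k + 1)) ∪ B3 (2 * k + 1) := by
    rintro ⟨m, a, n⟩ hz
    rw [mem_union]
    by_cases hg : ∀ ℓ : ℕ, ℓ.Prime → Nat.Coprime q ℓ → Cond A a m n ℓ
    · left
      rw [hG, mem_filter]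
      exact ⟨hz, hg⟩
    · right
      push Not at hg
      obtain ⟨ℓ, hℓ, hcop, hc⟩ := hg
      rw [hS, mem_sigma, mem_product, hMs, hAs, hNs, mem_filter, mem_filter, mem_filter] at hz
      obtain ⟨⟨hm, hm1⟩, ⟨ha, ha1⟩, ⟨hn, hn1⟩⟩ := hz
      simp only at hm hm1 ha ha1 hn hn1
      have hℓ2 : ℓ ≠ 2 := by
        rintro rfl
        have h1 : Nat.Coprime 6 2 := Nat.Coprime.coprime_dvd_left ⟨p, hq⟩ hcop
        revert h1
        decide
      have hℓ3 : ℓ ≠ 3 := by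
        rintro rfl
        have h1 : Nat.Coprime 6 3 := Nat.Coprime.coprime_dvd_left ⟨p, hq⟩ hcop
        revert h1
        decide
      have hodd := hℓ.eq_two_or_odd'.resolve_left hℓ2
      obtain ⟨k, hk⟩ := hodd
      have hℓN : ℓ ≤ N := by
        by_contra hlt
        apply hc
        rw [mem_Ico] at hm ha hn
        have ha2 : ¬ (ℓ : ℤ) ∣ a := by
          intro h
          have := Int.le_of_dvd (by omega) h
          omega
        refine ⟨fun h => ha2 h.1, fun h => ha2 h.1, fun h => ?_⟩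
        have hmn : n - m ≠ 0 := by
          intro h0
          apply h23
          have : m = n := by omega
          rw [← this] at hn1
          exact hm1.symm.trans hn1
        have h3 := Int.le_of_dvd (abs_pos.2 hmn) ((dvd_abs _ _).2 h.2)
        have h4 : |n - m| < N := by
          rw [abs_lt]
          omega
        omega
      have hk2 : 2 ≤ k := by
        have := hℓ.two_le
        omega
      rw [mem_biUnion]
      refine ⟨k, ?_, ?_⟩
      · rw [hL, mem_filter, mem_Icc, ← hk]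
        exact ⟨⟨hk2, by omega⟩, hcop⟩
      · rw [← hk, mem_union, mem_union]
        unfold Cond at hc
        by_cases h1 : (ℓ : ℤ) ∣ a ∧ (ℓ : ℤ) ∣ m
        · left
          left
          rw [hB1, mem_sigma, mem_product]
          simp only [hMF, hAF, hNs, mem_filter, add_zero]
          exact ⟨⟨hm, hm1, h1.2⟩, ⟨ha, ha1, h1.1⟩, hn, hn1⟩
        · by_cases h2 : (ℓ : ℤ) ∣ a ∧ (ℓ : ℤ) ∣ n
          · left
            right
            rw [hB2, mem_sigma, mem_product]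
            simp only [hMs, hAF, hNF, mem_filter, add_zero]
            exact ⟨⟨hm, hm1⟩, ⟨ha, ha1, h2.1⟩, hn, hn1, h2.2⟩
          · right
            have h3 : (ℓ : ℤ) ∣ a + A * m ∧ (ℓ : ℤ) ∣ n - m := by
              by_contra h3
              exact hc ⟨h1, h2, h3⟩
            rw [hB3, mem_sigma, mem_product]
            simp only [hMs, hAF, hNF, mem_filter]
            exact ⟨⟨hm, hm1⟩, ⟨ha, ha1, h3.1⟩, hn, hn1, by rw [← sub_eq_add_neg]; exact h3.2⟩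
  have h1 : (S.card : ℚ) ≤ G.card + ∑ k ∈ L, (((B1 (2 * k + 1)).card : ℚ) +
      (B2 (2 * k + 1)).card + (B3 (2 * k + 1)).card) := by
    have h2 := (card_le_card hcover).trans ((card_union_le _ _).trans
      (Nat.add_le_add_left (card_biUnion_le.trans (sum_le_sum fun k _ => (card_union_le _ _).trans
        (Nat.add_le_add_right (card_union_le _ _) _))) _))
    exact_mod_cast h2
  obtain ⟨X, hX⟩ : ∃ X : ℚ, X = N / q := ⟨_, rfl⟩
  have hqQ : (0 : ℚ) < q := by exact_mod_cast hq0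
  have hNQ : (128 : ℚ) * q ^ 2 ≤ N := by
    have : 128 * q ^ 2 ≤ N := by
      rw [hq]
      nlinarith
    exact_mod_cast this
  have hq30 : (30 : ℚ) ≤ q := by
    have : 30 ≤ q := by omega
    exact_mod_cast this
  have hX2 : 128 * (N : ℚ) ≤ X ^ 2 := by
    rw [hX, div_pow, le_div_iff₀ (by positivity)]
    have h8 : (0 : ℚ) ≤ N := by positivity
    nlinarith
  have hXN : X ≤ N := by
    rw [hX]
    apply div_le_self (by positivity)
    linarith
  have hX128 : 128 ≤ X := by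
    have h3 : (0 : ℚ) ≤ X := by rw [hX]; positivity
    have h4 : 128 * X ≤ X * X := by nlinarith
    by_contra h5
    rw [not_le] at h5
    rcases h3.eq_or_lt with h6 | h6
    · rw [← h6] at hX2
      have : (N : ℚ) ≤ 0 := by linarith
      nlinarith
    · have := le_of_mul_le_mul_right h4 h6
      linarith
  have hMs1 : X - 1 ≤ Ms.card := by
    rw [hX]
    exact class_card_ge b N q hq0 c₂
  have hMs2 : (Ms.card : ℚ) ≤ X + 1 := by
    rw [hX]
    exact class_card_le b N q hq0 c₂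
  have hAs1 : X - 1 ≤ As.card := by
    rw [hX]
    exact class_card_ge 1 N q hq0 c₁
  have hNs1 : X - 1 ≤ Ns.card := by
    rw [hX]
    exact class_card_ge b N q hq0 c₃
  have hNs2 : (Ns.card : ℚ) ≤ X + 1 := by
    rw [hX]
    exact class_card_le b N q hq0 c₃
  have h2 : (X - 1) ^ 3 ≤ S.card := by
    rw [hS, card_sigma, sum_const, smul_eq_mul, card_product]
    push_cast
    calc (X - 1) ^ 3 = (X - 1) * ((X - 1) * (X - 1)) := by ring
      _ ≤ Ms.card * (As.card * Ns.card) := by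
        apply mul_le_mul hMs1 (mul_le_mul hAs1 hNs1 (by linarith) (by positivity))
          (by nlinarith) (by positivity)
  have h3 : ∀ k ∈ L, ((B1 (2 * k + 1)).card : ℚ) + (B2 (2 * k + 1)).card + (B3 (2 * k + 1)).card ≤
      3 * (X + 1) * (5 / 4 * X ^ 2 * (1 / ((2 * k + 1 : ℕ) : ℚ) ^ 2) + 5) := by
    intro k hk
    rw [hL, mem_filter, mem_Icc] at hk
    obtain ⟨ℓ, hℓ⟩ : ∃ ℓ, ℓ = 2 * k + 1 := ⟨_, rfl⟩
    rw [← hℓ]
    rw [← hℓ] at hk
    have hℓ0 : 0 < ℓ := by omega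
    have hℓQ : (0 : ℚ) < ℓ := by exact_mod_cast hℓ0
    have hM : ∀ w, ((MF ℓ w).card : ℚ) ≤ N / (q * ℓ) + 1 := fun w =>
      bad_le b N q ℓ hq0 hℓ0 hk.2 c₂ w
    have hA : ∀ w, ((AF ℓ w).card : ℚ) ≤ N / (q * ℓ) + 1 := fun w =>
      bad_le 1 N q ℓ hq0 hℓ0 hk.2 c₁ w
    have hNn : ∀ w, ((NF ℓ w).card : ℚ) ≤ N / (q * ℓ) + 1 := fun w =>
      bad_le b N q ℓ hq0 hℓ0 hk.2 c₃ w
    obtain ⟨x, hx⟩ : ∃ x : ℚ, x = N / (q * ℓ) := ⟨_, rfl⟩
    rw [← hx] at hM hA hNn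
    have hx0 : 0 ≤ x := by rw [hx]; positivity
    have h6 : (x + 1) ^ 2 ≤ 5 / 4 * X ^ 2 * (1 / (ℓ : ℚ) ^ 2) + 5 := by
      have e : 5 / 4 * X ^ 2 * (1 / (ℓ : ℚ) ^ 2) = 5 / 4 * x ^ 2 := by
        rw [hX, hx]
        field_simp
      rw [e]
      nlinarith [sq_nonneg (x / 2 - 2)]
    have b1 : ((B1 ℓ).card : ℚ) ≤ (X + 1) * (x + 1) ^ 2 := by
      rw [hB1]
      simp only [card_sigma, card_product, sum_const, smul_eq_mul]
      push_cast
      calc ((MF ℓ 0).card : ℚ) * ((AF ℓ 0).card * Ns.card) ≤ (x + 1) * ((x + 1) * (X + 1)) := by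
            apply mul_le_mul (hM 0) (mul_le_mul (hA 0) hNs2 (by positivity) (by positivity))
              (by positivity) (by positivity)
        _ = _ := by ring
    have b2 : ((B2 ℓ).card : ℚ) ≤ (X + 1) * (x + 1) ^ 2 := by
      rw [hB2]
      simp only [card_sigma, card_product, sum_const, smul_eq_mul]
      push_cast
      calc (Ms.card : ℚ) * ((AF ℓ 0).card * (NF ℓ 0).card) ≤ (X + 1) * ((x + 1) * (x + 1)) := by
            apply mul_le_mul hMs2 (mul_le_mul (hA 0) (hNn 0) (by positivity) (by positivity))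
              (by positivity) (by linarith)
        _ = _ := by ring
    have b3 : ((B3 ℓ).card : ℚ) ≤ (X + 1) * (x + 1) ^ 2 := by
      rw [hB3]
      simp only [card_sigma, card_product]
      push_cast
      calc ∑ m ∈ Ms, ((AF ℓ (A * m)).card : ℚ) * (NF ℓ (-m)).card ≤
            ∑ _m ∈ Ms, (x + 1) * (x + 1) := by
            apply sum_le_sum
            intro m _
            exact mul_le_mul (hA _) (hNn _) (by positivity) (by positivity)
        _ = Ms.card * ((x + 1) * (x + 1)) := by rw [sum_const, nsmul_eq_mul]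
        _ ≤ (X + 1) * ((x + 1) * (x + 1)) := mul_le_mul_of_nonneg_right hMs2 (by positivity)
        _ = _ := by ring
    have h7 : (X + 1) * (x + 1) ^ 2 ≤
        (X + 1) * (5 / 4 * X ^ 2 * (1 / (ℓ : ℚ) ^ 2) + 5) :=
      mul_le_mul_of_nonneg_left h6 (by linarith)
    linarith
  have h4 : ∑ k ∈ L, (((B1 (2 * k + 1)).card : ℚ) + (B2 (2 * k + 1)).card +
      (B3 (2 * k + 1)).card) ≤ 3 * (X + 1) * (5 / 32 * X ^ 2 + 5 * N) := by
    calc _ ≤ ∑ k ∈ L, 3 * (X + 1) * (5 / 4 * X ^ 2 * (1 / ((2 * k + 1 : ℕ) : ℚ) ^ 2) + 5) :=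
          sum_le_sum h3
      _ ≤ ∑ k ∈ Icc 2 N, 3 * (X + 1) * (5 / 4 * X ^ 2 * (1 / ((2 * k + 1 : ℕ) : ℚ) ^ 2) + 5) := by
          apply sum_le_sum_of_subset_of_nonneg (filter_subset _ _)
          intro k _ _
          have : (0 : ℚ) ≤ X + 1 := by linarith
          positivity
      _ = 3 * (X + 1) * (5 / 4 * X ^ 2 * (∑ k ∈ Icc 2 N, (1 : ℚ) / ((2 * k + 1 : ℕ) : ℚ) ^ 2) +
          5 * ((Icc 2 N).card : ℚ)) := by
          rw [← mul_sum, sum_add_distrib, ← mul_sum, sum_const, nsmul_eq_mul]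
          ring
      _ ≤ 3 * (X + 1) * (5 / 4 * X ^ 2 * (1 / 8) + 5 * N) := by
          have h5 : ((Icc 2 N).card : ℚ) ≤ N := by
            rw [Nat.card_Icc]
            have : N + 1 - 2 ≤ N := by omega
            exact_mod_cast this
          have h6 := sum_inv_odd N
          have h7 : (0 : ℚ) ≤ 5 / 4 * X ^ 2 := by positivity
          have h8 : (0 : ℚ) ≤ 3 * (X + 1) := by linarith
          apply mul_le_mul_of_nonneg_left _ h8
          nlinarith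
      _ = _ := by ring
  have h5 : (N : ℚ) ^ 3 / (4 * (6 * p) ^ 3) = X ^ 3 / 4 := by
    rw [hX, hq]
    push_cast
    rw [div_pow, div_div]
    congr 1
    ring
  rw [h5]
  have h6 : (X - 1) ^ 3 - 3 * (X + 1) * (5 / 32 * X ^ 2 + 5 * N) ≤ G.card := by linarith
  refine le_trans ?_ h6
  have h7 : (N : ℚ) ≤ X ^ 2 / 128 := by linarith
  have h8 : 3 * (X + 1) * (5 / 32 * X ^ 2 + 5 * N) ≤
      3 * (X + 1) * (5 / 32 * X ^ 2 + 5 * (X ^ 2 / 128)) := by
    apply mul_le_mul_of_nonneg_left _ (by linarith)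
    linarith
  have h9 : X ^ 3 / 4 ≤ (X - 1) ^ 3 - 3 * (X + 1) * (5 / 32 * X ^ 2 + 5 * (X ^ 2 / 128)) := by
    nlinarith [mul_nonneg (sq_nonneg X) (sub_nonneg.2 hX128), sq_nonneg X]
  linarith

end Pool.Agent.Y732
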