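import Pool.Agent.Y732.GenT
import Pool.Agent.Y732.LineCount

/-!
# The elliptic curves with three collinear integral points
-/

set_option autoImplicit false

namespace Pool.Agent.Y732

open MvPolynomial

/-- The family of the curves `y² + a₁ x y + a₃ y = x (x - m) (x - n)` with the integral points
`P 0 1 = (0, 0)`, `P 1 2 = (m, 0)` and `P 0 2 = P 0 1 + P 1 2 = -(n, 0)`; the parameters are
`(a₁, a₃, m, n)` of weights `1, 3, 2, 2`. -/
noncomputable def lineFamily : Family 4 2 where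
  w := ![1, 3, 2, 2]
  χ := 1
  n := fun _ _ => 0
  W := ⟨X 0, -(X 2 + X 3), X 1, X 2 * X 3, 0⟩
  x := fun i j => if i = 1 then X 2 else if j = 1 then 0 else X 3
  y := fun i j => if i = 0 ∧ j = 2 then -(X 0 * X 3 + X 1) else 0
  e := fun _ _ => 1
  h₁ := isWeightedHomogeneous_X ℤ _ 0
  h₂ := ((isWeightedHomogeneous_X ℤ _ 2).add (isWeightedHomogeneous_X ℤ _ 3)).neg
  h₃ := isWeightedHomogeneous_X ℤ _ 1
  h₄ := (isWeightedHomogeneous_X ℤ _ 2).mul (isWeightedHomogeneous_X ℤ _ 3)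
  h₆ := isWeightedHomogeneous_zero ℤ _ _
  hx := by
    intro i j
    split_ifs
    · exact isWeightedHomogeneous_X ℤ _ 2
    · exact isWeightedHomogeneous_zero ℤ _ _
    · exact isWeightedHomogeneous_X ℤ _ 3
  hy := by
    intro i j
    split_ifs
    · exact (((isWeightedHomogeneous_X ℤ _ 0).mul (isWeightedHomogeneous_X ℤ _ 3)).add
        (isWeightedHomogeneous_X ℤ _ 1)).neg
    · exact isWeightedHomogeneous_zero ℤ _ _
  he := fun _ _ => isWeightedHomogeneous_one ℤ _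

lemma lineFamily_K : lineFamily.K.det = 3 := by
  rw [Matrix.det_fin_two]
  simp [Family.K, lineFamily]

lemma lineFamily_curve (v : Fin 4 → ℤ) : lineFamily.curve v = LineCurve (v 0) (v 1) (v 2) (v 3) := by
  ext <;> simp [Family.curve, lineFamily, LineCurve]

lemma line_x (v : Fin 4 → ℤ) : eval v (lineFamily.x 0 1) = 0 ∧ eval v (lineFamily.x 1 2) = v 2 ∧
    eval v (lineFamily.x 0 2) = v 3 := by
  refine ⟨?_, ?_, ?_⟩
  · simp [lineFamily]
  · simp [lineFamily]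
  · simp [lineFamily]

lemma line_y (v : Fin 4 → ℤ) : eval v (lineFamily.y 0 1) = 0 ∧ eval v (lineFamily.y 1 2) = 0 ∧
    eval v (lineFamily.y 0 2) = -(v 0 * v 3 + v 1) := by
  refine ⟨?_, ?_, ?_⟩
  · simp [lineFamily]
  · simp [lineFamily]
  · simp [lineFamily]

lemma line_e (v : Fin 4 → ℤ) (i j : Fin 3) : eval v (lineFamily.e i j) = 1 := by
  simp [lineFamily]

open WeierstrassCurve

lemma pt_one {W : WeierstrassCurve ℤ} {a b : ℤ} (h : (WQ W).Nonsingular (a : ℚ) (b : ℚ)) :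
    pt W a b 1 = .some _ _ h := by
  rw [pt, dif_pos (by simpa using h), Affine.Point.some.injEq]
  constructor <;> simp

/-- the three points lie on a line -/
lemma line_rel {a₁ a₃ m n : ℤ} (ha : a₃ ≠ 0) (hD : (LineCurve a₁ a₃ m n).Δ ≠ 0) :
    pt (LineCurve a₁ a₃ m n) 0 0 1 + pt (LineCurve a₁ a₃ m n) m 0 1 =
      pt (LineCurve a₁ a₃ m n) n (-(a₁ * n + a₃)) 1 := by
  have e1 : (WQ (LineCurve a₁ a₃ m n)).a₁ = (a₁ : ℚ) := rfl
  have e2 : (WQ (LineCurve a₁ a₃ m n)).a₂ = ((-(m + n) : ℤ) : ℚ) := rfl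
  have e3 : (WQ (LineCurve a₁ a₃ m n)).a₃ = (a₃ : ℚ) := rfl
  have e4 : (WQ (LineCurve a₁ a₃ m n)).a₄ = ((m * n : ℤ) : ℚ) := rfl
  have q1 : (LineCurve a₁ a₃ m n).toAffine.Equation 0 0 := by
    rw [Affine.equation_iff]
    simp [LineCurve]
  have q2 : (LineCurve a₁ a₃ m n).toAffine.Equation m 0 := by
    rw [Affine.equation_iff]
    simp [LineCurve]
    ring
  have q3 : (LineCurve a₁ a₃ m n).toAffine.Equation n (-(a₁ * n + a₃)) := by
    rw [Affine.equation_iff]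
    simp [LineCurve]
    ring
  have n1 := nonsingular_WQ q1 hD
  have n2 := nonsingular_WQ q2 hD
  have n3 := nonsingular_WQ q3 hD
  rw [pt_one n1, pt_one n2, pt_one n3]
  have haQ : (a₃ : ℚ) ≠ 0 := by exact_mod_cast ha
  have hneg : (WQ (LineCurve a₁ a₃ m n)).negY ((m : ℤ) : ℚ) ((0 : ℤ) : ℚ) = -(a₁ * m + a₃) := by
    rw [Affine.negY, e1, e3]
    push_cast
    ring
  have hxy : ¬ (((0 : ℤ) : ℚ) = ((m : ℤ) : ℚ) ∧ ((0 : ℤ) : ℚ) =
      (WQ (LineCurve a₁ a₃ m n)).negY ((m : ℤ) : ℚ) ((0 : ℤ) : ℚ)) := by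
    rintro ⟨h1, h2⟩
    rw [hneg, ← h1] at h2
    push_cast at h2
    apply haQ
    linear_combination h2
  have hs : (WQ (LineCurve a₁ a₃ m n)).slope ((0 : ℤ) : ℚ) ((m : ℤ) : ℚ) ((0 : ℤ) : ℚ)
      ((0 : ℤ) : ℚ) = 0 := by
    by_cases hm : ((0 : ℤ) : ℚ) = ((m : ℤ) : ℚ)
    · rw [Affine.slope_of_Y_ne hm (fun h => hxy ⟨hm, h⟩), e1, e2, e4]
      have hm0 : (m : ℚ) = 0 := by
        rw [← hm]
        norm_num
      push_cast
      rw [hm0]
      simp
    · rw [Affine.slope_of_X_ne hm, sub_self, zero_div]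
  rw [Affine.Point.add_some hxy, Affine.Point.some.injEq]
  have hX : (WQ (LineCurve a₁ a₃ m n)).addX ((0 : ℤ) : ℚ) ((m : ℤ) : ℚ)
      ((WQ (LineCurve a₁ a₃ m n)).slope ((0 : ℤ) : ℚ) ((m : ℤ) : ℚ) ((0 : ℤ) : ℚ)
      ((0 : ℤ) : ℚ)) = n := by
    rw [hs, Affine.addX, e1, e2]
    push_cast
    ring
  refine ⟨hX, ?_⟩
  rw [Affine.addY, hX, Affine.negAddY, hX, hs, Affine.negY, e1, e3]
  push_cast
  ring

lemma cond_ns {a₁ a₃ m n : ℤ} (hc : ∀ ℓ : ℕ, ℓ.Prime → Cond a₁ a₃ m n ℓ) :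
    EverywhereNonsingular (LineCurve a₁ a₃ m n) 0 0 1 ∧
      EverywhereNonsingular (LineCurve a₁ a₃ m n) m 0 1 ∧
      EverywhereNonsingular (LineCurve a₁ a₃ m n) n (-(a₁ * n + a₃)) 1 := by
  refine ⟨?_, ?_, ?_⟩
  · intro ℓ hℓ
    right
    obtain ⟨c1, c2, c3⟩ := hc ℓ hℓ
    have hpp := Nat.prime_iff_prime_int.1 hℓ
    simp only [LineCurve]
    rintro ⟨h1, h2⟩
    have h3 : (ℓ : ℤ) ∣ a₃ := by
      have e : a₃ = 2 * 0 + a₁ * 0 * 1 + a₃ * 1 ^ 3 := by ring
      rw [e]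
      exact h1
    have h4 : (ℓ : ℤ) ∣ m * n := by
      have e : m * n = -(a₁ * 0 * 1 - (3 * 0 ^ 2 + 2 * -(m + n) * 0 * 1 ^ 2 + m * n * 1 ^ 4)) := by
        ring
      rw [e]
      exact h2.neg_right
    rcases hpp.dvd_or_dvd h4 with h5 | h5
    · exact c1 ⟨h3, h5⟩
    · exact c2 ⟨h3, h5⟩
  · intro ℓ hℓ
    right
    obtain ⟨c1, c2, c3⟩ := hc ℓ hℓ
    have hpp := Nat.prime_iff_prime_int.1 hℓ
    simp only [LineCurve]
    rintro ⟨h1, h2⟩
    have h3 : (ℓ : ℤ) ∣ a₃ + a₁ * m := by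
      have e : a₃ + a₁ * m = 2 * 0 + a₁ * m * 1 + a₃ * 1 ^ 3 := by ring
      rw [e]
      exact h1
    have h4 : (ℓ : ℤ) ∣ m * (n - m) := by
      have e : m * (n - m) = a₁ * 0 * 1 -
          (3 * m ^ 2 + 2 * -(m + n) * m * 1 ^ 2 + m * n * 1 ^ 4) := by
        ring
      rw [e]
      exact h2
    rcases hpp.dvd_or_dvd h4 with h5 | h5
    · apply c1
      refine ⟨?_, h5⟩
      have e : a₃ = (a₃ + a₁ * m) - a₁ * m := by ring
      rw [e]
      exact dvd_sub h3 (h5.mul_left _)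
    · exact c3 ⟨h3, h5⟩
  · intro ℓ hℓ
    right
    obtain ⟨c1, c2, c3⟩ := hc ℓ hℓ
    have hpp := Nat.prime_iff_prime_int.1 hℓ
    simp only [LineCurve]
    rintro ⟨h1, h2⟩
    have h3 : (ℓ : ℤ) ∣ a₃ + a₁ * n := by
      have e : a₃ + a₁ * n = -(2 * -(a₁ * n + a₃) + a₁ * n * 1 + a₃ * 1 ^ 3) := by ring
      rw [e]
      exact h1.neg_right
    have h4 : (ℓ : ℤ) ∣ n * (n - m) := by
      have e : n * (n - m) = -(a₁ * -(a₁ * n + a₃) * 1 -
          (3 * n ^ 2 + 2 * -(m + n) * n * 1 ^ 2 + m * n * 1 ^ 4)) - a₁ * (a₃ + a₁ * n) := by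
        ring
      rw [e]
      exact dvd_sub h2.neg_right (h3.mul_left _)
    rcases hpp.dvd_or_dvd h4 with h5 | h5
    · apply c2
      refine ⟨?_, h5⟩
      have e : a₃ = (a₃ + a₁ * n) - a₁ * n := by ring
      rw [e]
      exact dvd_sub h3 (h5.mul_left _)
    · apply c3
      refine ⟨?_, h5⟩
      have e : a₃ + a₁ * m = (a₃ + a₁ * n) - a₁ * (n - m) := by ring
      rw [e]
      exact dvd_sub h3 (h5.mul_left _)

lemma line_oncurve (a₁ a₃ m n : ℤ) : OnCurve (LineCurve a₁ a₃ m n) 0 0 1 ∧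
    OnCurve (LineCurve a₁ a₃ m n) m 0 1 ∧
    OnCurve (LineCurve a₁ a₃ m n) n (-(a₁ * n + a₃)) 1 := by
  refine ⟨?_, ?_, ?_⟩
  · simp only [OnCurve, LineCurve]
    ring
  · simp only [OnCurve, LineCurve]
    ring
  · simp only [OnCurve, LineCurve]
    ring

lemma line_marked {v : Fin 4 → ℤ} (hD : (lineFamily.curve v).Δ ≠ 0) (ha : v 1 ≠ 0)
    (hc : ∀ ℓ : ℕ, ℓ.Prime → Cond (v 0) (v 1) (v 2) (v 3) ℓ) : lineFamily.Marked v := by
  obtain ⟨s1, s2, s3⟩ := cond_ns hc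
  obtain ⟨o1, o2, o3⟩ := line_oncurve (v 0) (v 1) (v 2) (v 3)
  obtain ⟨x1, x2, x3⟩ := line_x v
  obtain ⟨y1, y2, y3⟩ := line_y v
  refine ⟨hD, ?_, ?_⟩
  · intro i j hij
    rw [line_e, lineFamily_curve]
    refine ⟨one_ne_zero, isCoprime_one_right, ?_⟩
    have hcases : (i = 0 ∧ j = 1) ∨ (i = 0 ∧ j = 2) ∨ (i = 1 ∧ j = 2) := by
      revert i j
      decide
    rcases hcases with ⟨rfl, rfl⟩ | ⟨rfl, rfl⟩ | ⟨rfl, rfl⟩
    · rw [x1, y1]
      exact ⟨o1, s1⟩
    · rw [x3, y3]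
      exact ⟨o3, s3⟩
    · rw [x2, y2]
      exact ⟨o2, s2⟩
  · intro i j k hij hjk
    have hcases : i = 0 ∧ j = 1 ∧ k = 2 := by
      revert i j k
      decide
    obtain ⟨rfl, rfl, rfl⟩ := hcases
    have hP : ∀ i j : Fin 3, lineFamily.P v i j = pt (lineFamily.curve v)
        (eval v (lineFamily.x i j)) (eval v (lineFamily.y i j)) 1 := by
      intro i j
      rw [Family.P, line_e]
    rw [hP, hP, hP, x1, x2, x3, y1, y2, y3]
    have h1 := line_rel (a₁ := v 0) (m := v 2) (n := v 3) ha (by rwa [← lineFamily_curve])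
    rw [← lineFamily_curve v] at h1
    exact h1

/-- at a prime of good reduction the conditions hold -/
lemma cond_good {a₁ a₃ m n : ℤ} {ℓ : ℕ} (hℓ : ℓ.Prime)
    (hD : ¬ (ℓ : ℤ) ∣ (LineCurve a₁ a₃ m n).Δ) : Cond a₁ a₃ m n ℓ := by
  have : Fact ℓ.Prime := ⟨hℓ⟩
  have hD' : (red (LineCurve a₁ a₃ m n) (ZMod ℓ)).Δ ≠ 0 := by
    rw [WeierstrassCurve.map_Δ]
    intro h
    apply hD
    rw [← ZMod.intCast_zmod_eq_zero_iff_dvd _ ℓ]
    exact h
  have q1 : (LineCurve a₁ a₃ m n).toAffine.Equation 0 0 := by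
    rw [Affine.equation_iff]
    simp [LineCurve]
  have q2 : (LineCurve a₁ a₃ m n).toAffine.Equation m 0 := by
    rw [Affine.equation_iff]
    simp [LineCurve]
    ring
  have n1 := (Affine.equation_iff_nonsingular_of_Δ_ne_zero
    (W := (red (LineCurve a₁ a₃ m n) (ZMod ℓ)).toAffine) hD').1 (eqn_cast q1 (ZMod ℓ))
  have n2 := (Affine.equation_iff_nonsingular_of_Δ_ne_zero
    (W := (red (LineCurve a₁ a₃ m n) (ZMod ℓ)).toAffine) hD').1 (eqn_cast q2 (ZMod ℓ))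
  rw [Affine.nonsingular_iff'] at n1 n2
  have e1 : (red (LineCurve a₁ a₃ m n) (ZMod ℓ)).toAffine.a₁ = (a₁ : ZMod ℓ) := rfl
  have e2 : (red (LineCurve a₁ a₃ m n) (ZMod ℓ)).toAffine.a₂ = ((-(m + n) : ℤ) : ZMod ℓ) := rfl
  have e3 : (red (LineCurve a₁ a₃ m n) (ZMod ℓ)).toAffine.a₃ = (a₃ : ZMod ℓ) := rfl
  have e4 : (red (LineCurve a₁ a₃ m n) (ZMod ℓ)).toAffine.a₄ = ((m * n : ℤ) : ZMod ℓ) := rfl
  rw [e1, e2, e3, e4] at n1 n2
  have hz : ∀ z : ℤ, (ℓ : ℤ) ∣ z → (z : ZMod ℓ) = 0 := fun z h =>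
    (ZMod.intCast_zmod_eq_zero_iff_dvd z ℓ).2 h
  refine ⟨?_, ?_, ?_⟩
  · rintro ⟨h1, h2⟩
    rcases n1.2 with h | h
    · apply h
      push_cast
      rw [hz m h2]
      ring
    · apply h
      push_cast
      rw [hz a₃ h1]
      ring
  · rintro ⟨h1, h2⟩
    rcases n1.2 with h | h
    · apply h
      push_cast
      rw [hz n h2]
      ring
    · apply h
      push_cast
      rw [hz a₃ h1]
      ring
  · rintro ⟨h1, h2⟩
    have h3 := hz _ h1
    have h4 := hz _ h2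
    push_cast at h3 h4
    rcases n2.2 with h | h
    · apply h
      push_cast
      linear_combination (m : ZMod ℓ) * h4
    · apply h
      push_cast
      linear_combination h3

open Finset in
open scoped Classical in
/-- Every residue class modulo `p` of good reduction contains many marked members. -/
theorem line_card (a b : ℤ) (N p : ℕ) (hp5 : 5 ≤ p) (hp : p.Prime) (hN : 4608 * p ^ 2 ≤ N)
    (v₀ : Fin 4 → ℤ) (hgood : ¬ (p : ℤ) ∣ (lineFamily.curve v₀).Δ) :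
    N ^ 4 ≤ 10368 * p ^ 4 * ((Fintype.piFinset fun l =>
      Finset.Ico ((![a, 1, b, b] : Fin 4 → ℤ) l) ((![a, 1, b, b] : Fin 4 → ℤ) l + N)).filter
      fun v => (∀ l, v l ≡ v₀ l [ZMOD p]) ∧ lineFamily.Marked v).card := by
  set q : ℕ := 6 * p with hq
  have hq0 : 0 < q := by omega
  have hpodd : Odd p := hp.eq_two_or_odd'.resolve_left (by omega)
  have hp3 : ¬ 3 ∣ p := by
    intro h
    have := (Nat.prime_dvd_prime_iff_eq Nat.prime_three hp).1 h
    omega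
  -- `p² ≡ 1` modulo `6`
  have hp6 : (6 : ℤ) ∣ (p : ℤ) ^ 2 - 1 := by
    have h1 : (p : ℤ) % 6 = 1 ∨ (p : ℤ) % 6 = 5 := by
      obtain ⟨j, hj⟩ := hpodd
      omega
    rcases h1 with h | h
    · obtain ⟨j, hj⟩ : ∃ j, (p : ℤ) = 6 * j + 1 := ⟨p / 6, by omega⟩
      rw [hj]
      exact ⟨6 * j ^ 2 + 2 * j, by ring⟩
    · obtain ⟨j, hj⟩ : ∃ j, (p : ℤ) = 6 * j + 5 := ⟨p / 6, by omega⟩
      rw [hj]
      exact ⟨6 * j ^ 2 + 10 * j + 4, by ring⟩
  -- the classes modulo `q`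
  set c : ℤ → ℤ → ℤ := fun x e => x + p ^ 2 * (e - x) with hc
  have hcp : ∀ x e, c x e ≡ x [ZMOD p] := by
    intro x e
    exact Int.modEq_iff_dvd.2 ⟨-(p * (e - x)), by rw [hc]; ring⟩
  have hc6 : ∀ x e, (6 : ℤ) ∣ c x e - e := by
    intro x e
    have e1 : c x e - e = (e - x) * ((p : ℤ) ^ 2 - 1) := by
      rw [hc]
      ring
    rw [e1]
    exact hp6.mul_left _
  have hpq : ∀ {a b : ℤ}, a ≡ b [ZMOD q] → a ≡ b [ZMOD p] := by
    intro a b h
    exact h.of_dvd (Dvd.intro_left _ (by rw [hq]; push_cast; rfl))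
  have h6q : ∀ {z x e : ℤ}, z ≡ c x e [ZMOD q] → (6 : ℤ) ∣ z - e := by
    intro z x e h
    have h1 : (6 : ℤ) ∣ c x e - z := (Dvd.intro _ (by rw [hq]; push_cast; rfl)).trans h.dvd
    have h2 := dvd_sub (hc6 x e) h1
    have e1 : c x e - e - (c x e - z) = z - e := by ring
    rwa [e1] at h2
  have h23 : ¬ c (v₀ 2) 0 ≡ c (v₀ 3) 1 [ZMOD (6 * p : ℕ)] := by
    intro h
    have h1 := h6q h
    have h2 := hc6 (v₀ 2) 0
    omega
  set As : Finset ℤ := (Ico a (a + N)).filter fun z => z ≡ c (v₀ 0) 0 [ZMOD q] with hAs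
  set G : ℤ → Finset ((_ : ℤ) × (ℤ × ℤ)) := fun A =>
    (((Ico b (b + N)).filter fun z => z ≡ c (v₀ 2) 0 [ZMOD (6 * p : ℕ)]).sigma fun _ =>
        ((Ico (1 : ℤ) (1 + N)).filter fun z => z ≡ c (v₀ 1) 1 [ZMOD (6 * p : ℕ)]) ×ˢ
        ((Ico b (b + N)).filter fun z => z ≡ c (v₀ 3) 1 [ZMOD (6 * p : ℕ)])).filter
      fun z : (_ : ℤ) × (ℤ × ℤ) => ∀ ℓ : ℕ, ℓ.Prime → Nat.Coprime (6 * p) ℓ →
        Cond A z.2.1 z.1 z.2.2 ℓ with hG
  set F := (Fintype.piFinset fun l =>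
      Finset.Ico ((![a, 1, b, b] : Fin 4 → ℤ) l) ((![a, 1, b, b] : Fin 4 → ℤ) l + N)).filter
      fun v => (∀ l, v l ≡ v₀ l [ZMOD p]) ∧ lineFamily.Marked v with hF
  have hinj : (As.sigma G).card ≤ F.card := by
    apply card_le_card_of_injOn (fun z : (_ : ℤ) × ((_ : ℤ) × (ℤ × ℤ)) =>
      (![z.1, z.2.2.1, z.2.1, z.2.2.2] : Fin 4 → ℤ))
    · rintro ⟨A, m, x, n⟩ hz
      rw [mem_coe, mem_sigma] at hz
      obtain ⟨hA, hz⟩ := hz
      simp only [hG, mem_filter, mem_sigma, mem_product] at hz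
      simp only [hAs, mem_filter] at hA
      obtain ⟨⟨⟨hm, hm1⟩, ⟨hx, hx1⟩, ⟨hn, hn1⟩⟩, hcond⟩ := hz
      rw [hF, mem_coe, mem_filter, Fintype.mem_piFinset]
      have hcl : ∀ l, (![A, x, m, n] : Fin 4 → ℤ) l ≡ v₀ l [ZMOD p] := by
        intro l
        fin_cases l
        · exact (hpq hA.2).trans (hcp _ _)
        · exact (hpq hx1).trans (hcp _ _)
        · exact (hpq hm1).trans (hcp _ _)
        · exact (hpq hn1).trans (hcp _ _)
      have hDp : ¬ (p : ℤ) ∣ (lineFamily.curve ![A, x, m, n]).Δ := by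
        intro h
        apply hgood
        have : Fact p.Prime := ⟨hp⟩
        rw [← ZMod.intCast_zmod_eq_zero_iff_dvd _ p] at h ⊢
        have h1 : ∀ v : Fin 4 → ℤ, (((lineFamily.curve v).Δ : ℤ) : ZMod p) =
            (red (lineFamily.curve v) (ZMod p)).Δ := fun v => by
          rw [WeierstrassCurve.map_Δ]
          rfl
        rw [h1] at h ⊢
        have h2 : red (lineFamily.curve v₀) (ZMod p) =
            red (lineFamily.curve ![A, x, m, n]) (ZMod p) := by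
          have h3 : ∀ l, ((v₀ l : ℤ) : ZMod p) =
              (((![A, x, m, n] : Fin 4 → ℤ) l : ℤ) : ZMod p) := fun l =>
            ((ZMod.intCast_eq_intCast_iff _ _ p).2 (hcl l)).symm
          have k0 : ((v₀ 0 : ℤ) : ZMod p) = (A : ZMod p) := h3 0
          have k1 : ((v₀ 1 : ℤ) : ZMod p) = (x : ZMod p) := h3 1
          have k2 : ((v₀ 2 : ℤ) : ZMod p) = (m : ZMod p) := h3 2
          have k3 : ((v₀ 3 : ℤ) : ZMod p) = (n : ZMod p) := h3 3
          rw [lineFamily_curve, lineFamily_curve]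
          ext
          · exact k0
          · simp [LineCurve, k2, k3]
          · exact k1
          · simp [LineCurve, k2, k3]
          · simp [LineCurve]
        rw [h2]
        exact h
      refine ⟨?_, hcl, ?_⟩
      · intro l
        fin_cases l
        · exact hA.1
        · exact hx
        · exact hm
        · exact hn
      · apply line_marked
        · intro h0
          apply hDp
          rw [h0]
          exact dvd_zero _
        · rw [mem_Ico] at hx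
          change x ≠ 0
          omega
        · intro ℓ hℓ
          change Cond A x m n ℓ
          by_cases hcop : Nat.Coprime (6 * p) ℓ
          · exact hcond ℓ hℓ hcop
          · have h6 : ℓ ∣ 6 * p := by
              by_contra h
              exact hcop ((Nat.Prime.coprime_iff_not_dvd hℓ).2 h).symm
            rcases (Nat.Prime.dvd_mul hℓ).1 h6 with h | h
            · have hℓ6 : (ℓ : ℤ) ∣ 6 := by exact_mod_cast h
              have k0 : (ℓ : ℤ) ∣ A - 0 := hℓ6.trans (h6q hA.2)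
              have k1 : (ℓ : ℤ) ∣ x - 1 := hℓ6.trans (h6q hx1)
              rw [sub_zero] at k0
              have hn1 : ¬ (ℓ : ℤ) ∣ 1 := fun h =>
                (Nat.prime_iff_prime_int.1 hℓ).not_isUnit (isUnit_of_dvd_one h)
              have hx2 : ¬ (ℓ : ℤ) ∣ x := by
                intro h
                apply hn1
                have := dvd_sub h k1
                rwa [sub_sub_cancel] at this
              refine ⟨fun h => hx2 h.1, fun h => hx2 h.1, fun h => hx2 ?_⟩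
              have := dvd_sub h.1 (k0.mul_right m)
              rwa [add_sub_cancel_right] at this
            · have hℓp := (Nat.prime_dvd_prime_iff_eq hℓ hp).1 h
              subst hℓp
              apply cond_good hℓ
              rw [lineFamily_curve] at hDp
              exact hDp
    · rintro ⟨A, m, x, n⟩ _ ⟨A', m', x', n'⟩ _ h
      have k0 : A = A' := congrFun h 0
      have k1 : x = x' := congrFun h 1
      have k2 : m = m' := congrFun h 2
      have k3 : n = n' := congrFun h 3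
      subst k0 k1 k2 k3
      rfl
  rw [card_sigma] at hinj
  have hfib : ∀ A ∈ As, (N : ℚ) ^ 3 / (4 * (6 * p) ^ 3) ≤ (G A).card := fun A _ =>
    line_fibre A b N p hp5 hp hN (c (v₀ 1) 1) (c (v₀ 2) 0) (c (v₀ 3) 1) h23
  have h1 : (As.card : ℚ) * ((N : ℚ) ^ 3 / (4 * (6 * p) ^ 3)) ≤ F.card := by
    calc (As.card : ℚ) * ((N : ℚ) ^ 3 / (4 * (6 * p) ^ 3)) =
          ∑ A ∈ As, (N : ℚ) ^ 3 / (4 * (6 * p) ^ 3) := by
          rw [sum_const, nsmul_eq_mul]
      _ ≤ ∑ A ∈ As, ((G A).card : ℚ) := sum_le_sum hfib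
      _ ≤ F.card := by exact_mod_cast hinj
  have h2 : (N : ℚ) / (12 * p) ≤ As.card := by
    have h3 := class_card_ge a N q hq0 (c (v₀ 0) 0)
    have h4 : (2 : ℚ) ≤ N / q := by
      rw [le_div_iff₀ (by exact_mod_cast hq0)]
      have : 2 * q ≤ N := by
        rw [hq]
        nlinarith
      exact_mod_cast this
    have h5 : (N : ℚ) / (12 * p) = (N : ℚ) / q / 2 := by
      rw [hq]
      push_cast
      rw [div_div]
      congr 1
      ring
    rw [h5]
    linarith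
  have hpQ : (0 : ℚ) < p := by exact_mod_cast hp.pos
  have h3 : (N : ℚ) / (12 * p) * ((N : ℚ) ^ 3 / (4 * (6 * p) ^ 3)) ≤ F.card :=
    (mul_le_mul_of_nonneg_right h2 (by positivity)).trans h1
  have h4 : (N : ℚ) / (12 * p) * ((N : ℚ) ^ 3 / (4 * (6 * p) ^ 3)) =
      (N : ℚ) ^ 4 / (10368 * p ^ 4) := by
    field_simp
    ring
  rw [h4, div_le_iff₀ (by positivity)] at h3
  have h5 : (N : ℚ) ^ 4 ≤ 10368 * p ^ 4 * F.card := by linarith
  exact_mod_cast h5

end Pool.Agent.Y732
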