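import Pool.Agent.Y732.Val

/-!
# Two marked points of vanishing height which are multiples of each other modulo `p ^ k`
-/

set_option autoImplicit false

namespace Pool.Agent.Y732

open WeierstrassCurve

variable {p : ℕ} [hp : Fact p.Prime]

lemma toZMod_eq_of_dvd {x y : ℤ_[p]} (h : (p : ℤ_[p]) ∣ x - y) :
    PadicInt.toZMod x = PadicInt.toZMod y := by
  rw [← sub_eq_zero, ← map_sub, ← RingHom.mem_ker, PadicInt.ker_toZMod,
    PadicInt.maximalIdeal_eq_span_p, Ideal.mem_span_singleton]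
  exact h

lemma int_dvd_padic {k : ℕ} {z : ℤ} (h : (p : ℤ) ^ k ∣ z) : (p : ℤ_[p]) ^ k ∣ (z : ℤ_[p]) :=
  (PadicInt.pow_p_dvd_int_iff k z).2 h

/-- the comparison in `ℤ_p` -/
theorem compare_padic (hp3 : 3 ≤ p) {k : ℕ} (hk : 1 ≤ k) {A B x y A' B' x' y' : ℤ}
    {μ : ℤ_[p]} (hμ : (p : ℤ_[p]) ∣ μ - 1)
    (hA : (p : ℤ_[p]) ^ k ∣ A' - μ ^ 4 * A) (hB : (p : ℤ_[p]) ^ k ∣ B' - μ ^ 6 * B)
    (hx : (p : ℤ_[p]) ^ k ∣ x' - μ ^ 2 * x) (hy : (p : ℤ_[p]) ^ k ∣ y' - μ ^ 3 * y)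
    (hH : hasse p (A : ZMod p) (B : ZMod p) ≠ 0)
    {m : ℕ} {s s' : PowerSeries ℤ_[p]} (d : Dat (A : ℤ_[p]) (B : ℤ_[p]) s)
    (d' : Dat (A' : ℤ_[p]) (B' : ℤ_[p]) s') {t t' : ℤ_[p]} (ht : (p : ℤ_[p]) ∣ t)
    (ht' : (p : ℤ_[p]) ∣ t')
    (hb : ¬ (p : ℤ) ∣ M A B x y m 1) (hb' : ¬ (p : ℤ) ∣ M A' B' x' y' m 1)
    (h1 : (M A B x y m 1 : ℤ) * t = -((M A B x y m 0 : ℤ) * (M A B x y m 2 : ℤ)))
    (h1' : (M A' B' x' y' m 1 : ℤ) * t' =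
      -((M A' B' x' y' m 0 : ℤ) * (M A' B' x' y' m 2 : ℤ)))
    (h2 : ((M A B x y m 0 : ℤ) * ev t s) ^ (p - 1) = ((M A B x y m 1 : ℤ) : ℤ_[p]) ^ (p - 1))
    (h2' : ((M A' B' x' y' m 0 : ℤ) * ev t' s') ^ (p - 1) =
      ((M A' B' x' y' m 1 : ℤ) : ℤ_[p]) ^ (p - 1)) :
    (p : ℤ_[p]) ^ k ∣ μ ^ (m ^ 2 * (p - 1)) - 1 := by
  set φ : ℤ_[p] →+* ZMod (p ^ k) := PadicInt.toZModPow k with hφ
  have hz : ∀ z : ℤ_[p], (p : ℤ_[p]) ^ k ∣ z ↔ φ z = 0 := fun z =>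
    (toZModPow_eq_zero_iff k z).symm
  have hμU : IsUnit μ := by
    rw [PadicInt.isUnit_iff]
    by_contra h3
    have h4 : (p : ℤ_[p]) ∣ μ := by
      rw [← PadicInt.norm_lt_one_iff_dvd]
      exact lt_of_le_of_ne (PadicInt.norm_le_one _) h3
    have h5 := dvd_sub h4 hμ
    rw [sub_sub_cancel] at h5
    exact PadicInt.prime_p.not_isUnit (isUnit_of_dvd_one h5)
  set w : ZMod (p ^ k) := φ μ with hw
  have hwU : IsUnit w := hμU.map φ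
  have hA2 : (A' : ZMod (p ^ k)) = w ^ 4 * A := by
    rw [hz, map_sub, map_mul, map_pow, map_intCast, map_intCast] at hA
    exact sub_eq_zero.1 hA
  have hB2 : (B' : ZMod (p ^ k)) = w ^ 6 * B := by
    rw [hz, map_sub, map_mul, map_pow, map_intCast, map_intCast] at hB
    exact sub_eq_zero.1 hB
  have hx2 : (x' : ZMod (p ^ k)) = w ^ 2 * x := by
    rw [hz, map_sub, map_mul, map_pow, map_intCast, map_intCast] at hx
    exact sub_eq_zero.1 hx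
  have hy2 : (y' : ZMod (p ^ k)) = w ^ 3 * y := by
    rw [hz, map_sub, map_mul, map_pow, map_intCast, map_intCast] at hy
    exact sub_eq_zero.1 hy
  obtain ⟨j0, j1, j2⟩ : (M (A' : ZMod (p ^ k)) B' x' y' m 0 =
        (w ^ (m ^ 2)) ^ 2 * M (A : ZMod (p ^ k)) B x y m 0 ∧
      M (A' : ZMod (p ^ k)) B' x' y' m 1 = (w ^ (m ^ 2)) ^ 3 * M (A : ZMod (p ^ k)) B x y m 1 ∧
      w * M (A' : ZMod (p ^ k)) B' x' y' m 2 = w ^ (m ^ 2) * M (A : ZMod (p ^ k)) B x y m 2) := by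
    rw [hA2, hB2, hx2, hy2]
    exact J_scale _ _ _ _ _ hwU m
  rw [M_cast, M_cast] at j0 j1 j2
  set c : ZMod (p ^ k) := w ^ (m ^ 2) with hc
  have hcU : IsUnit c := hwU.pow _
  set a := M A B x y m 0
  set b := M A B x y m 1
  set e := M A B x y m 2
  set a' := M A' B' x' y' m 0
  set b' := M A' B' x' y' m 1
  set e' := M A' B' x' y' m 2
  have hbU : IsUnit (b : ZMod (p ^ k)) := by
    have := (not_dvd_unit (p := p) hb).map φ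
    rwa [map_intCast] at this
  have hbU' : IsUnit (b' : ZMod (p ^ k)) := by
    have := (not_dvd_unit (p := p) hb').map φ
    rwa [map_intCast] at this
  -- the parameters
  have g1 := congrArg φ h1
  have g1' := congrArg φ h1'
  rw [map_mul, map_neg, map_mul, map_intCast, map_intCast, map_intCast] at g1 g1'
  have htt : (p : ℤ_[p]) ^ k ∣ μ * t' - t := by
    rw [hz, map_sub, map_mul, ← hw]
    have h3 : (b : ZMod (p ^ k)) * b' * (w * φ t' - φ t) = 0 := by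
      linear_combination (w * b) * g1' - b' * g1 - (b * a' : ZMod (p ^ k)) * j2 -
        (b * c * e : ZMod (p ^ k)) * j0 + (a * e : ZMod (p ^ k)) * j1
    exact (hbU.mul hbU').mul_left_cancel (by rw [h3, mul_zero])
  have hev : (p : ℤ_[p]) ^ k ∣ ev t' s' - ev t s := by
    refine Dat.ev_scale (by omega) k ?_ hA hB ?_ d d' ht ht' htt
    · rw [toZMod_eq_of_dvd hμ, map_one]
    · rw [map_intCast, map_intCast]
      exact hH
  rw [hz, map_sub] at hev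
  have hev' := sub_eq_zero.1 hev
  have g2 := congrArg φ h2
  have g2' := congrArg φ h2'
  rw [map_pow, map_mul, map_pow, map_intCast, map_intCast] at g2 g2'
  rw [hev', j0, j1] at g2'
  rw [hz, map_sub, map_pow, map_one, ← hw, pow_mul, ← hc, sub_eq_zero]
  have h5 : (c ^ 2 * (a : ZMod (p ^ k)) * φ (ev t s)) ^ (p - 1) =
      (c ^ 2) ^ (p - 1) * (b : ZMod (p ^ k)) ^ (p - 1) := by
    rw [mul_assoc, mul_pow, g2]
  rw [h5, mul_pow] at g2'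
  have h6 : IsUnit ((c ^ 2) ^ (p - 1) * (b : ZMod (p ^ k)) ^ (p - 1)) :=
    ((hcU.pow 2).pow _).mul (hbU.pow _)
  apply h6.mul_left_cancel
  rw [mul_one]
  linear_combination -g2'

/-- the main comparison -/
theorem compare_int (hp3 : 3 ≤ p) {k : ℕ} (hk : 1 ≤ k) {A B x y A' B' x' y' : ℤ}
    {μ₁ μ₂ : ℤ} (hμ₁ : (p : ℤ) ∣ μ₁ - 1) (hμ₂ : (p : ℤ) ∣ μ₂ - 1)
    (hA : (p : ℤ) ^ k ∣ μ₁ ^ 4 * A - μ₂ ^ 4 * A')
    (hx : (p : ℤ) ^ k ∣ μ₁ ^ 2 * x - μ₂ ^ 2 * x')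
    (hy : (p : ℤ) ^ k ∣ μ₁ ^ 3 * y - μ₂ ^ 3 * y')
    (hB : y ^ 2 = x ^ 3 + A * x + B) (hB' : y' ^ 2 = x' ^ 3 + A' * x' + B')
    (hD : 4 * A ^ 3 + 27 * B ^ 2 ≠ 0) (hD' : 4 * A' ^ 3 + 27 * B' ^ 2 ≠ 0)
    (hN : NS A x y) (hN' : NS A' x' y') (hy0 : y ≠ 0) (hy0' : y' ≠ 0)
    (hH : hasse p (A : ZMod p) (B : ZMod p) ≠ 0)
    (hP : (EQ A B).Nonsingular (x : ℚ) (y : ℚ)) (hP' : (EQ A' B').Nonsingular (x' : ℚ) (y' : ℚ))
    {h : (EQ A B).Point → ℚ_[p]} (hh : IsHeight p A B h) (h0 : h (.some _ _ hP) = 0)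
    {h' : (EQ A' B').Point → ℚ_[p]} (hh' : IsHeight p A' B' h') (h0' : h' (.some _ _ hP') = 0)
    {m : ℕ} (hm1 : 1 ≤ m) (hm : (p : ℤ) ∣ M A B x y m 2) :
    (p : ℤ) ^ k ∣ μ₁ ^ (m ^ 2 * (p - 1)) - μ₂ ^ (m ^ 2 * (p - 1)) := by
  have hBB : (p : ℤ) ^ k ∣ μ₁ ^ 6 * B - μ₂ ^ 6 * B' := by
    have e : μ₁ ^ 6 * B - μ₂ ^ 6 * B' = (μ₁ ^ 3 * y - μ₂ ^ 3 * y') * (μ₁ ^ 3 * y + μ₂ ^ 3 * y') -
        (μ₁ ^ 2 * x - μ₂ ^ 2 * x') * ((μ₁ ^ 2 * x) ^ 2 + (μ₁ ^ 2 * x) * (μ₂ ^ 2 * x') +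
          (μ₂ ^ 2 * x') ^ 2) - (μ₁ ^ 4 * A - μ₂ ^ 4 * A') * (μ₁ ^ 2 * x) -
        (μ₂ ^ 4 * A') * (μ₁ ^ 2 * x - μ₂ ^ 2 * x') := by
      linear_combination μ₂ ^ 6 * hB' - μ₁ ^ 6 * hB
    rw [e]
    exact dvd_sub (dvd_sub (dvd_sub (hy.mul_right _) (hx.mul_right _)) (hA.mul_right _))
      (hx.mul_left _)
  have hnd : ∀ μ : ℤ, (p : ℤ) ∣ μ - 1 → ¬ (p : ℤ) ∣ μ := by
    intro μ h1 h2
    have h3 := dvd_sub h2 h1
    rw [sub_sub_cancel] at h3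
    exact (Nat.prime_iff_prime_int.1 hp.out).not_isUnit (isUnit_of_dvd_one h3)
  have hU₂ : IsUnit (μ₂ : ℤ_[p]) := not_dvd_unit (hnd μ₂ hμ₂)
  obtain ⟨r, hr⟩ := hU₂.exists_right_inv
  have hrU : IsUnit r := IsUnit.of_mul_eq_one (μ₂ : ℤ_[p]) (by rw [mul_comm]; exact hr)
  set μ : ℤ_[p] := μ₁ * r with hμ
  have hpp : ∀ {z : ℤ}, (p : ℤ) ∣ z → (p : ℤ_[p]) ∣ (z : ℤ_[p]) := by
    intro z hz
    have := int_dvd_padic (p := p) (k := 1) (z := z) (by rwa [pow_one])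
    rwa [pow_one] at this
  have hμ1 : (p : ℤ_[p]) ∣ μ - 1 := by
    have h1 : μ - 1 = ((μ₁ - 1 : ℤ) : ℤ_[p]) * r - ((μ₂ - 1 : ℤ) : ℤ_[p]) * r := by
      rw [hμ]
      push_cast
      linear_combination hr
    rw [h1]
    exact dvd_sub ((hpp hμ₁).mul_right _) ((hpp hμ₂).mul_right _)
  have hconv : ∀ (j : ℕ) (Z Z' : ℤ), (p : ℤ) ^ k ∣ μ₁ ^ j * Z - μ₂ ^ j * Z' →
      (p : ℤ_[p]) ^ k ∣ Z' - μ ^ j * Z := by
    intro j Z Z' h1
    have h2 := int_dvd_padic h1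
    have h3 : ((Z' : ℤ_[p]) - μ ^ j * Z) = -(r ^ j * ((μ₁ ^ j * Z - μ₂ ^ j * Z' : ℤ) : ℤ_[p])) := by
      have h4 : (μ₂ : ℤ_[p]) ^ j * r ^ j = 1 := by rw [← mul_pow, hr, one_pow]
      rw [hμ]
      push_cast
      linear_combination (-(Z' : ℤ_[p])) * h4
    rw [h3]
    exact (h2.mul_left _).neg_right
  -- the multiple of the second point
  have hred : ∀ (j : ℕ) (Z Z' : ℤ), (p : ℤ) ^ k ∣ μ₁ ^ j * Z - μ₂ ^ j * Z' →
      (Z' : ZMod p) = (Z : ZMod p) := by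
    intro j Z Z' h1
    have h2 : (p : ℤ) ∣ μ₁ ^ j * Z - μ₂ ^ j * Z' := (dvd_pow_self _ (by omega)).trans h1
    rw [← ZMod.intCast_zmod_eq_zero_iff_dvd _ p] at h2 hμ₁ hμ₂
    push_cast at h2 hμ₁ hμ₂
    rw [sub_eq_zero.1 hμ₁, sub_eq_zero.1 hμ₂, one_pow, one_mul, one_mul] at h2
    exact (sub_eq_zero.1 h2).symm
  have hm' : (p : ℤ) ∣ M A' B' x' y' m 2 := by
    rw [← ZMod.intCast_zmod_eq_zero_iff_dvd _ p, ← M_cast] at hm ⊢
    rw [hred 4 A A' hA, hred 6 B B' hBB, hred 2 x x' hx, hred 3 y y' hy]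
    exact hm
  obtain ⟨s, d, t, ht, ht1, ht2⟩ := value hp3 hB hD hN hy0 hP hh h0 hm1 hm
  obtain ⟨s', d', t', ht', ht1', ht2'⟩ := value hp3 hB' hD' hN' hy0' hP' hh' h0' hm1 hm'
  have key := compare_padic hp3 hk hμ1 (hconv 4 _ _ hA) (hconv 6 _ _ hBB) (hconv 2 _ _ hx)
    (hconv 3 _ _ hy) hH d d' ht ht' (units hB hD hN hm).2 (units hB' hD' hN' hm').2 ht1 ht1'
    ht2 ht2'
  rw [← PadicInt.pow_p_dvd_int_iff]
  set L := m ^ 2 * (p - 1)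
  have h7 : ((μ₁ ^ L - μ₂ ^ L : ℤ) : ℤ_[p]) = (μ₂ : ℤ_[p]) ^ L * (μ ^ L - 1) := by
    have h4 : (μ₂ : ℤ_[p]) ^ L * r ^ L = 1 := by rw [← mul_pow, hr, one_pow]
    rw [hμ, mul_pow]
    push_cast
    linear_combination (-(μ₁ : ℤ_[p]) ^ L) * h4
  rw [h7]
  exact key.mul_left _

/-- a multiple of small index of the marked point reduces to the origin -/
theorem exists_mult {A B x y : ℤ} (hp2 : p ≠ 2) (hB : y ^ 2 = x ^ 3 + A * x + B)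
    (hN : NS A x y) (hp' : ¬ (p : ℤ) ∣ 4 * A ^ 3 + 27 * B ^ 2) :
    ∃ m : ℕ, 1 ≤ m ∧ m ≤ 2 * p + 1 ∧ (p : ℤ) ∣ M A B x y m 2 := by
  have hns := hN.mod hB p
  have hD : 4 * (A : ZMod p) ^ 3 + 27 * (B : ZMod p) ^ 2 ≠ 0 := by
    intro h
    apply hp'
    rw [← ZMod.intCast_zmod_eq_zero_iff_dvd _ p]
    push_cast
    exact h
  have hcard := card_point_le hp2 hD
  have hfin0 : Finite (WithZero {xy : ZMod p × ZMod p //
      (Wc (A : ZMod p) (B : ZMod p)).toAffine.Nonsingular xy.fst xy.snd}) :=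
    inferInstanceAs (Finite (Option {xy : ZMod p × ZMod p //
      (Wc (A : ZMod p) (B : ZMod p)).toAffine.Nonsingular xy.fst xy.snd}))
  have hfin : Finite (Wc (A : ZMod p) (B : ZMod p)).toAffine.Point :=
    Finite.of_equiv _ (WeierstrassCurve.Affine.nonsingularPointEquiv _).symm
  refine ⟨addOrderOf (Affine.Point.some _ _ hns), addOrderOf_pos _, ?_, ?_⟩
  · exact (Nat.le_of_dvd Nat.card_pos (addOrderOf_dvd_natCard _)).trans hcard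
  · have h1 := addOrderOf_nsmul_eq_zero (Affine.Point.some _ _ hns)
    rw [← ZMod.intCast_zmod_eq_zero_iff_dvd _ p, ← M_cast]
    exact (M_zero_iff hns _).1 h1

/-- the arithmetic of the multipliers -/
theorem mult_arith (hp3 : 3 ≤ p) {k m : ℕ} (hm1 : 1 ≤ m) (hm2 : m ≤ 2 * p + 1)
    {μ₁ μ₂ : ℤ} (hμ₁ : (p : ℤ) ∣ μ₁ - 1) (hμ₂ : (p : ℤ) ∣ μ₂ - 1)
    (h : (p : ℤ) ^ k ∣ μ₁ ^ (m ^ 2 * (p - 1)) - μ₂ ^ (m ^ 2 * (p - 1))) :
    (p : ℤ) ^ (k - 2) ∣ μ₁ - μ₂ := by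
  have hodd : Odd p := by
    rcases hp.out.eq_two_or_odd' with h | h
    · omega
    · exact h
  have h12 : (p : ℤ) ∣ μ₁ - μ₂ := by
    have := dvd_sub hμ₁ hμ₂
    rwa [sub_sub_sub_cancel_right] at this
  have hnd : ¬ (p : ℤ) ∣ μ₁ := by
    intro h2
    have h3 := dvd_sub h2 hμ₁
    rw [sub_sub_cancel] at h3
    exact (Nat.prime_iff_prime_int.1 hp.out).not_isUnit (isUnit_of_dvd_one h3)
  have h1 := Int.emultiplicity_pow_sub_pow hp.out hodd h12 hnd (m ^ 2 * (p - 1))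
  have h2 : emultiplicity p (m ^ 2 * (p - 1)) < (3 : ℕ) := by
    rw [emultiplicity_lt_iff_not_dvd]
    intro h3
    have h4 : Nat.Coprime (p ^ 3) (p - 1) := by
      apply Nat.Coprime.pow_left
      rw [hp.out.coprime_iff_not_dvd]
      intro h5
      have := Nat.le_of_dvd (by omega) h5
      omega
    have h5 : p ^ 3 ∣ m ^ 2 := h4.dvd_of_dvd_mul_right h3
    have h6 : p ∣ m := hp.out.dvd_of_dvd_pow ((dvd_pow_self p (by norm_num)).trans h5)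
    obtain ⟨m', rfl⟩ := h6
    have h7 : p ^ 2 * p ∣ p ^ 2 * m' ^ 2 := by
      have e1 : p ^ 2 * p = p ^ 3 := by ring
      have e2 : p ^ 2 * m' ^ 2 = (p * m') ^ 2 := by ring
      rw [e1, e2]
      exact h5
    have h8 : p ∣ m' ^ 2 := Nat.dvd_of_mul_dvd_mul_left (by positivity) h7
    have h9 : p ∣ m' := hp.out.dvd_of_dvd_pow h8
    obtain ⟨m'', rfl⟩ := h9
    have h10 : 1 ≤ m'' := by
      rcases Nat.eq_zero_or_pos m'' with h | h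
      · rw [h] at hm1
        simp at hm1
      · exact h
    have h11 : p * (p * 1) ≤ p * (p * m'') := by gcongr
    nlinarith
  have h3 : (k : ℕ∞) ≤ emultiplicity (p : ℤ) (μ₁ - μ₂) + emultiplicity p (m ^ 2 * (p - 1)) := by
    rw [← h1]
    exact pow_dvd_iff_le_emultiplicity.1 h
  rw [pow_dvd_iff_le_emultiplicity]
  have h4 : emultiplicity p (m ^ 2 * (p - 1)) ≤ (2 : ℕ) := by
    have h5 : ((3 : ℕ) : ℕ∞) = ((2 : ℕ) : ℕ∞) + 1 := by norm_num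
    rw [h5] at h2
    exact ENat.lt_add_one_iff (ENat.coe_ne_top 2) |>.1 h2
  generalize emultiplicity (p : ℤ) (μ₁ - μ₂) = E at h3 ⊢
  generalize emultiplicity p (m ^ 2 * (p - 1)) = G at h3 h4
  cases E with
  | top => exact le_top
  | coe E =>
    cases G with
    | top =>
      exact absurd h4 (by simp)
    | coe G =>
      norm_cast at h3 h4 ⊢
      omega

end Pool.Agent.Y732
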