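import Mathlib

/-!
# Counting sets of triples on which the multipliers are nearly determined
-/

set_option autoImplicit false

namespace Pool.Agent.Y732

open Finset

lemma block_eq {P : ℤ} {u u' : ℤ} (hu : 0 ≤ u / P) (hu' : 0 ≤ u' / P)
    (h : (u / P).toNat = (u' / P).toNat) (hd : P ∣ u - u') : u = u' := by
  have h1 : u / P = u' / P := by
    have h2 := Int.toNat_of_nonneg hu
    have h3 := Int.toNat_of_nonneg hu'
    rw [← h2, ← h3, h]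
  have h4 : u % P = u' % P := Int.emod_eq_emod_iff_emod_sub_eq_zero.2 (Int.emod_eq_zero_of_dvd hd)
  have h5 := Int.mul_ediv_add_emod u P
  have h6 := Int.mul_ediv_add_emod u' P
  rw [h1, h4] at h5
  rw [← h5, h6]

lemma block_range {P N : ℕ} (hP : 0 < P) {a u : ℤ} (h1 : a ≤ u) (h2 : u < a + N) :
    0 ≤ (u - a) / (P : ℤ) ∧ ((u - a) / (P : ℤ)).toNat ∈ range (N / P + 1) := by
  have h3 : 0 ≤ (u - a) / (P : ℤ) := Int.ediv_nonneg (by omega) (by omega)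
  refine ⟨h3, ?_⟩
  rw [mem_range]
  have h4 : (u - a) / (P : ℤ) ≤ (N : ℤ) / (P : ℤ) := Int.ediv_le_ediv (by omega) (by omega)
  have h5 : ((N : ℤ) / (P : ℤ)) = ((N / P : ℕ) : ℤ) := by push_cast; rfl
  rw [h5] at h4
  omega

/-- the counting lemma -/
theorem count {p k N₁ N₂ N₃ : ℕ} (hp : p.Prime) (hk : 1 ≤ k) {a₁ a₂ a₃ : ℤ}
    (Z : Finset (ℤ × ℤ × ℤ))
    (hZ : ∀ v ∈ Z, (a₁ ≤ v.1 ∧ v.1 < a₁ + N₁) ∧ (a₂ ≤ v.2.1 ∧ v.2.1 < a₂ + N₂) ∧
      (a₃ ≤ v.2.2 ∧ v.2.2 < a₃ + N₃))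
    (h₁ : p ^ k ≤ N₁) (h₂ : p ^ k ≤ N₂) (h₃ : p ^ k ≤ N₃)
    (H : ∀ v ∈ Z, ∀ v' ∈ Z, ∀ μ μ' : ℤ, (p : ℤ) ∣ μ - 1 → (p : ℤ) ∣ μ' - 1 →
      (p : ℤ) ^ k ∣ μ ^ 4 * v.1 - μ' ^ 4 * v'.1 → (p : ℤ) ^ k ∣ μ ^ 2 * v.2.1 - μ' ^ 2 * v'.2.1 →
      (p : ℤ) ^ k ∣ μ ^ 3 * v.2.2 - μ' ^ 3 * v'.2.2 → (p : ℤ) ^ (k - 2) ∣ μ - μ') :
    Z.card * p ^ (k - 1) ≤ 8 * N₁ * N₂ * N₃ * p ^ 2 := by
  have hp0 := hp.pos
  have hPk : 0 < p ^ k := pow_pos hp0 k
  have : NeZero (p ^ k) := ⟨hPk.ne'⟩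
  set f : (ℤ × ℤ × ℤ) × ℕ → ZMod (p ^ k) × ZMod (p ^ k) × ZMod (p ^ k) × ℕ × ℕ × ℕ × ℕ := fun z =>
    (((((1 + p * z.2 : ℕ) : ℤ) ^ 4 * z.1.1 : ℤ) : ZMod (p ^ k)),
     ((((1 + p * z.2 : ℕ) : ℤ) ^ 2 * z.1.2.1 : ℤ) : ZMod (p ^ k)),
     ((((1 + p * z.2 : ℕ) : ℤ) ^ 3 * z.1.2.2 : ℤ) : ZMod (p ^ k)),
     ((z.1.1 - a₁) / ((p ^ k : ℕ) : ℤ)).toNat, ((z.1.2.1 - a₂) / ((p ^ k : ℕ) : ℤ)).toNat,
     ((z.1.2.2 - a₃) / ((p ^ k : ℕ) : ℤ)).toNat, z.2 / p ^ (k - 3)) with hf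
  set T : Finset (ZMod (p ^ k) × ZMod (p ^ k) × ZMod (p ^ k) × ℕ × ℕ × ℕ × ℕ) :=
    univ ×ˢ univ ×ˢ univ ×ˢ range (N₁ / p ^ k + 1) ×ˢ range (N₂ / p ^ k + 1) ×ˢ
      range (N₃ / p ^ k + 1) ×ˢ range (p ^ 2) with hT
  have hcard : (Z ×ˢ range (p ^ (k - 1))).card ≤ T.card := by
    apply card_le_card_of_injOn f
    · rintro ⟨v, j⟩ hv
      rw [mem_coe, mem_product] at hv
      obtain ⟨hv, hj⟩ := hv
      rw [mem_range] at hj
      obtain ⟨b1, b2, b3⟩ := hZ v hv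
      rw [mem_coe, hT]
      simp only [mem_product, mem_univ, true_and, hf]
      refine ⟨(block_range hPk b1.1 b1.2).2, (block_range hPk b2.1 b2.2).2,
        (block_range hPk b3.1 b3.2).2, ?_⟩
      rw [mem_range, Nat.div_lt_iff_lt_mul (pow_pos hp0 _), ← pow_add]
      exact lt_of_lt_of_le hj (Nat.pow_le_pow_right hp0 (by omega))
    · rintro ⟨v, j⟩ hv ⟨v', j'⟩ hv' heq
      rw [mem_coe, mem_product] at hv hv'
      obtain ⟨hv, hj⟩ := hv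
      obtain ⟨hv', hj'⟩ := hv'
      simp only [hf, Prod.mk.injEq] at heq
      obtain ⟨e1, e2, e3, e4, e5, e6, e7⟩ := heq
      simp only at hv hv'
      set μ : ℤ := ((1 + p * j : ℕ) : ℤ) with hμ
      set μ' : ℤ := ((1 + p * j' : ℕ) : ℤ) with hμ'
      have hc : ∀ a b : ℤ, (a : ZMod (p ^ k)) = b → (p : ℤ) ^ k ∣ a - b := by
        intro a b hab
        have h1 : ((a - b : ℤ) : ZMod (p ^ k)) = 0 := by
          push_cast
          rw [hab, sub_self]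
        have h2 := (ZMod.intCast_zmod_eq_zero_iff_dvd (a - b) (p ^ k)).1 h1
        exact_mod_cast h2
      have d1 := hc _ _ e1
      have d2 := hc _ _ e2
      have d3 := hc _ _ e3
      have m1 : (p : ℤ) ∣ μ - 1 := ⟨j, by rw [hμ]; push_cast; ring⟩
      have m2 : (p : ℤ) ∣ μ' - 1 := ⟨j', by rw [hμ']; push_cast; ring⟩
      have h0 := H v hv v' hv' μ μ' m1 m2 d1 d2 d3
      have hjj : j = j' := by
        rcases Nat.lt_or_ge k 3 with h3 | h3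
        · rw [Nat.sub_eq_zero_of_le h3.le, pow_zero, Nat.div_one, Nat.div_one] at e7
          exact e7
        · have h4 : (p : ℤ) * ((p ^ (k - 3) : ℕ) : ℤ) ∣ (p : ℤ) * ((j : ℤ) - j') := by
            have e8 : (p : ℤ) * ((p ^ (k - 3) : ℕ) : ℤ) = (p : ℤ) ^ (k - 2) := by
              push_cast
              rw [← pow_succ']
              congr 1
              omega
            have e9 : (p : ℤ) * ((j : ℤ) - j') = μ - μ' := by
              rw [hμ, hμ']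
              push_cast
              ring
            rw [e8, e9]
            exact h0
          have h5 : ((p ^ (k - 3) : ℕ) : ℤ) ∣ (j : ℤ) - j' :=
            (mul_dvd_mul_iff_left (by exact_mod_cast hp0.ne')).1 h4
          have h6 : (j : ℤ) = j' := by
            apply block_eq (P := ((p ^ (k - 3) : ℕ) : ℤ)) _ _ _ h5
            · exact Int.ediv_nonneg (by omega) (by omega)
            · exact Int.ediv_nonneg (by omega) (by omega)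
            · rw [← Int.natCast_div, ← Int.natCast_div, e7]
          exact_mod_cast h6
      have hμμ : μ = μ' := by rw [hμ, hμ', hjj]
      rw [← hμμ] at d1 d2 d3
      have hcop : IsCoprime ((p : ℤ) ^ k) μ := by
        apply IsCoprime.pow_left
        exact ⟨-j, 1, by rw [hμ]; push_cast; ring⟩
      have hd : ∀ (i : ℕ) (a b c : ℤ), (p : ℤ) ^ k ∣ μ ^ i * a - μ ^ i * b →
          ((p ^ k : ℕ) : ℤ) ∣ (a - c) - (b - c) := by
        intro i a b c h1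
        rw [← mul_sub] at h1
        have h2 := (hcop.pow_right (n := i)).dvd_of_dvd_mul_left h1
        rw [sub_sub_sub_cancel_right]
        exact_mod_cast h2
      obtain ⟨b1, b2, b3⟩ := hZ v hv
      obtain ⟨b1', b2', b3'⟩ := hZ v' hv'
      have q1 := block_eq (block_range hPk b1.1 b1.2).1 (block_range hPk b1'.1 b1'.2).1 e4
        (hd 4 _ _ a₁ d1)
      have q2 := block_eq (block_range hPk b2.1 b2.2).1 (block_range hPk b2'.1 b2'.2).1 e5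
        (hd 2 _ _ a₂ d2)
      have q3 := block_eq (block_range hPk b3.1 b3.2).1 (block_range hPk b3'.1 b3'.2).1 e6
        (hd 3 _ _ a₃ d3)
      have r1 : v.1 = v'.1 := by omega
      have r2 : v.2.1 = v'.2.1 := by omega
      have r3 : v.2.2 = v'.2.2 := by omega
      exact Prod.ext (Prod.ext r1 (Prod.ext r2 r3)) hjj
  rw [card_product, card_range] at hcard
  have hTc : T.card = (p ^ k) * ((p ^ k) * ((p ^ k) * ((N₁ / p ^ k + 1) * ((N₂ / p ^ k + 1) *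
      ((N₃ / p ^ k + 1) * p ^ 2))))) := by
    rw [hT]
    simp only [card_product, card_univ, card_range, ZMod.card]
  rw [hTc] at hcard
  have hN : ∀ N : ℕ, p ^ k ≤ N → (p ^ k) * (N / p ^ k + 1) ≤ 2 * N := by
    intro N hN
    have := Nat.mul_div_le N (p ^ k)
    rw [mul_add, mul_one]
    omega
  calc Z.card * p ^ (k - 1) ≤ _ := hcard
    _ = ((p ^ k) * (N₁ / p ^ k + 1)) * ((p ^ k) * (N₂ / p ^ k + 1)) *
        ((p ^ k) * (N₃ / p ^ k + 1)) * p ^ 2 := by ring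
    _ ≤ (2 * N₁) * (2 * N₂) * (2 * N₃) * p ^ 2 :=
        Nat.mul_le_mul_right _ (Nat.mul_le_mul (Nat.mul_le_mul (hN N₁ h₁) (hN N₂ h₂)) (hN N₃ h₃))
    _ = 8 * N₁ * N₂ * N₃ * p ^ 2 := by ring

/-- the counting lemma with the optimal choice of the exponent -/
theorem count' {p N N₁ N₂ N₃ : ℕ} (hp : p.Prime) {a₁ a₂ a₃ : ℤ}
    (Z : Finset (ℤ × ℤ × ℤ))
    (hZ : ∀ v ∈ Z, (a₁ ≤ v.1 ∧ v.1 < a₁ + N₁) ∧ (a₂ ≤ v.2.1 ∧ v.2.1 < a₂ + N₂) ∧
      (a₃ ≤ v.2.2 ∧ v.2.2 < a₃ + N₃))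
    (h₁ : N ≤ N₁) (h₂ : N ≤ N₂) (h₃ : N ≤ N₃)
    (H : ∀ k : ℕ, 1 ≤ k → ∀ v ∈ Z, ∀ v' ∈ Z, ∀ μ μ' : ℤ, (p : ℤ) ∣ μ - 1 → (p : ℤ) ∣ μ' - 1 →
      (p : ℤ) ^ k ∣ μ ^ 4 * v.1 - μ' ^ 4 * v'.1 → (p : ℤ) ^ k ∣ μ ^ 2 * v.2.1 - μ' ^ 2 * v'.2.1 →
      (p : ℤ) ^ k ∣ μ ^ 3 * v.2.2 - μ' ^ 3 * v'.2.2 → (p : ℤ) ^ (k - 2) ∣ μ - μ') :
    Z.card * N ≤ 8 * p ^ 4 * (N₁ * N₂ * N₃) := by
  rcases Nat.lt_or_ge N p with hN | hN
  · have hc : Z.card ≤ N₁ * N₂ * N₃ := by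
      have h1 : Z ⊆ Finset.Ico a₁ (a₁ + N₁) ×ˢ Finset.Ico a₂ (a₂ + N₂) ×ˢ
          Finset.Ico a₃ (a₃ + N₃) := by
        intro v hv
        obtain ⟨b1, b2, b3⟩ := hZ v hv
        simp only [mem_product, mem_Ico]
        exact ⟨b1, b2, b3⟩
      refine (card_le_card h1).trans (le_of_eq ?_)
      rw [card_product, card_product, Int.card_Ico, Int.card_Ico, Int.card_Ico]
      simp only [add_sub_cancel_left, Int.toNat_natCast]
      ring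
    calc Z.card * N ≤ (N₁ * N₂ * N₃) * p := Nat.mul_le_mul hc hN.le
      _ ≤ (N₁ * N₂ * N₃) * (8 * p ^ 4) := by
        gcongr
        calc p = 1 * p ^ 1 := by ring
          _ ≤ 8 * p ^ 4 := Nat.mul_le_mul (by norm_num) (Nat.pow_le_pow_right hp.pos (by norm_num))
      _ = _ := by ring
  · set k := Nat.log p N with hk
    have hN0 : N ≠ 0 := by
      have := hp.pos
      omega
    have hk1 : 1 ≤ k := Nat.log_pos hp.one_lt hN
    have hk2 : p ^ k ≤ N := Nat.pow_log_le_self p hN0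
    have hk3 : N < p ^ (k + 1) := Nat.lt_pow_succ_log_self hp.one_lt N
    have h := count hp hk1 Z hZ (hk2.trans h₁) (hk2.trans h₂) (hk2.trans h₃) (H k hk1)
    have h4 : p ^ (k + 1) = p ^ (k - 1) * p ^ 2 := by
      rw [← pow_add]
      congr 1
      omega
    calc Z.card * N ≤ Z.card * (p ^ (k - 1) * p ^ 2) := by
          gcongr
          rw [← h4]
          exact hk3.le
      _ = (Z.card * p ^ (k - 1)) * p ^ 2 := by ring
      _ ≤ (8 * N₁ * N₂ * N₃ * p ^ 2) * p ^ 2 := by gcongr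
      _ = _ := by ring

end Pool.Agent.Y732
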