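import Pool.Agent.Y732.Count

/-!
# Counting sets of parameters on which the multipliers take few values
-/

set_option autoImplicit false

namespace Pool.Agent.Y732

open Finset

/-- a set of integers below `q * R` of which any `r + 1` contain two congruent modulo `q` -/
lemma r_classes {q R r : ℕ} (T : Finset ℕ) (hT : ∀ j ∈ T, j < q * R)
    (h : ∀ f : Fin (r + 1) → ℕ, (∀ i, f i ∈ T) → ∃ i j, i ≠ j ∧ f i % q = f j % q) :
    T.card ≤ R * r := by
  have h1 : (T.image fun j => j % q).card ≤ r := by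
    by_contra h2
    rw [not_le] at h2
    have h3 : Fintype.card (Fin (r + 1)) ≤ Fintype.card (T.image fun j => j % q) := by
      rw [Fintype.card_fin, Fintype.card_coe]
      exact h2
    obtain ⟨g⟩ := Function.Embedding.nonempty_of_card_le h3
    have h4 : ∀ i, ∃ a ∈ T, a % q = (g i : ℕ) := fun i => mem_image.1 (g i).2
    choose f hf hf' using h4
    obtain ⟨i, j, hij, he⟩ := h f hf
    rw [hf', hf'] at he
    exact hij (g.injective (Subtype.ext he))
  have h2 : T.card ≤ R * (T.image fun j => j % q).card := by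
    apply card_le_mul_card_image
    intro b _
    have h4 : (T.filter fun j => j % q = b).card ≤ (range R).card := by
      apply card_le_card_of_injOn (fun j => j / q)
      · intro j hj
        rw [mem_coe, mem_filter] at hj
        rw [mem_coe, mem_range]
        exact Nat.div_lt_of_lt_mul (hT j hj.1)
      · intro j hj j' hj' h
        rw [mem_coe, mem_filter] at hj hj'
        simp only at h
        rw [← Nat.div_add_mod j q, ← Nat.div_add_mod j' q, h, hj.2, hj'.2]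
    rwa [card_range] at h4
  exact h2.trans (Nat.mul_le_mul_left _ h1)

/-- the counting lemma -/
theorem countG {p k a d r : ℕ} (hp : p.Prime) (hk : 1 ≤ k) (hak : a ≤ k - 1) (w : Fin d → ℕ)
    (c : Fin d → ℤ) (N : Fin d → ℕ) (Z : Finset (Fin d → ℤ))
    (hZ : ∀ v ∈ Z, ∀ l, c l ≤ v l ∧ v l < c l + N l) (hN : ∀ l, p ^ k ≤ N l)
    (H : ∀ (v : Fin (r + 1) → Fin d → ℤ) (μ : Fin (r + 1) → ℤ), (∀ i, v i ∈ Z) →
      (∀ i, (p : ℤ) ∣ μ i - 1) →
      (∀ i l, (p : ℤ) ^ k ∣ μ 0 ^ w l * v 0 l - μ i ^ w l * v i l) →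
      ∃ i j, i ≠ j ∧ (p : ℤ) ^ (a + 1) ∣ μ i - μ j) :
    Z.card * p ^ a ≤ 2 ^ d * r * ∏ l, N l := by
  have hp0 := hp.pos
  have hPk : 0 < p ^ k := pow_pos hp0 k
  have : NeZero (p ^ k) := ⟨hPk.ne'⟩
  set f : (Fin d → ℤ) × ℕ → (Fin d → ZMod (p ^ k)) × (Fin d → ℕ) := fun z =>
    (fun l => ((((1 + p * z.2 : ℕ) : ℤ) ^ w l * z.1 l : ℤ) : ZMod (p ^ k)),
     fun l => ((z.1 l - c l) / ((p ^ k : ℕ) : ℤ)).toNat) with hf
  set T : Finset ((Fin d → ZMod (p ^ k)) × (Fin d → ℕ)) :=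
    univ ×ˢ Fintype.piFinset (fun l => range (N l / p ^ k + 1)) with hT
  have hc : ∀ a b : ℤ, (a : ZMod (p ^ k)) = b → (p : ℤ) ^ k ∣ a - b := by
    intro a b hab
    have h1 : ((a - b : ℤ) : ZMod (p ^ k)) = 0 := by
      push_cast
      rw [hab, sub_self]
    have h2 := (ZMod.intCast_zmod_eq_zero_iff_dvd (a - b) (p ^ k)).1 h1
    exact_mod_cast h2
  have hmaps : ∀ z ∈ Z ×ˢ range (p ^ (k - 1)), f z ∈ T := by
    rintro ⟨v, j⟩ hv
    rw [mem_product] at hv
    rw [hT, mem_product]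
    refine ⟨mem_univ _, ?_⟩
    rw [Fintype.mem_piFinset]
    intro l
    have b := hZ v hv.1 l
    exact (block_range hPk b.1 b.2).2
  have hfib : ∀ t ∈ T, ((Z ×ˢ range (p ^ (k - 1))).filter fun z => f z = t).card ≤
      p ^ (k - 1 - a) * r := by
    intro t _
    set Fb := (Z ×ˢ range (p ^ (k - 1))).filter fun z => f z = t with hFb
    have hcong : ∀ z ∈ Fb, ∀ z' ∈ Fb, ∀ l,
        (p : ℤ) ^ k ∣ ((1 + p * z.2 : ℕ) : ℤ) ^ w l * z.1 l -
          ((1 + p * z'.2 : ℕ) : ℤ) ^ w l * z'.1 l := by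
      intro z hz z' hz' l
      rw [hFb, mem_filter] at hz hz'
      have heq := hz.2.trans hz'.2.symm
      exact hc _ _ (congrFun (congrArg Prod.fst heq) l)
    have hinj : Set.InjOn (fun z : (Fin d → ℤ) × ℕ => z.2) (Fb : Set _) := by
      rintro ⟨v, j⟩ hz ⟨v', j'⟩ hz' hjj
      simp only at hjj
      subst hjj
      have d1 := hcong _ (mem_coe.1 hz) _ (mem_coe.1 hz')
      rw [mem_coe, hFb, mem_filter, mem_product] at hz hz'
      obtain ⟨⟨hv, hj⟩, hw⟩ := hz
      obtain ⟨⟨hv', hj'⟩, hw'⟩ := hz'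
      have heq := hw.trans hw'.symm
      simp only at d1 hv hv'
      set μ : ℤ := ((1 + p * j : ℕ) : ℤ) with hμ
      have hcop : IsCoprime ((p : ℤ) ^ k) μ := by
        apply IsCoprime.pow_left
        exact ⟨-j, 1, by rw [hμ]; push_cast; ring⟩
      refine Prod.ext (funext fun l => ?_) rfl
      have e5 : ((v l - c l) / ((p ^ k : ℕ) : ℤ)).toNat =
          ((v' l - c l) / ((p ^ k : ℕ) : ℤ)).toNat := congrFun (congrArg Prod.snd heq) l
      have hd : ((p ^ k : ℕ) : ℤ) ∣ (v l - c l) - (v' l - c l) := by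
        have h1 := d1 l
        rw [← mul_sub] at h1
        have h2 := (hcop.pow_right (n := w l)).dvd_of_dvd_mul_left h1
        rw [sub_sub_sub_cancel_right]
        exact_mod_cast h2
      have b := hZ v hv l
      have b' := hZ v' hv' l
      have q1 := block_eq (block_range hPk b.1 b.2).1 (block_range hPk b'.1 b'.2).1 e5 hd
      have r1 : v l = v' l := by omega
      exact r1
    rw [← card_image_of_injOn hinj]
    apply r_classes (q := p ^ a)
    · intro j hj
      rw [mem_image] at hj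
      obtain ⟨z, hz, rfl⟩ := hj
      rw [hFb, mem_filter, mem_product, mem_range] at hz
      rw [← pow_add]
      have : a + (k - 1 - a) = k - 1 := by omega
      rw [this]
      exact hz.1.2
    · intro g hg
      have hg' : ∀ i, ∃ z ∈ Fb, z.2 = g i := fun i => mem_image.1 (hg i)
      choose z hz hzg using hg'
      have hzZ : ∀ {z}, z ∈ Fb → z.1 ∈ Z := by
        intro z hz
        rw [hFb, mem_filter, mem_product] at hz
        exact hz.1.1
      obtain ⟨i, j, hij, h⟩ := H (fun i => (z i).1) (fun i => ((1 + p * (z i).2 : ℕ) : ℤ))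
        (fun i => hzZ (hz i)) (fun i => ⟨(z i).2, by push_cast; ring⟩)
        (fun i l => hcong _ (hz 0) _ (hz i) l)
      refine ⟨i, j, hij, ?_⟩
      have e : ((1 + p * (z i).2 : ℕ) : ℤ) - ((1 + p * (z j).2 : ℕ) : ℤ) =
          (p : ℤ) * ((g i : ℤ) - g j) := by
        rw [← hzg, ← hzg]
        push_cast
        ring
      rw [e, pow_succ'] at h
      have h1 : (p : ℤ) ^ a ∣ (g i : ℤ) - g j :=
        (mul_dvd_mul_iff_left (by exact_mod_cast hp0.ne')).1 h
      have h2 : g j ≡ g i [MOD p ^ a] := by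
        rw [Nat.modEq_iff_dvd]
        exact_mod_cast h1
      exact h2.symm
  have hcard := card_le_mul_card_image_of_maps_to hmaps (p ^ (k - 1 - a) * r) hfib
  rw [card_product, card_range] at hcard
  have hTc : T.card = ∏ l, (p ^ k * (N l / p ^ k + 1)) := by
    rw [hT, card_product, Fintype.card_piFinset, card_univ, Fintype.card_fun, ZMod.card,
      Fintype.card_fin, prod_mul_distrib, prod_const, card_univ, Fintype.card_fin]
    simp only [card_range]
  rw [hTc] at hcard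
  have hN2 : ∏ l, (p ^ k * (N l / p ^ k + 1)) ≤ 2 ^ d * ∏ l, N l := by
    have h1 : (2 : ℕ) ^ d * ∏ l, N l = ∏ l, (2 * N l) := by
      rw [prod_mul_distrib, prod_const, card_univ, Fintype.card_fin]
    rw [h1]
    apply prod_le_prod'
    intro l _
    have h2 := Nat.mul_div_le (N l) (p ^ k)
    have h3 := hN l
    rw [mul_add, mul_one]
    omega
  have hsplit : p ^ (k - 1) = p ^ (k - 1 - a) * p ^ a := by
    rw [← pow_add]
    congr 1
    omega
  have hfin : p ^ (k - 1 - a) * (Z.card * p ^ a) ≤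
      p ^ (k - 1 - a) * (2 ^ d * r * ∏ l, N l) := by
    calc p ^ (k - 1 - a) * (Z.card * p ^ a) = Z.card * p ^ (k - 1) := by rw [hsplit]; ring
      _ ≤ _ := hcard
      _ ≤ p ^ (k - 1 - a) * r * (2 ^ d * ∏ l, N l) := Nat.mul_le_mul_left _ hN2
      _ = _ := by ring
  exact Nat.le_of_mul_le_mul_left hfin (pow_pos hp0 _)

/-- the trivial bound -/
lemma box_card {d : ℕ} (c : Fin d → ℤ) (N : Fin d → ℕ) (Z : Finset (Fin d → ℤ))
    (hZ : ∀ v ∈ Z, ∀ l, c l ≤ v l ∧ v l < c l + N l) : Z.card ≤ ∏ l, N l := by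
  have h1 : Z ⊆ Fintype.piFinset (fun l => Ico (c l) (c l + N l)) := by
    intro v hv
    rw [Fintype.mem_piFinset]
    intro l
    rw [mem_Ico]
    exact hZ v hv l
  have h2 := card_le_card h1
  rw [Fintype.card_piFinset] at h2
  refine h2.trans (le_of_eq ?_)
  apply prod_congr rfl
  intro l _
  rw [Int.card_Ico]
  omega

/-- the final count: the exponents are chosen -/
theorem countF {p d r N₀ D : ℕ} (hp : p.Prime) (hr : 0 < r) (hD : 0 < D) (w : Fin d → ℕ)
    (c : Fin d → ℤ) (N : Fin d → ℕ) (Z : Finset (Fin d → ℤ))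
    (hZ : ∀ v ∈ Z, ∀ l, c l ≤ v l ∧ v l < c l + N l) (hN : ∀ l, N₀ ≤ N l)
    (H : ∀ k a e : ℕ, 1 ≤ k → ¬ p ^ (e + 1) ∣ D → r * a + r + 1 + e < k →
      ∀ (v : Fin (r + 1) → Fin d → ℤ) (μ : Fin (r + 1) → ℤ), (∀ i, v i ∈ Z) →
      (∀ i, (p : ℤ) ∣ μ i - 1) →
      (∀ i l, (p : ℤ) ^ k ∣ μ 0 ^ w l * v 0 l - μ i ^ w l * v i l) →
      ∃ i j, i ≠ j ∧ (p : ℤ) ^ (a + 1) ∣ μ i - μ j) :
    Z.card ^ r * N₀ ≤ (2 ^ d * r * D * p ^ 4 * ∏ l, N l) ^ r := by
  rcases Nat.eq_zero_or_pos N₀ with h0 | hN0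
  · rw [h0, mul_zero]
    exact Nat.zero_le _
  have hp2 := hp.two_le
  have hp0 := hp.pos
  obtain ⟨e, he1, he2⟩ : ∃ e, p ^ e ∣ D ∧ ¬ p ^ (e + 1) ∣ D := by
    refine ⟨D.factorization p, Nat.ordProj_dvd _ _, Nat.pow_succ_factorization_not_dvd ?_ hp⟩
    omega
  have he3 : p ^ e ≤ D := Nat.le_of_dvd (by omega) he1
  have he4 : D ≤ D ^ r := Nat.le_self_pow hr.ne' D
  obtain ⟨k, hk⟩ : ∃ k, k = Nat.log p N₀ := ⟨_, rfl⟩
  have hk1 : p ^ k ≤ N₀ := by
    rw [hk]
    exact Nat.pow_log_le_self p hN0.ne'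
  have hk2 : N₀ < p ^ (k + 1) := by
    rw [hk]
    exact Nat.lt_pow_succ_log_self hp.one_lt N₀
  set M : ℕ := 2 ^ d * r * ∏ l, N l with hM
  have hfin : (M * (D * p ^ 4)) ^ r = (2 ^ d * r * D * p ^ 4 * ∏ l, N l) ^ r := by
    rw [hM]
    congr 1
    ring
  rw [← hfin]
  have h4r : p ^ (2 * r + 2) ≤ (p ^ 4) ^ r := by
    rw [← pow_mul]
    exact Nat.pow_le_pow_right hp0 (by omega)
  -- it is enough to bound by the product of the constants
  suffices h : Z.card ^ r * N₀ ≤ M ^ r * (p ^ e * p ^ (2 * r + 2)) by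
    refine h.trans ?_
    rw [mul_pow M, mul_pow D]
    exact Nat.mul_le_mul_left _ (Nat.mul_le_mul (he3.trans he4) h4r)
  by_cases hkr : r + 1 + e < k
  · obtain ⟨a, ha⟩ : ∃ a, a = (k - r - 2 - e) / r := ⟨_, rfl⟩
    have ha1 : r * a ≤ k - r - 2 - e := by
      rw [ha]
      exact Nat.mul_div_le _ _
    have ha2 : k - r - 2 - e < r * a + r := by
      rw [ha]
      exact Nat.lt_mul_div_succ _ hr
    have ha3 : a ≤ r * a := Nat.le_mul_of_pos_left a hr
    have key := countG hp (by omega) (by omega) w c N Z hZ (fun l => hk1.trans (hN l))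
      (H k a e (by omega) he2 (by omega))
    have h1 : N₀ ≤ (p ^ a) ^ r * (p ^ e * p ^ (2 * r + 2)) := by
      rw [← pow_mul, ← pow_add, ← pow_add]
      refine hk2.le.trans (Nat.pow_le_pow_right hp0 ?_)
      rw [mul_comm a r]
      omega
    calc Z.card ^ r * N₀ ≤ Z.card ^ r * ((p ^ a) ^ r * (p ^ e * p ^ (2 * r + 2))) :=
          Nat.mul_le_mul_left _ h1
      _ = (Z.card * p ^ a) ^ r * (p ^ e * p ^ (2 * r + 2)) := by rw [mul_pow, mul_assoc]
      _ ≤ M ^ r * (p ^ e * p ^ (2 * r + 2)) := Nat.mul_le_mul_right _ (Nat.pow_le_pow_left key r)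
  · have h1 : N₀ ≤ p ^ e * p ^ (2 * r + 2) := by
      rw [← pow_add]
      refine hk2.le.trans (Nat.pow_le_pow_right hp0 ?_)
      omega
    have h2 : Z.card ≤ M := by
      refine (box_card c N Z hZ).trans ?_
      rw [hM]
      exact Nat.le_mul_of_pos_left _ (by positivity)
    exact Nat.mul_le_mul (Nat.pow_le_pow_left h2 r) h1

end Pool.Agent.Y732
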