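import Mathlib

/-!
# The canonical `p`-adic height of an elliptic curve with good ordinary reduction

Following Mazur and Tate (The p-adic sigma function) and Mazur, Stein and Tate (Computation of
p-adic heights and log convergence, Theorem 1.3 and formula (1.1)).
-/

set_option autoImplicit false

namespace Pool.Agent.Y732

open PowerSeries

/-- the curve `y² = x³ + A x + B` -/
def Wc {R : Type*} [CommRing R] (A B : R) : WeierstrassCurve R := ⟨0, 0, 0, A, B⟩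

/-- Expansions at the origin of `y² = x³ + A x + B` in the parameter `t = -x / y`:
`x = 1 / (t² u)`, `y = -1 / (t³ u)`, and the invariant differential is `ω = dx / (2 y) = g dt`. -/
def IsExp {R : Type*} [CommRing R] (A B : R) (u g : R⟦X⟧) : Prop :=
  u = 1 + C A * X ^ 4 * u ^ 2 + C B * X ^ 6 * u ^ 3 ∧ 2 * u * g = 2 * u + X * d⁄dX R u

/-- `σ = t + …` is an odd power series which for some constant `c` satisfies the differential
equation `x(t) + c = -(d/ω) ((dσ/ω) / σ)` of Mazur and Tate; here `D₁ = dσ/ω` and `D₂ = dD₁/ω`.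
Over `ℤ_[p]` with `p ≥ 5` ordinary there is exactly one such `σ`, the `p`-adic sigma function. -/
def IsSigma {R : Type*} [CommRing R] (A B : R) (σ : R⟦X⟧) : Prop :=
  ∃ (c : R) (u g D₁ D₂ : R⟦X⟧), IsExp A B u g ∧ g * D₁ = d⁄dX R σ ∧ g * D₂ = d⁄dX R D₁ ∧
    X ^ 2 * u * (D₁ ^ 2 - σ * D₂) = (1 + C c * X ^ 2 * u) * σ ^ 2 ∧
    coeff 1 σ = 1 ∧ ∀ n, coeff (2 * n) σ = 0

/-- the value of the power series `f` at `t` -/
noncomputable def ev {p : ℕ} [Fact p.Prime] (t : ℤ_[p]) (f : ℤ_[p]⟦X⟧) : ℤ_[p] :=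
  ∑' n : ℕ, coeff n f * t ^ n

/-- The Iwasawa logarithm of a unit `z` of `ℤ_p`: `log (z ^ (p - 1)) / (p - 1)`, where
`log (1 + w) = ∑ (-1) ^ n w ^ (n + 1) / (n + 1)`. -/
noncomputable def plog (p : ℕ) [Fact p.Prime] (z : ℚ_[p]) : ℚ_[p] :=
  ((p : ℚ_[p]) - 1)⁻¹ * ∑' n : ℕ, (-1) ^ n * (z ^ (p - 1) - 1) ^ (n + 1) / ((n : ℚ_[p]) + 1)

/-- the curve `y² = x³ + A x + B` over `ℚ` -/
abbrev EQ (A B : ℤ) : WeierstrassCurve.Affine ℚ := (Wc (A : ℚ) (B : ℚ)).toAffine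

/-- the integral point `(x, y)` of `y² = x³ + A x + B` is nonsingular modulo all primes -/
def NS (A x y : ℤ) : Prop :=
  ∀ ℓ : ℕ, ℓ.Prime → ¬ ((ℓ : ℤ) ∣ 2 * y ∧ (ℓ : ℤ) ∣ 3 * x ^ 2 + A)

/-- the coefficient `B` for which `(x, y)` lies on `y² = x³ + A x + B` -/
def Bf (A x y : ℤ) : ℤ := y ^ 2 - x ^ 3 - A * x

/-- `(A, x, y)` gives an elliptic curve `E : y² = x³ + A x + B` with a marked integral point
`P = (x, y)`, `y ≠ 0`, which reduces to a nonsingular point modulo all primes. -/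
def Marked (v : ℤ × ℤ × ℤ) : Prop :=
  4 * v.1 ^ 3 + 27 * Bf v.1 v.2.1 v.2.2 ^ 2 ≠ 0 ∧ v.2.2 ≠ 0 ∧ NS v.1 v.2.1 v.2.2

/-- `p ∤ 4 A³ + 27 B²` and `p` does not divide the trace of Frobenius: good ordinary reduction. -/
def IsOrdinary (p : ℕ) (A B : ℤ) : Prop :=
  ¬ (p : ℤ) ∣ 4 * A ^ 3 + 27 * B ^ 2 ∧
    ¬ (p : ℤ) ∣ p + 1 - Nat.card (Wc (A : ZMod p) (B : ZMod p)).toAffine.Point

/-- `h` is the canonical `p`-adic height (quadratic form) of `y² = x³ + A x + B`: it satisfies the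
parallelogram law, and `h P = log (σ(t) / e)`, `t = -x / y`, at each point `P = (a/e², b/e³)` in
lowest terms which reduces to the origin modulo `p` and to a nonsingular point modulo all primes. -/
def IsHeight (p : ℕ) [Fact p.Prime] (A B : ℤ) (h : (EQ A B).Point → ℚ_[p]) : Prop :=
  (∀ P Q, h (P + Q) + h (P - Q) = 2 * h P + 2 * h Q) ∧
  ∃ σ : ℤ_[p]⟦X⟧, IsSigma (A : ℤ_[p]) (B : ℤ_[p]) σ ∧
    ∀ (a b e : ℤ) (hP : (EQ A B).Nonsingular (a / e ^ 2) (b / e ^ 3)) (t : ℤ_[p]),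
      e ≠ 0 → IsCoprime a e → (p : ℤ) ∣ e →
      (∀ ℓ : ℕ, ℓ.Prime → (ℓ : ℤ) ∣ e ∨ ¬ ((ℓ : ℤ) ∣ 2 * b ∧ (ℓ : ℤ) ∣ 3 * a ^ 2 + A * e ^ 4)) →
      b * t = -(a * e) → h (.some _ _ hP) = plog p (ev t σ / e)

/-- Schneider's conjecture for the curve and the height `h`: the determinant of the height pairing
`h (P + Q) - h P - h Q` is not zero on the bases of the subgroups of finite index of
`E(ℚ) / torsion`. -/
def Schneider {p : ℕ} [Fact p.Prime] {A B : ℤ} (h : (EQ A B).Point → ℚ_[p]) : Prop :=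
  ∀ (r : ℕ) (P : Fin r → (EQ A B).Point), LinearIndependent ℤ P →
    (∀ Q, ∃ n : ℤ, n ≠ 0 ∧ n • Q ∈ Submodule.span ℤ (Set.range P)) →
    (Matrix.of fun i j => h (P i + P j) - h (P i) - h (P j)).det ≠ 0

/-- The marked point `P = (x, y)` of `E : y² = x³ + A x + B` has nonzero canonical `p`-adic height,
and if the rank of `E(ℚ)` is one, then Schneider's conjecture holds for `E` and `p`. -/
def NonDeg (p : ℕ) [Fact p.Prime] (v : ℤ × ℤ × ℤ) : Prop :=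
  ∀ h : (EQ v.1 (Bf v.1 v.2.1 v.2.2)).Point → ℚ_[p], IsHeight p v.1 (Bf v.1 v.2.1 v.2.2) h →
    (∀ hP : (EQ v.1 (Bf v.1 v.2.1 v.2.2)).Nonsingular v.2.1 v.2.2, h (.some _ _ hP) ≠ 0) ∧
    (Module.finrank ℤ (EQ v.1 (Bf v.1 v.2.1 v.2.2)).Point = 1 → Schneider h)

end Pool.Agent.Y732
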