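import Pool.Agent.Y732.Defs

/-!
# The canonical `p`-adic height for a general integral Weierstrass equation
-/

set_option autoImplicit false

namespace Pool.Agent.Y732

open PowerSeries

/-- the curve over `ℚ` given by an integral Weierstrass equation -/
abbrev WQ (W : WeierstrassCurve ℤ) : WeierstrassCurve.Affine ℚ :=
  (W.map (Int.castRingHom ℚ)).toAffine

/-- The point `(a / e², b / e³)`, in lowest terms, reduces to a nonsingular point modulo all
primes: either to the origin, or one of the two partial derivatives does not vanish. -/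
def EverywhereNonsingular (W : WeierstrassCurve ℤ) (a b e : ℤ) : Prop :=
  ∀ ℓ : ℕ, ℓ.Prime → (ℓ : ℤ) ∣ e ∨
    ¬ ((ℓ : ℤ) ∣ 2 * b + W.a₁ * a * e + W.a₃ * e ^ 3 ∧
      (ℓ : ℤ) ∣ W.a₁ * b * e - (3 * a ^ 2 + 2 * W.a₂ * a * e ^ 2 + W.a₄ * e ^ 4))

/-- `p ∤ Δ` and `p` does not divide the trace of Frobenius: good ordinary reduction. -/
def IsOrdinaryW (p : ℕ) (W : WeierstrassCurve ℤ) : Prop :=
  ¬ (p : ℤ) ∣ W.Δ ∧
    ¬ (p : ℤ) ∣ p + 1 - Nat.card (W.map (Int.castRingHom (ZMod p))).toAffine.Point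

/-- `h` is the canonical `p`-adic height of the elliptic curve `W`, `p ≥ 5`: it satisfies the
parallelogram law, and `h P = log (σ(t) / e)` at each point `P = (a / e², b / e³)` in lowest terms
which reduces to the origin modulo `p` and to a nonsingular point modulo all primes. Here `σ` is
the sigma function of the equation `y² = x³ + A x + B` over `ℤ_p` obtained from `W` by
`(x, y) ↦ (x + b₂ / 12, y + (a₁ x + a₃) / 2)`, where `A = - c₄ / 48` and `B = - c₆ / 864`, and
`t = -x / y` in the coordinates of that equation. -/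
def IsHeightW (p : ℕ) [Fact p.Prime] (W : WeierstrassCurve ℤ) (h : (WQ W).Point → ℚ_[p]) : Prop :=
  (∀ P Q, h (P + Q) + h (P - Q) = 2 * h P + 2 * h Q) ∧
  ∃ (A B : ℤ_[p]) (σ : ℤ_[p]⟦X⟧), 48 * A = -(W.c₄ : ℤ_[p]) ∧ 864 * B = -(W.c₆ : ℤ_[p]) ∧
    IsSigma A B σ ∧
    ∀ (a b e : ℤ) (hP : (WQ W).Nonsingular (a / e ^ 2) (b / e ^ 3)) (t : ℤ_[p]),
      e ≠ 0 → IsCoprime a e → (p : ℤ) ∣ e → EverywhereNonsingular W a b e →
      6 * (2 * b + W.a₁ * a * e + W.a₃ * e ^ 3) * t = -((12 * a + W.b₂ * e ^ 2) * e) →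
      h (.some _ _ hP) = plog p (ev t σ / e)

/-- the curve `y² + a₁ x y + a₃ y = x (x - m) (x - n)`; the line `y = 0` meets it in the three
points `(0, 0)`, `(m, 0)`, `(n, 0)` -/
def LineCurve (a₁ a₃ m n : ℤ) : WeierstrassCurve ℤ := ⟨a₁, -(m + n), a₃, m * n, 0⟩

end Pool.Agent.Y732
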