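import Pool.Agent.Y732.Quad
import Pool.Agent.Y732.Defs2

/-!
# Families of elliptic curves with marked points
-/

set_option autoImplicit false

namespace Pool.Agent.Y732

open MvPolynomial

/-- the triple `(a, b, e)` satisfies the homogeneous equation of `W` -/
def OnCurve (W : WeierstrassCurve ℤ) (a b e : ℤ) : Prop :=
  b ^ 2 + W.a₁ * a * b * e + W.a₃ * b * e ^ 3 =
    a ^ 3 + W.a₂ * a ^ 2 * e ^ 2 + W.a₄ * a * e ^ 4 + W.a₆ * e ^ 6

open scoped Classical in
/-- the point `(a / e², b / e³)` of the curve `W` over `ℚ`; it is the origin if `(a / e², b / e³)`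
does not lie on the curve or is singular -/
noncomputable def pt (W : WeierstrassCurve ℤ) (a b e : ℤ) : (WQ W).Point :=
  if h : (WQ W).Nonsingular ((a : ℚ) / (e : ℚ) ^ 2) ((b : ℚ) / (e : ℚ) ^ 3) then .some _ _ h else 0

/-- A family of Weierstrass equations over `ℤ` in `d` parameters, together with rational points
`P i j = (x i j / (e i j)², y i j / (e i j)³)`, `0 ≤ i < j ≤ r`. All data are polynomials in the
parameters which are homogeneous if the `l`-th parameter has the weight `w l`: `aₖ` has the weight
`k χ`, and `e i j`, `x i j` and `y i j` have the weights `n i j`, `2 (χ + n i j)` and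
`3 (χ + n i j)`. -/
structure Family (d r : ℕ) where
  w : Fin d → ℕ
  χ : ℕ
  n : Fin (r + 1) → Fin (r + 1) → ℕ
  W : WeierstrassCurve (MvPolynomial (Fin d) ℤ)
  x : Fin (r + 1) → Fin (r + 1) → MvPolynomial (Fin d) ℤ
  y : Fin (r + 1) → Fin (r + 1) → MvPolynomial (Fin d) ℤ
  e : Fin (r + 1) → Fin (r + 1) → MvPolynomial (Fin d) ℤ
  h₁ : IsWeightedHomogeneous w W.a₁ χ
  h₂ : IsWeightedHomogeneous w W.a₂ (2 * χ)
  h₃ : IsWeightedHomogeneous w W.a₃ (3 * χ)
  h₄ : IsWeightedHomogeneous w W.a₄ (4 * χ)
  h₆ : IsWeightedHomogeneous w W.a₆ (6 * χ)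
  hx : ∀ i j, IsWeightedHomogeneous w (x i j) (2 * (χ + n i j))
  hy : ∀ i j, IsWeightedHomogeneous w (y i j) (3 * (χ + n i j))
  he : ∀ i j, IsWeightedHomogeneous w (e i j) (n i j)

namespace Family

variable {d r : ℕ} (F : Family d r) (v : Fin d → ℤ)

/-- the height pairing of the points `P 0 1, …, P 0 r` of the generic member: half the height of
`P i j` is `χ + n i j` -/
def K : Matrix (Fin r) (Fin r) ℤ :=
  Matrix.of fun i j => if i = j then 2 * ((F.χ : ℤ) + F.n 0 i.succ) else
    ((F.χ : ℤ) + F.n 0 i.succ) + (F.χ + F.n 0 j.succ) -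
      (F.χ + F.n (min i.succ j.succ) (max i.succ j.succ))

/-- the member of the family at the parameter `v` -/
noncomputable def curve : WeierstrassCurve ℤ := F.W.map (eval v)

/-- the points of the member of the family at the parameter `v` -/
noncomputable def P (i j : Fin (r + 1)) : (WQ (F.curve v)).Point :=
  pt (F.curve v) (eval v (F.x i j)) (eval v (F.y i j)) (eval v (F.e i j))

/-- The member at `v` is an elliptic curve, the points `P i j`, `i < j`, lie on it, they are given
in lowest terms and reduce to a nonsingular point modulo all primes, and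
`P i j = P 0 j - P 0 i` (that is, `P i j + P j k = P i k` for `i < j < k`). -/
def Marked : Prop :=
  (F.curve v).Δ ≠ 0 ∧
  (∀ i j, i < j → eval v (F.e i j) ≠ 0 ∧ IsCoprime (eval v (F.x i j)) (eval v (F.e i j)) ∧
    OnCurve (F.curve v) (eval v (F.x i j)) (eval v (F.y i j)) (eval v (F.e i j)) ∧
    EverywhereNonsingular (F.curve v) (eval v (F.x i j)) (eval v (F.y i j)) (eval v (F.e i j))) ∧
  ∀ i j k, i < j → j < k → F.P v i j + F.P v j k = F.P v i k

/-- For every canonical `p`-adic height of the member at `v`, the regulator of the `r` points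
`P 0 1, …, P 0 r` does not vanish, and if the rank of the group of rational points is `r`, then
Schneider's conjecture holds: the regulator does not vanish on the bases of the subgroups of
finite index modulo torsion. -/
def NonDeg (p : ℕ) [Fact p.Prime] : Prop :=
  ∀ h : (WQ (F.curve v)).Point → ℚ_[p], IsHeightW p (F.curve v) h →
    Reg h (fun i : Fin r => F.P v 0 i.succ) ≠ 0 ∧
    (Module.finrank ℤ (WQ (F.curve v)).Point = r →
      ∀ (s : ℕ) (c : Fin s → (WQ (F.curve v)).Point), LinearIndependent ℤ c →
        (∀ Q, ∃ n : ℤ, n ≠ 0 ∧ n • Q ∈ Submodule.span ℤ (Set.range c)) → Reg h c ≠ 0)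

end Family

end Pool.Agent.Y732
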