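import Pool.Agent.Y732.MT

/-!
# Values of the Mazur-Tate sigma function
-/

set_option autoImplicit false

namespace Pool.Agent.Y732

open PowerSeries Finset

variable {p : ℕ} [hp : Fact p.Prime]

lemma norm_le_of_dvd {t : ℤ_[p]} (ht : (p : ℤ_[p]) ∣ t) : ‖t‖ ≤ (p : ℝ)⁻¹ := by
  obtain ⟨a, rfl⟩ := ht
  rw [norm_mul, PadicInt.norm_p]
  have h := PadicInt.norm_le_one a
  have h2 : (0 : ℝ) ≤ (p : ℝ)⁻¹ := by positivity
  nlinarith

lemma summable_norm_ev {t : ℤ_[p]} (ht : (p : ℤ_[p]) ∣ t) (f : ℤ_[p]⟦X⟧) :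
    Summable fun n : ℕ => ‖coeff n f * t ^ n‖ := by
  have hp1 : (1 : ℝ) < p := by exact_mod_cast hp.out.one_lt
  refine Summable.of_nonneg_of_le (fun n => norm_nonneg _) (fun n => ?_)
    (summable_geometric_of_lt_one (r := (p : ℝ)⁻¹) (by positivity) (inv_lt_one_of_one_lt₀ hp1))
  rw [norm_mul, norm_pow]
  calc ‖coeff n f‖ * ‖t‖ ^ n ≤ 1 * ((p : ℝ)⁻¹) ^ n :=
        mul_le_mul (PadicInt.norm_le_one _) (pow_le_pow_left₀ (norm_nonneg _) (norm_le_of_dvd ht) n)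
          (by positivity) (by norm_num)
    _ = _ := one_mul _

lemma summable_ev {t : ℤ_[p]} (ht : (p : ℤ_[p]) ∣ t) (f : ℤ_[p]⟦X⟧) :
    Summable fun n : ℕ => coeff n f * t ^ n := (summable_norm_ev ht f).of_norm

lemma ev_mul {t : ℤ_[p]} (ht : (p : ℤ_[p]) ∣ t) (f g : ℤ_[p]⟦X⟧) :
    ev t (f * g) = ev t f * ev t g := by
  unfold ev
  rw [tsum_mul_tsum_eq_tsum_sum_antidiagonal_of_summable_norm (summable_norm_ev ht f)
    (summable_norm_ev ht g)]
  refine tsum_congr fun n => ?_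
  rw [coeff_mul, Finset.sum_mul]
  refine Finset.sum_congr rfl fun x hx => ?_
  rw [HasAntidiagonal.mem_antidiagonal] at hx
  rw [← hx, pow_add]
  ring

lemma dvd_tsum {k : ℕ} {f : ℕ → ℤ_[p]} (h : ∀ n, (p : ℤ_[p]) ^ k ∣ f n) :
    (p : ℤ_[p]) ^ k ∣ ∑' n, f n := by
  have h1 : ∀ n, ‖f n‖ ≤ (p : ℝ) ^ (-(k : ℤ)) := by
    intro n
    rw [PadicInt.norm_le_pow_iff_mem_span_pow, Ideal.mem_span_singleton]
    exact h n
  rw [← Ideal.mem_span_singleton, ← PadicInt.norm_le_pow_iff_mem_span_pow]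
  exact IsUltrametricDist.norm_tsum_le_of_forall_le_of_nonneg (by positivity) h1

lemma two_log_le (n : ℕ) (hn : 1 ≤ n) : 2 * Nat.log p n ≤ n := by
  have h1 : p ^ Nat.log p n ≤ n := Nat.pow_log_le_self p (by omega)
  have h2 : 2 ^ Nat.log p n ≤ p ^ Nat.log p n := Nat.pow_le_pow_left hp.out.two_le _
  have h3 : ∀ l : ℕ, 2 * l ≤ 2 ^ l := by
    intro l
    induction l with
    | zero => norm_num
    | succ l ih =>
      rcases Nat.eq_zero_or_pos l with rfl | hl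
      · norm_num
      · rw [pow_succ]
        omega
  exact (h3 _).trans (h2.trans h1)

/-- the values of two sigma functions of curves which are congruent modulo `p ^ k` -/
theorem Dat.ev_compare (hp2 : p ≠ 2) (k : ℕ) {A₁ B₁ A₂ B₂ : ℤ_[p]} {s₁ s₂ : ℤ_[p]⟦X⟧}
    (hA : PadicInt.toZModPow k A₁ = PadicInt.toZModPow k A₂)
    (hB : PadicInt.toZModPow k B₁ = PadicInt.toZModPow k B₂)
    (hH : hasse p (PadicInt.toZMod A₁) (PadicInt.toZMod B₁) ≠ 0)
    (d₁ : Dat A₁ B₁ s₁) (d₂ : Dat A₂ B₂ s₂) {t : ℤ_[p]} (ht : (p : ℤ_[p]) ∣ t) :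
    (p : ℤ_[p]) ^ k ∣ ev t s₂ - ev t s₁ := by
  have hs1 : IsUnit s₁ := isUnit_of_const d₁.s0
  obtain ⟨ρ, hρ⟩ : ∃ ρ, ρ * s₁ = s₂ := by
    obtain ⟨r, hr⟩ := hs1.exists_left_inv
    exact ⟨s₂ * r, by rw [mul_assoc, hr, mul_one]⟩
  have hρ0 : coeff 0 ρ = 1 := by
    have h := congrArg constantCoeff hρ
    rw [map_mul, d₁.s0, d₂.s0, mul_one] at h
    rw [coeff_zero_eq_constantCoeff_apply, h]
  have h1 : ev t ρ - 1 = ∑' n : ℕ, coeff (n + 1) ρ * t ^ (n + 1) := by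
    unfold ev
    rw [(summable_ev ht ρ).tsum_eq_zero_add, hρ0]
    simp
  have h2 : (p : ℤ_[p]) ^ k ∣ ev t ρ - 1 := by
    rw [h1]
    apply dvd_tsum
    intro n
    have h3 := Dat.compare hp2 k hA hB hH d₁ d₂ ρ hρ (n + 1) (by omega)
    have h4 : (p : ℤ_[p]) ^ k ∣ (p : ℤ_[p]) ^ (2 * Nat.log p (n + 1)) * coeff (n + 1) ρ := by
      rw [← toZModPow_eq_zero_iff, map_mul, map_pow, map_natCast]
      exact h3
    obtain ⟨a, rfl⟩ := ht
    obtain ⟨d, hd⟩ : ∃ d, n + 1 = 2 * Nat.log p (n + 1) + d :=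
      ⟨n + 1 - 2 * Nat.log p (n + 1), by have := two_log_le (p := p) (n + 1) (by omega); omega⟩
    have h5 : coeff (n + 1) ρ * ((p : ℤ_[p]) * a) ^ (n + 1) =
        ((p : ℤ_[p]) ^ (2 * Nat.log p (n + 1)) * coeff (n + 1) ρ) *
          ((p : ℤ_[p]) ^ d * a ^ (n + 1)) := by
      have h6 : (p : ℤ_[p]) ^ (n + 1) = (p : ℤ_[p]) ^ (2 * Nat.log p (n + 1)) *
          (p : ℤ_[p]) ^ d := by
        rw [← pow_add, ← hd]
      rw [mul_pow, h6]
      ring
    rw [h5]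
    exact h4.mul_right _
  have h3 : ev t s₂ - ev t s₁ = (ev t ρ - 1) * ev t s₁ := by
    rw [← hρ, ev_mul ht]
    ring
  rw [h3]
  exact h2.mul_right _

lemma ev_congr {k : ℕ} {t t' : ℤ_[p]} (ht : (p : ℤ_[p]) ∣ t) (ht' : (p : ℤ_[p]) ∣ t')
    (h : (p : ℤ_[p]) ^ k ∣ t - t') (f : ℤ_[p]⟦X⟧) : (p : ℤ_[p]) ^ k ∣ ev t f - ev t' f := by
  unfold ev
  rw [← (summable_ev ht f).tsum_sub (summable_ev ht' f)]
  apply dvd_tsum
  intro n
  rw [← mul_sub]
  exact (h.trans (sub_dvd_pow_sub_pow t t' n)).mul_left _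

lemma ev_rescale (t a : ℤ_[p]) (f : ℤ_[p]⟦X⟧) : ev t (rescale a f) = ev (a * t) f := by
  unfold ev
  refine tsum_congr fun n => ?_
  rw [coeff_rescale, mul_pow]
  ring

lemma derivative_rescale {R : Type*} [CommRing R] (a : R) (f : R⟦X⟧) :
    d⁄dX R (rescale a f) = C a * rescale a (d⁄dX R f) := by
  ext n
  rw [coeff_derivative, coeff_C_mul, coeff_rescale, coeff_rescale, coeff_derivative, pow_succ]
  ring

lemma rescale_C {R : Type*} [CommRing R] (a b : R) : rescale a (C b) = C b := by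
  ext n
  rw [coeff_rescale, coeff_C]
  split_ifs with h
  · rw [h, pow_zero, one_mul]
  · rw [mul_zero]

/-- the reduced data of the sigma function of the curve `y² = x³ + a⁴ A x + a⁶ B` -/
noncomputable def Dat.scale {A B : ℤ_[p]} {s : ℤ_[p]⟦X⟧} (d : Dat A B s) (a : ℤ_[p]) :
    Dat (a ^ 4 * A) (a ^ 6 * B) (rescale a s) where
  c := a ^ 2 * d.c
  u := rescale a d.u
  g := rescale a d.g
  F := rescale a d.F
  exp := by
    have h1 := congrArg (rescale a) d.exp.1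
    have h2 := congrArg (rescale a) d.exp.2
    have e : rescale a (2 : ℤ_[p]⟦X⟧) = 2 := map_ofNat _ 2
    constructor
    · simp only [map_add, map_mul, map_pow, map_one, rescale_X, rescale_C] at h1 ⊢
      linear_combination h1
    · rw [derivative_rescale]
      rw [map_mul, map_mul, map_add, map_mul, map_mul, e, rescale_X] at h2
      rw [h2]
      ring
  e1 := by
    have h1 := congrArg (rescale a) d.e1
    rw [derivative_rescale]
    simp only [map_sub, map_add, map_mul, map_pow, map_one, rescale_X, rescale_C] at h1 ⊢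
    linear_combination h1
  e2 := by
    have h1 := congrArg (rescale a) d.e2
    rw [derivative_rescale]
    simp only [map_add, map_mul, rescale_X] at h1 ⊢
    linear_combination h1
  s0 := by
    rw [← coeff_zero_eq_constantCoeff_apply, coeff_rescale, pow_zero, one_mul,
      coeff_zero_eq_constantCoeff_apply, d.s0]
  s1 := by
    rw [coeff_rescale, d.s1, mul_zero]

/-- the values of the sigma functions of two curves which are, modulo `p ^ k`, isomorphic -/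
theorem Dat.ev_scale (hp2 : p ≠ 2) (k : ℕ) {A B A' B' a : ℤ_[p]}
    {s s' : ℤ_[p]⟦X⟧} (ha : PadicInt.toZMod a = 1)
    (hA : (p : ℤ_[p]) ^ k ∣ A' - a ^ 4 * A) (hB : (p : ℤ_[p]) ^ k ∣ B' - a ^ 6 * B)
    (hH : hasse p (PadicInt.toZMod A) (PadicInt.toZMod B) ≠ 0)
    (d : Dat A B s) (d' : Dat A' B' s') {t t' : ℤ_[p]} (ht : (p : ℤ_[p]) ∣ t)
    (ht' : (p : ℤ_[p]) ∣ t') (htt : (p : ℤ_[p]) ^ k ∣ a * t' - t) :
    (p : ℤ_[p]) ^ k ∣ ev t' s' - ev t s := by
  have h1 : (p : ℤ_[p]) ^ k ∣ ev t' s' - ev t' (rescale a s) := by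
    refine Dat.ev_compare hp2 k ?_ ?_ ?_ (d.scale a) d' ht'
    · rw [eq_comm, ← sub_eq_zero, ← map_sub, toZModPow_eq_zero_iff]
      exact hA
    · rw [eq_comm, ← sub_eq_zero, ← map_sub, toZModPow_eq_zero_iff]
      exact hB
    · rw [map_mul, map_mul, map_pow, map_pow, ha, one_pow, one_pow, one_mul, one_mul]
      exact hH
  rw [ev_rescale] at h1
  have h2 := ev_congr (ht'.mul_left a) ht htt s
  have h3 := dvd_add h1 h2
  rwa [sub_add_sub_cancel] at h3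

end Pool.Agent.Y732
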