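import Pool.Agent.Y732.Defs

/-!
# Many curves with a marked integral point
-/

set_option autoImplicit false

namespace Pool.Agent.Y732

open Finset

lemma class_card_le (a : ℤ) (N r : ℕ) (hr : 0 < r) (v : ℤ) :
    (((Ico a (a + N)).filter fun z => z ≡ v [ZMOD r]).card : ℚ) ≤ N / r + 1 := by
  have hr' : (0 : ℤ) < r := by exact_mod_cast hr
  have h := Int.Ico_filter_modEq_card a (a + N) hr' v
  have h0 : (0 : ℚ) ≤ N / r + 1 := by positivity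
  have h2 : ((((Ico a (a + N)).filter fun z => z ≡ v [ZMOD r]).card : ℤ) : ℚ) ≤ N / r + 1 := by
    rw [h]
    push_cast
    apply max_le _ h0
    have h3 := Int.ceil_lt_add_one (((a : ℚ) + N - v) / (r : ℚ))
    have h4 := Int.le_ceil (((a : ℚ) - v) / (r : ℚ))
    have h5 : ((a : ℚ) + N - v) / (r : ℚ) = ((a : ℚ) - v) / (r : ℚ) + N / r := by ring
    linarith
  exact_mod_cast h2

lemma class_card_ge (a : ℤ) (N r : ℕ) (hr : 0 < r) (v : ℤ) :
    (N : ℚ) / r - 1 ≤ (((Ico a (a + N)).filter fun z => z ≡ v [ZMOD r]).card : ℚ) := by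
  have hr' : (0 : ℤ) < r := by exact_mod_cast hr
  have h := Int.Ico_filter_modEq_card a (a + N) hr' v
  have h2 : (N : ℚ) / r - 1 ≤ ((((Ico a (a + N)).filter fun z => z ≡ v [ZMOD r]).card : ℤ) : ℚ) := by
    rw [h]
    push_cast
    apply le_max_of_le_left
    have h3 := Int.ceil_lt_add_one (((a : ℚ) - v) / (r : ℚ))
    have h4 := Int.le_ceil (((a : ℚ) + N - v) / (r : ℚ))
    have h5 : ((a : ℚ) + N - v) / (r : ℚ) = ((a : ℚ) - v) / (r : ℚ) + N / r := by ring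
    linarith
  exact_mod_cast h2

lemma sum_inv_sq (N : ℕ) : ∑ ℓ ∈ Icc 3 N, (1 : ℚ) / (ℓ : ℚ) ^ 2 ≤ 1 / 2 := by
  have h : ∀ N : ℕ, 2 ≤ N → ∑ ℓ ∈ Icc 3 N, (1 : ℚ) / (ℓ : ℚ) ^ 2 ≤ 1 / 2 - 1 / N := by
    intro N hN
    induction N, hN using Nat.le_induction with
    | base => simp
    | succ n hn ih =>
      rw [sum_Icc_succ_top (by omega)]
      have hn0 : (0 : ℚ) < n := by
        have : 0 < n := by omega
        exact_mod_cast this
      have h1 : (1 : ℚ) / ((n + 1 : ℕ) : ℚ) ^ 2 ≤ 1 / n - 1 / ((n + 1 : ℕ) : ℚ) := by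
        push_cast
        rw [div_sub_div _ _ hn0.ne' (by positivity), div_le_div_iff₀ (by positivity) (by positivity)]
        nlinarith
      linarith
  rcases Nat.lt_or_ge N 2 with h2 | h2
  · rw [Icc_eq_empty (by omega), sum_empty]
    norm_num
  · have h3 := h N h2
    have h4 : (0 : ℚ) ≤ 1 / N := by positivity
    linarith

/-- an upper bound for the number of pairs divisible by `ℓ` -/
lemma bad_le (a : ℤ) (N q ℓ : ℕ) (hq : 0 < q) (hℓ : 0 < ℓ) (hc : Nat.Coprime q ℓ) (v w : ℤ) :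
    (((Ico a (a + N)).filter fun z => z ≡ v [ZMOD q] ∧ (ℓ : ℤ) ∣ z + w).card : ℚ) ≤
      N / (q * ℓ) + 1 := by
  rcases ((Ico a (a + N)).filter fun z => z ≡ v [ZMOD q] ∧ (ℓ : ℤ) ∣ z + w).eq_empty_or_nonempty
    with h | ⟨z₀, hz₀⟩
  · rw [h, card_empty]
    push_cast
    positivity
  · rw [mem_filter] at hz₀
    have h1 : ((Ico a (a + N)).filter fun z => z ≡ v [ZMOD q] ∧ (ℓ : ℤ) ∣ z + w) ⊆
        (Ico a (a + N)).filter fun z => z ≡ z₀ [ZMOD (q * ℓ : ℕ)] := by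
      intro z hz
      rw [mem_filter] at hz ⊢
      refine ⟨hz.1, ?_⟩
      push_cast
      rw [← Int.modEq_and_modEq_iff_modEq_mul (by simpa using hc)]
      refine ⟨hz.2.1.trans hz₀.2.1.symm, ?_⟩
      have h2 := dvd_sub hz₀.2.2 hz.2.2
      rw [add_sub_add_right_eq_sub] at h2
      exact Int.modEq_iff_dvd.2 h2
    have h2 := card_le_card h1
    have h3 := class_card_le a N (q * ℓ) (Nat.mul_pos hq hℓ) z₀
    push_cast at h3
    calc _ ≤ (((Ico a (a + N)).filter fun z => z ≡ z₀ [ZMOD (q * ℓ : ℕ)]).card : ℚ) := by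
          exact_mod_cast h2
      _ ≤ _ := by
          push_cast
          exact h3

open scoped Classical in
/-- the pairs `(A, y)` for a given `x` -/
lemma fibre_card (a x : ℤ) (N p : ℕ) (hp5 : 5 ≤ p) (hp : p.Prime) (hN : 224 * p ^ 2 ≤ N) (A₁ y₁ : ℤ)
    (hodd : ¬ (2 : ℤ) ∣ 3 * x ^ 2 + A₁)
    (hgood : ¬ ((p : ℤ) ∣ 2 * y₁ ∧ (p : ℤ) ∣ 3 * x ^ 2 + A₁)) :
    (N : ℚ) ^ 2 / (16 * p ^ 2) ≤ ((((Ico a (a + N)) ×ˢ (Ico (1 : ℤ) (1 + N))).filter
      fun z : ℤ × ℤ =>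
      (z.1 ≡ A₁ [ZMOD (2 * p : ℕ)] ∧ z.2 ≡ y₁ [ZMOD (2 * p : ℕ)]) ∧ NS z.1 x z.2).card : ℚ) := by
  set q : ℕ := 2 * p with hq
  have hq0 : 0 < q := by omega
  set S : Finset (ℤ × ℤ) := ((Ico a (a + N)).filter fun z => z ≡ A₁ [ZMOD q]) ×ˢ
    ((Ico (1 : ℤ) (1 + N)).filter fun z => z ≡ y₁ [ZMOD q]) with hS
  set L : Finset ℕ := (Icc 3 N).filter fun ℓ => Nat.Coprime q ℓ with hL
  set Bd : ℕ → Finset (ℤ × ℤ) := fun ℓ =>
    ((Ico a (a + N)).filter fun z => z ≡ A₁ [ZMOD q] ∧ (ℓ : ℤ) ∣ z + 3 * x ^ 2) ×ˢ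
    ((Ico (1 : ℤ) (1 + N)).filter fun z => z ≡ y₁ [ZMOD q] ∧ (ℓ : ℤ) ∣ z + 0) with hBd
  set G : Finset (ℤ × ℤ) := ((Ico a (a + N)) ×ˢ (Ico (1 : ℤ) (1 + N))).filter fun z : ℤ × ℤ =>
      (z.1 ≡ A₁ [ZMOD (q : ℕ)] ∧ z.2 ≡ y₁ [ZMOD (q : ℕ)]) ∧ NS z.1 x z.2 with hG
  have hcover : S ⊆ G ∪ L.biUnion Bd := by
    rintro ⟨A, y⟩ hz
    rw [hS, mem_product, mem_filter, mem_filter] at hz
    obtain ⟨⟨hA, hA1⟩, ⟨hy, hy1⟩⟩ := hz
    simp only at hA hA1 hy hy1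
    rw [mem_union]
    by_cases hns : NS A x y
    · left
      rw [hG, mem_filter, mem_product]
      exact ⟨⟨hA, hy⟩, ⟨hA1, hy1⟩, hns⟩
    · right
      unfold NS at hns
      push Not at hns
      obtain ⟨ℓ, hℓ, h1, h2⟩ := hns
      have hA2 : (2 : ℤ) ∣ A - A₁ := by
        have := hA1.symm.dvd
        exact (Dvd.intro _ (by rw [hq]; push_cast; rfl)).trans this
      have hAp : (p : ℤ) ∣ A - A₁ := by
        have := hA1.symm.dvd
        exact (Dvd.intro_left _ (by rw [hq]; push_cast; rfl)).trans this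
      have hyp : (p : ℤ) ∣ y - y₁ := by
        have := hy1.symm.dvd
        exact (Dvd.intro_left _ (by rw [hq]; push_cast; rfl)).trans this
      have hℓ2 : ℓ ≠ 2 := by
        rintro rfl
        apply hodd
        have : (3 * x ^ 2 + A₁) = (3 * x ^ 2 + A) - (A - A₁) := by ring
        rw [this]
        exact dvd_sub (by exact_mod_cast h2) hA2
      have hℓp : ℓ ≠ p := by
        rintro rfl
        apply hgood
        constructor
        · have : 2 * y₁ = 2 * y - 2 * (y - y₁) := by ring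
          rw [this]
          exact dvd_sub h1 (hyp.mul_left _)
        · have : (3 * x ^ 2 + A₁) = (3 * x ^ 2 + A) - (A - A₁) := by ring
          rw [this]
          exact dvd_sub h2 hAp
      have hℓy : (ℓ : ℤ) ∣ y := by
        rcases (Nat.prime_iff_prime_int.1 hℓ).dvd_or_dvd h1 with h3 | h3
        · have h4 : ℓ ∣ 2 := by exact_mod_cast h3
          exact absurd ((Nat.prime_dvd_prime_iff_eq hℓ Nat.prime_two).1 h4) hℓ2
        · exact h3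
      rw [mem_Ico] at hy
      have hℓN : ℓ ≤ N := by
        have := Int.le_of_dvd (by omega) hℓy
        omega
      have hℓ3 : 3 ≤ ℓ := by
        have := hℓ.two_le
        omega
      rw [mem_biUnion]
      refine ⟨ℓ, ?_, ?_⟩
      · rw [hL, mem_filter, mem_Icc]
        refine ⟨⟨hℓ3, hℓN⟩, ?_⟩
        rw [hq]
        apply Nat.Coprime.mul_left
        · exact ((Nat.coprime_primes Nat.prime_two hℓ).2 (Ne.symm hℓ2))
        · exact ((Nat.coprime_primes hp hℓ).2 (Ne.symm hℓp))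
      · rw [hBd]
        simp only [mem_product, mem_filter, mem_Ico]
        refine ⟨⟨by simpa using hA, hA1, ?_⟩, ⟨hy, hy1, ?_⟩⟩
        · rwa [add_comm]
        · rwa [add_zero]
  have h1 : (S.card : ℚ) ≤ G.card + ∑ ℓ ∈ L, ((Bd ℓ).card : ℚ) := by
    have h2 := (card_le_card hcover).trans ((card_union_le _ _).trans
      (Nat.add_le_add_left card_biUnion_le _))
    exact_mod_cast h2
  have hNq : (1 : ℚ) ≤ N / q := by
    rw [le_div_iff₀ (by exact_mod_cast hq0), one_mul]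
    have : q ≤ N := by
      rw [hq]
      nlinarith
    exact_mod_cast this
  have h2 : ((N : ℚ) / q - 1) ^ 2 ≤ S.card := by
    rw [hS, card_product]
    push_cast
    rw [pow_two]
    apply mul_le_mul (class_card_ge a N q hq0 A₁) (class_card_ge 1 N q hq0 y₁) (by linarith)
    positivity
  have h3 : ∀ ℓ ∈ L, ((Bd ℓ).card : ℚ) ≤ 5 / 4 * ((N : ℚ) / q) ^ 2 * (1 / (ℓ : ℚ) ^ 2) + 5 := by
    intro ℓ hℓ
    rw [hL, mem_filter, mem_Icc] at hℓ
    have hℓ0 : 0 < ℓ := by omega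
    have hℓQ : (0 : ℚ) < ℓ := by exact_mod_cast hℓ0
    have hqQ : (0 : ℚ) < q := by exact_mod_cast hq0
    have h4 := bad_le a N q ℓ hq0 hℓ0 hℓ.2 A₁ (3 * x ^ 2)
    have h5 := bad_le 1 N q ℓ hq0 hℓ0 hℓ.2 y₁ 0
    rw [hBd]
    simp only [card_product]
    push_cast
    have h6 : ((N : ℚ) / (q * ℓ) + 1) ^ 2 ≤ 5 / 4 * ((N : ℚ) / q) ^ 2 * (1 / (ℓ : ℚ) ^ 2) + 5 := by
      have e : 5 / 4 * ((N : ℚ) / q) ^ 2 * (1 / (ℓ : ℚ) ^ 2) = 5 / 4 * ((N : ℚ) / (q * ℓ)) ^ 2 := by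
        field_simp
      rw [e]
      nlinarith [sq_nonneg ((N : ℚ) / (q * ℓ) / 2 - 2)]
    refine le_trans (mul_le_mul h4 h5 (by positivity) (by positivity)) (le_trans ?_ h6)
    rw [← pow_two]
  have h4 : ∑ ℓ ∈ L, ((Bd ℓ).card : ℚ) ≤ 5 / 8 * ((N : ℚ) / q) ^ 2 + 5 * N := by
    calc ∑ ℓ ∈ L, ((Bd ℓ).card : ℚ) ≤
          ∑ ℓ ∈ L, (5 / 4 * ((N : ℚ) / q) ^ 2 * (1 / (ℓ : ℚ) ^ 2) + 5) := sum_le_sum h3
      _ ≤ ∑ ℓ ∈ Icc 3 N, (5 / 4 * ((N : ℚ) / q) ^ 2 * (1 / (ℓ : ℚ) ^ 2) + 5) := by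
          apply sum_le_sum_of_subset_of_nonneg (filter_subset _ _)
          intro ℓ _ _
          positivity
      _ = 5 / 4 * ((N : ℚ) / q) ^ 2 * (∑ ℓ ∈ Icc 3 N, (1 : ℚ) / (ℓ : ℚ) ^ 2) +
          5 * ((Icc 3 N).card : ℚ) := by
          rw [sum_add_distrib, ← mul_sum, sum_const, nsmul_eq_mul]
          ring
      _ ≤ 5 / 4 * ((N : ℚ) / q) ^ 2 * (1 / 2) + 5 * N := by
          have h5 : ((Icc 3 N).card : ℚ) ≤ N := by
            rw [Nat.card_Icc]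
            have : N + 1 - 3 ≤ N := by omega
            exact_mod_cast this
          have h6 := sum_inv_sq N
          have h7 : (0 : ℚ) ≤ 5 / 4 * ((N : ℚ) / q) ^ 2 := by positivity
          nlinarith
      _ = _ := by ring
  have h5 : (N : ℚ) ^ 2 / (16 * p ^ 2) = 1 / 4 * ((N : ℚ) / q) ^ 2 := by
    have hpQ : (p : ℚ) ≠ 0 := by exact_mod_cast hp.ne_zero
    rw [hq]
    push_cast
    field_simp
    ring
  have hgoal : (N : ℚ) ^ 2 / (16 * p ^ 2) ≤ G.card := by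
    rw [h5]
    -- `(1/8) (N/q)² ≥ 7 N`
    have h6 : 56 * (N : ℚ) ≤ ((N : ℚ) / q) ^ 2 := by
      have hqQ : (0 : ℚ) < q := by exact_mod_cast hq0
      rw [div_pow, le_div_iff₀ (by positivity)]
      have h7 : 56 * (q : ℚ) ^ 2 ≤ N := by
        have : 56 * q ^ 2 ≤ N := by
          rw [hq]
          nlinarith
        exact_mod_cast this
      have h8 : (0 : ℚ) ≤ N := by positivity
      nlinarith
    have h9 : (N : ℚ) / q ≤ N := by
      apply div_le_self (by positivity)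
      exact_mod_cast hq0
    nlinarith
  exact hgoal

open scoped Classical in
/-- Every residue class modulo `p` of good reduction contains many curves with a marked point. -/
theorem fam_card (a₁ a₂ : ℤ) (N p : ℕ) (hp5 : 5 ≤ p) (hp : p.Prime) (hN : 224 * p ^ 2 ≤ N)
    (A₀ x₀ y₀ : ℤ) (hgood : ¬ (p : ℤ) ∣ 4 * A₀ ^ 3 + 27 * Bf A₀ x₀ y₀ ^ 2) :
    N ^ 3 ≤ 64 * p ^ 3 * (((Ico a₁ (a₁ + N)) ×ˢ (Ico a₂ (a₂ + N)) ×ˢ (Ico (1 : ℤ) (1 + N))).filter
      fun v : ℤ × ℤ × ℤ => (v.1 ≡ A₀ [ZMOD p] ∧ v.2.1 ≡ x₀ [ZMOD p] ∧ v.2.2 ≡ y₀ [ZMOD p]) ∧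
        Marked v).card := by
  set q : ℕ := 2 * p with hq
  have hq0 : 0 < q := by omega
  have hodd : Odd p := hp.eq_two_or_odd'.resolve_left (by omega)
  set A₁ : ℤ := A₀ + p * (A₀ + 1) with hA₁
  set x₁ : ℤ := x₀ + p * x₀ with hx₁
  set Xs : Finset ℤ := (Ico a₂ (a₂ + N)).filter fun z => z ≡ x₁ [ZMOD q] with hXs
  set G : ℤ → Finset (ℤ × ℤ) := fun x => ((Ico a₁ (a₁ + N)) ×ˢ (Ico (1 : ℤ) (1 + N))).filter
      fun z : ℤ × ℤ => (z.1 ≡ A₁ [ZMOD (2 * p : ℕ)] ∧ z.2 ≡ y₀ [ZMOD (2 * p : ℕ)]) ∧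
        NS z.1 x z.2 with hG
  set F : Finset (ℤ × ℤ × ℤ) := ((Ico a₁ (a₁ + N)) ×ˢ (Ico a₂ (a₂ + N)) ×ˢ
      (Ico (1 : ℤ) (1 + N))).filter
      fun v : ℤ × ℤ × ℤ => (v.1 ≡ A₀ [ZMOD p] ∧ v.2.1 ≡ x₀ [ZMOD p] ∧ v.2.2 ≡ y₀ [ZMOD p]) ∧
        Marked v with hF
  have hAA : A₁ ≡ A₀ [ZMOD p] := by
    rw [hA₁]
    exact Int.modEq_iff_dvd.2 ⟨-(A₀ + 1), by ring⟩
  have hxx : x₁ ≡ x₀ [ZMOD p] := by
    rw [hx₁]
    exact Int.modEq_iff_dvd.2 ⟨-x₀, by ring⟩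
  have hpq : ∀ {a b : ℤ}, a ≡ b [ZMOD q] → a ≡ b [ZMOD p] := by
    intro a b h
    exact h.of_dvd (Dvd.intro_left _ (by rw [hq]; push_cast; rfl))
  have h2q : ∀ {a b : ℤ}, a ≡ b [ZMOD q] → a ≡ b [ZMOD 2] := by
    intro a b h
    exact h.of_dvd (Dvd.intro _ (by rw [hq]; push_cast; rfl))
  have hfib : ∀ x ∈ Xs, (N : ℚ) ^ 2 / (16 * p ^ 2) ≤ (G x).card := by
    intro x hx
    rw [hXs, mem_filter] at hx
    apply fibre_card a₁ x N p hp5 hp hN A₁ y₀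
    · intro h
      have hx2 : (2 : ℤ) ∣ x := by
        have h1 := (h2q hx.2).dvd
        have h2 : (2 : ℤ) ∣ x₁ := by
          rw [hx₁]
          obtain ⟨j, hj⟩ := hodd
          exact ⟨(j + 1) * x₀, by rw [hj]; push_cast; ring⟩
        have h3 := dvd_sub h2 h1
        rwa [sub_sub_cancel] at h3
      have hA2 : ¬ (2 : ℤ) ∣ A₁ := by
        rw [hA₁]
        obtain ⟨j, hj⟩ := hodd
        intro h1
        have h2 : (A₀ + (p : ℤ) * (A₀ + 1)) = 2 * (A₀ + j * (A₀ + 1)) + 1 := by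
          rw [hj]
          push_cast
          ring
        rw [h2] at h1
        omega
      apply hA2
      have h4 : A₁ = (3 * x ^ 2 + A₁) - x * (3 * x) := by ring
      rw [h4]
      exact dvd_sub h (hx2.mul_right _)
    · rintro ⟨h1, h2⟩
      apply hgood
      have h3 : x ≡ x₀ [ZMOD p] := (hpq hx.2).trans hxx
      have h4 : (p : ℤ) ∣ 3 * x₀ ^ 2 + A₀ := by
        have h5 : 3 * x ^ 2 + A₁ ≡ 3 * x₀ ^ 2 + A₀ [ZMOD p] :=
          ((h3.pow 2).mul_left 3).add hAA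
        exact (Int.ModEq.dvd_iff h5).1 h2
      have hp2 : (p : ℤ) ∣ y₀ := by
        rcases (Nat.prime_iff_prime_int.1 hp).dvd_or_dvd h1 with h5 | h5
        · have h6 : p ∣ 2 := by exact_mod_cast h5
          have := (Nat.prime_dvd_prime_iff_eq hp Nat.prime_two).1 h6
          omega
        · exact h5
      have h5 : 4 * A₀ ^ 3 + 27 * Bf A₀ x₀ y₀ ^ 2 =
          (-18 * A₀ * x₀ + 27 * Bf A₀ x₀ y₀) * (y₀ * y₀) +
          (6 * A₀ * x₀ ^ 2 - 9 * Bf A₀ x₀ y₀ * x₀ + 4 * A₀ ^ 2) * (3 * x₀ ^ 2 + A₀) := by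
        unfold Bf
        ring
      rw [h5]
      exact dvd_add ((hp2.mul_right _).mul_left _) (h4.mul_left _)
  have hinj : (Xs.sigma G).card ≤ F.card := by
    apply card_le_card_of_injOn (fun z : (_ : ℤ) × (ℤ × ℤ) => (z.2.1, z.1, z.2.2))
    · rintro ⟨x, A, y⟩ hz
      rw [mem_coe, mem_sigma] at hz
      obtain ⟨hx, hz⟩ := hz
      simp only [hG, mem_filter, mem_product] at hz
      simp only [hXs, mem_filter] at hx
      simp only [hF, mem_coe, mem_filter, mem_product]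
      obtain ⟨⟨hA, hy⟩, ⟨hA1, hy1⟩, hns⟩ := hz
      have c1 : A ≡ A₀ [ZMOD p] := (hpq hA1).trans hAA
      have c2 : x ≡ x₀ [ZMOD p] := (hpq hx.2).trans hxx
      have c3 : y ≡ y₀ [ZMOD p] := hpq hy1
      refine ⟨⟨hA, hx.1, hy⟩, ⟨c1, c2, c3⟩, ?_, ?_, hns⟩
      · intro h0
        apply hgood
        have h1 : Bf A x y ≡ Bf A₀ x₀ y₀ [ZMOD p] :=
          ((c3.pow 2).sub (c2.pow 3)).sub (c1.mul c2)
        have h2 : 4 * A ^ 3 + 27 * Bf A x y ^ 2 ≡ 4 * A₀ ^ 3 + 27 * Bf A₀ x₀ y₀ ^ 2 [ZMOD p] :=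
          ((c1.pow 3).mul_left 4).add ((h1.pow 2).mul_left 27)
        exact (Int.ModEq.dvd_iff h2).1 (by rw [h0]; exact dvd_zero _)
      · simp only [mem_Ico] at hy
        show y ≠ 0
        omega
    · rintro ⟨x, A, y⟩ _ ⟨x', A', y'⟩ _ h
      simp only [Prod.mk.injEq] at h
      obtain ⟨rfl, rfl, rfl⟩ := h
      rfl
  rw [card_sigma] at hinj
  have h1 : (Xs.card : ℚ) * ((N : ℚ) ^ 2 / (16 * p ^ 2)) ≤ F.card := by
    calc (Xs.card : ℚ) * ((N : ℚ) ^ 2 / (16 * p ^ 2)) = ∑ x ∈ Xs, (N : ℚ) ^ 2 / (16 * p ^ 2) := by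
          rw [sum_const, nsmul_eq_mul]
      _ ≤ ∑ x ∈ Xs, ((G x).card : ℚ) := sum_le_sum hfib
      _ ≤ F.card := by exact_mod_cast hinj
  have h2 : (N : ℚ) / (4 * p) ≤ Xs.card := by
    have h3 := class_card_ge a₂ N q hq0 x₁
    have h4 : (2 : ℚ) ≤ N / q := by
      rw [le_div_iff₀ (by exact_mod_cast hq0)]
      have : 2 * q ≤ N := by
        rw [hq]
        nlinarith
      exact_mod_cast this
    have h5 : (N : ℚ) / (4 * p) = (N : ℚ) / q / 2 := by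
      rw [hq]
      push_cast
      rw [div_div]
      congr 1
      ring
    rw [h5]
    linarith
  have hpQ : (0 : ℚ) < p := by exact_mod_cast hp.pos
  have h3 : (N : ℚ) / (4 * p) * ((N : ℚ) ^ 2 / (16 * p ^ 2)) ≤ F.card :=
    (mul_le_mul_of_nonneg_right h2 (by positivity)).trans h1
  have h4 : (N : ℚ) / (4 * p) * ((N : ℚ) ^ 2 / (16 * p ^ 2)) = (N : ℚ) ^ 3 / (64 * p ^ 3) := by
    field_simp
    ring
  rw [h4, div_le_iff₀ (by positivity)] at h3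
  have h5 : (N : ℚ) ^ 3 ≤ 64 * p ^ 3 * F.card := by linarith
  exact_mod_cast h5

end Pool.Agent.Y732
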