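import Pool.Agent.Y732.FamMain

/-!
# The number of members of vanishing regulator
-/

set_option autoImplicit false

namespace Pool.Agent.Y732

open Finset

variable {d r : ℕ}

open scoped Classical in
theorem fam_single {p : ℕ} [hp : Fact p.Prime] (F : Family d r) (hr : 0 < r)
    (hK : F.K.det ≠ 0) (hp5 : 5 ≤ p) (c : Fin d → ℤ) (N : Fin d → ℕ) {N₀ : ℕ}
    (hN : ∀ l, N₀ ≤ N l) :
    ((Fintype.piFinset fun l => Ico (c l) (c l + N l)).filter fun v => F.Van p v).card ^ r * N₀ ≤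
      (2 ^ d * r * F.K.det.natAbs * p ^ 4 * ∏ l, N l) ^ r := by
  apply countF hp.out hr (Int.natAbs_pos.2 hK) F.w c N _ _ hN
  · intro k a e hk he hak v μ hv hμ hc
    refine fam_orbit hp5 hk ?_ hak v μ (fun i => (mem_filter.1 (hv i)).2) hμ hc
    intro h
    apply he
    have h1 := Int.natAbs_dvd_natAbs.2 h
    rw [Int.natAbs_pow, Int.natAbs_natCast] at h1
    exact h1
  · intro v hv l
    have h1 := Fintype.mem_piFinset.1 (mem_filter.1 hv).1 l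
    rw [mem_Ico] at h1
    exact h1

lemma root_bound {r : ℕ} (hr : 0 < r) {Z N₀ M : ℕ} (h : Z ^ r * N₀ ≤ M ^ r) :
    (Z : ℝ) * (N₀ : ℝ) ^ ((1 : ℝ) / r) ≤ M := by
  have h1 : ((Z : ℝ) * (N₀ : ℝ) ^ ((1 : ℝ) / r)) ^ r ≤ (M : ℝ) ^ r := by
    rw [mul_pow, ← Real.rpow_natCast ((N₀ : ℝ) ^ ((1 : ℝ) / r)) r, ← Real.rpow_mul (by positivity),
      one_div, inv_mul_cancel₀ (by exact_mod_cast hr.ne'), Real.rpow_one]
    exact_mod_cast h
  exact (pow_le_pow_iff_left₀ (by positivity) (by positivity) hr.ne').1 h1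

open scoped Classical in
/-- The upper bound: finitely many primes at once. -/
theorem family_card (F : Family d r) (hr : 0 < r) (hK : F.K.det ≠ 0) (S : Finset ℕ)
    (hS : ∀ p ∈ S, p.Prime ∧ 5 ≤ p) (c : Fin d → ℤ) (N : Fin d → ℕ) (N₀ : ℕ)
    (hN : ∀ l, N₀ ≤ N l) :
    (((Fintype.piFinset fun l => Ico (c l) (c l + N l)).filter fun v => F.Marked v ∧
      ∃ p ∈ S, ∃ _ : Fact p.Prime, IsOrdinaryW p (F.curve v) ∧ ¬ F.NonDeg v p).card : ℝ) *
        (N₀ : ℝ) ^ ((1 : ℝ) / r) ≤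
      2 ^ d * r * |(F.K.det : ℝ)| * (∑ p ∈ S, (p : ℝ) ^ 4) * ∏ l, (N l : ℝ) := by
  set Bx := Fintype.piFinset fun l => Ico (c l) (c l + N l) with hBx
  set V : ℕ → Finset (Fin d → ℤ) := fun p =>
    if hp : p.Prime then Bx.filter fun v => @Family.Van d r F p ⟨hp⟩ v else ∅ with hV
  have h1 : (Bx.filter fun v => F.Marked v ∧ ∃ p ∈ S, ∃ _ : Fact p.Prime,
      IsOrdinaryW p (F.curve v) ∧ ¬ F.NonDeg v p) ⊆ S.biUnion V := by
    intro v hv
    rw [mem_filter] at hv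
    obtain ⟨hb, hm, p, hpS, hp, ho, hn⟩ := hv
    rw [mem_biUnion]
    refine ⟨p, hpS, ?_⟩
    rw [hV]
    simp only
    rw [dif_pos hp.out, mem_filter]
    exact ⟨hb, F.van_of_not hr hm ho hn⟩
  have h2 : ∀ p ∈ S, ((V p).card : ℝ) * (N₀ : ℝ) ^ ((1 : ℝ) / r) ≤
      2 ^ d * r * |(F.K.det : ℝ)| * (p : ℝ) ^ 4 * ∏ l, (N l : ℝ) := by
    intro p hp
    obtain ⟨hpp, hp5⟩ := hS p hp
    have : Fact p.Prime := ⟨hpp⟩
    have h3 := root_bound hr (fam_single F hr hK hp5 c N hN)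
    have h4 : V p = Bx.filter fun v => F.Van p v := by
      rw [hV]
      simp only
      rw [dif_pos hpp]
    rw [h4]
    refine h3.trans (le_of_eq ?_)
    push_cast
    rw [Nat.cast_natAbs]
    push_cast
    ring
  calc _ ≤ ((S.biUnion V).card : ℝ) * (N₀ : ℝ) ^ ((1 : ℝ) / r) :=
        mul_le_mul_of_nonneg_right (by exact_mod_cast card_le_card h1) (by positivity)
    _ ≤ ((∑ p ∈ S, (V p).card : ℕ) : ℝ) * (N₀ : ℝ) ^ ((1 : ℝ) / r) :=
        mul_le_mul_of_nonneg_right (by exact_mod_cast card_biUnion_le) (by positivity)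
    _ = ∑ p ∈ S, ((V p).card : ℝ) * (N₀ : ℝ) ^ ((1 : ℝ) / r) := by
        push_cast
        rw [sum_mul]
    _ ≤ ∑ p ∈ S, 2 ^ d * r * |(F.K.det : ℝ)| * (p : ℝ) ^ 4 * ∏ l, (N l : ℝ) := sum_le_sum h2
    _ = _ := by rw [mul_sum, sum_mul]

end Pool.Agent.Y732
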