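import Pool.Agent.Y732.RegCmp

/-!
# Singular matrices along the scaling
-/

set_option autoImplicit false

namespace Pool.Agent.Y732

open Polynomial Matrix

variable {p : ℕ} [hp : Fact p.Prime]

lemma prod_diff {ι : Type*} [DecidableEq ι] {C ε : ℝ} (hC : 0 ≤ C) (hε : 0 ≤ ε) (s : Finset ι)
    {a b : ι → ℚ_[p]} (ha : ∀ i ∈ s, ‖a i‖ ≤ C) (hb : ∀ i ∈ s, ‖b i‖ ≤ C)
    (hd : ∀ i ∈ s, ‖a i - b i‖ ≤ ε) :
    C * ‖∏ i ∈ s, a i - ∏ i ∈ s, b i‖ ≤ C ^ s.card * ε := by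
  have hprod : ∀ s : Finset ι, (∀ i ∈ s, ‖a i‖ ≤ C) → ‖∏ i ∈ s, a i‖ ≤ C ^ s.card := by
    intro s hs
    rw [norm_prod]
    calc ∏ i ∈ s, ‖a i‖ ≤ ∏ _i ∈ s, C := Finset.prod_le_prod (fun _ _ => norm_nonneg _) hs
      _ = C ^ s.card := by rw [Finset.prod_const]
  induction s using Finset.induction_on with
  | empty => simpa using hε
  | insert i s hi ih =>
    rw [Finset.prod_insert hi, Finset.prod_insert hi, Finset.card_insert_of_notMem hi]
    have h1 := ih (fun j hj => ha j (Finset.mem_insert_of_mem hj))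
      (fun j hj => hb j (Finset.mem_insert_of_mem hj))
      (fun j hj => hd j (Finset.mem_insert_of_mem hj))
    have e : a i * ∏ j ∈ s, a j - b i * ∏ j ∈ s, b j =
        (a i - b i) * ∏ j ∈ s, a j + b i * (∏ j ∈ s, a j - ∏ j ∈ s, b j) := by ring
    rw [e]
    have h2 : C * ‖(a i - b i) * ∏ j ∈ s, a j‖ ≤ C ^ (s.card + 1) * ε := by
      rw [norm_mul]
      have h3 := mul_le_mul (hd i (Finset.mem_insert_self _ _))
        (hprod s fun j hj => ha j (Finset.mem_insert_of_mem hj)) (norm_nonneg _) hε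
      calc C * (‖a i - b i‖ * ‖∏ j ∈ s, a j‖) ≤ C * (ε * C ^ s.card) :=
            mul_le_mul_of_nonneg_left h3 hC
        _ = _ := by ring
    have h4 : C * ‖b i * (∏ j ∈ s, a j - ∏ j ∈ s, b j)‖ ≤ C ^ (s.card + 1) * ε := by
      rw [norm_mul]
      calc C * (‖b i‖ * ‖∏ j ∈ s, a j - ∏ j ∈ s, b j‖) =
            ‖b i‖ * (C * ‖∏ j ∈ s, a j - ∏ j ∈ s, b j‖) := by ring
        _ ≤ C * (C ^ s.card * ε) := mul_le_mul (hb i (Finset.mem_insert_self _ _)) h1
            (by positivity) hC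
        _ = _ := by ring
    rcases max_choice ‖(a i - b i) * ∏ j ∈ s, a j‖ ‖b i * (∏ j ∈ s, a j - ∏ j ∈ s, b j)‖ with h | h
    · exact (mul_le_mul_of_nonneg_left ((IsUltrametricDist.norm_add_le_max _ _).trans h.le) hC).trans
        h2
    · exact (mul_le_mul_of_nonneg_left ((IsUltrametricDist.norm_add_le_max _ _).trans h.le) hC).trans
        h4

lemma sum_le {ι : Type*} [DecidableEq ι] {c : ℝ} (hc : 0 ≤ c) (s : Finset ι) {f : ι → ℚ_[p]}
    (hf : ∀ i ∈ s, ‖f i‖ ≤ c) : ‖∑ i ∈ s, f i‖ ≤ c := by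
  induction s using Finset.induction_on with
  | empty => simpa using hc
  | insert i s hi ih =>
    rw [Finset.sum_insert hi]
    exact (IsUltrametricDist.norm_add_le_max _ _).trans (max_le (hf i (Finset.mem_insert_self _ _))
      (ih fun j hj => hf j (Finset.mem_insert_of_mem hj)))

lemma det_diff {r : ℕ} {C ε : ℝ} (hC : 0 < C) (hε : 0 ≤ ε) {A B : Matrix (Fin r) (Fin r) ℚ_[p]}
    (hA : ∀ i j, ‖A i j‖ ≤ C) (hB : ∀ i j, ‖B i j‖ ≤ C) (hd : ∀ i j, ‖A i j - B i j‖ ≤ ε) :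
    ‖A.det - B.det‖ ≤ C ^ r * ε / C := by
  rw [det_apply, det_apply, ← Finset.sum_sub_distrib]
  apply sum_le (by positivity)
  intro σ _
  have h1 : ‖∏ i, A (σ i) i - ∏ i, B (σ i) i‖ ≤ C ^ r * ε / C := by
    rw [le_div_iff₀ hC, mul_comm]
    have := prod_diff hC.le hε (Finset.univ : Finset (Fin r)) (a := fun i => A (σ i) i)
      (b := fun i => B (σ i) i) (fun i _ => hA _ _) (fun i _ => hB _ _) (fun i _ => hd _ _)
    rwa [Finset.card_univ, Fintype.card_fin] at this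
  rw [← smul_sub]
  rcases Int.units_eq_one_or (Equiv.Perm.sign σ) with h | h
  · rw [h, one_smul]
    exact h1
  · rw [h, Units.neg_smul, one_smul, norm_neg]
    exact h1

/-- the norm of an integer -/
lemma int_norm_ge {a : ℕ} {z : ℤ} (h : ¬ (p : ℤ) ^ (a + 1) ∣ z) :
    ((p : ℝ)⁻¹) ^ a ≤ ‖(z : ℚ_[p])‖ := by
  by_contra h1
  rw [not_le] at h1
  have h2 : ‖(z : ℚ_[p])‖ ≤ (p : ℝ) ^ (-((a + 1 : ℕ) : ℤ)) := by
    apply (Padic.norm_le_pow_iff_norm_lt_pow_add_one (z : ℚ_[p]) (-((a + 1 : ℕ) : ℤ))).2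
    have e : (p : ℝ) ^ (-((a + 1 : ℕ) : ℤ) + 1) = ((p : ℝ)⁻¹) ^ a := by
      rw [inv_pow, ← zpow_natCast, ← _root_.zpow_neg]
      congr 1
      push_cast
      ring
    rw [e]
    exact h1
  have h3 := (Padic.norm_int_le_pow_iff_dvd z (a + 1)).1 h2
  exact h (by exact_mod_cast h3)

/-- `r + 1` singular matrices on one orbit: two of the multipliers are close -/
theorem orbit_close {r k a c : ℕ} (hk : 1 ≤ k) {K : Matrix (Fin r) (Fin r) ℤ}
    (hc : ¬ (p : ℤ) ^ (c + 1) ∣ K.det)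
    {l : Fin (r + 1) → ℚ_[p]} {M : Fin (r + 1) → Matrix (Fin r) (Fin r) ℚ_[p]}
    (hM : ∀ i, (M i).det = 0) (hb : ∀ i j j', ‖M i j j'‖ ≤ p)
    (hd : ∀ i j j', ‖M i j j' - M 0 j j' - (l i - l 0) * (K j j' : ℚ_[p])‖ ≤
      (p : ℝ) ^ 2 * ((p : ℝ)⁻¹) ^ k)
    (hak : r * a + r + 1 + c < k) (hl : ∀ i j, i ≠ j → ((p : ℝ)⁻¹) ^ a ≤ ‖l i - l j‖) :
    False := by
  have hp0 : (0 : ℝ) < p := by exact_mod_cast hp.out.pos
  have hp1 : (1 : ℝ) < p := by exact_mod_cast hp.out.one_lt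
  have hinv1 : (p : ℝ)⁻¹ < 1 := inv_lt_one_of_one_lt₀ hp1
  obtain ⟨ε, hε⟩ : ∃ ε : ℝ, ε = (p : ℝ) ^ 2 * ((p : ℝ)⁻¹) ^ k := ⟨_, rfl⟩
  have hε0 : 0 ≤ ε := by rw [hε]; positivity
  have hεp : ε ≤ p := by
    have h1 : ((p : ℝ)⁻¹) ^ k ≤ ((p : ℝ)⁻¹) ^ 1 :=
      pow_le_pow_of_le_one (by positivity) hinv1.le hk
    calc ε ≤ (p : ℝ) ^ 2 * ((p : ℝ)⁻¹) ^ 1 := by
          rw [hε]
          exact mul_le_mul_of_nonneg_left h1 (by positivity)
      _ = p := by field_simp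
  rw [← hε] at hd
  -- the determinants of the shifted matrices
  set KK : Matrix (Fin r) (Fin r) ℚ_[p] := K.map (Int.castRingHom ℚ_[p]) with hKK
  have hKKe : ∀ j j', KK j j' = (K j j' : ℚ_[p]) := fun j j' => rfl
  have hKKd : KK.det = (K.det : ℚ_[p]) := by
    have h1 := RingHom.map_det (Int.castRingHom ℚ_[p]) K
    exact h1.symm
  set F : ℚ_[p][X] := det ((X : ℚ_[p][X]) • KK.map C + (M 0).map C) with hF
  have hev : ∀ s : ℚ_[p], F.eval s = (s • KK + M 0).det := by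
    intro s
    rw [hF, ← coe_evalRingHom, RingHom.map_det]
    congr 1
    ext i j
    simp
    ring
  have hsmall : ∀ i, ‖F.eval (l i - l 0)‖ ≤ (p : ℝ) ^ r * ε / p := by
    intro i
    rw [hev]
    have h2 : ∀ j j', ‖M i j j' - ((l i - l 0) • KK + M 0) j j'‖ ≤ ε := by
      intro j j'
      have e : M i j j' - ((l i - l 0) • KK + M 0) j j' =
          M i j j' - M 0 j j' - (l i - l 0) * (K j j' : ℚ_[p]) := by
        rw [Matrix.add_apply, Matrix.smul_apply, smul_eq_mul, hKKe]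
        ring
      rw [e]
      exact hd i j j'
    have h3 : ∀ j j', ‖((l i - l 0) • KK + M 0) j j'‖ ≤ p := by
      intro j j'
      have e : ((l i - l 0) • KK + M 0) j j' =
          M i j j' - (M i j j' - ((l i - l 0) • KK + M 0) j j') := by ring
      rw [e, sub_eq_add_neg]
      refine (IsUltrametricDist.norm_add_le_max _ _).trans (max_le (hb i j j') ?_)
      rw [norm_neg]
      exact (h2 j j').trans hεp
    have h4 := det_diff hp0 hε0 (hb i) h3 h2
    rwa [hM i, zero_sub, norm_neg] at h4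
  have hinj : Set.InjOn (fun i => l i - l 0) ((Finset.univ : Finset (Fin (r + 1))) : Set _) := by
    intro i _ j _ hij
    by_contra hne
    have h5 := hl i j hne
    have h6 : l i - l j = 0 := by linear_combination hij
    rw [h6, norm_zero] at h5
    have h7 : 0 < ((p : ℝ)⁻¹) ^ a := by positivity
    linarith
  have hdeg : F.degree < (Finset.univ : Finset (Fin (r + 1))).card := by
    rw [Finset.card_univ, Fintype.card_fin]
    have h5 := natDegree_det_X_add_C_le KK (M 0)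
    rw [← hF, Fintype.card_fin] at h5
    refine lt_of_le_of_lt degree_le_natDegree ?_
    exact_mod_cast Nat.lt_succ_of_le h5
  have key := Lagrange.coeff_eq_sum hinj hdeg
  have hcoef : F.coeff ((Finset.univ : Finset (Fin (r + 1))).card - 1) = (K.det : ℚ_[p]) := by
    rw [Finset.card_univ, Fintype.card_fin, Nat.add_sub_cancel, ← hKKd]
    have h5 := coeff_det_X_add_C_card KK (M 0)
    rwa [Fintype.card_fin] at h5
  rw [hcoef] at key
  have hbound : ‖(K.det : ℚ_[p])‖ ≤ (p : ℝ) ^ r * ε / p * ((p : ℝ) ^ a) ^ r := by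
    rw [key]
    apply sum_le (by positivity)
    intro i _
    rw [norm_div, norm_prod]
    have h5 : ((p : ℝ)⁻¹ ^ a) ^ r ≤ ∏ j ∈ Finset.univ.erase i, ‖l i - l 0 - (l j - l 0)‖ := by
      calc ((p : ℝ)⁻¹ ^ a) ^ r = ∏ _j ∈ (Finset.univ : Finset (Fin (r + 1))).erase i,
            (p : ℝ)⁻¹ ^ a := by
            rw [Finset.prod_const, Finset.card_erase_of_mem (Finset.mem_univ i), Finset.card_univ,
              Fintype.card_fin, Nat.add_sub_cancel]
        _ ≤ _ := by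
            apply Finset.prod_le_prod
            · intro j _
              positivity
            · intro j hj
              have e : l i - l 0 - (l j - l 0) = l i - l j := by ring
              rw [e]
              exact hl i j (Finset.ne_of_mem_erase hj).symm
    calc ‖F.eval (l i - l 0)‖ / ∏ j ∈ Finset.univ.erase i, ‖l i - l 0 - (l j - l 0)‖ ≤
          ((p : ℝ) ^ r * ε / p) / ((p : ℝ)⁻¹ ^ a) ^ r :=
          div_le_div₀ (by positivity) (hsmall i) (by positivity) h5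
      _ = _ := by
          rw [div_eq_mul_inv _ (((p : ℝ)⁻¹ ^ a) ^ r)]
          congr 1
          rw [← inv_pow, ← inv_pow, inv_inv]
  have hlow := int_norm_ge hc
  have hfin : ((p : ℝ)⁻¹) ^ c ≤ (p : ℝ) ^ (r * a + r + 1) * ((p : ℝ)⁻¹) ^ k := by
    refine (hlow.trans hbound).trans (le_of_eq ?_)
    rw [hε, ← pow_mul, mul_comm a r]
    field_simp
    ring
  have h8 : (p : ℝ) ^ k ≤ (p : ℝ) ^ (r * a + r + 1 + c) := by
    have h9 := mul_le_mul_of_nonneg_left hfin (by positivity : (0 : ℝ) ≤ (p : ℝ) ^ k * (p : ℝ) ^ c)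
    have e1 : (p : ℝ) ^ k * (p : ℝ) ^ c * ((p : ℝ)⁻¹) ^ c = (p : ℝ) ^ k := by
      rw [mul_assoc, ← mul_pow, mul_inv_cancel₀ hp0.ne', one_pow, mul_one]
    have e2 : (p : ℝ) ^ k * (p : ℝ) ^ c * ((p : ℝ) ^ (r * a + r + 1) * ((p : ℝ)⁻¹) ^ k) =
        (p : ℝ) ^ (r * a + r + 1 + c) := by
      have e3 : (p : ℝ) ^ k * ((p : ℝ)⁻¹) ^ k = 1 := by
        rw [← mul_pow, mul_inv_cancel₀ hp0.ne', one_pow]
      calc _ = ((p : ℝ) ^ k * ((p : ℝ)⁻¹) ^ k) * ((p : ℝ) ^ (r * a + r + 1) * (p : ℝ) ^ c) := by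
            ring
        _ = _ := by rw [e3, one_mul, ← pow_add]
    rw [e1, e2] at h9
    exact h9
  have h10 := pow_lt_pow_right₀ hp1 hak
  linarith

end Pool.Agent.Y732
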