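import Pool.Agent.Y732.Pair
import Pool.Agent.Y732.Orbit
import Pool.Agent.Y732.CountG

/-!
# The members of vanishing regulator are rare
-/

set_option autoImplicit false

namespace Pool.Agent.Y732

open MvPolynomial

section weights

variable {d : ℕ} {w : Fin d → ℕ}

lemma wh_eval {R : Type*} [CommRing R] {φ : MvPolynomial (Fin d) ℤ} {n : ℕ}
    (hφ : IsWeightedHomogeneous w φ n) (u : R) (x : Fin d → R) :
    eval₂ (Int.castRingHom R) (fun l => u ^ w l * x l) φ =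
      u ^ n * eval₂ (Int.castRingHom R) x φ := by
  rw [eval₂_eq', eval₂_eq', Finset.mul_sum]
  refine Finset.sum_congr rfl fun m hm => ?_
  have h1 : (∏ l, (u ^ w l * x l) ^ m l) = u ^ n * ∏ l, x l ^ m l := by
    have h2 : ∑ l, w l * m l = n := by
      have h3 := hφ (mem_support_iff.1 hm)
      rw [Finsupp.weight_apply, Finsupp.sum_fintype] at h3
      · rw [← h3]
        refine Finset.sum_congr rfl fun l _ => ?_
        rw [smul_eq_mul, mul_comm]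
      · intro l
        rw [zero_smul]
    rw [← h2, ← Finset.prod_pow_eq_pow_sum, ← Finset.prod_mul_distrib]
    refine Finset.prod_congr rfl fun l _ => ?_
    rw [mul_pow, pow_mul]
  rw [h1]
  ring

lemma cast_eval (R : Type*) [CommRing R] (φ : MvPolynomial (Fin d) ℤ) (v : Fin d → ℤ) :
    ((eval v φ : ℤ) : R) = eval₂ (Int.castRingHom R) (fun l => (v l : R)) φ := by
  have h := eval₂_comp_left (Int.castRingHom R) (RingHom.id ℤ) v φ
  exact h

lemma wh_cast {R : Type*} [CommRing R] {φ : MvPolynomial (Fin d) ℤ} {n : ℕ}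
    (hφ : IsWeightedHomogeneous w φ n) {u : R} {v v' : Fin d → ℤ}
    (h : ∀ l, (v' l : R) = u ^ w l * v l) :
    ((eval v' φ : ℤ) : R) = u ^ n * ((eval v φ : ℤ) : R) := by
  rw [cast_eval, cast_eval, ← wh_eval hφ]
  congr 1
  funext l
  exact h l

end weights

variable {d r : ℕ} {F : Family d r} {v v' : Fin d → ℤ}

lemma Family.red_twist {R : Type*} [CommRing R] {u : R}
    (h : ∀ l, (v' l : R) = u ^ F.w l * v l) :
    red (F.curve v') R = twist (u ^ F.χ) (red (F.curve v) R) := by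
  ext
  · exact wh_cast F.h₁ h
  · have := wh_cast F.h₂ h
    rw [mul_comm 2, pow_mul] at this
    exact this
  · have := wh_cast F.h₃ h
    rw [mul_comm 3, pow_mul] at this
    exact this
  · have := wh_cast F.h₄ h
    rw [mul_comm 4, pow_mul] at this
    exact this
  · have := wh_cast F.h₆ h
    rw [mul_comm 6, pow_mul] at this
    exact this

lemma Family.P_eq (hM : F.Marked v) {i j : Fin (r + 1)} (hij : i < j) :
    ∃ hP : (WQ (F.curve v)).Nonsingular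
        (((eval v (F.x i j) : ℤ) : ℚ) / ((eval v (F.e i j) : ℤ) : ℚ) ^ 2)
        (((eval v (F.y i j) : ℤ) : ℚ) / ((eval v (F.e i j) : ℤ) : ℚ) ^ 3),
      F.P v i j = .some _ _ hP := by
  obtain ⟨he, -, heq, -⟩ := hM.2.1 i j hij
  exact ⟨triple_rat heq hM.1 he, dif_pos _⟩

variable {p : ℕ} [hp : Fact p.Prime]

lemma plog_pow {z : ℚ_[p]} (hz : ‖z‖ = 1) (j : ℕ) : plog p (z ^ j) = j * plog p z := by
  induction j with
  | zero =>
    have := plog_mul (p := p) (z₁ := 1) (z₂ := 1) norm_one norm_one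
    rw [mul_one] at this
    have h2 : plog p (1 : ℚ_[p]) = 0 := by linear_combination -this
    rw [pow_zero, h2]
    simp
  | succ j ih =>
    rw [pow_succ, plog_mul (by rw [norm_pow, hz, one_pow]) hz, ih]
    push_cast
    ring

lemma dvd_pow_sub_one {μ : ℤ_[p]} (hμ : (p : ℤ_[p]) ∣ μ - 1) (j : ℕ) :
    (p : ℤ_[p]) ∣ μ ^ j - 1 := hμ.trans (sub_one_dvd_pow_sub_one μ j)

theorem fam_pair (hp5 : 5 ≤ p) {k : ℕ} (hk : 1 ≤ k) (hM : F.Marked v) (hM' : F.Marked v')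
    (ho : IsOrdinaryW p (F.curve v)) {μ : ℤ_[p]} (hμ : (p : ℤ_[p]) ∣ μ - 1)
    (hv : ∀ l, (v' l : ZMod (p ^ k)) = PadicInt.toZModPow k μ ^ F.w l * v l)
    {h : (WQ (F.curve v)).Point → ℚ_[p]} {h' : (WQ (F.curve v')).Point → ℚ_[p]}
    (D : HD p (F.curve v) h) (D' : HD p (F.curve v') h') {i j : Fin (r + 1)} (hij : i < j) :
    ‖h (F.P v i j) - h' (F.P v' i j) - plog p μ * ((F.χ + F.n i j : ℕ) : ℚ_[p])‖ ≤
        (p : ℝ) ^ 2 * ((p : ℝ)⁻¹) ^ k ∧
      ‖h (F.P v i j)‖ ≤ p ∧ ‖h' (F.P v' i j)‖ ≤ p := by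
  obtain ⟨hP, e⟩ := F.P_eq hM hij
  obtain ⟨hP', e'⟩ := F.P_eq hM' hij
  obtain ⟨he0, hc, heq, hN⟩ := hM.2.1 i j hij
  obtain ⟨he0', hc', heq', hN'⟩ := hM'.2.1 i j hij
  rw [e, e']
  have hμn : ‖(μ : ℚ_[p])‖ = 1 := PadicInt.isUnit_iff.1 (isUnit_of_one hμ)
  have hlog : plog p (μ : ℚ_[p]) * ((F.χ + F.n i j : ℕ) : ℚ_[p]) =
      plog p ((μ ^ F.χ * μ ^ F.n i j : ℤ_[p]) : ℚ_[p]) := by
    rw [← pow_add, mul_comm, ← plog_pow hμn]
    push_cast
    rfl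
  rw [hlog]
  have hW := F.red_twist hv
  rw [← map_pow] at hW
  refine pair_diff hp5 hk (dvd_pow_sub_one hμ _) (dvd_pow_sub_one hμ _) hW ?_ ?_ ?_ heq heq' hc hc'
    hN hN' he0 he0' ho hP hP' D D'
  · have := wh_cast (F.he i j) hv
    rw [← map_pow] at this
    exact this
  · have := wh_cast (F.hx i j) hv
    rw [mul_comm 2, pow_mul, ← map_pow, pow_add] at this
    exact this
  · have := wh_cast (F.hy i j) hv
    rw [mul_comm 3, pow_mul, ← map_pow, pow_add] at this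
    exact this

/-- the matrix of the pairing -/
noncomputable def MM (F : Family d r) (v : Fin d → ℤ) (h : (WQ (F.curve v)).Point → ℚ_[p]) :
    Matrix (Fin r) (Fin r) ℚ_[p] :=
  Matrix.of fun i j => h (F.P v 0 i.succ + F.P v 0 j.succ) - h (F.P v 0 i.succ) -
    h (F.P v 0 j.succ)

lemma MM_diag {h : (WQ (F.curve v)).Point → ℚ_[p]}
    (hq : ∀ P Q, h (P + Q) + h (P - Q) = 2 * h P + 2 * h Q) (i : Fin r) :
    MM F v h i i = 2 * h (F.P v 0 i.succ) := by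
  have h1 := quadratic hq (F.P v 0 i.succ) 2
  rw [two_smul] at h1
  rw [MM, Matrix.of_apply, h1]
  push_cast
  ring

lemma MM_symm {h : (WQ (F.curve v)).Point → ℚ_[p]} (i j : Fin r) :
    MM F v h i j = MM F v h j i := by
  rw [MM, Matrix.of_apply, Matrix.of_apply, add_comm (F.P v 0 i.succ)]
  ring

lemma MM_off (hM : F.Marked v) {h : (WQ (F.curve v)).Point → ℚ_[p]}
    (hq : ∀ P Q, h (P + Q) + h (P - Q) = 2 * h P + 2 * h Q) {i j : Fin r} (hij : i < j) :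
    MM F v h i j = h (F.P v 0 i.succ) + h (F.P v 0 j.succ) - h (F.P v i.succ j.succ) := by
  have h1 := hM.2.2 0 i.succ j.succ (Fin.succ_pos i) (Fin.succ_lt_succ_iff.2 hij)
  have h2 := hq (F.P v 0 j.succ) (F.P v 0 i.succ)
  have h3 : F.P v 0 j.succ - F.P v 0 i.succ = F.P v i.succ j.succ := by
    rw [← h1]
    abel
  rw [h3, add_comm (F.P v 0 j.succ)] at h2
  rw [MM, Matrix.of_apply]
  linear_combination h2

theorem fam_entry (hp5 : 5 ≤ p) {k : ℕ} (hk : 1 ≤ k) (hM : F.Marked v) (hM' : F.Marked v')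
    (ho : IsOrdinaryW p (F.curve v)) {μ : ℤ_[p]} (hμ : (p : ℤ_[p]) ∣ μ - 1)
    (hv : ∀ l, (v' l : ZMod (p ^ k)) = PadicInt.toZModPow k μ ^ F.w l * v l)
    {h : (WQ (F.curve v)).Point → ℚ_[p]} {h' : (WQ (F.curve v')).Point → ℚ_[p]}
    (D : HD p (F.curve v) h) (D' : HD p (F.curve v') h') (i j : Fin r) :
    ‖MM F v h i j - MM F v' h' i j - plog p μ * ((F.K i j : ℤ) : ℚ_[p])‖ ≤
        (p : ℝ) ^ 2 * ((p : ℝ)⁻¹) ^ k ∧
      ‖MM F v' h' i j‖ ≤ p := by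
  have add_le : ∀ {a b : ℚ_[p]} {c : ℝ}, ‖a‖ ≤ c → ‖b‖ ≤ c → ‖a + b‖ ≤ c := fun ha hb =>
    (IsUltrametricDist.norm_add_le_max _ _).trans (max_le ha hb)
  have sub_le : ∀ {a b : ℚ_[p]} {c : ℝ}, ‖a‖ ≤ c → ‖b‖ ≤ c → ‖a - b‖ ≤ c := fun ha hb => by
    rw [sub_eq_add_neg]
    exact add_le ha (by rwa [norm_neg])
  have key : ∀ i j : Fin (r + 1), i < j → _ := fun i j hij =>
    fam_pair hp5 hk hM hM' ho hμ hv D D' hij
  have off : ∀ i j : Fin r, i < j →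
      ‖MM F v h i j - MM F v' h' i j - plog p μ * ((((F.χ : ℤ) + F.n 0 i.succ) +
        (F.χ + F.n 0 j.succ) - (F.χ + F.n i.succ j.succ) : ℤ) : ℚ_[p])‖ ≤
          (p : ℝ) ^ 2 * ((p : ℝ)⁻¹) ^ k ∧
        ‖MM F v' h' i j‖ ≤ p := by
    intro i j hij
    rw [MM_off hM D.q hij, MM_off hM' D'.q hij]
    obtain ⟨k1, -, k2⟩ := key 0 i.succ (Fin.succ_pos i)
    obtain ⟨k3, -, k4⟩ := key 0 j.succ (Fin.succ_pos j)
    obtain ⟨k5, -, k6⟩ := key i.succ j.succ (Fin.succ_lt_succ_iff.2 hij)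
    refine ⟨?_, sub_le (add_le k2 k4) k6⟩
    have e : h (F.P v 0 i.succ) + h (F.P v 0 j.succ) - h (F.P v i.succ j.succ) -
        (h' (F.P v' 0 i.succ) + h' (F.P v' 0 j.succ) - h' (F.P v' i.succ j.succ)) -
        plog p μ * ((((F.χ : ℤ) + F.n 0 i.succ) +
        (F.χ + F.n 0 j.succ) - (F.χ + F.n i.succ j.succ) : ℤ) : ℚ_[p]) =
        (h (F.P v 0 i.succ) - h' (F.P v' 0 i.succ) -
          plog p μ * ((F.χ + F.n 0 i.succ : ℕ) : ℚ_[p])) +
        (h (F.P v 0 j.succ) - h' (F.P v' 0 j.succ) -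
          plog p μ * ((F.χ + F.n 0 j.succ : ℕ) : ℚ_[p])) -
        (h (F.P v i.succ j.succ) - h' (F.P v' i.succ j.succ) -
          plog p μ * ((F.χ + F.n i.succ j.succ : ℕ) : ℚ_[p])) := by
      push_cast
      ring
    rw [e]
    exact sub_le (add_le k1 k3) k5
  rcases lt_trichotomy i j with hij | hij | hij
  · have := off i j hij
    rw [Family.K, Matrix.of_apply, if_neg hij.ne, min_eq_left (Fin.succ_lt_succ_iff.2 hij).le,
      max_eq_right (Fin.succ_lt_succ_iff.2 hij).le]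
    exact this
  · subst hij
    rw [Family.K, Matrix.of_apply, if_pos rfl, MM_diag D.q, MM_diag D'.q]
    obtain ⟨k1, -, k2⟩ := key 0 i.succ (Fin.succ_pos i)
    have e : 2 * h (F.P v 0 i.succ) - 2 * h' (F.P v' 0 i.succ) -
        plog p μ * ((2 * ((F.χ : ℤ) + F.n 0 i.succ) : ℤ) : ℚ_[p]) =
        ((2 : ℕ) : ℚ_[p]) * (h (F.P v 0 i.succ) - h' (F.P v' 0 i.succ) -
          plog p μ * ((F.χ + F.n 0 i.succ : ℕ) : ℚ_[p])) := by
      push_cast
      ring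
    have e2 : 2 * h' (F.P v' 0 i.succ) = ((2 : ℕ) : ℚ_[p]) * h' (F.P v' 0 i.succ) := by
      push_cast
      ring
    rw [e, e2]
    exact ⟨(norm_nat_mul_le _ _).trans k1, (norm_nat_mul_le _ _).trans k2⟩
  · have := off j i hij
    rw [Family.K, Matrix.of_apply, if_neg hij.ne', MM_symm i j, MM_symm i j,
      min_eq_right (Fin.succ_lt_succ_iff.2 hij).le, max_eq_left (Fin.succ_lt_succ_iff.2 hij).le,
      add_comm ((F.χ : ℤ) + F.n 0 i.succ)]
    exact this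

/-- the marked members of vanishing regulator -/
def Family.Van (F : Family d r) (p : ℕ) [Fact p.Prime] (v : Fin d → ℤ) : Prop :=
  F.Marked v ∧ IsOrdinaryW p (F.curve v) ∧
    ∃ h : (WQ (F.curve v)).Point → ℚ_[p], IsHeightW p (F.curve v) h ∧
      Reg h (fun i : Fin r => F.P v 0 i.succ) = 0

lemma Family.van_of_not (hr : 0 < r) (hM : F.Marked v) (ho : IsOrdinaryW p (F.curve v))
    (hn : ¬ F.NonDeg v p) : F.Van p v := by
  by_contra hvan
  apply hn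
  intro h hh
  have h1 : Reg h (fun i : Fin r => F.P v 0 i.succ) ≠ 0 := fun h0 => hvan ⟨hM, ho, h, hh, h0⟩
  exact ⟨h1, fun hrank s c hc hmax => Reg_ne_zero hh.1 hr h1 hrank hc hmax⟩

theorem fam_orbit (hp5 : 5 ≤ p) {k a e : ℕ} (hk : 1 ≤ k) (he : ¬ (p : ℤ) ^ (e + 1) ∣ F.K.det)
    (hak : r * a + r + 1 + e < k) (v : Fin (r + 1) → Fin d → ℤ) (μ : Fin (r + 1) → ℤ)
    (hv : ∀ i, F.Van p (v i)) (hμ : ∀ i, (p : ℤ) ∣ μ i - 1)
    (hc : ∀ i l, (p : ℤ) ^ k ∣ μ 0 ^ F.w l * v 0 l - μ i ^ F.w l * v i l) :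
    ∃ i j, i ≠ j ∧ (p : ℤ) ^ (a + 1) ∣ μ i - μ j := by
  by_contra hcon
  push Not at hcon
  have hp1 : (1 : ℝ) < p := by exact_mod_cast hp.out.one_lt
  have hM := fun i => (hv i).1
  have ho := fun i => (hv i).2.1
  choose h hh hreg using fun i => (hv i).2.2
  have D := fun i => (hh i).hd.some
  -- the multipliers
  have hpp : ∀ {z : ℤ}, (p : ℤ) ∣ z → (p : ℤ_[p]) ∣ (z : ℤ_[p]) := by
    intro z hz
    have := int_dvd_padic (p := p) (k := 1) (z := z) (by rwa [pow_one])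
    rwa [pow_one] at this
  have hμp : ∀ i, (p : ℤ_[p]) ∣ (μ i : ℤ_[p]) - 1 := by
    intro i
    have := hpp (hμ i)
    push_cast at this
    exact this
  have hU : ∀ i, IsUnit (μ i : ℤ_[p]) := fun i => isUnit_of_one (hμp i)
  have hn1 : ∀ i, ‖((μ i : ℤ) : ℚ_[p])‖ = 1 := by
    intro i
    have h1 : ‖(μ i : ℤ_[p])‖ = 1 := PadicInt.isUnit_iff.1 (hU i)
    exact h1
  choose ρ hρ using fun i => (hU i).exists_right_inv
  have hμ1 : ∀ i, (p : ℤ_[p]) ∣ (μ 0 : ℤ_[p]) * ρ i - 1 := by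
    intro i
    have e1 : (μ 0 : ℤ_[p]) * ρ i - 1 = ((μ 0 : ℤ_[p]) - 1) * ρ i - ((μ i : ℤ_[p]) - 1) * ρ i := by
      linear_combination hρ i
    rw [e1]
    exact dvd_sub ((hμp 0).mul_right _) ((hμp i).mul_right _)
  have hvc : ∀ i l, (v i l : ZMod (p ^ k)) =
      PadicInt.toZModPow k ((μ 0 : ℤ_[p]) * ρ i) ^ F.w l * v 0 l := by
    intro i l
    have h1 := hc i l
    have h2 : ((μ 0 ^ F.w l * v 0 l - μ i ^ F.w l * v i l : ℤ) : ZMod (p ^ k)) = 0 := by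
      rw [ZMod.intCast_zmod_eq_zero_iff_dvd]
      exact_mod_cast h1
    have h3 := congrArg (PadicInt.toZModPow (p := p) k) (hρ i)
    rw [map_mul, map_intCast, map_one] at h3
    rw [map_mul, map_intCast, mul_pow]
    push_cast at h2
    have h4 : ((μ i : ℤ) : ZMod (p ^ k)) ^ F.w l * PadicInt.toZModPow k (ρ i) ^ F.w l = 1 := by
      rw [← mul_pow, h3, one_pow]
    linear_combination (-(v i l : ZMod (p ^ k))) * h4 -
      (PadicInt.toZModPow k (ρ i) ^ F.w l) * h2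
  have hlog : ∀ i, plog p (((μ 0 : ℤ_[p]) * ρ i : ℤ_[p]) : ℚ_[p]) =
      plog p ((μ 0 : ℤ) : ℚ_[p]) - plog p ((μ i : ℤ) : ℚ_[p]) := by
    intro i
    have h1 : ((((μ 0 : ℤ_[p]) * ρ i : ℤ_[p]) : ℚ_[p])) * ((μ i : ℤ) : ℚ_[p]) =
        ((μ 0 : ℤ) : ℚ_[p]) := by
      have h2 := congrArg (Subtype.val : ℤ_[p] → ℚ_[p]) (hρ i)
      push_cast at h2 ⊢
      have h3 : ((μ i : ℤ) : ℚ_[p]) * (ρ i : ℚ_[p]) = 1 := h2
      linear_combination ((μ 0 : ℤ) : ℚ_[p]) * h3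
    have h2 : ‖((((μ 0 : ℤ_[p]) * ρ i : ℤ_[p]) : ℚ_[p]))‖ = 1 := by
      have h3 := congrArg norm h1
      rwa [norm_mul, hn1, hn1, mul_one] at h3
    have h3 := plog_mul h2 (hn1 i)
    rw [h1] at h3
    linear_combination -h3
  have hent := fun i j j' => fam_entry hp5 hk (hM 0) (hM i) (ho 0) (hμ1 i) (hvc i) (D 0) (D i) j j'
  refine orbit_close (p := p) hk he (l := fun i => plog p ((μ i : ℤ) : ℚ_[p]))
    (M := fun i => MM F (v i) (h i)) (fun i => hreg i) (fun i j j' => (hent i j j').2) ?_ hak ?_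
  · intro i j j'
    have h1 := (hent i j j').1
    rw [hlog i] at h1
    have e1 : MM F (v i) (h i) j j' - MM F (v 0) (h 0) j j' -
        (plog p ((μ i : ℤ) : ℚ_[p]) - plog p ((μ 0 : ℤ) : ℚ_[p])) * ((F.K j j' : ℤ) : ℚ_[p]) =
        -(MM F (v 0) (h 0) j j' - MM F (v i) (h i) j j' -
        (plog p ((μ 0 : ℤ) : ℚ_[p]) - plog p ((μ i : ℤ) : ℚ_[p])) * ((F.K j j' : ℤ) : ℚ_[p])) := by
      ring
    rw [e1, norm_neg]
    exact h1
  · intro i j hij
    have h1 := int_norm_ge (hcon i j hij)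
    have h2 : ‖((μ i : ℤ) : ℚ_[p]) - ((μ j : ℤ) : ℚ_[p])‖ ≤ (p : ℝ)⁻¹ := by
      have h3 : (p : ℤ_[p]) ∣ ((μ i : ℤ_[p]) - (μ j : ℤ_[p])) := by
        have := dvd_sub (hμp i) (hμp j)
        rwa [sub_sub_sub_cancel_right] at this
      obtain ⟨z, hz⟩ := h3
      have h4 : ‖((μ i : ℤ_[p]) - (μ j : ℤ_[p]))‖ ≤ (p : ℝ)⁻¹ := by
        rw [hz, norm_mul, PadicInt.norm_p]
        have h5 := PadicInt.norm_le_one z
        have h6 : (0 : ℝ) ≤ (p : ℝ)⁻¹ := by positivity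
        nlinarith
      exact h4
    rw [norm_plog_sub (by omega) (hn1 i) (hn1 j) h2]
    push_cast at h1
    exact h1

end Pool.Agent.Y732
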