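import Pool.Agent.Y732.Defs

/-!
# The expansion of the invariant differential of `y² = x³ + A x + B` at infinity

`t = - x / y`, `x = 1 / (t² u)`, `y = - 1 / (t³ u)`, `dx / (2 y) = g dt`. For ordinary reduction the
coefficients of `t ^ (p ^ j - 1)` of `g` are units.
-/

set_option autoImplicit false

namespace Pool.Agent.Y732

open PowerSeries Finset

section general

variable {R : Type*} [CommRing R]

lemma IsExp.const_u {A B : R} {u g : R⟦X⟧} (h : IsExp A B u g) : constantCoeff u = 1 := by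
  have := congrArg constantCoeff h.1
  simpa using this

lemma derivative_map {S : Type*} [CommRing S] (f : R →+* S) (u : R⟦X⟧) :
    d⁄dX S (PowerSeries.map f u) = PowerSeries.map f (d⁄dX R u) := by
  ext n
  simp [coeff_derivative]

lemma IsExp.map {S : Type*} [CommRing S] (f : R →+* S) {A B : R} {u g : R⟦X⟧}
    (h : IsExp A B u g) : IsExp (f A) (f B) (PowerSeries.map f u) (PowerSeries.map f g) := by
  constructor
  · have := congrArg (PowerSeries.map f) h.1
    simpa using this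
  · have := congrArg (PowerSeries.map f) h.2
    have e : PowerSeries.map f (2 : R⟦X⟧) = 2 := map_ofNat _ 2
    rw [map_mul, map_mul, map_add, map_mul, map_mul, e, PowerSeries.map_X] at this
    rw [derivative_map]
    exact this

lemma isUnit_of_const {u : R⟦X⟧} (h : constantCoeff u = 1) : IsUnit u := by
  rw [PowerSeries.isUnit_iff_constantCoeff, h]
  exact isUnit_one

lemma IsExp.unique {A B : R} {u₁ g₁ u₂ g₂ : R⟦X⟧} (h2 : IsUnit (2 : R))
    (h₁ : IsExp A B u₁ g₁) (h₂ : IsExp A B u₂ g₂) : u₁ = u₂ ∧ g₁ = g₂ := by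
  have hu : u₁ = u₂ := by
    have h3 : (1 - X * (X ^ 3 * (C A * (u₁ + u₂) +
        C B * X ^ 2 * (u₁ ^ 2 + u₁ * u₂ + u₂ ^ 2)))) * (u₁ - u₂) = 0 := by
      linear_combination h₁.1 - h₂.1
    have h4 : IsUnit (1 - X * (X ^ 3 * (C A * (u₁ + u₂) +
        C B * X ^ 2 * (u₁ ^ 2 + u₁ * u₂ + u₂ ^ 2)))) := by
      apply isUnit_of_const
      simp
    have h5 := h4.mul_left_cancel (h3.trans (mul_zero _).symm)
    exact sub_eq_zero.1 h5
  refine ⟨hu, ?_⟩
  subst hu
  have h3 : 2 * u₁ * g₁ = 2 * u₁ * g₂ := h₁.2.trans h₂.2.symm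
  have h4 : IsUnit ((2 : R⟦X⟧) * u₁) := by
    refine IsUnit.mul ?_ (isUnit_of_const h₁.const_u)
    rw [PowerSeries.isUnit_iff_constantCoeff]
    have e : constantCoeff (2 : R⟦X⟧) = 2 := map_ofNat _ 2
    rw [e]
    exact h2
  exact h4.mul_left_cancel h3

end general

variable {p : ℕ} [hp : Fact p.Prime]

lemma pow_p_eq_expand (u : (ZMod p)⟦X⟧) :
    u ^ p = PowerSeries.expand p hp.out.ne_zero u := by
  have h := MvPowerSeries.map_frobenius_expand (σ := Unit) (R := ZMod p) p hp.out.ne_zero (f := u)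
  rw [ZMod.frobenius_zmod, MvPowerSeries.map_id] at h
  exact h.symm

lemma coeff_mul_expand (F U : (ZMod p)⟦X⟧) (n : ℕ) :
    coeff (p * n) (F * PowerSeries.expand p hp.out.ne_zero U) =
      coeff n (PowerSeries.mk (fun i => coeff (p * i) F) * U) := by
  rw [coeff_mul, coeff_mul]
  symm
  refine Finset.sum_of_injOn (fun x => (p * x.1, p * x.2)) ?_ ?_ ?_ ?_
  · intro a _ b _ hab
    simp only [Prod.mk.injEq] at hab
    ext
    · exact Nat.eq_of_mul_eq_mul_left hp.out.pos hab.1
    · exact Nat.eq_of_mul_eq_mul_left hp.out.pos hab.2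
  · intro a ha
    simp only [Finset.mem_coe, HasAntidiagonal.mem_antidiagonal] at ha ⊢
    rw [← ha, mul_add]
  · intro a ha hn
    by_cases hd : p ∣ a.2
    · exfalso
      apply hn
      obtain ⟨c, hc⟩ := hd
      rw [HasAntidiagonal.mem_antidiagonal] at ha
      have h1 : p ∣ a.1 := by
        have : a.1 = p * n - a.2 := by omega
        rw [this, hc, ← Nat.mul_sub]
        exact dvd_mul_right _ _
      obtain ⟨b, hb⟩ := h1
      refine ⟨(b, c), ?_, ?_⟩
      · simp only [Finset.mem_coe, HasAntidiagonal.mem_antidiagonal]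
        rw [hb, hc, ← mul_add] at ha
        exact Nat.eq_of_mul_eq_mul_left hp.out.pos ha
      · ext
        · exact hb.symm
        · exact hc.symm
    · rw [PowerSeries.coeff_expand_of_not_dvd p hp.out.ne_zero U hd, mul_zero]
  · intro a ha
    simp only [PowerSeries.coeff_mk, PowerSeries.coeff_expand_mul]

/-- the Cartier operator fixes logarithmic differentials -/
theorem cartier_log (u f : ℤ_[p]⟦X⟧) (hf : X * d⁄dX ℤ_[p] u = f * u)
    (hu : constantCoeff u = 1) (n : ℕ) :
    PadicInt.toZMod (coeff (p * n) f) = PadicInt.toZMod (coeff n f) := by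
  set φ : ℤ_[p] →+* ZMod p := PadicInt.toZMod with hφ
  set U := PowerSeries.map φ u with hU
  set F := PowerSeries.map φ f with hF
  have h1 : ∀ n : ℕ, coeff (p * n) (f * u ^ p) = n * coeff (p * n) (u ^ p) := by
    intro n
    have e : f * u ^ p = X * (u ^ (p - 1) * d⁄dX ℤ_[p] u) := by
      have : u ^ p = u * u ^ (p - 1) := by
        rw [← pow_succ', Nat.sub_add_cancel hp.out.one_le]
      rw [this]
      linear_combination (-(u ^ (p - 1))) * hf
    rw [e]
    rcases Nat.eq_zero_or_pos n with rfl | hn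
    · simp
    · obtain ⟨m, hm⟩ : ∃ m, p * n = m + 1 :=
        ⟨p * n - 1, by have := Nat.mul_pos hp.out.pos hn; omega⟩
      have h3 := congrArg (coeff m) (PowerSeries.derivative_pow u p)
      rw [coeff_derivative, ← hm] at h3
      have h4 : coeff m (((p : ℕ) : ℤ_[p]⟦X⟧) * u ^ (p - 1) * d⁄dX ℤ_[p] u) =
          p * coeff m (u ^ (p - 1) * d⁄dX ℤ_[p] u) := by
        rw [mul_assoc]
        have : ((p : ℕ) : ℤ_[p]⟦X⟧) = C ((p : ℕ) : ℤ_[p]) := by simp
        rw [this, coeff_C_mul]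
      rw [h4] at h3
      have h5 : (m : ℤ_[p]) + 1 = (p : ℤ_[p]) * n := by
        exact_mod_cast hm.symm
      rw [h5] at h3
      have hp0 : (p : ℤ_[p]) ≠ 0 := by exact_mod_cast hp.out.ne_zero
      have h6 : (p : ℤ_[p]) * coeff m (u ^ (p - 1) * d⁄dX ℤ_[p] u) =
          p * (n * coeff (p * n) (u ^ p)) := by
        rw [← h3]
        ring
      have h7 := mul_left_cancel₀ hp0 h6
      rw [hm, coeff_succ_X_mul, h7, hm]
  have h2 : ∀ n : ℕ, coeff (p * n) (F * U ^ p) = n * coeff n U := by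
    intro n
    have := congrArg φ (h1 n)
    rw [map_mul φ, map_natCast, ← coeff_map, ← coeff_map, map_mul, map_pow] at this
    rw [this, pow_p_eq_expand, PowerSeries.coeff_expand_mul]
  have h3 : PowerSeries.mk (fun i => coeff (p * i) F) * U = F * U := by
    ext n
    rw [← coeff_mul_expand, ← pow_p_eq_expand, h2]
    have h4 : X * d⁄dX (ZMod p) U = F * U := by
      rw [hU, derivative_map, hF, ← map_mul, ← hf]
      simp
    rw [← h4]
    rcases Nat.eq_zero_or_pos n with rfl | hn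
    · simp
    · obtain ⟨m, rfl⟩ : ∃ m, n = m + 1 := ⟨n - 1, by omega⟩
      rw [coeff_succ_X_mul, coeff_derivative]
      push_cast
      ring
  have hUu : IsUnit U := by
    apply isUnit_of_const
    rw [hU, ← coeff_zero_eq_constantCoeff_apply, coeff_map, coeff_zero_eq_constantCoeff_apply, hu,
      map_one]
  have h4 := hUu.mul_right_cancel h3
  have h5 := congrArg (coeff n) h4
  rw [coeff_mk, hF, coeff_map, coeff_map] at h5
  exact h5

/-- the Hasse invariant: the coefficient of `Y ^ m`, `m = (p - 1) / 2`, of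
`(1 + A Y² + B Y³) ^ m` -/
noncomputable def hasse (p : ℕ) (A B : ZMod p) : ZMod p :=
  ((1 + Polynomial.C A * Polynomial.X ^ 2 + Polynomial.C B * Polynomial.X ^ 3 :
    Polynomial (ZMod p)) ^ ((p - 1) / 2)).coeff ((p - 1) / 2)

theorem coeff_hasse (hp2 : p ≠ 2) {A B : ZMod p} {u g : (ZMod p)⟦X⟧} (h : IsExp A B u g)
    (n : ℕ) : coeff (p * n + (p - 1)) g = hasse p A B * coeff (p * n) g := by
  obtain ⟨m, hm⟩ : ∃ m, p = 2 * m + 1 := hp.out.odd_of_ne_two hp2
  have hm0 : 1 ≤ m := by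
    have := hp.out.two_le
    omega
  have hm1 : (p - 1) / 2 = m := by omega
  have hp1 : p - 1 = 2 * m := by omega
  have hpz : ((p : ℕ) : (ZMod p)⟦X⟧) = 0 := by
    have : ((p : ℕ) : (ZMod p)⟦X⟧) = C ((p : ℕ) : ZMod p) := (map_natCast C p).symm
    rw [this, ZMod.natCast_self, map_zero]
  have hpz' : (2 : (ZMod p)⟦X⟧) * ((m : ℕ) : (ZMod p)⟦X⟧) + 1 = 0 := by
    have h0 : ((2 * m + 1 : ℕ) : (ZMod p)⟦X⟧) = 0 := by
      rw [← hm]
      exact hpz
    push_cast at h0
    exact h0
  set Φ : Polynomial (ZMod p) := (1 + Polynomial.C A * Polynomial.X ^ 2 +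
    Polynomial.C B * Polynomial.X ^ 3) ^ m with hΦ
  have hΦH : hasse p A B = Φ.coeff m := by
    unfold hasse
    rw [hm1]
  set v : (ZMod p)⟦X⟧ := X ^ 2 * u with hv
  have hu0 : constantCoeff u = 1 := h.const_u
  set w : (ZMod p)⟦X⟧ := u⁻¹ with hw
  have huw : u * w = 1 := by
    rw [hw]
    exact PowerSeries.mul_inv_cancel u (by rw [hu0]; exact one_ne_zero)
  -- `u ^ m = ∑ Φ_j v ^ j`
  have hum : u ^ m = ∑ j ∈ range (3 * m + 1), C (Φ.coeff j) * v ^ j := by
    have h1 : Polynomial.aeval v Φ = u ^ m := by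
      rw [hΦ, map_pow]
      congr 1
      have e1 : Polynomial.aeval v (1 + Polynomial.C A * Polynomial.X ^ 2 +
          Polynomial.C B * Polynomial.X ^ 3) = 1 + C A * v ^ 2 + C B * v ^ 3 := by
        simp only [map_add, map_mul, map_pow, map_one, Polynomial.aeval_X, Polynomial.aeval_C]
        rfl
      rw [e1]
      conv_rhs => rw [h.1]
      rw [hv]
      ring
    have h2 : Φ.natDegree < 3 * m + 1 := by
      have h3 : (1 + Polynomial.C A * Polynomial.X ^ 2 +
          Polynomial.C B * Polynomial.X ^ 3 : Polynomial (ZMod p)).natDegree ≤ 3 := by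
        compute_degree
      have h4 := Polynomial.natDegree_pow_le_of_le m h3
      rw [← hΦ] at h4
      omega
    rw [← h1, Polynomial.aeval_eq_sum_range' h2]
    refine Finset.sum_congr rfl fun j _ => ?_
    rw [PowerSeries.smul_eq_C_mul]
  have hXv : X * d⁄dX (ZMod p) v = 2 * g * v := by
    rw [hv, Derivation.leibniz, Derivation.leibniz_pow, PowerSeries.derivative_X]
    simp only [smul_eq_mul, nsmul_eq_mul, mul_one, Nat.cast_ofNat]
    linear_combination (-(X ^ 2 : (ZMod p)⟦X⟧)) * h.2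
  have hXw : X * d⁄dX (ZMod p) w = -(w * (2 * g - 2)) := by
    rw [hw, PowerSeries.derivative_inv', ← hw]
    linear_combination w ^ 2 * h.2 - (2 * g - 2) * w * huw
  have hpow : ∀ (a b : (ZMod p)⟦X⟧) (j : ℕ), X * d⁄dX (ZMod p) a = b * a →
      X * d⁄dX (ZMod p) (a ^ j) = ((j : ℕ) : (ZMod p)⟦X⟧) * b * a ^ j := by
    intro a b j hab
    rw [Derivation.leibniz_pow]
    rcases Nat.eq_zero_or_pos j with rfl | hj
    · simp
    · obtain ⟨i, rfl⟩ : ∃ i, j = i + 1 := ⟨j - 1, by omega⟩
      simp only [smul_eq_mul, nsmul_eq_mul, Nat.add_sub_cancel]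
      linear_combination ((i + 1 : ℕ) : (ZMod p)⟦X⟧) * a ^ i * hab
  set T : ℕ → (ZMod p)⟦X⟧ := fun j => X * v ^ j * w ^ m with hT
  have hXT : ∀ j : ℕ, X * d⁄dX (ZMod p) (T j) =
      2 * (((j : ℕ) : (ZMod p)⟦X⟧) - ((m : ℕ) : (ZMod p)⟦X⟧)) * g * T j := by
    intro j
    have h1 := hpow v (2 * g) j hXv
    have h2 := hpow w (-(2 * g - 2)) m (by rw [hXw]; ring)
    simp only [hT]
    rw [Derivation.leibniz, Derivation.leibniz, PowerSeries.derivative_X]
    simp only [smul_eq_mul, mul_one]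
    linear_combination (X * w ^ m) * h1 + (X * v ^ j) * h2 + X * v ^ j * w ^ m * hpz'
  have hsum : ∑ j ∈ range (3 * m + 1), C (Φ.coeff j) * T j = X := by
    have h1 : (u * w) ^ m = 1 := by rw [huw, one_pow]
    rw [mul_pow, hum, Finset.sum_mul] at h1
    have h2 := congrArg (fun z => X * z) h1
    simp only [mul_one] at h2
    rw [← h2, Finset.mul_sum]
    refine Finset.sum_congr rfl fun j _ => ?_
    simp only [hT]
    ring
  have hTm : T m = X ^ p := by
    simp only [hT, hv]
    have h0 : (X : (ZMod p)⟦X⟧) ^ p = X ^ (2 * m + 1) := congrArg (fun k => X ^ k) hm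
    rw [mul_pow, h0]
    have h1 : (u * w) ^ m = 1 := by rw [huw, one_pow]
    rw [mul_pow] at h1
    linear_combination (X * (X ^ 2) ^ m) * h1
  -- `g = (a derivative) + H X ^ (p - 1) g`
  have hmem : m ∈ range (3 * m + 1) := by
    rw [mem_range]
    omega
  have hunit : ∀ j ∈ (range (3 * m + 1)).erase m, (2 * ((j : ZMod p) - m)) ≠ 0 := by
    intro j hj h0
    rw [mem_erase, mem_range] at hj
    rcases mul_eq_zero.1 h0 with h1 | h1
    · have h2 : ((2 : ℕ) : ZMod p) = 0 := by exact_mod_cast h1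
      rw [ZMod.natCast_eq_zero_iff] at h2
      exact hp2 ((Nat.prime_dvd_prime_iff_eq hp.out Nat.prime_two).1 h2)
    · have h2 : ((j : ℕ) : ZMod p) = ((m : ℕ) : ZMod p) := sub_eq_zero.1 h1
      rw [ZMod.natCast_eq_natCast_iff] at h2
      have h3 := (Nat.modEq_iff_dvd.1 h2)
      obtain ⟨c, hc⟩ := h3
      have h4 : (m : ℤ) - j < p ∧ -(p : ℤ) < m - j := by
        constructor <;> omega
      have h5 : c < 1 := by
        by_contra h6
        have : (p : ℤ) * 1 ≤ p * c := mul_le_mul_of_nonneg_left (by omega) (by omega)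
        omega
      have h6 : -1 < c := by
        by_contra h6
        have : (p : ℤ) * c ≤ p * (-1) := mul_le_mul_of_nonneg_left (by omega) (by omega)
        omega
      have h7 : c = 0 := by omega
      rw [h7] at hc
      omega
  have hmain : g = ∑ j ∈ (range (3 * m + 1)).erase m,
      C (Φ.coeff j * (2 * ((j : ZMod p) - m))⁻¹) * d⁄dX (ZMod p) (T j) +
      C (Φ.coeff m) * (X ^ (p - 1) * g) := by
    have h1 : g * X = ∑ j ∈ range (3 * m + 1), C (Φ.coeff j) * (g * T j) := by
      rw [← hsum, Finset.mul_sum]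
      refine Finset.sum_congr rfl fun j _ => ?_
      ring
    rw [← Finset.sum_erase_add _ _ hmem] at h1
    have h2 : ∀ j ∈ (range (3 * m + 1)).erase m, C (Φ.coeff j) * (g * T j) =
        (C (Φ.coeff j * (2 * ((j : ZMod p) - m))⁻¹) * d⁄dX (ZMod p) (T j)) * X := by
      intro j hj
      have h3 := hXT j
      have h4 : (2 * (((j : ℕ) : (ZMod p)⟦X⟧) - ((m : ℕ) : (ZMod p)⟦X⟧))) =
          C (2 * ((j : ZMod p) - m)) := by
        rw [map_mul, map_sub, map_natCast, map_natCast, map_ofNat]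
      rw [h4] at h3
      have h5 : C (2 * ((j : ZMod p) - m))⁻¹ * C (2 * ((j : ZMod p) - m)) = (1 : (ZMod p)⟦X⟧) := by
        rw [← map_mul, inv_mul_cancel₀ (hunit j hj), map_one]
      rw [map_mul]
      linear_combination (-(C (Φ.coeff j) * C (2 * ((j : ZMod p) - m))⁻¹)) * h3 -
        C (Φ.coeff j) * g * T j * h5
    rw [Finset.sum_congr rfl h2, ← Finset.sum_mul, hTm] at h1
    have h6 : (X : (ZMod p)⟦X⟧) ^ p = X ^ (p - 1) * X := by
      rw [← pow_succ, Nat.sub_add_cancel hp.out.one_le]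
    rw [h6] at h1
    have h7 : g * X = (∑ j ∈ (range (3 * m + 1)).erase m,
      C (Φ.coeff j * (2 * ((j : ZMod p) - m))⁻¹) * d⁄dX (ZMod p) (T j) +
      C (Φ.coeff m) * (X ^ (p - 1) * g)) * X := by
      rw [h1]
      ring
    exact mul_right_cancel₀ PowerSeries.X_ne_zero h7
  rw [hΦH]
  conv_lhs => rw [hmain]
  rw [map_add, map_sum, coeff_C_mul, coeff_X_pow_mul]
  rw [Finset.sum_eq_zero, zero_add]
  intro j _
  rw [coeff_C_mul, coeff_derivative]
  have h8 : ((p * n + (p - 1) : ℕ) : ZMod p) + 1 = 0 := by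
    have : ((p * n + (p - 1) : ℕ) : ZMod p) + 1 = ((p * n + (p - 1) + 1 : ℕ) : ZMod p) := by
      push_cast
      ring
    rw [this, add_assoc, Nat.sub_add_cancel hp.out.one_le]
    push_cast
    rw [ZMod.natCast_self]
    ring
  rw [h8]
  ring

/-- the coefficients of `t ^ (p ^ j - 1)` of the invariant differential -/
theorem coeff_unit (hp2 : p ≠ 2) {A B : ℤ_[p]} {u g : ℤ_[p]⟦X⟧} (h : IsExp A B u g) (j : ℕ) :
    PadicInt.toZMod (coeff (p ^ j - 1) g) =
      hasse p (PadicInt.toZMod A) (PadicInt.toZMod B) ^ j := by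
  have hU := h.map (PadicInt.toZMod (p := p))
  have h1 : X * d⁄dX ℤ_[p] u = (2 * g - 2) * u := by
    linear_combination -h.2
  have h2 : ∀ n, 1 ≤ n → PadicInt.toZMod (coeff (p * n) g) = PadicInt.toZMod (coeff n g) := by
    intro n hn
    have h3 := cartier_log u (2 * g - 2) h1 h.const_u n
    have h4 : ∀ k, 1 ≤ k → coeff k (2 * g - 2 : ℤ_[p]⟦X⟧) = 2 * coeff k g := by
      intro k hk
      have e : (2 : ℤ_[p]⟦X⟧) = C (2 : ℤ_[p]) := (map_ofNat _ 2).symm
      rw [map_sub, e, coeff_C_mul, coeff_C, if_neg (by omega), sub_zero]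
    rw [h4 n hn, h4 (p * n) (Nat.mul_pos hp.out.pos hn), map_mul, map_mul] at h3
    have h5 : (PadicInt.toZMod (2 : ℤ_[p]) : ZMod p) ≠ 0 := by
      rw [map_ofNat]
      intro h6
      have h7 : ((2 : ℕ) : ZMod p) = 0 := by exact_mod_cast h6
      rw [ZMod.natCast_eq_zero_iff] at h7
      exact hp2 ((Nat.prime_dvd_prime_iff_eq hp.out Nat.prime_two).1 h7)
    exact mul_left_cancel₀ h5 h3
  have h2' : ∀ n, PadicInt.toZMod (coeff (p * n) g) = PadicInt.toZMod (coeff n g) := by
    intro n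
    rcases Nat.eq_zero_or_pos n with rfl | hn
    · rw [mul_zero]
    · exact h2 n hn
  induction j with
  | zero =>
    rw [pow_zero, pow_zero]
    have h3 := congrArg constantCoeff h.2
    simp only [map_mul, map_add, h.const_u, constantCoeff_X, zero_mul, add_zero, mul_one] at h3
    have e : constantCoeff (2 : ℤ_[p]⟦X⟧) = 2 := map_ofNat _ 2
    rw [e] at h3
    have h4 : constantCoeff g = 1 := by
      have : (2 : ℤ_[p]) * constantCoeff g = 2 * 1 := by rw [h3, mul_one]
      exact mul_left_cancel₀ two_ne_zero this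
    rw [Nat.sub_self, coeff_zero_eq_constantCoeff_apply, h4, map_one]
  | succ j ih =>
    have h3 := coeff_hasse hp2 hU (p ^ j - 1)
    rw [coeff_map, coeff_map, h2' (p ^ j - 1), ih] at h3
    have h4 : p * (p ^ j - 1) + (p - 1) = p ^ (j + 1) - 1 := by
      have h5 : 1 ≤ p ^ j := Nat.one_le_pow _ _ hp.out.pos
      have h6 : 1 ≤ p := hp.out.one_le
      have h7 : p ≤ p * p ^ j := Nat.le_mul_of_pos_right _ h5
      rw [Nat.mul_sub, mul_one, pow_succ']
      omega
    rw [h4] at h3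
    rw [h3, pow_succ']

end Pool.Agent.Y732
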