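import Pool.Agent.Y732.GenVal
import Pool.Agent.Y732.Cmp

/-!
# Comparison of points which are multiples of each other modulo `p ^ k`
-/

set_option autoImplicit false

namespace Pool.Agent.Y732

open WeierstrassCurve

lemma G_twist {D K : Type*} [CommRing D] [Field K] (f : D →+* K) (hf : Function.Injective f)
    (W : WeierstrassCurve D) {u : D} (hu : f u ≠ 0) (x y : D) (n : ℕ) :
    G (twist u W) (u ^ 2 * x) (u ^ 3 * y) n 0 = (u ^ (n ^ 2)) ^ 2 * G W x y n 0 ∧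
      G (twist u W) (u ^ 2 * x) (u ^ 3 * y) n 1 = (u ^ (n ^ 2)) ^ 3 * G W x y n 1 ∧
      u * G (twist u W) (u ^ 2 * x) (u ^ 3 * y) n 2 = u ^ (n ^ 2) * G W x y n 2 := by
  have h := J_twist (W.map f) hu (f x) (f y) n
  have h' : ∀ i, f (G (twist u W) (u ^ 2 * x) (u ^ 3 * y) n i) =
      J (twist (f u) (W.map f)).toJacobian ![f u ^ 2 * f x, f u ^ 3 * f y, 1] n i := by
    intro i
    rw [← G_map f, twist_map, map_mul, map_mul, map_pow, map_pow]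
    rfl
  have h'' : ∀ i, f (G W x y n i) = J (W.map f).toJacobian ![f x, f y, 1] n i := by
    intro i
    rw [← G_map f]
    rfl
  refine ⟨hf ?_, hf ?_, hf ?_⟩
  · rw [h' 0, h, map_mul, map_pow, map_pow, h'' 0]
    rfl
  · rw [h' 1, h, map_mul, map_pow, map_pow, h'' 1]
    rfl
  · rw [map_mul, h' 2, h, map_mul, map_pow, h'' 2]
    have : (![(f u ^ n ^ 2) ^ 2 * J (W.map f).toJacobian ![f x, f y, 1] n 0,
        (f u ^ n ^ 2) ^ 3 * J (W.map f).toJacobian ![f x, f y, 1] n 1,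
        f u ^ n ^ 2 / f u * J (W.map f).toJacobian ![f x, f y, 1] n 2] : Fin 3 → K) 2 =
        f u ^ n ^ 2 / f u * J (W.map f).toJacobian ![f x, f y, 1] n 2 := rfl
    rw [this]
    field_simp

variable {p : ℕ} [hp : Fact p.Prime]

lemma isUnit_of_one {μ : ℤ_[p]} (hμ : (p : ℤ_[p]) ∣ μ - 1) : IsUnit μ := by
  rw [PadicInt.isUnit_iff]
  by_contra h3
  have h4 : (p : ℤ_[p]) ∣ μ := by
    rw [← PadicInt.norm_lt_one_iff_dvd]
    exact lt_of_le_of_ne (PadicInt.norm_le_one _) h3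
  have h5 := dvd_sub h4 hμ
  rw [sub_sub_cancel] at h5
  exact PadicInt.prime_p.not_isUnit (isUnit_of_dvd_one h5)

/-- the coordinates modulo `p ^ k` of the multiples of the two points -/
theorem G_compare {k : ℕ} {W W' : WeierstrassCurve ℤ} {x y x' y' : ℤ} {μ : ℤ_[p]}
    (hμ : (p : ℤ_[p]) ∣ μ - 1)
    (hW : red W' (ZMod (p ^ k)) = twist (PadicInt.toZModPow k μ) (red W (ZMod (p ^ k))))
    (hx : (x' : ZMod (p ^ k)) = PadicInt.toZModPow k μ ^ 2 * x)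
    (hy : (y' : ZMod (p ^ k)) = PadicInt.toZModPow k μ ^ 3 * y) (m : ℕ) :
    ((G W' x' y' m 0 : ℤ) : ZMod (p ^ k)) =
        (PadicInt.toZModPow k μ ^ (m ^ 2)) ^ 2 * ((G W x y m 0 : ℤ) : ZMod (p ^ k)) ∧
      ((G W' x' y' m 1 : ℤ) : ZMod (p ^ k)) =
        (PadicInt.toZModPow k μ ^ (m ^ 2)) ^ 3 * ((G W x y m 1 : ℤ) : ZMod (p ^ k)) ∧
      PadicInt.toZModPow k μ * ((G W' x' y' m 2 : ℤ) : ZMod (p ^ k)) =
        PadicInt.toZModPow k μ ^ (m ^ 2) * ((G W x y m 2 : ℤ) : ZMod (p ^ k)) := by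
  set φ : ℤ_[p] →+* ZMod (p ^ k) := PadicInt.toZModPow k with hφ
  have hf : Function.Injective (PadicInt.Coe.ringHom : ℤ_[p] →+* ℚ_[p]) := by
    intro a b hab
    exact Subtype.coe_injective hab
  have hμ0 : (PadicInt.Coe.ringHom : ℤ_[p] →+* ℚ_[p]) μ ≠ 0 := by
    intro h
    have h5 : μ = 0 := hf (by rw [h, map_zero])
    exact (isUnit_of_one hμ).ne_zero h5
  obtain ⟨t0, t1, t2⟩ := G_twist (PadicInt.Coe.ringHom : ℤ_[p] →+* ℚ_[p]) hf (red W ℤ_[p]) hμ0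
    (x : ℤ_[p]) (y : ℤ_[p]) m
  rw [G_cast] at t0 t1 t2
  have hW' : (twist μ (red W ℤ_[p])).map φ = red W' (ZMod (p ^ k)) := by
    rw [twist_map, hW]
    congr 1
    ext <;> simp
  have hG : ∀ i, ((G W' x' y' m i : ℤ) : ZMod (p ^ k)) =
      φ (G (twist μ (red W ℤ_[p])) (μ ^ 2 * x) (μ ^ 3 * y) m i) := by
    intro i
    rw [← G_map φ, hW', ← G_cast, map_mul, map_mul, map_pow, map_pow, map_intCast, map_intCast,
      hx, hy]
  refine ⟨?_, ?_, ?_⟩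
  · rw [hG 0, t0, map_mul, map_pow, map_pow, map_intCast]
  · rw [hG 1, t1, map_mul, map_pow, map_pow, map_intCast]
  · have := congrArg φ t2
    rw [map_mul, map_mul, map_pow, ← hG 2, map_intCast] at this
    exact this

/-- the coordinates modulo `p ^ k` of the multiples of two rational points -/
theorem T_compare {k : ℕ} {W W' : WeierstrassCurve ℤ} {X Y e X' Y' e' : ℤ} {κ ν : ℤ_[p]}
    (hκ : (p : ℤ_[p]) ∣ κ - 1) (hν : (p : ℤ_[p]) ∣ ν - 1)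
    (hW : red W' (ZMod (p ^ k)) = twist (PadicInt.toZModPow k κ) (red W (ZMod (p ^ k))))
    (he : (e' : ZMod (p ^ k)) = PadicInt.toZModPow k ν * e)
    (hX : (X' : ZMod (p ^ k)) = PadicInt.toZModPow k (κ * ν) ^ 2 * X)
    (hY : (Y' : ZMod (p ^ k)) = PadicInt.toZModPow k (κ * ν) ^ 3 * Y) (m : ℕ) :
    ((T W' X' Y' e' m 0 : ℤ) : ZMod (p ^ k)) =
        (PadicInt.toZModPow k (κ * ν) ^ (m ^ 2)) ^ 2 * ((T W X Y e m 0 : ℤ) : ZMod (p ^ k)) ∧
      ((T W' X' Y' e' m 1 : ℤ) : ZMod (p ^ k)) =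
        (PadicInt.toZModPow k (κ * ν) ^ (m ^ 2)) ^ 3 * ((T W X Y e m 1 : ℤ) : ZMod (p ^ k)) ∧
      PadicInt.toZModPow k κ * ((T W' X' Y' e' m 2 : ℤ) : ZMod (p ^ k)) =
        PadicInt.toZModPow k (κ * ν) ^ (m ^ 2) * ((T W X Y e m 2 : ℤ) : ZMod (p ^ k)) := by
  have hμ : (p : ℤ_[p]) ∣ κ * ν - 1 := by
    have e1 : κ * ν - 1 = (κ - 1) * ν + (ν - 1) := by ring
    rw [e1]
    exact dvd_add (hκ.mul_right _) hν
  have hr : ∀ (e : ℤ) (W : WeierstrassCurve ℤ), red (twist e W) (ZMod (p ^ k)) =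
      twist (e : ZMod (p ^ k)) (red W (ZMod (p ^ k))) := fun e W => twist_map _ e W
  have hW2 : red (twist e' W') (ZMod (p ^ k)) = twist (PadicInt.toZModPow k (κ * ν))
      (red (twist e W) (ZMod (p ^ k))) := by
    rw [hr, hr, hW, twist_twist, twist_twist, he, map_mul]
    congr 1
    ring
  obtain ⟨j0, j1, j2⟩ := G_compare hμ hW2 hX hY m
  refine ⟨j0, j1, ?_⟩
  rw [T_two', T_two']
  push_cast
  rw [he]
  rw [map_mul] at j2 ⊢
  linear_combination (e : ZMod (p ^ k)) * j2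

lemma nat_dvd_padic_unit {n : ℕ} (h : ¬ p ∣ n) : IsUnit (n : ℤ_[p]) := by
  have h1 : ¬ (p : ℤ) ∣ (n : ℤ) := by
    intro h2
    exact h (by exact_mod_cast h2)
  have := not_dvd_unit h1
  exact_mod_cast this

lemma not_dvd_48 (hp5 : 5 ≤ p) : ¬ p ∣ 48 := by
  intro h
  have h1 : p ∣ 2 ^ 4 * 3 := by norm_num; exact h
  rcases (Nat.Prime.dvd_mul hp.out).1 h1 with h2 | h2
  · have := Nat.le_of_dvd (by norm_num) (hp.out.dvd_of_dvd_pow h2)
    omega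
  · have := Nat.le_of_dvd (by norm_num) h2
    omega

lemma not_dvd_864 (hp5 : 5 ≤ p) : ¬ p ∣ 864 := by
  intro h
  have h1 : p ∣ 2 ^ 5 * 3 ^ 3 := by norm_num; exact h
  rcases (Nat.Prime.dvd_mul hp.out).1 h1 with h2 | h2
  · have := Nat.le_of_dvd (by norm_num) (hp.out.dvd_of_dvd_pow h2)
    omega
  · have := Nat.le_of_dvd (by norm_num) (hp.out.dvd_of_dvd_pow h2)
    omega

/-- the comparison of the values -/
theorem compareT (hp5 : 5 ≤ p) {k : ℕ} {W W' : WeierstrassCurve ℤ} {X Y e X' Y' e' : ℤ}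
    {κ ν : ℤ_[p]} (hκ : (p : ℤ_[p]) ∣ κ - 1) (hν : (p : ℤ_[p]) ∣ ν - 1)
    (hW : red W' (ZMod (p ^ k)) = twist (PadicInt.toZModPow k κ) (red W (ZMod (p ^ k))))
    (he : (e' : ZMod (p ^ k)) = PadicInt.toZModPow k ν * e)
    (hX : (X' : ZMod (p ^ k)) = PadicInt.toZModPow k (κ * ν) ^ 2 * X)
    (hY : (Y' : ZMod (p ^ k)) = PadicInt.toZModPow k (κ * ν) ^ 3 * Y)
    {A B A' B' : ℤ_[p]} (hA : 48 * A = -(W.c₄ : ℤ_[p])) (hB : 864 * B = -(W.c₆ : ℤ_[p]))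
    (hA' : 48 * A' = -(W'.c₄ : ℤ_[p])) (hB' : 864 * B' = -(W'.c₆ : ℤ_[p]))
    {s s' : PowerSeries ℤ_[p]} (d : Dat A B s) (d' : Dat A' B' s')
    (hH : hasse p (PadicInt.toZMod A) (PadicInt.toZMod B) ≠ 0) {m : ℕ} {t t' Λ Λ' : ℤ_[p]}
    (ht : (p : ℤ_[p]) ∣ t) (ht' : (p : ℤ_[p]) ∣ t') (hb : ¬ (p : ℤ) ∣ be W X Y e m)
    (hb' : ¬ (p : ℤ) ∣ be W' X' Y' e' m)
    (h1 : (be W X Y e m : ℤ_[p]) * t = -((al W X Y e m : ℤ_[p]) * (T W X Y e m 2 : ℤ)))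
    (h1' : (be W' X' Y' e' m : ℤ_[p]) * t' = -((al W' X' Y' e' m : ℤ_[p]) * (T W' X' Y' e' m 2 : ℤ)))
    (h2 : (be W X Y e m : ℤ_[p]) * Λ = -((al W X Y e m : ℤ_[p]) * ev t s))
    (h2' : (be W' X' Y' e' m : ℤ_[p]) * Λ' = -((al W' X' Y' e' m : ℤ_[p]) * ev t' s')) :
    (p : ℤ_[p]) ^ k ∣ (κ * ν) ^ (m ^ 2) * Λ' - Λ := by
  obtain ⟨j0, j1, j2⟩ := T_compare hκ hν hW he hX hY m
  set φ : ℤ_[p] →+* ZMod (p ^ k) := PadicInt.toZModPow k with hφ
  have hz : ∀ z : ℤ_[p], (p : ℤ_[p]) ^ k ∣ z ↔ φ z = 0 := fun z =>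
    (toZModPow_eq_zero_iff k z).symm
  have hκU := isUnit_of_one hκ
  set w : ZMod (p ^ k) := φ κ with hw
  have hwU : IsUnit w := hκU.map φ
  have a1 : (W'.a₁ : ZMod (p ^ k)) = w * W.a₁ := congrArg WeierstrassCurve.a₁ hW
  have a2 : (W'.a₂ : ZMod (p ^ k)) = w ^ 2 * W.a₂ := congrArg WeierstrassCurve.a₂ hW
  have a3 : (W'.a₃ : ZMod (p ^ k)) = w ^ 3 * W.a₃ := congrArg WeierstrassCurve.a₃ hW
  have a4 : (W'.a₄ : ZMod (p ^ k)) = w ^ 4 * W.a₄ := congrArg WeierstrassCurve.a₄ hW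
  have a6 : (W'.a₆ : ZMod (p ^ k)) = w ^ 6 * W.a₆ := congrArg WeierstrassCurve.a₆ hW
  have hb2 : (W'.b₂ : ZMod (p ^ k)) = w ^ 2 * W.b₂ := by
    rw [WeierstrassCurve.b₂, WeierstrassCurve.b₂]
    push_cast
    rw [a1, a2]
    ring
  have hc4 : (W'.c₄ : ZMod (p ^ k)) = w ^ 4 * W.c₄ := by
    rw [WeierstrassCurve.c₄, WeierstrassCurve.c₄, WeierstrassCurve.b₄, WeierstrassCurve.b₄,
      WeierstrassCurve.b₂, WeierstrassCurve.b₂]
    push_cast
    rw [a1, a2, a3, a4]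
    ring
  have hc6 : (W'.c₆ : ZMod (p ^ k)) = w ^ 6 * W.c₆ := by
    rw [WeierstrassCurve.c₆, WeierstrassCurve.c₆, WeierstrassCurve.b₄, WeierstrassCurve.b₄,
      WeierstrassCurve.b₂, WeierstrassCurve.b₂, WeierstrassCurve.b₆, WeierstrassCurve.b₆]
    push_cast
    rw [a1, a2, a3, a4, a6]
    ring
  have hAA : (p : ℤ_[p]) ^ k ∣ A' - κ ^ 4 * A := by
    have h48 : IsUnit (φ 48) := by
      have := (nat_dvd_padic_unit (not_dvd_48 hp5)).map φ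
      exact_mod_cast this
    rw [hz]
    apply h48.mul_left_cancel
    rw [mul_zero, ← map_mul]
    have e : 48 * (A' - κ ^ 4 * A) = -(W'.c₄ : ℤ_[p]) + κ ^ 4 * (W.c₄ : ℤ_[p]) := by
      linear_combination hA' - κ ^ 4 * hA
    rw [e, map_add, map_neg, map_mul, map_pow, map_intCast, map_intCast, hc4]
    ring
  have hBB : (p : ℤ_[p]) ^ k ∣ B' - κ ^ 6 * B := by
    have h864 : IsUnit (φ 864) := by
      have := (nat_dvd_padic_unit (not_dvd_864 hp5)).map φ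
      exact_mod_cast this
    rw [hz]
    apply h864.mul_left_cancel
    rw [mul_zero, ← map_mul]
    have e : 864 * (B' - κ ^ 6 * B) = -(W'.c₆ : ℤ_[p]) + κ ^ 6 * (W.c₆ : ℤ_[p]) := by
      linear_combination hB' - κ ^ 6 * hB
    rw [e, map_add, map_neg, map_mul, map_pow, map_intCast, map_intCast, hc6]
    ring
  set c : ZMod (p ^ k) := φ (κ * ν) ^ (m ^ 2) with hc
  have hcU : IsUnit c := ((hκU.mul (isUnit_of_one hν)).map φ).pow _
  have hal : (al W' X' Y' e' m : ZMod (p ^ k)) = c ^ 2 * al W X Y e m := by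
    unfold al
    push_cast
    rw [j0, hb2]
    linear_combination ((W.b₂ : ZMod (p ^ k)) * (w * (T W' X' Y' e' m 2 : ℤ) +
      c * (T W X Y e m 2 : ℤ))) * j2
  have hbe : (be W' X' Y' e' m : ZMod (p ^ k)) = c ^ 3 * be W X Y e m := by
    unfold be
    push_cast
    rw [j0, j1, a1, a3]
    linear_combination (6 * (W.a₁ : ZMod (p ^ k)) * c ^ 2 * (T W X Y e m 0 : ℤ) +
      6 * (W.a₃ : ZMod (p ^ k)) * ((w * (T W' X' Y' e' m 2 : ℤ)) ^ 2 +
        (w * (T W' X' Y' e' m 2 : ℤ)) * (c * (T W X Y e m 2 : ℤ)) + (c * (T W X Y e m 2 : ℤ)) ^ 2)) * j2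
  have hbU : IsUnit (be W X Y e m : ZMod (p ^ k)) := by
    have := (not_dvd_unit (p := p) hb).map φ
    rwa [map_intCast] at this
  have hbU' : IsUnit (be W' X' Y' e' m : ZMod (p ^ k)) := by
    have := (not_dvd_unit (p := p) hb').map φ
    rwa [map_intCast] at this
  have g1 := congrArg φ h1
  have g1' := congrArg φ h1'
  rw [map_mul, map_neg, map_mul, map_intCast, map_intCast, map_intCast] at g1 g1'
  have htt : (p : ℤ_[p]) ^ k ∣ κ * t' - t := by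
    rw [hz, map_sub, map_mul, ← hw]
    have h3 : (be W X Y e m : ZMod (p ^ k)) * be W' X' Y' e' m * (w * φ t' - φ t) = 0 := by
      linear_combination (w * be W X Y e m) * g1' - be W' X' Y' e' m * g1 -
        (be W X Y e m * al W' X' Y' e' m : ZMod (p ^ k)) * j2 -
        (be W X Y e m * c * (T W X Y e m 2 : ℤ) : ZMod (p ^ k)) * hal +
        (al W X Y e m * (T W X Y e m 2 : ℤ) : ZMod (p ^ k)) * hbe
    exact (hbU.mul hbU').mul_left_cancel (by rw [h3, mul_zero])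
  have hev : (p : ℤ_[p]) ^ k ∣ ev t' s' - ev t s := by
    refine Dat.ev_scale (by omega) k ?_ hAA hBB hH d d' ht ht' htt
    rw [toZMod_eq_of_dvd hκ, map_one]
  rw [hz, map_sub] at hev
  have hev' := sub_eq_zero.1 hev
  have g2 := congrArg φ h2
  have g2' := congrArg φ h2'
  rw [map_mul, map_neg, map_mul, map_intCast, map_intCast] at g2 g2'
  rw [hz, map_sub, map_mul, map_pow, ← hc]
  have h3 : (c ^ 2 * be W X Y e m : ZMod (p ^ k)) * (c * φ Λ' - φ Λ) = 0 := by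
    linear_combination g2' - c ^ 2 * g2 - (φ Λ') * hbe - (φ (ev t' s')) * hal -
      (c ^ 2 * al W X Y e m : ZMod (p ^ k)) * hev'
  exact ((hcU.pow 2).mul hbU).mul_left_cancel (by rw [h3, mul_zero])

end Pool.Agent.Y732
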