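import Pool.Agent.Y732.Jac

/-!
# The weights for a general Weierstrass curve
-/

set_option autoImplicit false

namespace Pool.Agent.Y732

open WeierstrassCurve

/-- the curve with coefficients `uⁱ aᵢ` -/
def twist {R : Type*} [CommRing R] (u : R) (W : WeierstrassCurve R) : WeierstrassCurve R :=
  ⟨u * W.a₁, u ^ 2 * W.a₂, u ^ 3 * W.a₃, u ^ 4 * W.a₄, u ^ 6 * W.a₆⟩

section

variable {F : Type*} [Field F]

lemma dbl_scale (W : WeierstrassCurve F) {u : F} (hu : u ≠ 0) (c X Y Z : F) :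
    (twist u W).toJacobian.dblXYZ ![c ^ 2 * X, c ^ 3 * Y, c / u * Z] =
      ![(c ^ 4) ^ 2 * W.toJacobian.dblX ![X, Y, Z], (c ^ 4) ^ 3 * W.toJacobian.dblY ![X, Y, Z],
        c ^ 4 / u * W.toJacobian.dblZ ![X, Y, Z]] := by
  have e1 : (twist u W).toJacobian.a₁ = u * W.a₁ := rfl
  have e2 : (twist u W).toJacobian.a₂ = u ^ 2 * W.a₂ := rfl
  have e3 : (twist u W).toJacobian.a₃ = u ^ 3 * W.a₃ := rfl
  have e4 : (twist u W).toJacobian.a₄ = u ^ 4 * W.a₄ := rfl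
  have f1 : W.toJacobian.a₁ = W.a₁ := rfl
  have f2 : W.toJacobian.a₂ = W.a₂ := rfl
  have f3 : W.toJacobian.a₃ = W.a₃ := rfl
  have f4 : W.toJacobian.a₄ = W.a₄ := rfl
  have hU : (twist u W).toJacobian.dblU ![c ^ 2 * X, c ^ 3 * Y, c / u * Z] =
      c ^ 4 * W.toJacobian.dblU ![X, Y, Z] := by
    rw [Jacobian.dblU_eq, Jacobian.dblU_eq, e1, e2, e4, f1, f2, f4]
    simp only [Jacobian.fin3_def_ext]
    field_simp
  have hN : (twist u W).toJacobian.negY ![c ^ 2 * X, c ^ 3 * Y, c / u * Z] =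
      c ^ 3 * W.toJacobian.negY ![X, Y, Z] := by
    rw [Jacobian.negY_eq, Jacobian.negY_eq, e1, e3, f1, f3]
    field_simp
  have hX : (twist u W).toJacobian.dblX ![c ^ 2 * X, c ^ 3 * Y, c / u * Z] =
      (c ^ 4) ^ 2 * W.toJacobian.dblX ![X, Y, Z] := by
    rw [Jacobian.dblX, Jacobian.dblX, hU, hN, e1, e2, f1, f2]
    simp only [Jacobian.fin3_def_ext]
    field_simp
  have hZ : (twist u W).toJacobian.dblZ ![c ^ 2 * X, c ^ 3 * Y, c / u * Z] =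
      c ^ 4 / u * W.toJacobian.dblZ ![X, Y, Z] := by
    rw [Jacobian.dblZ, Jacobian.dblZ, hN]
    simp only [Jacobian.fin3_def_ext]
    field_simp
  have hNY : (twist u W).toJacobian.negDblY ![c ^ 2 * X, c ^ 3 * Y, c / u * Z] =
      (c ^ 4) ^ 3 * W.toJacobian.negDblY ![X, Y, Z] := by
    rw [Jacobian.negDblY, Jacobian.negDblY, hU, hX, hN]
    simp only [Jacobian.fin3_def_ext]
    ring
  have hY : (twist u W).toJacobian.dblY ![c ^ 2 * X, c ^ 3 * Y, c / u * Z] =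
      (c ^ 4) ^ 3 * W.toJacobian.dblY ![X, Y, Z] := by
    rw [Jacobian.dblY, Jacobian.dblY, hX, hNY, hZ, Jacobian.negY_eq, Jacobian.negY_eq, e1, e3, f1,
      f3]
    field_simp
  rw [Jacobian.dblXYZ, hX, hY, hZ]

lemma add_scale (W : WeierstrassCurve F) {u : F} (hu : u ≠ 0) (c d X Y Z X' Y' Z' : F) :
    (twist u W).toJacobian.addXYZ ![c ^ 2 * X, c ^ 3 * Y, c / u * Z]
        ![d ^ 2 * X', d ^ 3 * Y', d / u * Z'] =
      ![((c * d) ^ 2 / u) ^ 2 * W.toJacobian.addX ![X, Y, Z] ![X', Y', Z'],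
        ((c * d) ^ 2 / u) ^ 3 * W.toJacobian.addY ![X, Y, Z] ![X', Y', Z'],
        ((c * d) ^ 2 / u) / u * Jacobian.addZ ![X, Y, Z] ![X', Y', Z']] := by
  have e1 : (twist u W).toJacobian.a₁ = u * W.a₁ := rfl
  have e2 : (twist u W).toJacobian.a₂ = u ^ 2 * W.a₂ := rfl
  have e3 : (twist u W).toJacobian.a₃ = u ^ 3 * W.a₃ := rfl
  have e4 : (twist u W).toJacobian.a₄ = u ^ 4 * W.a₄ := rfl
  have e6 : (twist u W).toJacobian.a₆ = u ^ 6 * W.a₆ := rfl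
  have f1 : W.toJacobian.a₁ = W.a₁ := rfl
  have f2 : W.toJacobian.a₂ = W.a₂ := rfl
  have f3 : W.toJacobian.a₃ = W.a₃ := rfl
  have f4 : W.toJacobian.a₄ = W.a₄ := rfl
  have f6 : W.toJacobian.a₆ = W.a₆ := rfl
  have hX : (twist u W).toJacobian.addX ![c ^ 2 * X, c ^ 3 * Y, c / u * Z]
      ![d ^ 2 * X', d ^ 3 * Y', d / u * Z'] =
      ((c * d) ^ 2 / u) ^ 2 * W.toJacobian.addX ![X, Y, Z] ![X', Y', Z'] := by
    rw [Jacobian.addX, Jacobian.addX, e1, e2, e3, e4, e6, f1, f2, f3, f4, f6]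
    simp only [Jacobian.fin3_def_ext]
    field_simp
  have hZ : Jacobian.addZ ![c ^ 2 * X, c ^ 3 * Y, c / u * Z]
      ![d ^ 2 * X', d ^ 3 * Y', d / u * Z'] =
      ((c * d) ^ 2 / u) / u * Jacobian.addZ ![X, Y, Z] ![X', Y', Z'] := by
    rw [Jacobian.addZ, Jacobian.addZ]
    simp only [Jacobian.fin3_def_ext]
    field_simp
  have hNY : (twist u W).toJacobian.negAddY ![c ^ 2 * X, c ^ 3 * Y, c / u * Z]
      ![d ^ 2 * X', d ^ 3 * Y', d / u * Z'] =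
      ((c * d) ^ 2 / u) ^ 3 * W.toJacobian.negAddY ![X, Y, Z] ![X', Y', Z'] := by
    rw [Jacobian.negAddY, Jacobian.negAddY, e1, e2, e3, e4, e6, f1, f2, f3, f4, f6]
    simp only [Jacobian.fin3_def_ext]
    field_simp
  have hY : (twist u W).toJacobian.addY ![c ^ 2 * X, c ^ 3 * Y, c / u * Z]
      ![d ^ 2 * X', d ^ 3 * Y', d / u * Z'] =
      ((c * d) ^ 2 / u) ^ 3 * W.toJacobian.addY ![X, Y, Z] ![X', Y', Z'] := by
    rw [Jacobian.addY, Jacobian.addY, hX, hNY, hZ, Jacobian.negY_eq, Jacobian.negY_eq, e1, e3, f1,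
      f3]
    field_simp
  rw [Jacobian.addXYZ, hX, hY, hZ]

/-- the weights: `aᵢ`, `x`, `y` have weights `i`, `2`, `3` -/
theorem J_twist (W : WeierstrassCurve F) {u : F} (hu : u ≠ 0) (x y : F) (n : ℕ) :
    J (twist u W).toJacobian ![u ^ 2 * x, u ^ 3 * y, 1] n =
      ![(u ^ (n ^ 2)) ^ 2 * J W.toJacobian ![x, y, 1] n 0,
        (u ^ (n ^ 2)) ^ 3 * J W.toJacobian ![x, y, 1] n 1,
        u ^ (n ^ 2) / u * J W.toJacobian ![x, y, 1] n 2] := by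
  have hv : ∀ Q : Fin 3 → F, Q = ![Q 0, Q 1, Q 2] := fun Q => by
    ext i
    fin_cases i <;> rfl
  refine J_induction (Q := fun n => J (twist u W).toJacobian ![u ^ 2 * x, u ^ 3 * y, 1] n =
      ![(u ^ (n ^ 2)) ^ 2 * J W.toJacobian ![x, y, 1] n 0,
        (u ^ (n ^ 2)) ^ 3 * J W.toJacobian ![x, y, 1] n 1,
        u ^ (n ^ 2) / u * J W.toJacobian ![x, y, 1] n 2]) ?_ ?_ ?_ ?_ n
  · rw [J_zero, J_zero]
    simp
  · rw [J_one, J_one]
    simp [hu]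
  · intro n hn h
    rw [J_dbl _ _ n hn, J_dbl _ _ n hn, h, dbl_scale W hu]
    have hc4 : u ^ ((2 * n) ^ 2) = (u ^ (n ^ 2)) ^ 4 := by ring
    rw [hc4, ← hv (J W.toJacobian ![x, y, 1] n)]
    rfl
  · intro n hn h h'
    rw [J_add _ _ n hn, J_add _ _ n hn, h, h', add_scale W hu]
    have hc4 : (u ^ (n ^ 2) * u ^ ((n + 1) ^ 2)) ^ 2 / u = u ^ ((2 * n + 1) ^ 2) := by
      rw [div_eq_iff hu]
      ring
    rw [hc4, ← hv (J W.toJacobian ![x, y, 1] n), ← hv (J W.toJacobian ![x, y, 1] (n + 1))]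
    rfl

end

end Pool.Agent.Y732
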