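import Pool.Agent.Y732.Val

/-!
# Regulators of functions with the parallelogram law
-/

set_option autoImplicit false

namespace Pool.Agent.Y732

/-- the determinant of the pairing `h (P + Q) - h P - h Q` on the family `P` -/
def Reg {G K : Type*} [AddCommGroup G] [CommRing K] {r : ℕ} (h : G → K) (P : Fin r → G) : K :=
  (Matrix.of fun i j => h (P i + P j) - h (P i) - h (P j)).det

section

variable {G : Type} {K : Type*} [AddCommGroup G] [Field K] [CharZero K] {h : G → K}

lemma quad_three (hq : ∀ P Q, h (P + Q) + h (P - Q) = 2 * h P + 2 * h Q) (P Q R : G) :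
    h (P + Q + R) + h P + h Q + h R = h (P + Q) + h (P + R) + h (Q + R) := by
  have h1 := hq (P + Q) R
  have h2 := hq (P - R) Q
  have h3 := hq P (Q + R)
  have h4 := hq P R
  have e1 : P - R + Q = P + Q - R := by abel
  have e2 : P - R - Q = P - (Q + R) := by abel
  have e3 : P + (Q + R) = P + Q + R := by abel
  rw [e1, e2] at h2
  rw [e3] at h3
  have h5 : (2 : K) * (h (P + Q + R) + h P + h Q + h R) =
      2 * (h (P + Q) + h (P + R) + h (Q + R)) := by
    linear_combination h1 - h2 + h3 - 2 * h4
  exact mul_left_cancel₀ two_ne_zero h5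

/-- the pairing as a homomorphism in the first variable -/
def prHom (hq : ∀ P Q, h (P + Q) + h (P - Q) = 2 * h P + 2 * h Q) (Q : G) : G →+ K :=
  AddMonoidHom.mk' (fun P => h (P + Q) - h P - h Q) (by
    intro P R
    have := quad_three hq P R Q
    linear_combination this)

lemma pr_sum (hq : ∀ P Q, h (P + Q) + h (P - Q) = 2 * h P + 2 * h Q) {s : ℕ} (c : Fin s → G)
    (a b : Fin s → ℤ) : h ((∑ j, a j • c j) + ∑ l, b l • c l) - h (∑ j, a j • c j) -
      h (∑ l, b l • c l) = ∑ j, ∑ l, (a j : K) * (h (c j + c l) - h (c j) - h (c l)) * b l := by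
  have h1 : ∀ Q, h ((∑ j, a j • c j) + Q) - h (∑ j, a j • c j) - h Q =
      ∑ j, (a j : K) * (h (c j + Q) - h (c j) - h Q) := by
    intro Q
    have h2 : prHom hq Q (∑ j, a j • c j) = ∑ j, (a j : K) * prHom hq Q (c j) := by
      rw [map_sum]
      refine Finset.sum_congr rfl fun j _ => ?_
      rw [map_zsmul, zsmul_eq_mul]
    exact h2
  rw [h1]
  refine Finset.sum_congr rfl fun j _ => ?_
  have h3 : ∀ P, h (P + ∑ l, b l • c l) - h P - h (∑ l, b l • c l) =
      ∑ l, (h (P + c l) - h P - h (c l)) * (b l : K) := by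
    intro P
    have h2 : prHom hq P (∑ l, b l • c l) = ∑ l, (b l : K) * prHom hq P (c l) := by
      rw [map_sum]
      refine Finset.sum_congr rfl fun j _ => ?_
      rw [map_zsmul, zsmul_eq_mul]
    have h4 : ∀ Q, prHom hq P Q = h (P + Q) - h P - h Q := by
      intro Q
      change h (Q + P) - h Q - h P = _
      rw [add_comm Q P]
      ring
    rw [h4] at h2
    rw [h2]
    refine Finset.sum_congr rfl fun l _ => ?_
    rw [h4, mul_comm]
  rw [h3, Finset.mul_sum]
  refine Finset.sum_congr rfl fun l _ => ?_
  ring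

/-- the regulator of a family of combinations -/
theorem Reg_comb (hq : ∀ P Q, h (P + Q) + h (P - Q) = 2 * h P + 2 * h Q) {r s : ℕ}
    (c : Fin s → G) (a : Matrix (Fin r) (Fin s) ℤ) :
    Reg h (fun i => ∑ j, a i j • c j) = (a.map (fun z : ℤ => (z : K)) *
      (Matrix.of fun i j => h (c i + c j) - h (c i) - h (c j)) *
      (a.map (fun z : ℤ => (z : K))).transpose).det := by
  unfold Reg
  congr 1
  ext i k
  rw [Matrix.of_apply, pr_sum hq c (a i) (a k)]
  rw [Matrix.mul_apply]
  simp only [Matrix.mul_apply, Matrix.transpose_apply, Matrix.map_apply, Matrix.of_apply]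
  rw [Finset.sum_comm]
  refine Finset.sum_congr rfl fun l _ => ?_
  rw [Finset.sum_mul]

/-- If the regulator of a family of as many elements as the rank does not vanish, then the
regulator of every maximal independent family does not vanish. -/
theorem Reg_ne_zero (hq : ∀ P Q, h (P + Q) + h (P - Q) = 2 * h P + 2 * h Q) {r : ℕ}
    (hr : 0 < r) {b : Fin r → G} (hb : Reg h b ≠ 0) (hrank : Module.finrank ℤ G = r)
    {s : ℕ} {c : Fin s → G} (hc : LinearIndependent ℤ c)
    (hmax : ∀ Q, ∃ n : ℤ, n ≠ 0 ∧ n • Q ∈ Submodule.span ℤ (Set.range c)) : Reg h c ≠ 0 := by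
  have hfin : Module.rank ℤ G = r := by
    have h1 : Module.rank ℤ G < Cardinal.aleph0 := by
      by_contra h2
      have h3 : Module.finrank ℤ G = 0 := by
        unfold Module.finrank
        exact Cardinal.toNat_apply_of_aleph0_le (not_lt.1 h2)
      omega
    rw [← hrank, Module.finrank, Cardinal.cast_toNat_of_lt_aleph0 h1]
  have hs : s ≤ r := by
    have h2 := hc.cardinal_le_rank
    rw [hfin, Cardinal.mk_fin] at h2
    exact_mod_cast h2
  choose n hn hmem using fun i => hmax (b i)
  have hmem' : ∀ i, ∃ a : Fin s → ℤ, ∑ j, a j • c j = n i • b i := fun i =>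
    (Submodule.mem_span_range_iff_exists_fun ℤ).1 (hmem i)
  choose a ha using hmem'
  have h1 : Reg h (fun i => n i • b i) ≠ 0 := by
    have h2 : (fun i => n i • b i) = fun i => ∑ j, (Matrix.diagonal n) i j • b j := by
      funext i
      rw [Finset.sum_eq_single i]
      · rw [Matrix.diagonal_apply_eq]
      · intro j _ hj
        rw [Matrix.diagonal_apply_ne _ (Ne.symm hj), zero_smul]
      · intro hi
        exact absurd (Finset.mem_univ i) hi
    rw [h2, Reg_comb hq, Matrix.det_mul, Matrix.det_mul, Matrix.det_transpose]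
    have h3 : ((Matrix.diagonal n).map (fun z : ℤ => (z : K))).det ≠ 0 := by
      rw [Matrix.diagonal_map (by simp), Matrix.det_diagonal]
      exact Finset.prod_ne_zero_iff.2 fun i _ => by exact_mod_cast hn i
    exact mul_ne_zero (mul_ne_zero h3 hb) h3
  have h2 : (fun i => n i • b i) = fun i => ∑ j, a i j • c j := by
    funext i
    exact (ha i).symm
  rw [h2] at h1
  have h3 := Reg_comb hq c a
  have h4 : r ≤ s := by
    have h5 : IsUnit ((Matrix.map a (fun z : ℤ => (z : K)) *
        (Matrix.of fun i j => h (c i + c j) - h (c i) - h (c j)) *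
        (Matrix.map a (fun z : ℤ => (z : K))).transpose)) := by
      rw [Matrix.isUnit_iff_isUnit_det, isUnit_iff_ne_zero, ← h3]
      exact h1
    have h6 := Matrix.rank_of_isUnit _ h5
    rw [Fintype.card_fin] at h6
    have h7 := Matrix.rank_mul_le_right ((Matrix.map a (fun z : ℤ => (z : K)) *
        (Matrix.of fun i j => h (c i + c j) - h (c i) - h (c j))))
        (Matrix.map a (fun z : ℤ => (z : K))).transpose
    have h8 := Matrix.rank_le_card_height (Matrix.map a (fun z : ℤ => (z : K))).transpose
    rw [Fintype.card_fin] at h8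
    omega
  obtain rfl : r = s := le_antisymm h4 hs
  intro h0
  apply h1
  rw [h3, Matrix.det_mul, Matrix.det_mul]
  have h5 : (Matrix.of fun i j => h (c i + c j) - h (c i) - h (c j)).det = 0 := h0
  rw [h5, mul_zero, zero_mul]

end

end Pool.Agent.Y732
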