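import Pool.Agent.Y732.Defs2
import Pool.Agent.Y732.GenJ
import Pool.Agent.Y732.Quad

/-!
# The multiples of an integral point on a general Weierstrass curve
-/

set_option autoImplicit false

namespace Pool.Agent.Y732

open WeierstrassCurve

/-- the multiples of `(x, y)` in Jacobian coordinates -/
noncomputable def G {R : Type*} [CommRing R] (W : WeierstrassCurve R) (x y : R) (n : ℕ) :
    Fin 3 → R :=
  J W.toJacobian ![x, y, 1] n

lemma G_map {R S : Type*} [CommRing R] [CommRing S] (f : R →+* S) (W : WeierstrassCurve R)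
    (x y : R) (n : ℕ) (i : Fin 3) : G (W.map f) (f x) (f y) n i = f (G W x y n i) := by
  have h := J_map W.toJacobian ![x, y, 1] f n
  have e2 : f ∘ ![x, y, 1] = ![f x, f y, 1] := by
    rw [Jacobian.comp_fin3, map_one]
  rw [e2] at h
  unfold G
  have h1 : J (W.map f).toJacobian ![f x, f y, 1] n = f ∘ J W.toJacobian ![x, y, 1] n := h
  rw [h1]
  rfl

section field

variable {F : Type*} [Field F] [DecidableEq F] {W : WeierstrassCurve F} {x y : F}

lemma G_nonsingular (h : W.toAffine.Nonsingular x y) (n : ℕ) :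
    W.toJacobian.Nonsingular (G W x y n) :=
  (J_field W.toJacobian h n).1

lemma G_toAffine (h : W.toAffine.Nonsingular x y) (n : ℕ) :
    Jacobian.Point.toAffine W.toJacobian (G W x y n) = n • (Affine.Point.some x y h) :=
  (J_field W.toJacobian h n).2

lemma G_equation (h : W.toAffine.Nonsingular x y) (n : ℕ) :
    G W x y n 1 ^ 2 + W.a₁ * G W x y n 0 * G W x y n 1 * G W x y n 2 +
      W.a₃ * G W x y n 1 * G W x y n 2 ^ 3 =
    G W x y n 0 ^ 3 + W.a₂ * G W x y n 0 ^ 2 * G W x y n 2 ^ 2 +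
      W.a₄ * G W x y n 0 * G W x y n 2 ^ 4 + W.a₆ * G W x y n 2 ^ 6 := by
  have h1 := (G_nonsingular h n).1
  rw [Jacobian.equation_iff] at h1
  have h2 : G W x y n 1 ^ 2 + W.a₁ * G W x y n 0 * G W x y n 1 * G W x y n 2 +
      W.a₃ * G W x y n 1 * G W x y n 2 ^ 3 - (G W x y n 0 ^ 3 +
      W.a₂ * G W x y n 0 ^ 2 * G W x y n 2 ^ 2 + W.a₄ * G W x y n 0 * G W x y n 2 ^ 4 +
      W.a₆ * G W x y n 2 ^ 6) = 0 := h1
  linear_combination h2

lemma G_zero_iff (h : W.toAffine.Nonsingular x y) (n : ℕ) :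
    n • (Affine.Point.some x y h) = 0 ↔ G W x y n 2 = 0 := by
  rw [← G_toAffine h n]
  constructor
  · intro h1
    by_contra h2
    rw [Jacobian.Point.toAffine_of_Z_ne_zero (G_nonsingular h n) h2] at h1
    exact Affine.Point.some_ne_zero _ h1
  · intro h1
    exact Jacobian.Point.toAffine_of_Z_eq_zero h1

lemma G_some (h : W.toAffine.Nonsingular x y) (n : ℕ) (hz : G W x y n 2 ≠ 0) :
    ∃ h', n • (Affine.Point.some x y h) =
      Affine.Point.some (G W x y n 0 / G W x y n 2 ^ 2) (G W x y n 1 / G W x y n 2 ^ 3) h' := by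
  rw [← G_toAffine h n]
  exact ⟨_, Jacobian.Point.toAffine_of_Z_ne_zero (G_nonsingular h n) hz⟩

lemma G_X_ne_zero (h : W.toAffine.Nonsingular x y) (n : ℕ) (hz : G W x y n 2 = 0) :
    G W x y n 0 ≠ 0 :=
  Jacobian.X_ne_zero_of_Z_eq_zero (G_nonsingular h n) hz

lemma G_nonsing (h : W.toAffine.Nonsingular x y) (n : ℕ) (hz : G W x y n 2 ≠ 0) :
    ¬ (2 * G W x y n 1 + W.a₁ * G W x y n 0 * G W x y n 2 + W.a₃ * G W x y n 2 ^ 3 = 0 ∧
      W.a₁ * G W x y n 1 * G W x y n 2 - (3 * G W x y n 0 ^ 2 +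
        2 * W.a₂ * G W x y n 0 * G W x y n 2 ^ 2 + W.a₄ * G W x y n 2 ^ 4) = 0) := by
  rintro ⟨h1, h2⟩
  have h3 := ((Jacobian.nonsingular_iff_of_Z_ne_zero hz).1 (G_nonsingular h n)).2
  rw [Jacobian.eval_polynomialX, Jacobian.eval_polynomialY] at h3
  rcases h3 with h3 | h3
  · exact h3 h2
  · exact h3 h1

end field

section integers

variable {W : WeierstrassCurve ℤ} {x y : ℤ}

/-- reduction -/
abbrev red (W : WeierstrassCurve ℤ) (R : Type*) [CommRing R] : WeierstrassCurve R :=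
  W.map (Int.castRingHom R)

lemma G_cast (R : Type*) [CommRing R] (W : WeierstrassCurve ℤ) (x y : ℤ) (n : ℕ) (i : Fin 3) :
    G (red W R) (x : R) (y : R) n i = ((G W x y n i : ℤ) : R) :=
  G_map (Int.castRingHom R) W x y n i

lemma eqn_cast (heq : W.toAffine.Equation x y) (R : Type*) [CommRing R] :
    (red W R).toAffine.Equation (x : R) (y : R) :=
  Affine.Equation.map (Int.castRingHom R) heq

lemma ENS_mod (heq : W.toAffine.Equation x y) (h : EverywhereNonsingular W x y 1) (ℓ : ℕ)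
    [hℓ : Fact ℓ.Prime] :
    (red W (ZMod ℓ)).toAffine.Nonsingular (x : ZMod ℓ) (y : ZMod ℓ) := by
  rw [Affine.nonsingular_iff']
  refine ⟨eqn_cast heq _, ?_⟩
  by_contra h1
  push Not at h1
  rcases h ℓ hℓ.out with h2 | h2
  · exact (Nat.prime_iff_prime_int.1 hℓ.out).not_isUnit (isUnit_of_dvd_one h2)
  · apply h2
    constructor
    · rw [← ZMod.intCast_zmod_eq_zero_iff_dvd _ ℓ]
      push_cast
      rw [mul_one, mul_one]
      exact h1.2
    · rw [← ZMod.intCast_zmod_eq_zero_iff_dvd _ ℓ]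
      push_cast
      rw [mul_one, mul_one, mul_one]
      exact h1.1

lemma nonsingular_WQ (heq : W.toAffine.Equation x y) (hD : W.Δ ≠ 0) :
    (WQ W).Nonsingular (x : ℚ) (y : ℚ) := by
  have h1 : (red W ℚ).Δ ≠ 0 := by
    rw [WeierstrassCurve.map_Δ]
    exact Int.cast_ne_zero.2 hD
  exact (Affine.equation_iff_nonsingular_of_Δ_ne_zero (W := (red W ℚ).toAffine) h1).1
    (eqn_cast heq ℚ)

/-- the equation of the multiples -/
lemma Gi_equation (hP : (WQ W).Nonsingular (x : ℚ) (y : ℚ)) (n : ℕ) :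
    G W x y n 1 ^ 2 + W.a₁ * G W x y n 0 * G W x y n 1 * G W x y n 2 +
      W.a₃ * G W x y n 1 * G W x y n 2 ^ 3 =
    G W x y n 0 ^ 3 + W.a₂ * G W x y n 0 ^ 2 * G W x y n 2 ^ 2 +
      W.a₄ * G W x y n 0 * G W x y n 2 ^ 4 + W.a₆ * G W x y n 2 ^ 6 := by
  have h := G_equation (W := red W ℚ) hP n
  rw [G_cast, G_cast, G_cast] at h
  have e1 : (red W ℚ).a₁ = (W.a₁ : ℚ) := rfl
  have e2 : (red W ℚ).a₂ = (W.a₂ : ℚ) := rfl
  have e3 : (red W ℚ).a₃ = (W.a₃ : ℚ) := rfl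
  have e4 : (red W ℚ).a₄ = (W.a₄ : ℚ) := rfl
  have e6 : (red W ℚ).a₆ = (W.a₆ : ℚ) := rfl
  rw [e1, e2, e3, e4, e6] at h
  exact_mod_cast h

lemma Gi_coprime (heq : W.toAffine.Equation x y) (h : EverywhereNonsingular W x y 1) (n : ℕ) :
    IsCoprime (G W x y n 0) (G W x y n 2) := by
  rw [Int.isCoprime_iff_gcd_eq_one]
  by_contra h1
  obtain ⟨ℓ, hℓ, h2⟩ := Nat.exists_prime_and_dvd h1
  have : Fact ℓ.Prime := ⟨hℓ⟩
  have h3 : (ℓ : ℤ) ∣ G W x y n 0 := (Int.natCast_dvd_natCast.2 h2).trans (Int.gcd_dvd_left ..)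
  have h4 : (ℓ : ℤ) ∣ G W x y n 2 := (Int.natCast_dvd_natCast.2 h2).trans (Int.gcd_dvd_right ..)
  rw [← ZMod.intCast_zmod_eq_zero_iff_dvd _ ℓ, ← G_cast] at h3 h4
  exact G_X_ne_zero (ENS_mod heq h ℓ) n h4 h3

lemma Gi_nonsing (heq : W.toAffine.Equation x y) (h : EverywhereNonsingular W x y 1) (n : ℕ) :
    EverywhereNonsingular W (G W x y n 0) (G W x y n 1) (G W x y n 2) := by
  intro ℓ hℓ
  have : Fact ℓ.Prime := ⟨hℓ⟩
  by_cases h1 : (ℓ : ℤ) ∣ G W x y n 2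
  · exact Or.inl h1
  · right
    rw [← ZMod.intCast_zmod_eq_zero_iff_dvd _ ℓ, ← G_cast] at h1
    have h2 := G_nonsing (ENS_mod heq h ℓ) n h1
    rw [G_cast, G_cast, G_cast] at h2
    rintro ⟨h3, h4⟩
    apply h2
    rw [← ZMod.intCast_zmod_eq_zero_iff_dvd _ ℓ] at h3 h4
    push_cast at h3 h4
    exact ⟨h3, h4⟩

/-- the multiples over `ℚ` -/
lemma Gi_some (hP : (WQ W).Nonsingular (x : ℚ) (y : ℚ)) (n : ℕ) (hz : G W x y n 2 ≠ 0) :
    ∃ h' : (WQ W).Nonsingular ((G W x y n 0 : ℤ) / (G W x y n 2 : ℤ) ^ 2 : ℚ)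
      ((G W x y n 1 : ℤ) / (G W x y n 2 : ℤ) ^ 3 : ℚ),
      n • (Affine.Point.some (x : ℚ) (y : ℚ) hP) = Affine.Point.some _ _ h' := by
  have hz' : G (red W ℚ) (x : ℚ) (y : ℚ) n 2 ≠ 0 := by
    rw [G_cast]
    exact_mod_cast hz
  have h1 := G_some (W := red W ℚ) hP n hz'
  rw [G_cast, G_cast, G_cast] at h1
  exact h1

lemma Gi_zero_iff (hP : (WQ W).Nonsingular (x : ℚ) (y : ℚ)) (n : ℕ) :
    n • (Affine.Point.some (x : ℚ) (y : ℚ) hP) = 0 ↔ G W x y n 2 = 0 := by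
  rw [G_zero_iff (W := red W ℚ), G_cast]
  exact_mod_cast Iff.rfl

end integers

end Pool.Agent.Y732
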