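import Pool.Agent.Y732.GenT

/-!
# Points modulo `p` of a general Weierstrass curve
-/

set_option autoImplicit false

namespace Pool.Agent.Y732

open WeierstrassCurve

section field

variable {F : Type*} [Field F]

lemma equation_short (W : WeierstrassCurve F) (h2 : (2 : F) ≠ 0) (h3 : (3 : F) ≠ 0) {A B : F}
    (hA : 48 * A = -W.c₄) (hB : 864 * B = -W.c₆) (x y : F) :
    W.toAffine.Equation x y ↔
      (y + (W.a₁ * x + W.a₃) / 2) ^ 2 = (x + W.b₂ / 12) ^ 3 + A * (x + W.b₂ / 12) + B := by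
  rw [Affine.equation_iff']
  have h12 : (12 : F) ≠ 0 := by
    have : (12 : F) = 2 * 2 * 3 := by norm_num
    rw [this]
    exact mul_ne_zero (mul_ne_zero h2 h2) h3
  have h1728 : (1728 : F) ≠ 0 := by
    have : (1728 : F) = 12 * 12 * 12 := by norm_num
    rw [this]
    exact mul_ne_zero (mul_ne_zero h12 h12) h12
  obtain ⟨X, hX⟩ : ∃ X, X = x + W.b₂ / 12 := ⟨_, rfl⟩
  obtain ⟨Y, hY⟩ : ∃ Y, Y = y + (W.a₁ * x + W.a₃) / 2 := ⟨_, rfl⟩
  rw [← hX, ← hY]
  have hX' : 12 * X = 12 * x + W.b₂ := by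
    rw [hX]
    field_simp
  have hY' : 2 * Y = 2 * y + W.a₁ * x + W.a₃ := by
    rw [hY]
    field_simp
    ring
  have key : 1728 * (Y ^ 2 - (X ^ 3 + A * X + B)) = 1728 * (y ^ 2 + W.a₁ * x * y + W.a₃ * y -
      (x ^ 3 + W.a₂ * x ^ 2 + W.a₄ * x + W.a₆)) := by
    have e1 : 1728 * (Y ^ 2 - (X ^ 3 + A * X + B)) = 432 * (2 * Y) ^ 2 - (12 * X) ^ 3 -
        3 * (48 * A) * (12 * X) - 2 * (864 * B) := by ring
    rw [e1, hA, hB, hX', hY', WeierstrassCurve.c₄, WeierstrassCurve.c₆, WeierstrassCurve.b₂,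
      WeierstrassCurve.b₄, WeierstrassCurve.b₆]
    ring
  have key' := mul_left_cancel₀ h1728 key
  constructor
  · intro h
    have h' : y ^ 2 + W.a₁ * x * y + W.a₃ * y - (x ^ 3 + W.a₂ * x ^ 2 + W.a₄ * x + W.a₆) = 0 := h
    rw [h'] at key'
    exact sub_eq_zero.1 key'
  · intro h
    rw [h, sub_self] at key'
    exact key'.symm

lemma disc_short (W : WeierstrassCurve F) (h2 : (2 : F) ≠ 0) (h3 : (3 : F) ≠ 0) {A B : F}
    (hA : 48 * A = -W.c₄) (hB : 864 * B = -W.c₆) (hD : W.Δ ≠ 0) :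
    4 * A ^ 3 + 27 * B ^ 2 ≠ 0 := by
  intro h
  apply hD
  have h1728 : (1728 : F) ≠ 0 := by
    have : (1728 : F) = (2 * 2 * 3) * (2 * 2 * 3) * (2 * 2 * 3) := by norm_num
    rw [this]
    have : (2 * 2 * 3 : F) ≠ 0 := mul_ne_zero (mul_ne_zero h2 h2) h3
    exact mul_ne_zero (mul_ne_zero this this) this
  have h4 : 1728 * W.Δ = 0 := by
    rw [W.c_relation]
    have e1 : W.c₄ = -(48 * A) := by rw [hA, neg_neg]
    have e2 : W.c₆ = -(864 * B) := by rw [hB, neg_neg]
    rw [e1, e2]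
    linear_combination (-27648) * h
  exact (mul_eq_zero.1 h4).resolve_left h1728

end field

variable {p : ℕ} [hp : Fact p.Prime]

lemma two_ne (hp5 : 5 ≤ p) : (2 : ZMod p) ≠ 0 := by
  intro h
  have h1 : ((2 : ℕ) : ZMod p) = 0 := by exact_mod_cast h
  rw [ZMod.natCast_eq_zero_iff] at h1
  have := Nat.le_of_dvd (by norm_num) h1
  omega

lemma three_ne (hp5 : 5 ≤ p) : (3 : ZMod p) ≠ 0 := by
  intro h
  have h1 : ((3 : ℕ) : ZMod p) = 0 := by exact_mod_cast h
  rw [ZMod.natCast_eq_zero_iff] at h1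
  have := Nat.le_of_dvd (by norm_num) h1
  omega

/-- the number of points is that of the short equation -/
theorem card_short (hp5 : 5 ≤ p) (W : WeierstrassCurve (ZMod p)) {A B : ZMod p}
    (hA : 48 * A = -W.c₄) (hB : 864 * B = -W.c₆) (hD : W.Δ ≠ 0) :
    Nat.card W.toAffine.Point = Nat.card (Wc A B).toAffine.Point := by
  have h2 := two_ne hp5
  have h3 := three_ne hp5
  rw [Nat.card_congr (WeierstrassCurve.Affine.nonsingularPointEquiv W.toAffine),
    Nat.card_congr (WeierstrassCurve.Affine.nonsingularPointEquiv (Wc A B).toAffine)]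
  let e : ZMod p × ZMod p ≃ ZMod p × ZMod p :=
    { toFun := fun z => (z.1 + W.b₂ / 12, z.2 + (W.a₁ * z.1 + W.a₃) / 2)
      invFun := fun z => (z.1 - W.b₂ / 12, z.2 - (W.a₁ * (z.1 - W.b₂ / 12) + W.a₃) / 2)
      left_inv := by
        intro z
        ext
        · simp
        · simp
      right_inv := by
        intro z
        ext
        · simp
        · simp }
  have h4 : ∀ z : ZMod p × ZMod p, W.toAffine.Nonsingular z.1 z.2 ↔
      (Wc A B).toAffine.Nonsingular (e z).1 (e z).2 := by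
    intro z
    rw [← Affine.equation_iff_nonsingular_of_Δ_ne_zero (W := W.toAffine) hD,
      Wc_nonsingular_iff h2 (disc_short W h2 h3 hA hB hD)]
    exact equation_short W h2 h3 hA hB z.1 z.2
  have e2 : {z : ZMod p × ZMod p // W.toAffine.Nonsingular z.1 z.2} ≃
      {z : ZMod p × ZMod p // (Wc A B).toAffine.Nonsingular z.1 z.2} := e.subtypeEquiv h4
  exact Nat.card_congr (Equiv.optionCongr e2)

lemma exists_short (hp5 : 5 ≤ p) (W : WeierstrassCurve (ZMod p)) :
    ∃ A B : ZMod p, 48 * A = -W.c₄ ∧ 864 * B = -W.c₆ := by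
  have h2 := two_ne hp5
  have h3 := three_ne hp5
  have h48 : (48 : ZMod p) ≠ 0 := by
    have : (48 : ZMod p) = 2 ^ 4 * 3 := by norm_num
    rw [this]
    exact mul_ne_zero (pow_ne_zero _ h2) h3
  have h864 : (864 : ZMod p) ≠ 0 := by
    have : (864 : ZMod p) = 2 ^ 5 * 3 ^ 3 := by norm_num
    rw [this]
    exact mul_ne_zero (pow_ne_zero _ h2) (pow_ne_zero _ h3)
  exact ⟨-W.c₄ / 48, -W.c₆ / 864, mul_div_cancel₀ _ h48, mul_div_cancel₀ _ h864⟩

lemma red_disc {W : WeierstrassCurve ℤ} (hD : ¬ (p : ℤ) ∣ W.Δ) : (red W (ZMod p)).Δ ≠ 0 := by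
  rw [WeierstrassCurve.map_Δ]
  intro h
  apply hD
  rw [← ZMod.intCast_zmod_eq_zero_iff_dvd _ p]
  exact h

/-- there are at most `2 p + 1` points -/
theorem card_red_le (hp5 : 5 ≤ p) {W : WeierstrassCurve ℤ} (hD : ¬ (p : ℤ) ∣ W.Δ) :
    Nat.card (red W (ZMod p)).toAffine.Point ≤ 2 * p + 1 := by
  obtain ⟨A, B, hA, hB⟩ := exists_short hp5 (red W (ZMod p))
  rw [card_short hp5 _ hA hB (red_disc hD)]
  exact card_point_le (by omega) (disc_short _ (two_ne hp5) (three_ne hp5) hA hB (red_disc hD))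

/-- at an ordinary prime the Hasse invariant does not vanish -/
theorem hasse_red (hp5 : 5 ≤ p) {W : WeierstrassCurve ℤ} (ho : IsOrdinaryW p W) {A B : ZMod p}
    (hA : 48 * A = -(W.c₄ : ZMod p)) (hB : 864 * B = -(W.c₆ : ZMod p)) : hasse p A B ≠ 0 := by
  have hA' : 48 * A = -(red W (ZMod p)).c₄ := by
    rw [WeierstrassCurve.map_c₄]
    exact hA
  have hB' : 864 * B = -(red W (ZMod p)).c₆ := by
    rw [WeierstrassCurve.map_c₆]
    exact hB
  have hd := disc_short _ (two_ne hp5) (three_ne hp5) hA' hB' (red_disc ho.1)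
  apply hasse_ne_zero (by omega) hd
  intro h
  apply ho.2
  rw [card_short hp5 _ hA' hB' (red_disc ho.1)]
  have h1 : ((p : ℤ) + 1 - Nat.card (Wc A B).toAffine.Point) =
      p - ((Nat.card (Wc A B).toAffine.Point : ℤ) - 1) := by ring
  rw [h1]
  exact dvd_sub (dvd_refl _) h

/-- a multiple of small index of the point reduces to the origin -/
theorem exists_multT {W : WeierstrassCurve ℤ} {X Y e : ℤ} (hp5 : 5 ≤ p)
    (heq : OnCurve W X Y e) (hc : IsCoprime X e) (hN : EverywhereNonsingular W X Y e)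
    (hD : ¬ (p : ℤ) ∣ W.Δ) : ∃ m : ℕ, 1 ≤ m ∧ m ≤ 2 * p + 1 ∧ (p : ℤ) ∣ T W X Y e m 2 := by
  have hns := triple_mod heq hc hN p
  by_cases he : (e : ZMod p) = 0
  · refine ⟨1, le_rfl, by omega, ?_⟩
    rw [ZMod.intCast_zmod_eq_zero_iff_dvd] at he
    rw [T_two']
    exact he.mul_right _
  have hcard := card_red_le hp5 hD
  have hfin0 : Finite (WithZero {xy : ZMod p × ZMod p //
      (red W (ZMod p)).toAffine.Nonsingular xy.fst xy.snd}) :=
    inferInstanceAs (Finite (Option {xy : ZMod p × ZMod p //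
      (red W (ZMod p)).toAffine.Nonsingular xy.fst xy.snd}))
  have hfin : Finite (red W (ZMod p)).toAffine.Point :=
    Finite.of_equiv _ (WeierstrassCurve.Affine.nonsingularPointEquiv _).symm
  have hP := T_affine hns he
  refine ⟨addOrderOf (Affine.Point.some _ _ hP), addOrderOf_pos _, ?_, ?_⟩
  · exact (Nat.le_of_dvd Nat.card_pos (addOrderOf_dvd_natCard _)).trans hcard
  · have h1 := addOrderOf_nsmul_eq_zero (Affine.Point.some _ _ hP)
    rw [← ZMod.intCast_zmod_eq_zero_iff_dvd _ p, ← T_cast]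
    by_contra h2
    rw [← T_toAffine he hP,
      Jacobian.Point.toAffine_of_Z_ne_zero (T_nonsingular hns _) h2] at h1
    exact Affine.Point.some_ne_zero _ h1

end Pool.Agent.Y732
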