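import Pool.Agent.Y732.GenM
import Pool.Agent.Y732.Defs3

/-!
# The multiples of a rational point in lowest terms
-/

set_option autoImplicit false

namespace Pool.Agent.Y732

open WeierstrassCurve
open scoped WeierstrassCurve.Jacobian

lemma twist_map {R S : Type*} [CommRing R] [CommRing S] (f : R →+* S) (u : R)
    (W : WeierstrassCurve R) : (twist u W).map f = twist (f u) (W.map f) := by
  ext <;> simp [twist]

lemma twist_twist {R : Type*} [CommRing R] (u v : R) (W : WeierstrassCurve R) :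
    twist u (twist v W) = twist (u * v) W := by
  ext <;> simp only [twist] <;> ring

/-- the multiples of the point `(X / e ^ 2, Y / e ^ 3)` in Jacobian coordinates -/
noncomputable def T {R : Type*} [CommRing R] (W : WeierstrassCurve R) (X Y e : R) (n : ℕ) :
    Fin 3 → R :=
  ![G (twist e W) X Y n 0, G (twist e W) X Y n 1, e * G (twist e W) X Y n 2]

lemma T_zero' {R : Type*} [CommRing R] (W : WeierstrassCurve R) (X Y e : R) (n : ℕ) :
    T W X Y e n 0 = G (twist e W) X Y n 0 := rfl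

lemma T_one' {R : Type*} [CommRing R] (W : WeierstrassCurve R) (X Y e : R) (n : ℕ) :
    T W X Y e n 1 = G (twist e W) X Y n 1 := rfl

lemma T_two' {R : Type*} [CommRing R] (W : WeierstrassCurve R) (X Y e : R) (n : ℕ) :
    T W X Y e n 2 = e * G (twist e W) X Y n 2 := rfl

lemma T_map {R S : Type*} [CommRing R] [CommRing S] (f : R →+* S) (W : WeierstrassCurve R)
    (X Y e : R) (n : ℕ) (i : Fin 3) :
    T (W.map f) (f X) (f Y) (f e) n i = f (T W X Y e n i) := by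
  fin_cases i
  · change T _ _ _ _ n 0 = f (T _ _ _ _ n 0)
    rw [T_zero', T_zero', ← twist_map, G_map]
  · change T _ _ _ _ n 1 = f (T _ _ _ _ n 1)
    rw [T_one', T_one', ← twist_map, G_map]
  · change T _ _ _ _ n 2 = f (T _ _ _ _ n 2)
    rw [T_two', T_two', ← twist_map, G_map, map_mul]

section field

variable {F : Type*} [Field F] {W : WeierstrassCurve F} {X Y e : F}

/-- the multiples of the point at infinity -/
lemma T_inf (h : W.toJacobian.Nonsingular ![X, Y, e]) (he : e = 0) (n : ℕ) :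
    T W X Y e n 0 ≠ 0 ∧ T W X Y e n 2 = 0 ∧ T W X Y e n 1 ^ 2 = T W X Y e n 0 ^ 3 := by
  subst he
  have hX : X ≠ 0 := Jacobian.X_ne_zero_of_Z_eq_zero h rfl
  have hY : Y ≠ 0 := Jacobian.Y_ne_zero_of_Z_eq_zero h rfl
  have hE : Y ^ 2 = X ^ 3 := (Jacobian.equation_of_Z_eq_zero (P := ![X, Y, 0]) rfl).1 h.1
  have ht : twist 0 W = Wc ((Y / X) ^ 4 * 0) ((Y / X) ^ 6 * 0) := by
    ext <;> simp [twist, Wc]
  have hs2 : (Y / X) ^ 2 = X := by
    rw [div_pow, hE]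
    field_simp
  have hs3 : (Y / X) ^ 3 = Y := by
    rw [div_pow, ← hE]
    field_simp
  have hs : IsUnit (Y / X) := isUnit_iff_ne_zero.2 (div_ne_zero hY hX)
  obtain ⟨j0, j1, -⟩ := J_scale (0 : F) 0 1 1 (Y / X) hs n
  rw [J_cusp] at j0 j1
  have e0 : T W X Y 0 n 0 = ((Y / X) ^ (n ^ 2)) ^ 2 := by
    rw [T_zero', ht]
    unfold G
    rw [mul_one, mul_one, hs2, hs3] at j0
    rw [j0]
    simp
  have e1 : T W X Y 0 n 1 = ((Y / X) ^ (n ^ 2)) ^ 3 := by
    rw [T_one', ht]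
    unfold G
    rw [mul_one, mul_one, hs2, hs3] at j1
    rw [j1]
    simp
  refine ⟨?_, ?_, ?_⟩
  · rw [e0]
    exact pow_ne_zero _ (pow_ne_zero _ (div_ne_zero hY hX))
  · rw [T_two', zero_mul]
  · rw [e0, e1]
    ring

lemma T_smul (he : e ≠ 0) (n : ℕ) :
    T W X Y e n = (e ^ (n ^ 2)) • G W (X / e ^ 2) (Y / e ^ 3) n := by
  have h := J_twist W he (X / e ^ 2) (Y / e ^ 3) n
  have e1 : e ^ 2 * (X / e ^ 2) = X := by field_simp
  have e2 : e ^ 3 * (Y / e ^ 3) = Y := by field_simp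
  rw [e1, e2] at h
  rw [Jacobian.smul_fin3]
  ext i
  fin_cases i
  · change G (twist e W) X Y n 0 = (e ^ (n ^ 2)) ^ 2 * G W (X / e ^ 2) (Y / e ^ 3) n 0
    unfold G
    rw [h]
    rfl
  · change G (twist e W) X Y n 1 = (e ^ (n ^ 2)) ^ 3 * G W (X / e ^ 2) (Y / e ^ 3) n 1
    unfold G
    rw [h]
    rfl
  · change e * G (twist e W) X Y n 2 = (e ^ (n ^ 2)) * G W (X / e ^ 2) (Y / e ^ 3) n 2
    unfold G
    rw [h]
    change e * (e ^ n ^ 2 / e * _) = _
    field_simp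

variable [DecidableEq F]

omit [DecidableEq F] in
lemma T_affine (h : W.toJacobian.Nonsingular ![X, Y, e]) (he : e ≠ 0) :
    W.toAffine.Nonsingular (X / e ^ 2) (Y / e ^ 3) :=
  (Jacobian.nonsingular_of_Z_ne_zero (P := ![X, Y, e]) he).1 h

lemma T_nonsingular (h : W.toJacobian.Nonsingular ![X, Y, e]) (n : ℕ) :
    W.toJacobian.Nonsingular (T W X Y e n) := by
  by_cases he : e = 0
  · obtain ⟨h0, h2, h1⟩ := T_inf h he n
    rw [Jacobian.nonsingular_of_Z_eq_zero (P := T W X Y e n) h2,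
      Jacobian.equation_of_Z_eq_zero (P := T W X Y e n) h2]
    refine ⟨h1, ?_⟩
    by_contra hcon
    push Not at hcon
    have h3 : (3 : F) = 0 := by
      rcases mul_eq_zero.1 hcon.1 with h | h
      · exact h
      · exact absurd h (pow_ne_zero 2 h0)
    have h4 : (2 : F) = 0 := by
      rcases mul_eq_zero.1 hcon.2.1 with h | h
      · exact h
      · exfalso
        have h5 : T W X Y e n 0 ^ 3 = 0 := by
          rw [← h1]
          change T W X Y e n 1 = 0 at h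
          rw [h]
          ring
        exact h0 (pow_eq_zero_iff (by norm_num) |>.1 h5)
    have : (1 : F) = 0 := by linear_combination h3 - h4
    exact one_ne_zero this
  · rw [T_smul he, Jacobian.nonsingular_smul _ (isUnit_iff_ne_zero.2 (pow_ne_zero _ he))]
    exact G_nonsingular (T_affine h he) n

lemma T_toAffine (he : e ≠ 0) (hP : W.toAffine.Nonsingular (X / e ^ 2) (Y / e ^ 3)) (n : ℕ) :
    Jacobian.Point.toAffine W.toJacobian (T W X Y e n) = n • (Affine.Point.some _ _ hP) := by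
  rw [T_smul he, Jacobian.Point.toAffine_smul _ (isUnit_iff_ne_zero.2 (pow_ne_zero _ he)),
    G_toAffine hP]

end field

section integers

variable {W : WeierstrassCurve ℤ} {X Y e : ℤ}

lemma T_cast (R : Type*) [CommRing R] (W : WeierstrassCurve ℤ) (X Y e : ℤ) (n : ℕ) (i : Fin 3) :
    T (red W R) (X : R) (Y : R) (e : R) n i = ((T W X Y e n i : ℤ) : R) :=
  T_map (Int.castRingHom R) W X Y e n i

lemma OnCurve.cast (h : OnCurve W X Y e) (R : Type*) [CommRing R] :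
    (red W R).toJacobian.Equation ![(X : R), (Y : R), (e : R)] := by
  rw [Jacobian.equation_iff]
  have h1 := congrArg (Int.cast : ℤ → R) h
  push_cast at h1
  have e1 : (red W R).toJacobian.a₁ = (W.a₁ : R) := rfl
  have e2 : (red W R).toJacobian.a₂ = (W.a₂ : R) := rfl
  have e3 : (red W R).toJacobian.a₃ = (W.a₃ : R) := rfl
  have e4 : (red W R).toJacobian.a₄ = (W.a₄ : R) := rfl
  have e6 : (red W R).toJacobian.a₆ = (W.a₆ : R) := rfl
  rw [e1, e2, e3, e4, e6]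
  simp only [Jacobian.fin3_def_ext]
  linear_combination h1

lemma triple_mod (heq : OnCurve W X Y e) (hc : IsCoprime X e)
    (h : EverywhereNonsingular W X Y e) (ℓ : ℕ) [hℓ : Fact ℓ.Prime] :
    (red W (ZMod ℓ)).toJacobian.Nonsingular ![(X : ZMod ℓ), (Y : ZMod ℓ), (e : ZMod ℓ)] := by
  have heq' := heq.cast (ZMod ℓ)
  by_cases he : (e : ZMod ℓ) = 0
  · have hX : (X : ZMod ℓ) ≠ 0 := by
      intro h0
      rw [ZMod.intCast_zmod_eq_zero_iff_dvd] at h0 he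
      exact (Nat.prime_iff_prime_int.1 hℓ.out).not_isUnit (hc.isUnit_of_dvd' h0 he)
    have h2 : (![(X : ZMod ℓ), (Y : ZMod ℓ), (e : ZMod ℓ)] : Fin 3 → ZMod ℓ) 2 = 0 := he
    rw [Jacobian.nonsingular_of_Z_eq_zero h2]
    refine ⟨heq', ?_⟩
    rw [Jacobian.equation_of_Z_eq_zero h2] at heq'
    have h1 : (Y : ZMod ℓ) ^ 2 = (X : ZMod ℓ) ^ 3 := heq'
    by_contra hcon
    push Not at hcon
    have h3 : (3 : ZMod ℓ) = 0 := by
      rcases mul_eq_zero.1 hcon.1 with h | h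
      · exact h
      · exact absurd h (pow_ne_zero 2 hX)
    have h4 : (2 : ZMod ℓ) = 0 := by
      rcases mul_eq_zero.1 hcon.2.1 with h | h
      · exact h
      · exfalso
        have h5 : (X : ZMod ℓ) ^ 3 = 0 := by
          rw [← h1]
          change (Y : ZMod ℓ) = 0 at h
          rw [h]
          ring
        exact hX (pow_eq_zero_iff (by norm_num) |>.1 h5)
    have : (1 : ZMod ℓ) = 0 := by linear_combination h3 - h4
    exact one_ne_zero this
  · have h2 : (![(X : ZMod ℓ), (Y : ZMod ℓ), (e : ZMod ℓ)] : Fin 3 → ZMod ℓ) 2 ≠ 0 := he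
    rw [Jacobian.nonsingular_iff_of_Z_ne_zero h2, Jacobian.eval_polynomialX,
      Jacobian.eval_polynomialY]
    refine ⟨heq', ?_⟩
    by_contra hcon
    push Not at hcon
    rcases h ℓ hℓ.out with h3 | h3
    · rw [ZMod.intCast_zmod_eq_zero_iff_dvd] at he
      exact he h3
    · apply h3
      constructor
      · rw [← ZMod.intCast_zmod_eq_zero_iff_dvd _ ℓ]
        push_cast
        exact hcon.2
      · rw [← ZMod.intCast_zmod_eq_zero_iff_dvd _ ℓ]
        push_cast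
        exact hcon.1

lemma triple_rat (heq : OnCurve W X Y e) (hD : W.Δ ≠ 0) (he : e ≠ 0) :
    (WQ W).Nonsingular ((X : ℚ) / (e : ℚ) ^ 2) ((Y : ℚ) / (e : ℚ) ^ 3) := by
  have h1 : (red W ℚ).Δ ≠ 0 := by
    rw [WeierstrassCurve.map_Δ]
    exact Int.cast_ne_zero.2 hD
  have h2 : (![(X : ℚ), (Y : ℚ), (e : ℚ)] : Fin 3 → ℚ) 2 ≠ 0 := by
    change (e : ℚ) ≠ 0
    exact_mod_cast he
  exact (Affine.equation_iff_nonsingular_of_Δ_ne_zero (W := (red W ℚ).toAffine) h1).1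
    ((Jacobian.equation_of_Z_ne_zero h2).1 (heq.cast ℚ))

variable (hP : (WQ W).Nonsingular ((X : ℚ) / (e : ℚ) ^ 2) ((Y : ℚ) / (e : ℚ) ^ 3))

include hP in
lemma triple_jac (he : e ≠ 0) :
    (red W ℚ).toJacobian.Nonsingular ![(X : ℚ), (Y : ℚ), (e : ℚ)] := by
  have h2 : (![(X : ℚ), (Y : ℚ), (e : ℚ)] : Fin 3 → ℚ) 2 ≠ 0 := by
    change (e : ℚ) ≠ 0
    exact_mod_cast he
  exact (Jacobian.nonsingular_of_Z_ne_zero h2).2 hP

include hP in
/-- the equation of the multiples -/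
lemma Ti_equation (he : e ≠ 0) (n : ℕ) :
    OnCurve W (T W X Y e n 0) (T W X Y e n 1) (T W X Y e n 2) := by
  have h := (T_nonsingular (triple_jac hP he) n).1
  rw [Jacobian.equation_iff] at h
  change T _ _ _ _ n 1 ^ 2 + _ * T _ _ _ _ n 0 * T _ _ _ _ n 1 * T _ _ _ _ n 2 +
    _ * T _ _ _ _ n 1 * T _ _ _ _ n 2 ^ 3 - (T _ _ _ _ n 0 ^ 3 +
      _ * T _ _ _ _ n 0 ^ 2 * T _ _ _ _ n 2 ^ 2 + _ * T _ _ _ _ n 0 * T _ _ _ _ n 2 ^ 4 +
      _ * T _ _ _ _ n 2 ^ 6) = 0 at h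
  rw [T_cast, T_cast, T_cast] at h
  have e1 : (red W ℚ).toJacobian.a₁ = (W.a₁ : ℚ) := rfl
  have e2 : (red W ℚ).toJacobian.a₂ = (W.a₂ : ℚ) := rfl
  have e3 : (red W ℚ).toJacobian.a₃ = (W.a₃ : ℚ) := rfl
  have e4 : (red W ℚ).toJacobian.a₄ = (W.a₄ : ℚ) := rfl
  have e6 : (red W ℚ).toJacobian.a₆ = (W.a₆ : ℚ) := rfl
  rw [e1, e2, e3, e4, e6] at h
  unfold OnCurve
  have h' := sub_eq_zero.1 h
  exact_mod_cast h'

lemma Ti_coprime (heq : OnCurve W X Y e) (hc : IsCoprime X e)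
    (h : EverywhereNonsingular W X Y e) (n : ℕ) :
    IsCoprime (T W X Y e n 0) (T W X Y e n 2) := by
  rw [Int.isCoprime_iff_gcd_eq_one]
  by_contra h1
  obtain ⟨ℓ, hℓ, h2⟩ := Nat.exists_prime_and_dvd h1
  have : Fact ℓ.Prime := ⟨hℓ⟩
  have h3 : (ℓ : ℤ) ∣ T W X Y e n 0 := (Int.natCast_dvd_natCast.2 h2).trans (Int.gcd_dvd_left ..)
  have h4 : (ℓ : ℤ) ∣ T W X Y e n 2 := (Int.natCast_dvd_natCast.2 h2).trans (Int.gcd_dvd_right ..)
  rw [← ZMod.intCast_zmod_eq_zero_iff_dvd _ ℓ, ← T_cast] at h3 h4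
  exact Jacobian.X_ne_zero_of_Z_eq_zero (T_nonsingular (triple_mod heq hc h ℓ) n) h4 h3

lemma Ti_nonsing (heq : OnCurve W X Y e) (hc : IsCoprime X e)
    (h : EverywhereNonsingular W X Y e) (n : ℕ) :
    EverywhereNonsingular W (T W X Y e n 0) (T W X Y e n 1) (T W X Y e n 2) := by
  intro ℓ hℓ
  have : Fact ℓ.Prime := ⟨hℓ⟩
  by_cases h1 : (ℓ : ℤ) ∣ T W X Y e n 2
  · exact Or.inl h1
  · right
    rw [← ZMod.intCast_zmod_eq_zero_iff_dvd _ ℓ, ← T_cast] at h1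
    have h2 := ((Jacobian.nonsingular_iff_of_Z_ne_zero h1).1
      (T_nonsingular (triple_mod heq hc h ℓ) n)).2
    rw [Jacobian.eval_polynomialX, Jacobian.eval_polynomialY] at h2
    change _ * T _ _ _ _ n 1 * T _ _ _ _ n 2 - (3 * T _ _ _ _ n 0 ^ 2 +
      2 * _ * T _ _ _ _ n 0 * T _ _ _ _ n 2 ^ 2 + _ * T _ _ _ _ n 2 ^ 4) ≠ 0 ∨
      2 * T _ _ _ _ n 1 + _ * T _ _ _ _ n 0 * T _ _ _ _ n 2 + _ * T _ _ _ _ n 2 ^ 3 ≠ 0 at h2
    rw [T_cast, T_cast, T_cast] at h2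
    rintro ⟨h3, h4⟩
    rw [← ZMod.intCast_zmod_eq_zero_iff_dvd _ ℓ] at h3 h4
    push_cast at h3 h4
    rcases h2 with h2 | h2
    · exact h2 h4
    · exact h2 h3

/-- the multiples over `ℚ` -/
lemma Ti_some (he : e ≠ 0) (n : ℕ) (hz : T W X Y e n 2 ≠ 0) :
    ∃ h' : (WQ W).Nonsingular ((T W X Y e n 0 : ℤ) / (T W X Y e n 2 : ℤ) ^ 2 : ℚ)
      ((T W X Y e n 1 : ℤ) / (T W X Y e n 2 : ℤ) ^ 3 : ℚ),
      n • (Affine.Point.some _ _ hP) = Affine.Point.some _ _ h' := by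
  have hz' : T (red W ℚ) (X : ℚ) (Y : ℚ) (e : ℚ) n 2 ≠ 0 := by
    rw [T_cast]
    exact_mod_cast hz
  have he' : (e : ℚ) ≠ 0 := by exact_mod_cast he
  have h1 := T_toAffine (W := red W ℚ) he' hP n
  have h2 := Jacobian.Point.toAffine_of_Z_ne_zero (T_nonsingular (triple_jac hP he) n) hz'
  rw [h1] at h2
  have h3 : ∃ h' : (WQ W).Nonsingular (T (red W ℚ) (X : ℚ) (Y : ℚ) (e : ℚ) n 0 /
      T (red W ℚ) (X : ℚ) (Y : ℚ) (e : ℚ) n 2 ^ 2) (T (red W ℚ) (X : ℚ) (Y : ℚ) (e : ℚ) n 1 /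
      T (red W ℚ) (X : ℚ) (Y : ℚ) (e : ℚ) n 2 ^ 3),
      n • (Affine.Point.some _ _ hP) = Affine.Point.some _ _ h' := ⟨_, h2⟩
  rw [T_cast, T_cast, T_cast] at h3
  exact h3

lemma Ti_zero_iff (he : e ≠ 0) (n : ℕ) :
    n • (Affine.Point.some _ _ hP) = 0 ↔ T W X Y e n 2 = 0 := by
  have he' : (e : ℚ) ≠ 0 := by exact_mod_cast he
  have h1 := T_toAffine (W := red W ℚ) he' hP n
  have h4 : T (red W ℚ) (X : ℚ) (Y : ℚ) (e : ℚ) n 2 = 0 ↔ T W X Y e n 2 = 0 := by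
    rw [T_cast]
    exact_mod_cast Iff.rfl
  rw [← h4, ← h1]
  constructor
  · intro h2
    by_contra h3
    rw [Jacobian.Point.toAffine_of_Z_ne_zero (T_nonsingular (triple_jac hP he) n) h3] at h2
    exact Affine.Point.some_ne_zero _ h2
  · intro h2
    exact Jacobian.Point.toAffine_of_Z_eq_zero h2

end integers

end Pool.Agent.Y732
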