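import Pool.Agent.Y732.Log

/-!
# The Iwasawa logarithm is a homomorphism and an isometry near one
-/

set_option autoImplicit false

namespace Pool.Agent.Y732

open Filter Topology

variable {p : ℕ} [hp : Fact p.Prime]

/-- `log (1 + w)` -/
noncomputable def lg (w : ℚ_[p]) : ℚ_[p] :=
  ∑' n : ℕ, (-1) ^ n * w ^ (n + 1) / ((n : ℚ_[p]) + 1)

lemma lg_term (c : ℚ_[p]) (hc : ‖c‖ ≤ 1) {w : ℚ_[p]} (hw : ‖w‖ ≤ (p : ℝ)⁻¹) (n : ℕ) :
    ‖c * w ^ (n + 1) / ((n : ℚ_[p]) + 1)‖ ≤ ‖w‖ * ((n + 1 : ℕ) * ((p : ℝ)⁻¹) ^ n) := by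
  have h4 : (n : ℚ_[p]) + 1 = ((n + 1 : ℕ) : ℚ_[p]) := by push_cast; ring
  rw [h4, norm_div, norm_mul, norm_pow]
  have h5 := one_le_norm_natCast (p := p) (n + 1) (by omega)
  have hpos : 0 < ‖((n + 1 : ℕ) : ℚ_[p])‖ := by
    rw [norm_pos_iff]
    exact_mod_cast (by omega : n + 1 ≠ 0)
  rw [div_le_iff₀ hpos, pow_succ]
  have h6 : ‖w‖ ^ n ≤ ((p : ℝ)⁻¹) ^ n := pow_le_pow_left₀ (norm_nonneg _) hw n
  have h7 : ‖w‖ ^ n * ‖w‖ ≤ ((p : ℝ)⁻¹) ^ n * ‖w‖ :=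
    mul_le_mul_of_nonneg_right h6 (norm_nonneg _)
  have h8 : 0 ≤ ‖w‖ ^ n * ‖w‖ := by positivity
  calc ‖c‖ * (‖w‖ ^ n * ‖w‖) ≤ 1 * (‖w‖ ^ n * ‖w‖) := mul_le_mul_of_nonneg_right hc h8
    _ = ‖w‖ ^ n * ‖w‖ := one_mul _
    _ ≤ ((p : ℝ)⁻¹) ^ n * ‖w‖ := h7
    _ = (((p : ℝ)⁻¹) ^ n * ‖w‖) * 1 := (mul_one _).symm
    _ ≤ (((p : ℝ)⁻¹) ^ n * ‖w‖) * (‖((n + 1 : ℕ) : ℚ_[p])‖ * ((n + 1 : ℕ) : ℝ)) :=
        mul_le_mul_of_nonneg_left h5 (by positivity)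
    _ = _ := by ring

lemma summable_bound (w : ℚ_[p]) :
    Summable fun n : ℕ => ‖w‖ * (((n + 1 : ℕ) : ℝ) * ((p : ℝ)⁻¹) ^ n) := by
  have hp1 : (1 : ℝ) < p := by exact_mod_cast hp.out.one_lt
  apply Summable.mul_left
  have h1 : ‖(p : ℝ)⁻¹‖ < 1 := by
    rw [Real.norm_of_nonneg (by positivity)]
    exact inv_lt_one_of_one_lt₀ hp1
  have h2 := summable_pow_mul_geometric_of_norm_lt_one 1 h1
  have h3 := summable_geometric_of_lt_one (r := (p : ℝ)⁻¹) (by positivity)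
    (inv_lt_one_of_one_lt₀ hp1)
  refine (h2.add h3).congr (fun n => ?_)
  push_cast
  ring

lemma summable_lg {w : ℚ_[p]} (hw : ‖w‖ ≤ (p : ℝ)⁻¹) :
    Summable fun n : ℕ => (-1 : ℚ_[p]) ^ n * w ^ (n + 1) / ((n : ℚ_[p]) + 1) := by
  apply Summable.of_norm
  refine Summable.of_nonneg_of_le (fun n => norm_nonneg _) (fun n => lg_term _ ?_ hw n)
    (summable_bound w)
  rw [norm_pow, norm_neg, norm_one, one_pow]

/-- `log (1 + w)` is close to `w` -/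
lemma lg_sub_le (hp3 : 3 ≤ p) {w : ℚ_[p]} (hw : ‖w‖ ≤ (p : ℝ)⁻¹) :
    ‖lg w - w‖ ≤ 2 / 3 * ‖w‖ := by
  have hp3' : (3 : ℝ) ≤ p := by exact_mod_cast hp3
  unfold lg
  rw [(summable_lg hw).tsum_eq_zero_add]
  have h3 : (-1 : ℚ_[p]) ^ 0 * w ^ (0 + 1) / (((0 : ℕ) : ℚ_[p]) + 1) = w := by simp
  rw [h3, add_sub_cancel_left]
  apply IsUltrametricDist.norm_tsum_le_of_forall_le_of_nonneg (by positivity)
  intro n
  have hterm := lg_term ((-1 : ℚ_[p]) ^ (n + 1)) (by rw [norm_pow, norm_neg, norm_one, one_pow])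
    hw (n + 1)
  refine hterm.trans ?_
  have h3 : (((n + 1 + 1 : ℕ) : ℝ)) * ((p : ℝ)⁻¹) ^ (n + 1) ≤ 2 / 3 := by
    have h4 : (p : ℝ)⁻¹ ≤ (3 : ℝ)⁻¹ := inv_anti₀ (by norm_num) hp3'
    have h5 : ((p : ℝ)⁻¹) ^ (n + 1) ≤ ((3 : ℝ)⁻¹) ^ (n + 1) :=
      pow_le_pow_left₀ (by positivity) h4 _
    have h6 := aux_three (n + 1) (by omega)
    have h7 : (3 : ℝ) * ((n + 1 + 1 : ℕ) : ℝ) ≤ 2 * 3 ^ (n + 1) := by exact_mod_cast h6
    have h8 : (0 : ℝ) < 3 ^ (n + 1) := by positivity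
    calc (((n + 1 + 1 : ℕ) : ℝ)) * ((p : ℝ)⁻¹) ^ (n + 1)
        ≤ (((n + 1 + 1 : ℕ) : ℝ)) * ((3 : ℝ)⁻¹) ^ (n + 1) :=
          mul_le_mul_of_nonneg_left h5 (by positivity)
      _ = (((n + 1 + 1 : ℕ) : ℝ)) / 3 ^ (n + 1) := by rw [inv_pow]; rfl
      _ ≤ 2 / 3 := by
          rw [div_le_div_iff₀ h8 (by norm_num)]
          linarith
  calc ‖w‖ * (((n + 1 + 1 : ℕ) : ℝ) * ((p : ℝ)⁻¹) ^ (n + 1)) ≤ ‖w‖ * (2 / 3) :=
        mul_le_mul_of_nonneg_left h3 (norm_nonneg _)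
    _ = _ := by ring

/-- `|log (1 + w)| = |w|` -/
lemma norm_lg (hp3 : 3 ≤ p) {w : ℚ_[p]} (hw : ‖w‖ ≤ (p : ℝ)⁻¹) : ‖lg w‖ = ‖w‖ := by
  rcases eq_or_ne w 0 with rfl | h0
  · have := lg_sub_le hp3 hw
    rw [norm_zero, mul_zero, sub_zero] at this
    rw [norm_zero]
    exact le_antisymm this (norm_nonneg _)
  · have h1 := lg_sub_le hp3 hw
    have h2 : 0 < ‖w‖ := norm_pos_iff.2 h0
    have h3 : ‖lg w - w‖ < ‖w‖ := by linarith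
    have h4 := IsUltrametricDist.norm_add_eq_max_of_norm_ne_norm h3.ne
    rw [sub_add_cancel, max_eq_right h3.le] at h4
    exact h4

lemma choose_tendsto (k : ℕ) :
    Tendsto (fun n : ℕ => (((p ^ n - 1).choose k : ℕ) : ℚ_[p])) atTop (𝓝 ((-1) ^ k)) := by
  induction k with
  | zero =>
    simp
  | succ k ih =>
    have h1 : ∀ n : ℕ, (((p ^ n - 1).choose (k + 1) : ℕ) : ℚ_[p]) =
        (p : ℚ_[p]) ^ n * ((((p ^ n - 1).choose k : ℕ) : ℚ_[p]) / ((k : ℚ_[p]) + 1)) -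
          (((p ^ n - 1).choose k : ℕ) : ℚ_[p]) := by
      intro n
      have hpn : 1 ≤ p ^ n := Nat.one_le_pow _ _ hp.out.pos
      have h2 : (p ^ n - 1).choose k + (p ^ n - 1).choose (k + 1) = (p ^ n).choose (k + 1) := by
        rw [← Nat.choose_succ_succ, Nat.succ_eq_add_one, Nat.sub_add_cancel hpn]
      have h3 : p ^ n * (p ^ n - 1).choose k = (p ^ n).choose (k + 1) * (k + 1) := by
        have := Nat.add_one_mul_choose_eq (p ^ n - 1) k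
        rw [Nat.sub_add_cancel hpn] at this
        exact this
      have h4 : ((k : ℚ_[p]) + 1) ≠ 0 := by exact_mod_cast Nat.succ_ne_zero k
      have h5 : ((p : ℚ_[p]) ^ n * (((p ^ n - 1).choose k : ℕ) : ℚ_[p])) =
          (((p ^ n).choose (k + 1) : ℕ) : ℚ_[p]) * ((k : ℚ_[p]) + 1) := by exact_mod_cast h3
      have h6 : (((p ^ n - 1).choose k : ℕ) : ℚ_[p]) + (((p ^ n - 1).choose (k + 1) : ℕ) : ℚ_[p]) =
          (((p ^ n).choose (k + 1) : ℕ) : ℚ_[p]) := by exact_mod_cast h2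
      rw [← mul_div_assoc, h5, mul_div_cancel_right₀ _ h4, ← h6]
      ring
    have h2 : Tendsto (fun n : ℕ => (p : ℚ_[p]) ^ n) atTop (𝓝 0) := by
      apply tendsto_pow_atTop_nhds_zero_of_norm_lt_one
      rw [Padic.norm_p]
      exact inv_lt_one_of_one_lt₀ (by exact_mod_cast hp.out.one_lt)
    have h3 := (h2.mul (ih.div_const ((k : ℚ_[p]) + 1))).sub ih
    rw [zero_mul, zero_sub] at h3
    refine (h3.congr fun n => (h1 n).symm).trans ?_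
    rw [pow_succ]
    simp

/-- the logarithm as a limit -/
theorem lg_tendsto {w : ℚ_[p]} (hw : ‖w‖ ≤ (p : ℝ)⁻¹) :
    Tendsto (fun n : ℕ => ((1 + w) ^ (p ^ n) - 1) / (p : ℚ_[p]) ^ n) atTop (𝓝 (lg w)) := by
  have h1 : ∀ n : ℕ, ((1 + w) ^ (p ^ n) - 1) / (p : ℚ_[p]) ^ n =
      ∑' k : ℕ, (((p ^ n - 1).choose k : ℕ) : ℚ_[p]) * w ^ (k + 1) / ((k : ℚ_[p]) + 1) := by
    intro n
    have hpn : 1 ≤ p ^ n := Nat.one_le_pow _ _ hp.out.pos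
    have hpQ : (p : ℚ_[p]) ^ n ≠ 0 := pow_ne_zero _ (by exact_mod_cast hp.out.ne_zero)
    rw [tsum_eq_sum (s := Finset.range (p ^ n))]
    · rw [add_comm 1 w, add_pow, Finset.sum_range_succ']
      simp only [one_pow, mul_one, pow_zero, Nat.choose_zero_right, Nat.cast_one]
      rw [add_sub_cancel_right, Finset.sum_div]
      refine Finset.sum_congr rfl fun k _ => ?_
      have h3 : p ^ n * (p ^ n - 1).choose k = (p ^ n).choose (k + 1) * (k + 1) := by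
        have := Nat.add_one_mul_choose_eq (p ^ n - 1) k
        rw [Nat.sub_add_cancel hpn] at this
        exact this
      have h4 : ((k : ℚ_[p]) + 1) ≠ 0 := by exact_mod_cast Nat.succ_ne_zero k
      have h5 : ((p : ℚ_[p]) ^ n * (((p ^ n - 1).choose k : ℕ) : ℚ_[p])) =
          (((p ^ n).choose (k + 1) : ℕ) : ℚ_[p]) * ((k : ℚ_[p]) + 1) := by exact_mod_cast h3
      rw [div_eq_div_iff hpQ h4]
      linear_combination (-(w ^ (k + 1))) * h5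
    · intro k hk
      rw [Finset.mem_range, not_lt] at hk
      rw [Nat.choose_eq_zero_of_lt (by omega)]
      simp
  simp_rw [h1]
  unfold lg
  refine tendsto_tsum_of_dominated_convergence (summable_bound w) ?_ ?_
  · intro k
    exact ((choose_tendsto k).mul_const _).div_const _
  · refine Eventually.of_forall fun n k => ?_
    exact lg_term _ (by exact_mod_cast Padic.norm_int_le_one (p := p) (((p ^ n - 1).choose k : ℕ) : ℤ)) hw k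

/-- the logarithm is additive -/
theorem lg_add {w₁ w₂ : ℚ_[p]} (h₁ : ‖w₁‖ ≤ (p : ℝ)⁻¹) (h₂ : ‖w₂‖ ≤ (p : ℝ)⁻¹) :
    lg (w₁ + w₂ + w₁ * w₂) = lg w₁ + lg w₂ := by
  have hp1 : (1 : ℝ) < p := by exact_mod_cast hp.out.one_lt
  have hpinv : (p : ℝ)⁻¹ ≤ 1 := (inv_lt_one_of_one_lt₀ hp1).le
  have h₃ : ‖w₁ + w₂ + w₁ * w₂‖ ≤ (p : ℝ)⁻¹ := by
    refine (IsUltrametricDist.norm_add_le_max _ _).trans (max_le ?_ ?_)
    · exact (IsUltrametricDist.norm_add_le_max _ _).trans (max_le h₁ h₂)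
    · rw [norm_mul]
      calc ‖w₁‖ * ‖w₂‖ ≤ (p : ℝ)⁻¹ * 1 :=
            mul_le_mul h₁ (h₂.trans hpinv) (norm_nonneg _) (by positivity)
        _ = _ := mul_one _
  have t₁ := lg_tendsto h₁
  have t₂ := lg_tendsto h₂
  have t₃ := lg_tendsto h₃
  have h2 : Tendsto (fun n : ℕ => (p : ℚ_[p]) ^ n) atTop (𝓝 0) := by
    apply tendsto_pow_atTop_nhds_zero_of_norm_lt_one
    rw [Padic.norm_p]
    exact inv_lt_one_of_one_lt₀ hp1
  have t₄ := ((t₁.add t₂).add ((h2.mul t₁).mul t₂))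
  rw [zero_mul, zero_mul, add_zero] at t₄
  refine tendsto_nhds_unique t₃ (t₄.congr fun n => ?_)
  have hpQ : (p : ℚ_[p]) ^ n ≠ 0 := pow_ne_zero _ (by exact_mod_cast hp.out.ne_zero)
  have h5 : 1 + (w₁ + w₂ + w₁ * w₂) = (1 + w₁) * (1 + w₂) := by ring
  rw [h5, mul_pow]
  field_simp
  ring

lemma norm_mul_add_le {w₁ w₂ : ℚ_[p]} (h₁ : ‖w₁‖ ≤ (p : ℝ)⁻¹) (h₂ : ‖w₂‖ ≤ (p : ℝ)⁻¹) :
    ‖w₁ + w₂ + w₁ * w₂‖ ≤ (p : ℝ)⁻¹ := by
  have hp1 : (1 : ℝ) < p := by exact_mod_cast hp.out.one_lt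
  have hpinv : (p : ℝ)⁻¹ ≤ 1 := (inv_lt_one_of_one_lt₀ hp1).le
  refine (IsUltrametricDist.norm_add_le_max _ _).trans (max_le ?_ ?_)
  · exact (IsUltrametricDist.norm_add_le_max _ _).trans (max_le h₁ h₂)
  · rw [norm_mul]
    calc ‖w₁‖ * ‖w₂‖ ≤ (p : ℝ)⁻¹ * 1 :=
          mul_le_mul h₁ (h₂.trans hpinv) (norm_nonneg _) (by positivity)
      _ = _ := mul_one _

lemma lg_zero : lg (0 : ℚ_[p]) = 0 := by
  unfold lg
  simp

/-- the logarithm of a power -/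
theorem lg_pow {w : ℚ_[p]} (h : ‖w‖ ≤ (p : ℝ)⁻¹) (n : ℕ) :
    ‖(1 + w) ^ n - 1‖ ≤ (p : ℝ)⁻¹ ∧ lg ((1 + w) ^ n - 1) = (n : ℚ_[p]) * lg w := by
  induction n with
  | zero =>
    rw [pow_zero, sub_self, norm_zero, lg_zero]
    simp
  | succ n ih =>
    have h1 : (1 + w) ^ (n + 1) - 1 = ((1 + w) ^ n - 1) + w + ((1 + w) ^ n - 1) * w := by ring
    rw [h1]
    refine ⟨norm_mul_add_le ih.1 h, ?_⟩
    rw [lg_add ih.1 h, ih.2]
    push_cast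
    ring

lemma norm_pow_sub_one_le {z : ℚ_[p]} (hz : ‖z‖ = 1) : ‖z ^ (p - 1) - 1‖ ≤ (p : ℝ)⁻¹ := by
  obtain ⟨z', rfl⟩ : ∃ z' : ℤ_[p], (z' : ℚ_[p]) = z := ⟨⟨z, hz.le⟩, rfl⟩
  have hz' : ‖z'‖ = 1 := hz
  have h1 : PadicInt.toZMod (z' ^ (p - 1) - 1) = 0 := by
    have h2 : PadicInt.toZMod z' ≠ 0 := by
      intro h3
      rw [← RingHom.mem_ker, PadicInt.ker_toZMod, IsLocalRing.mem_maximalIdeal,
        PadicInt.mem_nonunits] at h3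
      rw [hz'] at h3
      exact lt_irrefl _ h3
    rw [map_sub, map_pow, map_one, ZMod.pow_card_sub_one_eq_one h2, sub_self]
  rw [← RingHom.mem_ker, PadicInt.ker_toZMod, PadicInt.maximalIdeal_eq_span_p,
    Ideal.mem_span_singleton] at h1
  obtain ⟨a, ha⟩ := h1
  have h2 : (z' : ℚ_[p]) ^ (p - 1) - 1 = ((p : ℤ_[p]) * a : ℤ_[p]) := by
    rw [← ha]
    push_cast
    ring
  rw [h2]
  have h3 : ‖(p : ℤ_[p]) * a‖ ≤ (p : ℝ)⁻¹ := by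
    rw [norm_mul, PadicInt.norm_p]
    have h := PadicInt.norm_le_one a
    have h2 : (0 : ℝ) ≤ (p : ℝ)⁻¹ := by positivity
    nlinarith
  exact h3

lemma plog_eq (z : ℚ_[p]) : plog p z = ((p : ℚ_[p]) - 1)⁻¹ * lg (z ^ (p - 1) - 1) := rfl

/-- the Iwasawa logarithm is a homomorphism -/
theorem plog_mul {z₁ z₂ : ℚ_[p]} (h₁ : ‖z₁‖ = 1) (h₂ : ‖z₂‖ = 1) :
    plog p (z₁ * z₂) = plog p z₁ + plog p z₂ := by
  rw [plog_eq, plog_eq, plog_eq, ← mul_add, ← lg_add (norm_pow_sub_one_le h₁)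
    (norm_pow_sub_one_le h₂), mul_pow]
  congr 2
  ring

lemma p_sub_one_ne : ((p : ℚ_[p]) - 1) ≠ 0 := by
  intro h
  have h1 : ((p : ℕ) : ℚ_[p]) = ((1 : ℕ) : ℚ_[p]) := by
    push_cast
    exact sub_eq_zero.1 h
  exact hp.out.ne_one (Nat.cast_injective h1)

/-- the Iwasawa logarithm of a one-unit -/
theorem plog_one_add {w : ℚ_[p]} (h : ‖w‖ ≤ (p : ℝ)⁻¹) : plog p (1 + w) = lg w := by
  rw [plog_eq, (lg_pow h (p - 1)).2, Nat.cast_sub hp.out.one_le, Nat.cast_one,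
    inv_mul_cancel_left₀ p_sub_one_ne]

/-- the Iwasawa logarithm is an isometry on one-units -/
theorem norm_plog_one_add (hp3 : 3 ≤ p) {w : ℚ_[p]} (h : ‖w‖ ≤ (p : ℝ)⁻¹) :
    ‖plog p (1 + w)‖ = ‖w‖ := by
  rw [plog_one_add h, norm_lg hp3 h]

/-- units which are close have close logarithms -/
theorem norm_plog_sub (hp3 : 3 ≤ p) {z₁ z₂ : ℚ_[p]} (h₁ : ‖z₁‖ = 1) (h₂ : ‖z₂‖ = 1)
    (h : ‖z₁ - z₂‖ ≤ (p : ℝ)⁻¹) : ‖plog p z₁ - plog p z₂‖ = ‖z₁ - z₂‖ := by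
  have hz : z₂ ≠ 0 := by
    rintro rfl
    rw [norm_zero] at h₂
    exact zero_ne_one h₂
  have h3 : ‖(z₁ - z₂) / z₂‖ = ‖z₁ - z₂‖ := by rw [norm_div, h₂, div_one]
  have h4 : z₁ = z₂ * (1 + (z₁ - z₂) / z₂) := by
    field_simp
    ring
  have h5 : ‖1 + (z₁ - z₂) / z₂‖ = 1 := by
    have h6 : 1 + (z₁ - z₂) / z₂ = z₁ / z₂ := by
      field_simp
      ring
    rw [h6, norm_div, h₁, h₂, div_one]
  have h6 : plog p z₁ = plog p z₂ + plog p (1 + (z₁ - z₂) / z₂) := by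
    rw [← plog_mul h₂ h5, ← h4]
  rw [h6, add_sub_cancel_left, norm_plog_one_add hp3 (by rw [h3]; exact h), h3]

/-- the size of the Iwasawa logarithm -/
theorem norm_plog_le (hp3 : 3 ≤ p) {z : ℚ_[p]} (h : ‖z‖ = 1) : ‖plog p z‖ ≤ (p : ℝ)⁻¹ := by
  have h1 : ‖((p : ℚ_[p]) - 1)⁻¹‖ = 1 := by
    rw [norm_inv]
    have h2 : ‖(p : ℚ_[p])‖ < 1 := by
      rw [Padic.norm_p]
      exact inv_lt_one_of_one_lt₀ (by exact_mod_cast hp.out.one_lt)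
    have h3 := IsUltrametricDist.norm_add_eq_max_of_norm_ne_norm (x := (p : ℚ_[p])) (y := -1)
      (by rw [norm_neg, norm_one]; exact h2.ne)
    rw [← sub_eq_add_neg, norm_neg, norm_one, max_eq_right h2.le] at h3
    rw [h3, inv_one]
  rw [plog_eq, norm_mul, h1, one_mul, norm_lg hp3 (norm_pow_sub_one_le h)]
  exact norm_pow_sub_one_le h

end Pool.Agent.Y732
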