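import Pool.Agent.Y732.GenOrd
import Pool.Agent.Y732.Log2

/-!
# The height of an integral point on a general Weierstrass curve
-/

set_option autoImplicit false

namespace Pool.Agent.Y732

open WeierstrassCurve

variable {p : ℕ} [hp : Fact p.Prime] {W : WeierstrassCurve ℤ} {X Y e : ℤ}

/-- the first coordinate of the `m`-th multiple on the short equation, up to a factor -/
noncomputable def al (W : WeierstrassCurve ℤ) (X Y e : ℤ) (m : ℕ) : ℤ :=
  12 * T W X Y e m 0 + W.b₂ * T W X Y e m 2 ^ 2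

/-- the second coordinate of the `m`-th multiple on the short equation, up to a factor -/
noncomputable def be (W : WeierstrassCurve ℤ) (X Y e : ℤ) (m : ℕ) : ℤ :=
  6 * (2 * T W X Y e m 1 + W.a₁ * T W X Y e m 0 * T W X Y e m 2 + W.a₃ * T W X Y e m 2 ^ 3)

lemma unitsT (hp5 : 5 ≤ p) (heq : OnCurve W X Y e) (hc : IsCoprime X e)
    (hN : EverywhereNonsingular W X Y e) (he : e ≠ 0)
    (hP : (WQ W).Nonsingular ((X : ℚ) / (e : ℚ) ^ 2) ((Y : ℚ) / (e : ℚ) ^ 3)) {m : ℕ}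
    (hm : (p : ℤ) ∣ T W X Y e m 2) :
    ¬ (p : ℤ) ∣ al W X Y e m ∧ ¬ (p : ℤ) ∣ be W X Y e m := by
  have hpp := Nat.prime_iff_prime_int.1 hp.out
  have h1 : ¬ (p : ℤ) ∣ T W X Y e m 0 := by
    intro h
    have h2 := (Ti_coprime heq hc hN m).isUnit_of_dvd' h hm
    exact hpp.not_isUnit h2
  have h12 : ¬ (p : ℤ) ∣ 12 := by
    intro h
    have h2 : p ∣ 2 ^ 2 * 3 := by exact_mod_cast h
    rcases (Nat.Prime.dvd_mul hp.out).1 h2 with h3 | h3
    · have := Nat.le_of_dvd (by norm_num) (hp.out.dvd_of_dvd_pow h3)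
      omega
    · have := Nat.le_of_dvd (by norm_num) h3
      omega
  have h3 : ¬ (p : ℤ) ∣ T W X Y e m 1 := by
    intro h
    apply h1
    have h2 := Ti_equation hP he m
    unfold OnCurve at h2
    have h3 : (p : ℤ) ∣ T W X Y e m 0 ^ 3 := by
      have h4 : T W X Y e m 0 ^ 3 = T W X Y e m 1 * (T W X Y e m 1 +
          W.a₁ * T W X Y e m 0 * T W X Y e m 2 +
          W.a₃ * T W X Y e m 2 ^ 3) - T W X Y e m 2 * (W.a₂ * T W X Y e m 0 ^ 2 * T W X Y e m 2 +
          W.a₄ * T W X Y e m 0 * T W X Y e m 2 ^ 3 + W.a₆ * T W X Y e m 2 ^ 5) := by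
        linear_combination -h2
      rw [h4]
      exact dvd_sub (h.mul_right _) (hm.mul_right _)
    exact hpp.dvd_of_dvd_pow h3
  constructor
  · intro h
    have h4 : (p : ℤ) ∣ 12 * T W X Y e m 0 := by
      have e : 12 * T W X Y e m 0 = al W X Y e m - T W X Y e m 2 * (W.b₂ * T W X Y e m 2) := by
        unfold al
        ring
      rw [e]
      exact dvd_sub h (hm.mul_right _)
    rcases hpp.dvd_or_dvd h4 with h5 | h5
    · exact h12 h5
    · exact h1 h5
  · intro h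
    have h4 : (p : ℤ) ∣ 12 * T W X Y e m 1 := by
      have e : 12 * T W X Y e m 1 = be W X Y e m - T W X Y e m 2 * (6 * (W.a₁ * T W X Y e m 0 +
          W.a₃ * T W X Y e m 2 ^ 2)) := by
        unfold be
        ring
      rw [e]
      exact dvd_sub h (hm.mul_right _)
    rcases hpp.dvd_or_dvd h4 with h5 | h5
    · exact h12 h5
    · exact h3 h5

/-- the formula for the height at the multiples reducing to the origin -/
def HasFormula (p : ℕ) [Fact p.Prime] (W : WeierstrassCurve ℤ) (h : (WQ W).Point → ℚ_[p])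
    (s : PowerSeries ℤ_[p]) : Prop :=
  ∀ (a b e : ℤ) (hP : (WQ W).Nonsingular (a / e ^ 2) (b / e ^ 3)) (t : ℤ_[p]),
      e ≠ 0 → IsCoprime a e → (p : ℤ) ∣ e → EverywhereNonsingular W a b e →
      6 * (2 * b + W.a₁ * a * e + W.a₃ * e ^ 3) * t = -((12 * a + W.b₂ * e ^ 2) * e) →
      h (.some _ _ hP) = plog p (ev t (PowerSeries.X * s) / e)

lemma ev_at_zero (s : PowerSeries ℤ_[p]) : ev 0 s = PowerSeries.constantCoeff s := by
  unfold ev
  rw [tsum_eq_single 0]
  · simp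
  · intro n hn
    rw [zero_pow hn, mul_zero]

lemma plog_sq_one {z : ℚ_[p]} (hz : z ^ 2 = 1) : plog p z = 0 := by
  have h1 : ‖z‖ = 1 := by
    have h2 := congrArg norm hz
    rw [norm_pow, norm_one] at h2
    exact (pow_eq_one_iff_of_nonneg (norm_nonneg _) two_ne_zero).1 h2
  have h3 := plog_mul h1 h1
  have h4 := plog_mul (p := p) (z₁ := 1) (z₂ := 1) norm_one norm_one
  rw [mul_one] at h4
  rw [← pow_two, hz] at h3
  have h5 : (2 : ℚ_[p]) * plog p z = 0 := by linear_combination -h3 - h4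
  exact (mul_eq_zero.1 h5).resolve_left two_ne_zero

theorem valueT (hp5 : 5 ≤ p) (heq : OnCurve W X Y e) (hc : IsCoprime X e)
    (hN : EverywhereNonsingular W X Y e) (he0 : e ≠ 0)
    (hP : (WQ W).Nonsingular ((X : ℚ) / (e : ℚ) ^ 2) ((Y : ℚ) / (e : ℚ) ^ 3))
    {h : (WQ W).Point → ℚ_[p]}
    (hq : ∀ P Q, h (P + Q) + h (P - Q) = 2 * h P + 2 * h Q) {A B : ℤ_[p]}
    {s : PowerSeries ℤ_[p]} (d : Dat A B s) (hf : HasFormula p W h s) {m : ℕ}
    (hm : (p : ℤ) ∣ T W X Y e m 2) :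
    ∃ (t Λ : ℤ_[p]), (p : ℤ_[p]) ∣ t ∧
      (be W X Y e m : ℤ_[p]) * t = -((al W X Y e m : ℤ_[p]) * (T W X Y e m 2 : ℤ)) ∧ ‖Λ‖ = 1 ∧
      (be W X Y e m : ℤ_[p]) * Λ = -((al W X Y e m : ℤ_[p]) * ev t s) ∧
      (m : ℚ_[p]) ^ 2 * h (.some _ _ hP) = plog p Λ := by
  have h2 : h (m • (Affine.Point.some _ _ hP)) =
      (m : ℚ_[p]) ^ 2 * h (.some _ _ hP) := quadratic hq _ _
  by_cases he : T W X Y e m 2 = 0
  · -- the multiple is the origin
    have h0 : T W X Y e m 0 = 1 ∧ T W X Y e m 1 ^ 2 = 1 := by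
      have h3 := Ti_coprime heq hc hN m
      rw [he, isCoprime_zero_right, Int.isUnit_iff] at h3
      have h4 := Ti_equation hP he0 m
      unfold OnCurve at h4
      rw [he] at h4
      rcases h3 with h3 | h3
      · exact ⟨h3, by rw [h3] at h4; linear_combination h4⟩
      · exfalso
        rw [h3] at h4
        nlinarith [sq_nonneg (T W X Y e m 1)]
    have hal : al W X Y e m = 12 := by
      unfold al
      rw [he, h0.1]
      ring
    have hbe : be W X Y e m = 12 * T W X Y e m 1 := by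
      unfold be
      rw [he, h0.1]
      ring
    have h1 : ((T W X Y e m 1 : ℤ) : ℤ_[p]) ^ 2 = 1 := by
      rw [← Int.cast_pow, h0.2, Int.cast_one]
    refine ⟨0, -(T W X Y e m 1 : ℤ), dvd_zero _, ?_, ?_, ?_, ?_⟩
    · rw [he]
      simp
    · have h5 := congrArg norm h1
      rw [norm_pow, norm_one] at h5
      rw [norm_neg]
      exact (pow_eq_one_iff_of_nonneg (norm_nonneg _) two_ne_zero).1 h5
    · rw [ev_at_zero, d.s0, hal, hbe]
      push_cast
      linear_combination (-12 : ℤ_[p]) * h1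
    · rw [← h2, (Ti_zero_iff hP he0 m).2 he]
      have h6 : h 0 = 0 := by
        have := quadratic hq (0 : (WQ W).Point) 0
        simpa using this
      rw [h6, plog_sq_one]
      push_cast
      rw [neg_sq, ← Int.cast_pow, h0.2, Int.cast_one]
  obtain ⟨ha, hb⟩ := unitsT hp5 heq hc hN he0 hP hm
  have haU := not_dvd_unit (p := p) ha
  have hbU := not_dvd_unit (p := p) hb
  obtain ⟨h', hpt⟩ := Ti_some hP he0 m he
  have hcop := Ti_coprime heq hc hN m
  have hns := Ti_nonsing heq hc hN m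
  obtain ⟨r, hr⟩ := hbU.exists_right_inv
  obtain ⟨t, ht⟩ : ∃ t : ℤ_[p], t = -((al W X Y e m : ℤ_[p]) * (T W X Y e m 2 : ℤ)) * r :=
    ⟨_, rfl⟩
  have hbt : (be W X Y e m : ℤ_[p]) * t = -((al W X Y e m : ℤ_[p]) * (T W X Y e m 2 : ℤ)) := by
    rw [ht]
    linear_combination (-((al W X Y e m : ℤ_[p]) * (T W X Y e m 2 : ℤ))) * hr
  have hpe : (p : ℤ_[p]) ∣ ((T W X Y e m 2 : ℤ) : ℤ_[p]) := by
    have := (PadicInt.pow_p_dvd_int_iff (p := p) 1 (T W X Y e m 2)).2 (by rwa [pow_one])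
    rwa [pow_one] at this
  have hpt' : (p : ℤ_[p]) ∣ t := by
    rw [ht]
    exact ((hpe.mul_left _).neg_right).mul_right _
  have hE := ev_unit hpt' d.s0
  obtain ⟨Λ, hΛ⟩ : ∃ Λ : ℤ_[p], Λ = -((al W X Y e m : ℤ_[p]) * r) * ev t s := ⟨_, rfl⟩
  have hΛU : IsUnit Λ := by
    rw [hΛ]
    exact ((haU.mul (IsUnit.of_mul_eq_one _ (by rw [mul_comm]; exact hr))).neg).mul hE
  have hbΛ : (be W X Y e m : ℤ_[p]) * Λ = -((al W X Y e m : ℤ_[p]) * ev t s) := by
    rw [hΛ]
    linear_combination (-((al W X Y e m : ℤ_[p]) * ev t s)) * hr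
  refine ⟨t, Λ, hpt', hbt, PadicInt.isUnit_iff.1 hΛU, hbΛ, ?_⟩
  have h1 := hf (T W X Y e m 0) (T W X Y e m 1) (T W X Y e m 2) h' t he hcop hm hns (by
    have := hbt
    unfold al be at this
    push_cast at this
    exact this)
  rw [← h2, hpt, h1]
  congr 1
  have heQ : ((T W X Y e m 2 : ℤ) : ℚ_[p]) ≠ 0 := by exact_mod_cast he
  rw [div_eq_iff heQ, ev_X_mul hpt', hΛ, ht]
  push_cast
  ring

end Pool.Agent.Y732
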