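import Pool.Agent.Y732.Defs

/-!
# The multiples of a point in Jacobian coordinates

`J W P n` is a triple of integer polynomials in the coefficients of `W` and the coordinates of `P`
which over every field represents `n • P`, if the third coordinate of `P` is one.
-/

set_option autoImplicit false

namespace Pool.Agent.Y732

open WeierstrassCurve
open scoped WeierstrassCurve.Jacobian

/-- the multiples of `P` in Jacobian coordinates -/
noncomputable def J {R : Type*} [CommRing R] (W : Jacobian R) (P : Fin 3 → R) : ℕ → Fin 3 → R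
  | 0 => ![1, 1, 0]
  | 1 => P
  | (n + 2) =>
    if h : (n + 2) % 2 = 0 then W.dblXYZ (J W P ((n + 2) / 2))
    else W.addXYZ (J W P ((n + 2) / 2)) (J W P ((n + 2) / 2 + 1))
  termination_by n => n
  decreasing_by
    all_goals simp_wf
    all_goals omega

section basic

variable {R : Type*} [CommRing R] (W : Jacobian R) (P : Fin 3 → R)

lemma J_zero : J W P 0 = ![1, 1, 0] := by rw [J]

lemma J_one : J W P 1 = P := by rw [J]

lemma J_dbl (n : ℕ) (hn : 1 ≤ n) : J W P (2 * n) = W.dblXYZ (J W P n) := by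
  obtain ⟨k, rfl⟩ : ∃ k, n = k + 1 := ⟨n - 1, by omega⟩
  have h : 2 * (k + 1) = 2 * k + 2 := by ring
  rw [h, J, dif_pos (by omega), show (2 * k + 2) / 2 = k + 1 by omega]

lemma J_add (n : ℕ) (hn : 1 ≤ n) :
    J W P (2 * n + 1) = W.addXYZ (J W P n) (J W P (n + 1)) := by
  obtain ⟨k, rfl⟩ : ∃ k, n = k + 1 := ⟨n - 1, by omega⟩
  have h : 2 * (k + 1) + 1 = (2 * k + 1) + 2 := by ring
  rw [h, J, dif_neg (by omega), show (2 * k + 1 + 2) / 2 = k + 1 by omega]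

/-- an induction principle -/
theorem J_induction {Q : ℕ → Prop} (h0 : Q 0) (h1 : Q 1)
    (hd : ∀ n, 1 ≤ n → Q n → Q (2 * n)) (ha : ∀ n, 1 ≤ n → Q n → Q (n + 1) → Q (2 * n + 1))
    (n : ℕ) : Q n := by
  induction n using Nat.strong_induction_on with
  | _ n ih =>
    rcases Nat.even_or_odd' n with ⟨k, rfl | rfl⟩
    · rcases Nat.eq_zero_or_pos k with rfl | hk
      · exact h0
      · exact hd k hk (ih k (by omega))
    · rcases Nat.eq_zero_or_pos k with rfl | hk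
      · exact h1
      · exact ha k hk (ih k (by omega)) (ih (k + 1) (by omega))

lemma J_map {S : Type*} [CommRing S] (f : R →+* S) (n : ℕ) :
    J (W.map f).toJacobian (f ∘ P) n = f ∘ J W P n := by
  refine J_induction (Q := fun n => J (W.map f).toJacobian (f ∘ P) n = f ∘ J W P n) ?_ ?_ ?_ ?_ n
  · rw [J_zero, J_zero, Jacobian.comp_fin3]
    simp
  · rw [J_one, J_one]
  · intro n hn h
    rw [J_dbl _ _ n hn, J_dbl _ _ n hn, h, Jacobian.map_dblXYZ]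
  · intro n hn h h'
    rw [J_add _ _ n hn, J_add _ _ n hn, h, h', Jacobian.map_addXYZ]

end basic

section field

variable {F : Type*} [Field F] [DecidableEq F] (W : Jacobian F)

/-- Over a field, `J W ![x, y, 1] n` represents `n • (x, y)`. -/
theorem J_field {a b : F} (h : W.toAffine.Nonsingular a b) (n : ℕ) :
    W.Nonsingular (J W ![a, b, 1] n) ∧
      Jacobian.Point.toAffine W (J W ![a, b, 1] n) = n • (Affine.Point.some a b h) := by
  have hN : W.Nonsingular ![a, b, 1] := (Jacobian.nonsingular_some a b).2 h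
  have hP : Jacobian.Point.toAffine W ![a, b, 1] = Affine.Point.some a b h :=
    Jacobian.Point.toAffine_some hN
  refine J_induction (Q := fun n => W.Nonsingular (J W ![a, b, 1] n) ∧
      Jacobian.Point.toAffine W (J W ![a, b, 1] n) = n • (Affine.Point.some a b h)) ?_ ?_ ?_ ?_ n
  · rw [J_zero]
    exact ⟨Jacobian.nonsingular_zero, by rw [Jacobian.Point.toAffine_zero, zero_smul]⟩
  · rw [J_one, one_smul]
    exact ⟨hN, hP⟩
  · rintro n hn ⟨h1, h2⟩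
    rw [J_dbl _ _ n hn, ← Jacobian.add_self]
    refine ⟨Jacobian.nonsingular_add h1 h1, ?_⟩
    rw [Jacobian.Point.toAffine_add h1 h1, h2, two_mul, add_smul]
  · rintro n hn ⟨h1, h2⟩ ⟨h3, h4⟩
    have hne : ¬ (J W ![a, b, 1] n ≈ J W ![a, b, 1] (n + 1)) := by
      intro heq
      have h5 := Jacobian.Point.toAffine_of_equiv (W := W) heq
      rw [h2, h4, add_smul, one_smul] at h5
      have h6 := (left_eq_add.1 h5)
      exact Affine.Point.some_ne_zero h h6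
    rw [J_add _ _ n hn, ← Jacobian.add_of_not_equiv hne]
    refine ⟨Jacobian.nonsingular_add h1 h3, ?_⟩
    rw [Jacobian.Point.toAffine_add h1 h3, h2, h4, ← add_smul]
    congr 1
    ring

end field

section scaling

variable {R : Type*} [CommRing R]

lemma Wc_map {S : Type*} [CommRing S] (f : R →+* S) (A B : R) :
    (Wc A B).map f = Wc (f A) (f B) := by
  simp [Wc, WeierstrassCurve.map]

/-- the weights: `A`, `B`, `x`, `y` have weights `4`, `6`, `2`, `3` -/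
theorem J_scale (A B a b : R) (u : R) (hu : IsUnit u) (n : ℕ) :
    J (Wc (u ^ 4 * A) (u ^ 6 * B)).toJacobian ![u ^ 2 * a, u ^ 3 * b, 1] n 0 =
        (u ^ (n ^ 2)) ^ 2 * J (Wc A B).toJacobian ![a, b, 1] n 0 ∧
      J (Wc (u ^ 4 * A) (u ^ 6 * B)).toJacobian ![u ^ 2 * a, u ^ 3 * b, 1] n 1 =
        (u ^ (n ^ 2)) ^ 3 * J (Wc A B).toJacobian ![a, b, 1] n 1 ∧
      u * J (Wc (u ^ 4 * A) (u ^ 6 * B)).toJacobian ![u ^ 2 * a, u ^ 3 * b, 1] n 2 =
        u ^ (n ^ 2) * J (Wc A B).toJacobian ![a, b, 1] n 2 := by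
  set W' := (Wc (u ^ 4 * A) (u ^ 6 * B)).toJacobian with hW'
  set W := (Wc A B).toJacobian with hW
  set P' : Fin 3 → R := ![u ^ 2 * a, u ^ 3 * b, 1] with hP'
  set P : Fin 3 → R := ![a, b, 1] with hP
  have e1 : W'.a₁ = 0 := rfl
  have e2 : W'.a₂ = 0 := rfl
  have e3 : W'.a₃ = 0 := rfl
  have e4 : W'.a₄ = u ^ 4 * A := rfl
  have e6 : W'.a₆ = u ^ 6 * B := rfl
  have f1 : W.a₁ = 0 := rfl
  have f2 : W.a₂ = 0 := rfl
  have f3 : W.a₃ = 0 := rfl
  have f4 : W.a₄ = A := rfl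
  have f6 : W.a₆ = B := rfl
  refine J_induction (Q := fun n => J W' P' n 0 = (u ^ (n ^ 2)) ^ 2 * J W P n 0 ∧
      J W' P' n 1 = (u ^ (n ^ 2)) ^ 3 * J W P n 1 ∧
      u * J W' P' n 2 = u ^ (n ^ 2) * J W P n 2) ?_ ?_ ?_ ?_ n
  · rw [J_zero, J_zero]
    simp
  · rw [J_one, J_one]
    simp [hP, hP']
  · rintro n hn ⟨h0, h1, h2⟩
    rw [J_dbl _ _ n hn, J_dbl _ _ n hn]
    set c := u ^ (n ^ 2) with hc
    have hc4 : u ^ ((2 * n) ^ 2) = c ^ 4 := by rw [hc]; ring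
    rw [hc4]
    set X := J W P n 0
    set Y := J W P n 1
    set Z := J W P n 2
    set Z' := J W' P' n 2
    have hU : W'.dblU (J W' P' n) = c ^ 4 * W.dblU (J W P n) := by
      rw [Jacobian.dblU_eq, Jacobian.dblU_eq, e1, e2, e4, f1, f2, f4]
      change 0 * J W' P' n 1 * Z' - (3 * J W' P' n 0 ^ 2 + 2 * 0 * J W' P' n 0 * Z' ^ 2 +
        u ^ 4 * A * Z' ^ 4) = c ^ 4 * (0 * Y * Z - (3 * X ^ 2 + 2 * 0 * X * Z ^ 2 + A * Z ^ 4))
      rw [h0, h1]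
      linear_combination (-A) * (u ^ 3 * Z' ^ 3 + u ^ 2 * Z' ^ 2 * (c * Z) +
        u * Z' * (c * Z) ^ 2 + (c * Z) ^ 3) * h2
    have hX : W'.dblX (J W' P' n) = (c ^ 4) ^ 2 * W.dblX (J W P n) := by
      rw [Jacobian.dblX, Jacobian.dblX, hU, Jacobian.negY, Jacobian.negY, e1, e2, e3, f1, f2, f3]
      change _ - 0 * _ * Z' * _ - 0 * _ * _ - 2 * J W' P' n 0 *
        (J W' P' n 1 - (-J W' P' n 1 - 0 * J W' P' n 0 * Z' - 0 * Z' ^ 3)) ^ 2 =
        (c ^ 4) ^ 2 * (_ - 0 * _ * Z * _ - 0 * _ * _ - 2 * X * (Y - (-Y - 0 * X * Z - 0 * Z ^ 3)) ^ 2)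
      rw [h0, h1]
      ring
    have hY : W'.dblY (J W' P' n) = (c ^ 4) ^ 3 * W.dblY (J W P n) := by
      rw [Jacobian.dblY, Jacobian.dblY, Jacobian.negY_eq, Jacobian.negY_eq, Jacobian.negDblY,
        Jacobian.negDblY, hU, hX, Jacobian.negY, Jacobian.negY, e1, e3, f1, f3]
      change -(_ * (_ - J W' P' n 0 * (J W' P' n 1 - (-J W' P' n 1 - 0 * _ * _ - 0 * _)) ^ 2) +
        J W' P' n 1 * (J W' P' n 1 - (-J W' P' n 1 - 0 * _ * _ - 0 * _)) ^ 3) - 0 * _ * _ - 0 * _ =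
        (c ^ 4) ^ 3 * (-(_ * (_ - X * (Y - (-Y - 0 * _ * _ - 0 * _)) ^ 2) +
          Y * (Y - (-Y - 0 * _ * _ - 0 * _)) ^ 3) - 0 * _ * _ - 0 * _)
      rw [h0, h1]
      ring
    refine ⟨hX, hY, ?_⟩
    rw [Jacobian.dblXYZ_Z, Jacobian.dblXYZ_Z, Jacobian.dblZ, Jacobian.dblZ, Jacobian.negY,
      Jacobian.negY, e1, e3, f1, f3]
    change u * (Z' * (J W' P' n 1 - (-J W' P' n 1 - 0 * _ * Z' - 0 * _))) =
      c ^ 4 * (Z * (Y - (-Y - 0 * _ * _ - 0 * _)))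
    rw [h1]
    linear_combination (2 * (c ^ 3 * Y)) * h2
  · rintro n hn ⟨h0, h1, h2⟩ ⟨k0, k1, k2⟩
    rw [J_add _ _ n hn, J_add _ _ n hn]
    set c := u ^ (n ^ 2) with hc
    set d := u ^ ((n + 1) ^ 2) with hd
    set e := u ^ ((2 * n + 1) ^ 2) with he
    have hcd : (c * d) ^ 2 = u * e := by rw [hc, hd, he]; ring
    set X := J W P n 0
    set Y := J W P n 1
    set Z := J W P n 2
    set Z' := J W' P' n 2
    set X1 := J W P (n + 1) 0
    set Y1 := J W P (n + 1) 1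
    set Z1 := J W P (n + 1) 2
    set Z1' := J W' P' (n + 1) 2
    have hZ : u * Jacobian.addZ (J W' P' n) (J W' P' (n + 1)) =
        e * Jacobian.addZ (J W P n) (J W P (n + 1)) := by
      have : u * (u * Jacobian.addZ (J W' P' n) (J W' P' (n + 1))) =
          u * (e * Jacobian.addZ (J W P n) (J W P (n + 1))) := by
        rw [Jacobian.addZ, Jacobian.addZ]
        change u * (u * (J W' P' n 0 * Z1' ^ 2 - J W' P' (n + 1) 0 * Z' ^ 2)) =
          u * (e * (X * Z1 ^ 2 - X1 * Z ^ 2))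
        rw [h0, k0]
        linear_combination (c ^ 2 * X * (u * Z1' + d * Z1)) * k2 -
          (d ^ 2 * X1 * (u * Z' + c * Z)) * h2 + (X * Z1 ^ 2 - X1 * Z ^ 2) * hcd
      exact hu.mul_left_cancel this
    have hX : W'.addX (J W' P' n) (J W' P' (n + 1)) =
        e ^ 2 * W.addX (J W P n) (J W P (n + 1)) := by
      have : u ^ 2 * W'.addX (J W' P' n) (J W' P' (n + 1)) =
          u ^ 2 * (e ^ 2 * W.addX (J W P n) (J W P (n + 1))) := by
        have h3 : u ^ 2 * W'.addX (J W' P' n) (J W' P' (n + 1)) =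
            J W' P' n 0 * J W' P' (n + 1) 0 ^ 2 * (u * Z') ^ 2 -
              2 * J W' P' n 1 * J W' P' (n + 1) 1 * (u * Z') * (u * Z1') +
              J W' P' n 0 ^ 2 * J W' P' (n + 1) 0 * (u * Z1') ^ 2 +
              A * J W' P' (n + 1) 0 * (u * Z') ^ 4 * (u * Z1') ^ 2 +
              A * J W' P' n 0 * (u * Z') ^ 2 * (u * Z1') ^ 4 +
              2 * B * (u * Z') ^ 4 * (u * Z1') ^ 4 := by
          rw [Jacobian.addX, e1, e2, e3, e4, e6]
          ring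
        rw [h3, h0, k0, h1, k1, h2, k2, Jacobian.addX, f1, f2, f3, f4, f6]
        change _ = u ^ 2 * (e ^ 2 * (X * X1 ^ 2 * Z ^ 2 - 2 * Y * Y1 * Z * Z1 + X ^ 2 * X1 * Z1 ^ 2
          - 0 * X * Y1 * Z ^ 2 * Z1 - 0 * Y * X1 * Z * Z1 ^ 2
          + 2 * 0 * X * X1 * Z ^ 2 * Z1 ^ 2 - 0 * Y1 * Z ^ 4 * Z1
          - 0 * Y * Z * Z1 ^ 4 + A * X1 * Z ^ 4 * Z1 ^ 2
          + A * X * Z ^ 2 * Z1 ^ 4 + 2 * B * Z ^ 4 * Z1 ^ 4))
        linear_combination (X * X1 ^ 2 * Z ^ 2 - 2 * Y * Y1 * Z * Z1 + X ^ 2 * X1 * Z1 ^ 2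
          + A * X1 * Z ^ 4 * Z1 ^ 2 + A * X * Z ^ 2 * Z1 ^ 4 + 2 * B * Z ^ 4 * Z1 ^ 4) *
          ((c * d) ^ 2 + u * e) * hcd
      exact (hu.pow 2).mul_left_cancel this
    have hY : W'.addY (J W' P' n) (J W' P' (n + 1)) =
        e ^ 3 * W.addY (J W P n) (J W P (n + 1)) := by
      have : u ^ 3 * W'.addY (J W' P' n) (J W' P' (n + 1)) =
          u ^ 3 * (e ^ 3 * W.addY (J W P n) (J W P (n + 1))) := by
        have h3 : u ^ 3 * W'.addY (J W' P' n) (J W' P' (n + 1)) =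
            -(-J W' P' n 1 * J W' P' (n + 1) 0 ^ 3 * (u * Z') ^ 3 +
              2 * J W' P' n 1 * J W' P' (n + 1) 1 ^ 2 * (u * Z') ^ 3 -
              3 * J W' P' n 0 ^ 2 * J W' P' (n + 1) 0 * J W' P' (n + 1) 1 * (u * Z') ^ 2 *
                (u * Z1') +
              3 * J W' P' n 0 * J W' P' n 1 * J W' P' (n + 1) 0 ^ 2 * (u * Z') * (u * Z1') ^ 2 +
              J W' P' n 0 ^ 3 * J W' P' (n + 1) 1 * (u * Z1') ^ 3 -
              2 * J W' P' n 1 ^ 2 * J W' P' (n + 1) 1 * (u * Z1') ^ 3 -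
              A * J W' P' (n + 1) 0 * J W' P' (n + 1) 1 * (u * Z') ^ 6 * (u * Z1') -
              A * J W' P' n 0 * J W' P' (n + 1) 1 * (u * Z') ^ 4 * (u * Z1') ^ 3 +
              A * J W' P' n 1 * J W' P' (n + 1) 0 * (u * Z') ^ 3 * (u * Z1') ^ 4 +
              A * J W' P' n 0 * J W' P' n 1 * (u * Z') * (u * Z1') ^ 6 -
              2 * B * J W' P' (n + 1) 1 * (u * Z') ^ 6 * (u * Z1') ^ 3 +
              2 * B * J W' P' n 1 * (u * Z') ^ 3 * (u * Z1') ^ 6) := by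
          rw [Jacobian.addY, Jacobian.negY_eq, Jacobian.negAddY, e1, e2, e3, e4, e6]
          ring
        rw [h3, h0, k0, h1, k1, h2, k2, Jacobian.addY, Jacobian.negY_eq, Jacobian.negAddY, f1, f2,
          f3, f4, f6]
        change _ = u ^ 3 * (e ^ 3 * (-(-Y * X1 ^ 3 * Z ^ 3 + 2 * Y * Y1 ^ 2 * Z ^ 3
          - 3 * X ^ 2 * X1 * Y1 * Z ^ 2 * Z1 + 3 * X * Y * X1 ^ 2 * Z * Z1 ^ 2
          + X ^ 3 * Y1 * Z1 ^ 3 - 2 * Y ^ 2 * Y1 * Z1 ^ 3 + 0 * X * Y1 ^ 2 * Z ^ 4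
          + 0 * Y * X1 * Y1 * Z ^ 3 * Z1 - 0 * X * Y * Y1 * Z * Z1 ^ 3
          - 0 * Y ^ 2 * X1 * Z1 ^ 4 - 2 * 0 * X * X1 * Y1 * Z ^ 4 * Z1
          + 2 * 0 * X * Y * X1 * Z * Z1 ^ 4 + 0 * Y1 ^ 2 * Z ^ 6
          - 0 * Y ^ 2 * Z1 ^ 6 - A * X1 * Y1 * Z ^ 6 * Z1
          - A * X * Y1 * Z ^ 4 * Z1 ^ 3 + A * Y * X1 * Z ^ 3 * Z1 ^ 4
          + A * X * Y * Z * Z1 ^ 6 - 2 * B * Y1 * Z ^ 6 * Z1 ^ 3
          + 2 * B * Y * Z ^ 3 * Z1 ^ 6) - 0 * _ * _ - 0 * _))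
        linear_combination (-(-Y * X1 ^ 3 * Z ^ 3 + 2 * Y * Y1 ^ 2 * Z ^ 3
          - 3 * X ^ 2 * X1 * Y1 * Z ^ 2 * Z1 + 3 * X * Y * X1 ^ 2 * Z * Z1 ^ 2
          + X ^ 3 * Y1 * Z1 ^ 3 - 2 * Y ^ 2 * Y1 * Z1 ^ 3 - A * X1 * Y1 * Z ^ 6 * Z1
          - A * X * Y1 * Z ^ 4 * Z1 ^ 3 + A * Y * X1 * Z ^ 3 * Z1 ^ 4
          + A * X * Y * Z * Z1 ^ 6 - 2 * B * Y1 * Z ^ 6 * Z1 ^ 3
          + 2 * B * Y * Z ^ 3 * Z1 ^ 6)) *
          (((c * d) ^ 2) ^ 2 + (c * d) ^ 2 * (u * e) + (u * e) ^ 2) * hcd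
      exact (hu.pow 3).mul_left_cancel this
    exact ⟨hX, hY, hZ⟩

/-- on the cuspidal cubic the third coordinate of the `n`-th multiple of `(1, 1)` is `n` -/
theorem J_cusp (n : ℕ) : J (Wc (0 : R) 0).toJacobian ![1, 1, 1] n = ![1, 1, (n : R)] := by
  refine J_induction (Q := fun n => J (Wc (0 : R) 0).toJacobian ![1, 1, 1] n =
    ![1, 1, (n : R)]) ?_ ?_ ?_ ?_ n
  · rw [J_zero]
    simp
  · rw [J_one]
    simp
  · intro n hn h
    rw [J_dbl _ _ n hn, h]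
    have e1 : (Wc (0 : R) 0).toJacobian.a₁ = 0 := rfl
    have e2 : (Wc (0 : R) 0).toJacobian.a₂ = 0 := rfl
    have e3 : (Wc (0 : R) 0).toJacobian.a₃ = 0 := rfl
    have e4 : (Wc (0 : R) 0).toJacobian.a₄ = 0 := rfl
    have hX : (Wc (0 : R) 0).toJacobian.dblX ![1, 1, (n : R)] = 1 := by
      rw [Jacobian.dblX, Jacobian.dblU_eq, Jacobian.negY_eq, e1, e2, e3, e4]
      simp
      ring
    have hY : (Wc (0 : R) 0).toJacobian.dblY ![1, 1, (n : R)] = 1 := by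
      rw [Jacobian.dblY, Jacobian.negY_eq, Jacobian.negDblY, hX, Jacobian.dblU_eq,
        Jacobian.negY_eq, e1, e2, e3, e4]
      simp
      ring
    have hZ : (Wc (0 : R) 0).toJacobian.dblZ ![1, 1, (n : R)] = ((2 * n : ℕ) : R) := by
      rw [Jacobian.dblZ, Jacobian.negY_eq, e1, e3]
      simp
      ring
    rw [Jacobian.dblXYZ, hX, hY, hZ]
  · intro n hn h h'
    rw [J_add _ _ n hn, h, h']
    have e1 : (Wc (0 : R) 0).toJacobian.a₁ = 0 := rfl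
    have e2 : (Wc (0 : R) 0).toJacobian.a₂ = 0 := rfl
    have e3 : (Wc (0 : R) 0).toJacobian.a₃ = 0 := rfl
    have e4 : (Wc (0 : R) 0).toJacobian.a₄ = 0 := rfl
    have e6 : (Wc (0 : R) 0).toJacobian.a₆ = 0 := rfl
    have hX : (Wc (0 : R) 0).toJacobian.addX ![1, 1, (n : R)] ![1, 1, ((n + 1 : ℕ) : R)] = 1 := by
      rw [Jacobian.addX, e1, e2, e3, e4, e6]
      simp
      ring
    have hY : (Wc (0 : R) 0).toJacobian.addY ![1, 1, (n : R)] ![1, 1, ((n + 1 : ℕ) : R)] = 1 := by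
      rw [Jacobian.addY, Jacobian.negY_eq, Jacobian.negAddY, hX, e1, e2, e3, e4, e6]
      simp
      ring
    have hZ : Jacobian.addZ ![1, 1, (n : R)] ![1, 1, ((n + 1 : ℕ) : R)] =
        ((2 * n + 1 : ℕ) : R) := by
      rw [Jacobian.addZ]
      simp
      ring
    rw [Jacobian.addXYZ, hX, hY, hZ]

end scaling

end Pool.Agent.Y732
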