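import Pool.Agent.Y732.Defs

/-!
# The Iwasawa logarithm of a `p`-adic unit
-/

set_option autoImplicit false

namespace Pool.Agent.Y732

variable {p : ℕ} [hp : Fact p.Prime]

lemma one_le_norm_natCast (n : ℕ) (hn : n ≠ 0) : 1 ≤ ‖(n : ℚ_[p])‖ * n := by
  have h1 := Padic.norm_eq_zpow_neg_valuation (p := p) (x := (n : ℚ_[p])) (by exact_mod_cast hn)
  rw [h1, Padic.valuation_natCast, zpow_neg, zpow_natCast]
  have h2 : (p : ℝ) ^ padicValNat p n ≤ n := by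
    exact_mod_cast Nat.le_of_dvd (Nat.pos_of_ne_zero hn) (pow_padicValNat_dvd)
  have h3 : (0 : ℝ) < (p : ℝ) ^ padicValNat p n := by
    have := hp.out.pos
    positivity
  rw [inv_mul_eq_div, le_div_iff₀ h3, one_mul]
  exact h2

lemma aux_three (n : ℕ) (hn : 1 ≤ n) : 3 * (n + 1) ≤ 2 * 3 ^ n := by
  induction n, hn using Nat.le_induction with
  | base => norm_num
  | succ n hn ih =>
    rw [pow_succ]
    omega

/-- the kernel of the Iwasawa logarithm on units -/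
theorem plog_eq_zero (hp3 : 3 ≤ p) {z : ℤ_[p]} (hz : ‖z‖ = 1) (h : plog p (z : ℚ_[p]) = 0) :
    z ^ (p - 1) = 1 := by
  set w : ℚ_[p] := (z : ℚ_[p]) ^ (p - 1) - 1 with hw
  have hp1 : (1 : ℝ) < p := by exact_mod_cast hp.out.one_lt
  have hp3' : (3 : ℝ) ≤ p := by exact_mod_cast hp3
  -- `w` is divisible by `p`
  have hw1 : ‖w‖ ≤ (p : ℝ)⁻¹ := by
    have h1 : PadicInt.toZMod (z ^ (p - 1) - 1) = 0 := by
      have h2 : PadicInt.toZMod z ≠ 0 := by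
        intro h3
        rw [← RingHom.mem_ker, PadicInt.ker_toZMod, IsLocalRing.mem_maximalIdeal,
          PadicInt.mem_nonunits] at h3
        rw [hz] at h3
        exact lt_irrefl _ h3
      rw [map_sub, map_pow, map_one, ZMod.pow_card_sub_one_eq_one h2, sub_self]
    rw [← RingHom.mem_ker, PadicInt.ker_toZMod, PadicInt.maximalIdeal_eq_span_p,
      Ideal.mem_span_singleton] at h1
    obtain ⟨a, ha⟩ := h1
    have h2 : w = ((p : ℤ_[p]) * a : ℤ_[p]) := by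
      rw [← ha, hw]
      push_cast
      ring
    rw [h2]
    have h3 : ‖(p : ℤ_[p]) * a‖ ≤ (p : ℝ)⁻¹ := by
      rw [norm_mul, PadicInt.norm_p]
      have h := PadicInt.norm_le_one a
      have h2 : (0 : ℝ) ≤ (p : ℝ)⁻¹ := by positivity
      nlinarith
    exact h3
  have hterm : ∀ n : ℕ, ‖(-1 : ℚ_[p]) ^ n * w ^ (n + 1) / ((n : ℚ_[p]) + 1)‖ ≤
      ‖w‖ * ((n + 1 : ℕ) * ((p : ℝ)⁻¹) ^ n) := by
    intro n
    have h4 : (n : ℚ_[p]) + 1 = ((n + 1 : ℕ) : ℚ_[p]) := by push_cast; ring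
    rw [h4, norm_div, norm_mul, norm_pow, norm_neg, norm_one, one_pow, one_mul, norm_pow]
    have h5 := one_le_norm_natCast (p := p) (n + 1) (by omega)
    have hpos : 0 < ‖((n + 1 : ℕ) : ℚ_[p])‖ := by
      rw [norm_pos_iff]
      exact_mod_cast (by omega : n + 1 ≠ 0)
    rw [div_le_iff₀ hpos, pow_succ]
    have h6 : ‖w‖ ^ n ≤ ((p : ℝ)⁻¹) ^ n := pow_le_pow_left₀ (norm_nonneg _) hw1 n
    have h7 : ‖w‖ ^ n * ‖w‖ ≤ ((p : ℝ)⁻¹) ^ n * ‖w‖ :=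
      mul_le_mul_of_nonneg_right h6 (norm_nonneg _)
    calc ‖w‖ ^ n * ‖w‖ ≤ ((p : ℝ)⁻¹) ^ n * ‖w‖ := h7
      _ = (((p : ℝ)⁻¹) ^ n * ‖w‖) * 1 := (mul_one _).symm
      _ ≤ (((p : ℝ)⁻¹) ^ n * ‖w‖) * (‖((n + 1 : ℕ) : ℚ_[p])‖ * ((n + 1 : ℕ) : ℝ)) :=
          mul_le_mul_of_nonneg_left h5 (by positivity)
      _ = _ := by ring
  have hsum : Summable fun n : ℕ => (-1 : ℚ_[p]) ^ n * w ^ (n + 1) / ((n : ℚ_[p]) + 1) := by
    apply Summable.of_norm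
    refine Summable.of_nonneg_of_le (fun n => norm_nonneg _) hterm ?_
    apply Summable.mul_left
    have h1 : ‖(p : ℝ)⁻¹‖ < 1 := by
      rw [Real.norm_of_nonneg (by positivity)]
      exact inv_lt_one_of_one_lt₀ hp1
    have h2 := summable_pow_mul_geometric_of_norm_lt_one 1 h1
    have h3 := summable_geometric_of_lt_one (r := (p : ℝ)⁻¹) (by positivity)
      (inv_lt_one_of_one_lt₀ hp1)
    have h4 := h2.add h3
    refine h4.congr (fun n => ?_)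
    push_cast
    ring
  have h1 : ∑' n : ℕ, (-1 : ℚ_[p]) ^ n * w ^ (n + 1) / ((n : ℚ_[p]) + 1) = 0 := by
    unfold plog at h
    rw [← hw] at h
    rcases mul_eq_zero.1 h with h2 | h2
    · exfalso
      rw [inv_eq_zero, sub_eq_zero] at h2
      have h3 : ((p : ℕ) : ℚ_[p]) = ((1 : ℕ) : ℚ_[p]) := by exact_mod_cast h2
      have h4 : p = 1 := Nat.cast_injective h3
      omega
    · exact h2
  rw [hsum.tsum_eq_zero_add] at h1
  have h2 : ‖∑' n : ℕ, (-1 : ℚ_[p]) ^ (n + 1) * w ^ (n + 1 + 1) / (((n + 1 : ℕ) : ℚ_[p]) + 1)‖ ≤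
      2 / 3 * ‖w‖ := by
    apply IsUltrametricDist.norm_tsum_le_of_forall_le_of_nonneg (by positivity)
    intro n
    refine (hterm (n + 1)).trans ?_
    have h3 : (((n + 1 + 1 : ℕ) : ℝ)) * ((p : ℝ)⁻¹) ^ (n + 1) ≤ 2 / 3 := by
      have h4 : (p : ℝ)⁻¹ ≤ (3 : ℝ)⁻¹ := inv_anti₀ (by norm_num) hp3'
      have h5 : ((p : ℝ)⁻¹) ^ (n + 1) ≤ ((3 : ℝ)⁻¹) ^ (n + 1) :=
        pow_le_pow_left₀ (by positivity) h4 _
      have h6 := aux_three (n + 1) (by omega)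
      have h7 : (3 : ℝ) * ((n + 1 + 1 : ℕ) : ℝ) ≤ 2 * 3 ^ (n + 1) := by exact_mod_cast h6
      have h8 : (0 : ℝ) < 3 ^ (n + 1) := by positivity
      calc (((n + 1 + 1 : ℕ) : ℝ)) * ((p : ℝ)⁻¹) ^ (n + 1)
          ≤ (((n + 1 + 1 : ℕ) : ℝ)) * ((3 : ℝ)⁻¹) ^ (n + 1) :=
            mul_le_mul_of_nonneg_left h5 (by positivity)
        _ = (((n + 1 + 1 : ℕ) : ℝ)) / 3 ^ (n + 1) := by rw [inv_pow]; rfl
        _ ≤ 2 / 3 := by
            rw [div_le_div_iff₀ h8 (by norm_num)]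
            linarith
    calc ‖w‖ * (((n + 1 + 1 : ℕ) : ℝ) * ((p : ℝ)⁻¹) ^ (n + 1)) ≤ ‖w‖ * (2 / 3) :=
          mul_le_mul_of_nonneg_left h3 (norm_nonneg _)
      _ = _ := by ring
  have h3 : (-1 : ℚ_[p]) ^ 0 * w ^ (0 + 1) / (((0 : ℕ) : ℚ_[p]) + 1) = w := by simp
  rw [h3] at h1
  have h4 : ‖w‖ ≤ 2 / 3 * ‖w‖ := by
    have h8 := congrArg norm (eq_neg_of_add_eq_zero_left h1)
    rw [norm_neg] at h8
    calc ‖w‖ = _ := h8
      _ ≤ _ := h2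
  have h5 : ‖w‖ = 0 := by
    have := norm_nonneg w
    linarith
  have h6 : w = 0 := norm_eq_zero.1 h5
  have h7 : ((z ^ (p - 1) : ℤ_[p]) : ℚ_[p]) = ((1 : ℤ_[p]) : ℚ_[p]) := by
    push_cast
    exact sub_eq_zero.1 h6
  exact Subtype.coe_injective h7

end Pool.Agent.Y732
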