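import Pool.Agent.Y732.Form

/-!
# The Mazur-Tate sigma function: uniqueness and continuity in the coefficients
-/

set_option autoImplicit false

namespace Pool.Agent.Y732

open PowerSeries Finset

section general

variable {R : Type*} [CommRing R]

lemma IsExp.u_one {A B : R} {u g : R⟦X⟧} (h : IsExp A B u g) : coeff 1 u = 0 := by
  rw [h.1]
  have e : (1 + C A * X ^ 4 * u ^ 2 + C B * X ^ 6 * u ^ 3 : R⟦X⟧) =
    1 + X ^ 4 * (C A * u ^ 2) + X ^ 6 * (C B * u ^ 3) := by ring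
  rw [e, map_add, map_add, coeff_X_pow_mul', coeff_X_pow_mul', if_neg (by norm_num),
    if_neg (by norm_num), coeff_one]
  simp

lemma IsExp.const_g {A B : R} {u g : R⟦X⟧} (h2 : IsUnit (2 : R)) (h : IsExp A B u g) :
    constantCoeff g = 1 := by
  have h3 := congrArg constantCoeff h.2
  simp only [map_mul, map_add, h.const_u, constantCoeff_X, zero_mul, add_zero, mul_one] at h3
  have e : constantCoeff (2 : R⟦X⟧) = 2 := map_ofNat _ 2
  rw [e] at h3
  exact h2.mul_left_cancel (by rw [h3, mul_one])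

lemma IsExp.g_one {A B : R} {u g : R⟦X⟧} (h2 : IsUnit (2 : R)) (h : IsExp A B u g) :
    coeff 1 g = 0 := by
  have h3 := congrArg (coeff 1) h.2
  have e : (2 : R⟦X⟧) = C (2 : R) := (map_ofNat _ 2).symm
  have e2 : coeff 1 (X * d⁄dX R u) = 0 := by
    rw [show (1 : ℕ) = 0 + 1 from rfl, coeff_succ_X_mul, coeff_derivative, zero_add, h.u_one,
      zero_mul]
  rw [map_add, e2, add_zero, mul_assoc, e, coeff_C_mul, coeff_C_mul, h.u_one, mul_zero] at h3
  have h4 : coeff 1 (u * g) = coeff 1 g := by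
    rw [coeff_mul, Finset.Nat.antidiagonal_succ]
    simp [h.u_one, h.const_u]
  rw [h4] at h3
  exact h2.mul_left_cancel (by rw [h3, mul_zero])

end general

variable {p : ℕ} [hp : Fact p.Prime]

lemma isUnit_two (hp2 : p ≠ 2) : IsUnit (2 : ℤ_[p]) := by
  rw [PadicInt.isUnit_iff]
  have h1 : ‖((2 : ℤ) : ℤ_[p])‖ = 1 := by
    rw [PadicInt.norm_intCast_eq_one_iff]
    have : Nat.Coprime 2 p := by
      rw [Nat.coprime_primes Nat.prime_two hp.out]
      exact fun h => hp2 h.symm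
    exact_mod_cast Nat.isCoprime_iff_coprime.2 this
  exact_mod_cast h1

/-- the reduced data of a sigma function: `σ = t s` and `dσ / (ω σ) = F / t` -/
structure Dat (A B : ℤ_[p]) (s : ℤ_[p]⟦X⟧) where
  c : ℤ_[p]
  u : ℤ_[p]⟦X⟧
  g : ℤ_[p]⟦X⟧
  F : ℤ_[p]⟦X⟧
  exp : IsExp A B u g
  e1 : u * (F - X * d⁄dX ℤ_[p] F) = g * (1 + C c * X ^ 2 * u)
  e2 : g * (s * F) = s + X * d⁄dX ℤ_[p] s
  s0 : constantCoeff s = 1
  s1 : coeff 1 s = 0

theorem IsSigma.dat {A B : ℤ_[p]} {σ : ℤ_[p]⟦X⟧} (h : IsSigma A B σ) :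
    ∃ s : ℤ_[p]⟦X⟧, σ = X * s ∧ Nonempty (Dat A B s) := by
  obtain ⟨c, u, g, D₁, D₂, hexp, h1, h2, h3, h4, h5⟩ := h
  have h6 : constantCoeff σ = 0 := by
    have := h5 0
    rwa [mul_zero, coeff_zero_eq_constantCoeff_apply] at this
  obtain ⟨s, hs⟩ := PowerSeries.X_dvd_iff.2 h6
  have hs0 : constantCoeff s = 1 := by
    rw [hs, show (1 : ℕ) = 0 + 1 from rfl, coeff_succ_X_mul,
      coeff_zero_eq_constantCoeff_apply] at h4
    exact h4
  have hs1 : coeff 1 s = 0 := by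
    have := h5 1
    rw [hs, show 2 * 1 = 1 + 1 from rfl, coeff_succ_X_mul] at this
    exact this
  have hsu : IsUnit s := isUnit_of_const hs0
  obtain ⟨F, hF⟩ : ∃ F, s * F = D₁ := by
    obtain ⟨r, hr⟩ := hsu.exists_right_inv
    exact ⟨r * D₁, by rw [← mul_assoc, hr, one_mul]⟩
  have hsne : s ≠ 0 := by
    intro h
    rw [h, map_zero] at hs0
    exact zero_ne_one hs0
  have e2 : g * (s * F) = s + X * d⁄dX ℤ_[p] s := by
    rw [hF, h1, hs, Derivation.leibniz, PowerSeries.derivative_X]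
    simp only [smul_eq_mul, mul_one]
    ring
  refine ⟨s, hs, ⟨c, u, g, F, hexp, ?_, e2, hs0, hs1⟩⟩
  have e3 : d⁄dX ℤ_[p] D₁ = d⁄dX ℤ_[p] s * F + s * d⁄dX ℤ_[p] F := by
    rw [← hF, Derivation.leibniz]
    simp only [smul_eq_mul]
    ring
  rw [e3] at h2
  rw [hs, ← hF] at h3
  have e4 : (X ^ 2 * s ^ 2) * (u * (F - X * d⁄dX ℤ_[p] F)) =
      (X ^ 2 * s ^ 2) * (g * (1 + C c * X ^ 2 * u)) := by
    linear_combination g * h3 + X ^ 3 * u * s * h2 - X ^ 2 * u * s * F * e2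
  exact mul_left_cancel₀ (mul_ne_zero (pow_ne_zero 2 PowerSeries.X_ne_zero)
    (pow_ne_zero 2 hsne)) e4

lemma Dat.F_zero {A B : ℤ_[p]} {s : ℤ_[p]⟦X⟧} (hp2 : p ≠ 2) (d : Dat A B s) :
    constantCoeff d.F = 1 := by
  have h := congrArg constantCoeff d.e2
  simpa [d.s0, d.exp.const_g (isUnit_two hp2)] using h

lemma Dat.F_one {A B : ℤ_[p]} {s : ℤ_[p]⟦X⟧} (hp2 : p ≠ 2) (d : Dat A B s) :
    coeff 1 d.F = 0 := by
  have h := congrArg (coeff 1) d.e2
  have hm : ∀ a b : ℤ_[p]⟦X⟧, coeff 1 (a * b) = constantCoeff a * coeff 1 b +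
      coeff 1 a * constantCoeff b := by
    intro a b
    rw [coeff_mul, Finset.Nat.antidiagonal_succ]
    simp
  have e : coeff 1 (X * d⁄dX ℤ_[p] s) = coeff 1 s := by
    rw [show (1 : ℕ) = 0 + 1 from rfl, coeff_succ_X_mul, coeff_derivative, zero_add]
    simp
  rw [hm, hm, map_add, e, d.s0, d.s1, d.exp.const_g (isUnit_two hp2),
    d.exp.g_one (isUnit_two hp2)] at h
  simpa using h

/-- `p ^ k` divides `x` if and only if `x` is `0` modulo `p ^ k` -/
lemma toZModPow_eq_zero_iff (k : ℕ) (x : ℤ_[p]) :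
    PadicInt.toZModPow k x = 0 ↔ (p : ℤ_[p]) ^ k ∣ x := by
  rw [← RingHom.mem_ker, PadicInt.ker_toZModPow, Ideal.mem_span_singleton]

lemma isUnit_zmodpow (k : ℕ) {w : ℕ} (hw : ¬ p ∣ w) : IsUnit ((w : ℕ) : ZMod (p ^ k)) := by
  rw [ZMod.isUnit_iff_coprime]
  exact (Nat.Coprime.pow_left k ((hp.out.coprime_iff_not_dvd).2 hw)).symm

/-- if `n x = 0` modulo `p ^ k` then `p ^ v x = 0` for all `v ≥ log_p n` -/
lemma pow_mul_eq_zero (k : ℕ) {n v : ℕ} (hn : n ≠ 0) (hv : Nat.log p n ≤ v) {x : ZMod (p ^ k)}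
    (hx : (n : ZMod (p ^ k)) * x = 0) : (p : ZMod (p ^ k)) ^ v * x = 0 := by
  obtain ⟨e, w, hw, hnw⟩ := Nat.exists_eq_pow_mul_and_not_dvd hn p hp.out.ne_one
  have h1 : e ≤ Nat.log p n := by
    apply Nat.le_log_of_pow_le hp.out.one_lt
    rw [hnw]
    exact Nat.le_mul_of_pos_right _ (Nat.pos_of_ne_zero (fun h => hw (h ▸ dvd_zero p)))
  rw [hnw] at hx
  push_cast at hx
  have h2 : (p : ZMod (p ^ k)) ^ e * x = 0 := by
    have h3 : (w : ZMod (p ^ k)) * ((p : ZMod (p ^ k)) ^ e * x) = (w : ZMod (p ^ k)) * 0 := by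
      rw [mul_zero, ← hx]
      ring
    exact (isUnit_zmodpow k hw).mul_left_cancel h3
  obtain ⟨d, hd⟩ : ∃ d, v = d + e := ⟨v - e, by omega⟩
  rw [hd, pow_add, mul_assoc, h2, mul_zero]

/-- two sigma functions of curves which are congruent modulo `p ^ k` -/
theorem Dat.compare (hp2 : p ≠ 2) (k : ℕ) {A₁ B₁ A₂ B₂ : ℤ_[p]} {s₁ s₂ : ℤ_[p]⟦X⟧}
    (hA : PadicInt.toZModPow k A₁ = PadicInt.toZModPow k A₂)
    (hB : PadicInt.toZModPow k B₁ = PadicInt.toZModPow k B₂)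
    (hH : hasse p (PadicInt.toZMod A₁) (PadicInt.toZMod B₁) ≠ 0)
    (d₁ : Dat A₁ B₁ s₁) (d₂ : Dat A₂ B₂ s₂) (ρ : ℤ_[p]⟦X⟧) (hρ : ρ * s₁ = s₂) (n : ℕ)
    (hn : 1 ≤ n) :
    (p : ZMod (p ^ k)) ^ (2 * Nat.log p n) * PadicInt.toZModPow k (coeff n ρ) = 0 := by
  set π : ℤ_[p] →+* ZMod (p ^ k) := PadicInt.toZModPow k with hπ
  have h2u : IsUnit (2 : ZMod (p ^ k)) := by
    have := (isUnit_two hp2).map π
    rwa [map_ofNat] at this
  have x1 := d₁.exp.map π
  have x2 := d₂.exp.map π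
  rw [← hA, ← hB] at x2
  obtain ⟨hu, hg⟩ := IsExp.unique h2u x1 x2
  set U := PowerSeries.map π d₁.u with hU
  set G := PowerSeries.map π d₁.g with hG
  set Δ := PowerSeries.map π (d₂.F - d₁.F) with hΔ
  set γ : ZMod (p ^ k) := π (d₂.c - d₁.c) with hγ
  have hUu : IsUnit U := isUnit_of_const x1.const_u
  have y1 := congrArg (PowerSeries.map π) d₁.e1
  have y2 := congrArg (PowerSeries.map π) d₂.e1
  simp only [map_mul, map_sub, map_add, map_one, map_pow, PowerSeries.map_C, PowerSeries.map_X,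
    ← derivative_map] at y1 y2
  rw [← hU, ← hG] at y1
  rw [← hu, ← hg] at y2
  have h3 : Δ - X * d⁄dX (ZMod (p ^ k)) Δ = X ^ 2 * (C γ * G) := by
    have h4 : U * (Δ - X * d⁄dX (ZMod (p ^ k)) Δ) = U * (X ^ 2 * (C γ * G)) := by
      rw [hΔ, hγ, map_sub, map_sub, map_sub, map_sub]
      linear_combination y2 - y1
    exact hUu.mul_left_cancel h4
  have h5 : ∀ m : ℕ, (1 - (m : ZMod (p ^ k))) * coeff m Δ = coeff m (X ^ 2 * (C γ * G)) := by
    intro m
    rw [← h3, map_sub]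
    rcases Nat.eq_zero_or_pos m with rfl | hm
    · simp
    · obtain ⟨i, rfl⟩ : ∃ i, m = i + 1 := ⟨m - 1, by omega⟩
      rw [coeff_succ_X_mul, coeff_derivative]
      push_cast
      ring
  -- the constants agree modulo `p ^ k`
  have hγ0 : γ = 0 := by
    have h6 := h5 (p ^ k - 1 + 2)
    rw [coeff_X_pow_mul, coeff_C_mul] at h6
    have h7 : ((p ^ k - 1 + 2 : ℕ) : ZMod (p ^ k)) = 1 := by
      have h8 : 1 ≤ p ^ k := Nat.one_le_pow _ _ hp.out.pos
      have : p ^ k - 1 + 2 = p ^ k + 1 := by omega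
      rw [this]
      push_cast
      rw [← Nat.cast_pow, ZMod.natCast_self, zero_add]
    rw [h7, sub_self, zero_mul] at h6
    have h8 : IsUnit (coeff (p ^ k - 1) G) := by
      rw [hG, coeff_map]
      apply IsUnit.map π
      rw [PadicInt.isUnit_iff]
      by_contra h9
      have h10 : ‖coeff (p ^ k - 1) d₁.g‖ < 1 := lt_of_le_of_ne (PadicInt.norm_le_one _) h9
      have h11 : coeff (p ^ k - 1) d₁.g ∈ IsLocalRing.maximalIdeal ℤ_[p] := by
        rw [IsLocalRing.mem_maximalIdeal, PadicInt.mem_nonunits]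
        exact h10
      rw [← PadicInt.ker_toZMod, RingHom.mem_ker] at h11
      rw [coeff_unit hp2 d₁.exp k] at h11
      exact pow_ne_zero k hH h11
    exact h8.mul_right_cancel (by rw [zero_mul, ← h6])
  rw [hγ0, map_zero, zero_mul, mul_zero] at h3 h5
  have h6 : ∀ (m v : ℕ), Nat.log p m ≤ v → (p : ZMod (p ^ k)) ^ v * coeff m Δ = 0 := by
    intro m v hv
    have h7 := h5 m
    rw [map_zero] at h7
    rcases Nat.eq_zero_or_pos m with rfl | hm
    · rw [Nat.cast_zero, sub_zero, one_mul] at h7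
      rw [h7, mul_zero]
    · rcases Nat.eq_or_lt_of_le (Nat.succ_le_of_lt hm) with h8 | h8
      · rw [← h8, hΔ, coeff_map]
        have h9 : coeff (Nat.succ 0) (d₂.F - d₁.F) = 0 := by
          rw [map_sub]
          change coeff 1 d₂.F - coeff 1 d₁.F = 0
          rw [d₁.F_one hp2, d₂.F_one hp2, sub_zero]
        rw [h9, map_zero, mul_zero]
      · obtain ⟨i, rfl⟩ : ∃ i, m = i + 1 := ⟨m - 1, by omega⟩
        refine pow_mul_eq_zero k (n := i) (by omega) ?_ ?_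
        · exact le_trans (Nat.log_mono_right (by omega)) hv
        · have : (i : ZMod (p ^ k)) * coeff (i + 1) Δ =
              -((1 - ((i + 1 : ℕ) : ZMod (p ^ k))) * coeff (i + 1) Δ) := by
            push_cast
            ring
          rw [this, h7, neg_zero]
  -- the logarithmic derivative of `ρ`
  set K := d₂.g * d₂.F - d₁.g * d₁.F with hK
  have hKmap : PowerSeries.map π K = G * Δ := by
    rw [hK, map_sub, map_mul, map_mul, ← hg, hΔ, map_sub]
    ring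
  have h7 : ∀ (m v : ℕ), Nat.log p m ≤ v → (p : ZMod (p ^ k)) ^ v * π (coeff m K) = 0 := by
    intro m v hv
    rw [← coeff_map, hKmap, coeff_mul, Finset.mul_sum]
    refine Finset.sum_eq_zero fun x hx => ?_
    rw [HasAntidiagonal.mem_antidiagonal] at hx
    have h8 := h6 x.2 v (le_trans (Nat.log_mono_right (by omega)) hv)
    rw [mul_left_comm, h8, mul_zero]
  have hs1 : IsUnit s₁ := isUnit_of_const d₁.s0
  have hρX : X * d⁄dX ℤ_[p] ρ = ρ * K := by
    have h8 : s₁ * (X * d⁄dX ℤ_[p] ρ) = s₁ * (ρ * K) := by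
      have h9 := d₂.e2
      have hd : d⁄dX ℤ_[p] s₂ = d⁄dX ℤ_[p] ρ * s₁ + ρ * d⁄dX ℤ_[p] s₁ := by
        rw [← hρ, Derivation.leibniz]
        simp only [smul_eq_mul]
        ring
      rw [hK]
      linear_combination ρ * d₁.e2 - h9 - X * hd + (1 - d₂.g * d₂.F) * hρ
    exact hs1.mul_left_cancel h8
  have h8 : (n : ℤ_[p]) * coeff n ρ = coeff n (ρ * K) := by
    rw [← hρX]
    obtain ⟨i, rfl⟩ : ∃ i, n = i + 1 := ⟨n - 1, by omega⟩
    rw [coeff_succ_X_mul, coeff_derivative]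
    push_cast
    ring
  have h9 : (p : ZMod (p ^ k)) ^ (Nat.log p n) * ((n : ZMod (p ^ k)) * π (coeff n ρ)) = 0 := by
    rw [← map_natCast π n, ← map_mul, h8, coeff_mul, map_sum, Finset.mul_sum]
    refine Finset.sum_eq_zero fun x hx => ?_
    rw [HasAntidiagonal.mem_antidiagonal] at hx
    rw [map_mul, mul_left_comm, h7 x.2 _ (Nat.log_mono_right (by omega)), mul_zero]
  have h10 : (n : ZMod (p ^ k)) * ((p : ZMod (p ^ k)) ^ (Nat.log p n) * π (coeff n ρ)) = 0 := by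
    rw [mul_left_comm]
    exact h9
  have h11 := pow_mul_eq_zero k (n := n) (v := Nat.log p n) (by omega) le_rfl h10
  rw [two_mul, pow_add, mul_assoc]
  exact h11

end Pool.Agent.Y732
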