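import Pool.Agent.Y732.Cmp
import Pool.Agent.Y732.Count
import Pool.Agent.Y732.Fam

/-!
# The marked points of vanishing height are rare
-/

set_option autoImplicit false

namespace Pool.Agent.Y732

open WeierstrassCurve Finset

lemma Bf_eq (A x y : ℤ) : y ^ 2 = x ^ 3 + A * x + Bf A x y := by
  unfold Bf
  ring

lemma marked_nonsingular {v : ℤ × ℤ × ℤ} (hv : Marked v) :
    (EQ v.1 (Bf v.1 v.2.1 v.2.2)).Nonsingular (v.2.1 : ℚ) (v.2.2 : ℚ) :=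
  nonsingular_rat (Bf_eq _ _ _) hv.1

section

variable {p : ℕ} [hp : Fact p.Prime]

/-- Schneider's conjecture for curves of rank one -/
theorem schneider_of_ne_zero {A B : ℤ} {h : (EQ A B).Point → ℚ_[p]}
    (hq : ∀ P Q, h (P + Q) + h (P - Q) = 2 * h P + 2 * h Q) {P : (EQ A B).Point} (hP : h P ≠ 0)
    (hr : Module.finrank ℤ (EQ A B).Point = 1) : Schneider h := by
  intro r b hb hmax
  have hrank : Module.rank ℤ (EQ A B).Point = 1 :=
    Module.rank_eq_one_iff_finrank_eq_one.2 hr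
  have h1 : r ≤ 1 := by
    have h2 := hb.cardinal_le_rank
    rw [hrank, Cardinal.mk_fin] at h2
    exact_mod_cast h2
  obtain ⟨n, hn, hmem⟩ := hmax P
  have hnP : h (n • P) ≠ 0 := by
    rw [quadratic_int hq]
    exact mul_ne_zero (pow_ne_zero 2 (by exact_mod_cast hn)) hP
  have h0 : h 0 = 0 := by
    have := quadratic hq P 0
    simpa using this
  interval_cases r
  · exfalso
    rw [Set.range_eq_empty, Submodule.span_empty, Submodule.mem_bot] at hmem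
    rw [hmem] at hnP
    exact hnP h0
  · have hrange : Set.range b = {b 0} := by
      ext z
      simp only [Set.mem_range, Set.mem_singleton_iff]
      constructor
      · rintro ⟨i, rfl⟩
        rw [Subsingleton.elim i 0]
      · rintro rfl
        exact ⟨0, rfl⟩
    rw [hrange, Submodule.mem_span_singleton] at hmem
    obtain ⟨m, hm⟩ := hmem
    rw [← hm, quadratic_int hq] at hnP
    have hb0 : h (b 0) ≠ 0 := right_ne_zero_of_mul hnP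
    rw [Matrix.det_fin_one]
    simp only [Matrix.of_apply]
    have h2 : h (b 0 + b 0) = 2 ^ 2 * h (b 0) := by
      have := quadratic hq (b 0) 2
      rw [two_smul] at this
      exact_mod_cast this
    rw [h2]
    have h3 : (2 : ℚ_[p]) ^ 2 * h (b 0) - h (b 0) - h (b 0) = 2 * h (b 0) := by ring
    rw [h3]
    exact mul_ne_zero two_ne_zero hb0

lemma hasse_of_ordinary {A B : ℤ} (hp2 : p ≠ 2) (ho : IsOrdinary p A B) :
    hasse p (A : ZMod p) (B : ZMod p) ≠ 0 := by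
  apply hasse_ne_zero hp2
  · intro h
    apply ho.1
    rw [← ZMod.intCast_zmod_eq_zero_iff_dvd _ p]
    push_cast
    exact h
  · intro h
    apply ho.2
    have h1 : ((p : ℤ) + 1 - Nat.card (Wc (A : ZMod p) (B : ZMod p)).toAffine.Point) =
        p - ((Nat.card (Wc (A : ZMod p) (B : ZMod p)).toAffine.Point : ℤ) - 1) := by ring
    rw [h1]
    exact dvd_sub (dvd_refl _) h

/-- the marked points whose height vanishes -/
def Van (p : ℕ) [Fact p.Prime] (v : ℤ × ℤ × ℤ) : Prop :=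
  Marked v ∧ IsOrdinary p v.1 (Bf v.1 v.2.1 v.2.2) ∧
    ∃ (h : (EQ v.1 (Bf v.1 v.2.1 v.2.2)).Point → ℚ_[p])
      (hP : (EQ v.1 (Bf v.1 v.2.1 v.2.2)).Nonsingular (v.2.1 : ℚ) (v.2.2 : ℚ)),
      IsHeight p v.1 (Bf v.1 v.2.1 v.2.2) h ∧ h (.some _ _ hP) = 0

lemma van_of_not {v : ℤ × ℤ × ℤ} (hv : Marked v) (ho : IsOrdinary p v.1 (Bf v.1 v.2.1 v.2.2))
    (hn : ¬ NonDeg p v) : Van p v := by
  by_contra hvan
  apply hn
  intro h hh
  have h1 : ∀ hP : (EQ v.1 (Bf v.1 v.2.1 v.2.2)).Nonsingular (v.2.1 : ℚ) (v.2.2 : ℚ),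
      h (.some _ _ hP) ≠ 0 := fun hP h0 => hvan ⟨hv, ho, h, hP, hh, h0⟩
  exact ⟨h1, fun hr => schneider_of_ne_zero hh.1 (h1 (marked_nonsingular hv)) hr⟩

open scoped Classical in
/-- the number of marked points of vanishing height -/
theorem van_card (hp5 : 5 ≤ p) {N N₁ N₂ N₃ : ℕ} {a₁ a₂ a₃ : ℤ} (h₁ : N ≤ N₁) (h₂ : N ≤ N₂)
    (h₃ : N ≤ N₃) :
    (((Ico a₁ (a₁ + N₁)) ×ˢ (Ico a₂ (a₂ + N₂)) ×ˢ (Ico a₃ (a₃ + N₃))).filter
      fun v : ℤ × ℤ × ℤ => Van p v).card * N ≤ 8 * p ^ 4 * (N₁ * N₂ * N₃) := by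
  apply count' hp.out (a₁ := a₁) (a₂ := a₂) (a₃ := a₃) _ _ h₁ h₂ h₃
  · intro k hk v hv v' hv' μ μ' hμ hμ' hA hx hy
    rw [mem_filter] at hv hv'
    obtain ⟨-, hm, ho, h, hP, hh, h0⟩ := hv
    obtain ⟨-, hm', ho', h', hP', hh', h0'⟩ := hv'
    obtain ⟨m, hm1, hm2, hm3⟩ := exists_mult (p := p) (by omega) (Bf_eq v.1 v.2.1 v.2.2) hm.2.2 ho.1
    have key := compare_int (p := p) (by omega) hk hμ hμ' hA hx hy (Bf_eq _ _ _) (Bf_eq _ _ _)
      hm.1 hm'.1 hm.2.2 hm'.2.2 hm.2.1 hm'.2.1 (hasse_of_ordinary (by omega) ho) hP hP' hh h0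
      hh' h0' hm1 hm3
    exact mult_arith (by omega) hm1 hm2 hμ hμ' key
  · intro v hv
    rw [mem_filter] at hv
    simp only [mem_product, mem_Ico] at hv
    exact hv.1

end

open scoped Classical in
/-- finitely many primes at once -/
theorem all_card (S : Finset ℕ) (hS : ∀ p ∈ S, p.Prime ∧ 5 ≤ p) {N N₁ N₂ N₃ : ℕ} {a₁ a₂ a₃ : ℤ}
    (h₁ : N ≤ N₁) (h₂ : N ≤ N₂) (h₃ : N ≤ N₃) :
    (((Ico a₁ (a₁ + N₁)) ×ˢ (Ico a₂ (a₂ + N₂)) ×ˢ (Ico a₃ (a₃ + N₃))).filter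
      fun v : ℤ × ℤ × ℤ => Marked v ∧ ∃ p ∈ S, ∃ _ : Fact p.Prime,
        IsOrdinary p v.1 (Bf v.1 v.2.1 v.2.2) ∧ ¬ NonDeg p v).card * N ≤
      8 * (∑ p ∈ S, p ^ 4) * (N₁ * N₂ * N₃) := by
  set Bx := (Ico a₁ (a₁ + N₁)) ×ˢ (Ico a₂ (a₂ + N₂)) ×ˢ (Ico a₃ (a₃ + N₃)) with hBx
  set V : ℕ → Finset (ℤ × ℤ × ℤ) := fun p =>
    if hp : p.Prime then Bx.filter fun v : ℤ × ℤ × ℤ => @Van p ⟨hp⟩ v else ∅ with hV
  have h1 : (Bx.filter fun v : ℤ × ℤ × ℤ => Marked v ∧ ∃ p ∈ S, ∃ _ : Fact p.Prime,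
      IsOrdinary p v.1 (Bf v.1 v.2.1 v.2.2) ∧ ¬ NonDeg p v) ⊆ S.biUnion V := by
    intro v hv
    rw [mem_filter] at hv
    obtain ⟨hb, hm, p, hpS, hp, ho, hn⟩ := hv
    rw [mem_biUnion]
    refine ⟨p, hpS, ?_⟩
    rw [hV]
    simp only
    rw [dif_pos hp.out, mem_filter]
    exact ⟨hb, van_of_not hm ho hn⟩
  have h2 : ∀ p ∈ S, (V p).card * N ≤ 8 * p ^ 4 * (N₁ * N₂ * N₃) := by
    intro p hp
    rw [hV]
    simp only
    split_ifs with hpp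
    · have : Fact p.Prime := ⟨hpp⟩
      exact van_card (p := p) (hS p hp).2 (a₁ := a₁) (a₂ := a₂) (a₃ := a₃) h₁ h₂ h₃
    · simp
  calc _ ≤ (S.biUnion V).card * N := Nat.mul_le_mul_right _ (card_le_card h1)
    _ ≤ (∑ p ∈ S, (V p).card) * N := Nat.mul_le_mul_right _ card_biUnion_le
    _ = ∑ p ∈ S, (V p).card * N := by rw [sum_mul]
    _ ≤ ∑ p ∈ S, 8 * p ^ 4 * (N₁ * N₂ * N₃) := sum_le_sum h2
    _ = _ := by rw [mul_sum, sum_mul]

end Pool.Agent.Y732
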