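import Pool.Agent.Y732.Ord

/-!
# The multiples of an integral point with everywhere nonsingular reduction
-/

set_option autoImplicit false

namespace Pool.Agent.Y732

open WeierstrassCurve

/-- the multiples of `(x, y)` in Jacobian coordinates -/
noncomputable def M {R : Type*} [CommRing R] (A B x y : R) (n : ℕ) : Fin 3 → R :=
  J (Wc A B).toJacobian ![x, y, 1] n

lemma M_map {R S : Type*} [CommRing R] [CommRing S] (f : R →+* S) (A B x y : R) (n : ℕ)
    (i : Fin 3) : M (f A) (f B) (f x) (f y) n i = f (M A B x y n i) := by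
  have h := J_map (Wc A B).toJacobian ![x, y, 1] f n
  have e1 : ((Wc A B).toJacobian.map f).toJacobian = (Wc (f A) (f B)).toJacobian := by
    change ((Wc A B).map f).toJacobian = _
    rw [Wc_map]
  have e2 : f ∘ ![x, y, 1] = ![f x, f y, 1] := by
    rw [Jacobian.comp_fin3, map_one]
  rw [e1, e2] at h
  unfold M
  rw [h]
  rfl

section field

variable {F : Type*} [Field F] [DecidableEq F] {A B x y : F}

lemma M_nonsingular (h : (Wc A B).toAffine.Nonsingular x y) (n : ℕ) :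
    (Wc A B).toJacobian.Nonsingular (M A B x y n) :=
  (J_field (Wc A B).toJacobian h n).1

lemma M_toAffine (h : (Wc A B).toAffine.Nonsingular x y) (n : ℕ) :
    Jacobian.Point.toAffine (Wc A B).toJacobian (M A B x y n) = n • (Affine.Point.some x y h) :=
  (J_field (Wc A B).toJacobian h n).2

lemma M_equation (h : (Wc A B).toAffine.Nonsingular x y) (n : ℕ) :
    M A B x y n 1 ^ 2 = M A B x y n 0 ^ 3 + A * M A B x y n 0 * M A B x y n 2 ^ 4 +
      B * M A B x y n 2 ^ 6 := by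
  have h1 := (M_nonsingular h n).1
  rw [Jacobian.equation_iff] at h1
  have e1 : (Wc A B).toJacobian.a₁ = 0 := rfl
  have e2 : (Wc A B).toJacobian.a₂ = 0 := rfl
  have e3 : (Wc A B).toJacobian.a₃ = 0 := rfl
  have e4 : (Wc A B).toJacobian.a₄ = A := rfl
  have e6 : (Wc A B).toJacobian.a₆ = B := rfl
  rw [e1, e2, e3, e4, e6] at h1
  linear_combination h1

lemma M_zero_iff (h : (Wc A B).toAffine.Nonsingular x y) (n : ℕ) :
    n • (Affine.Point.some x y h) = 0 ↔ M A B x y n 2 = 0 := by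
  rw [← M_toAffine h n]
  constructor
  · intro h1
    by_contra h2
    rw [Jacobian.Point.toAffine_of_Z_ne_zero (M_nonsingular h n) h2] at h1
    exact Affine.Point.some_ne_zero _ h1
  · intro h1
    exact Jacobian.Point.toAffine_of_Z_eq_zero h1

lemma M_some (h : (Wc A B).toAffine.Nonsingular x y) (n : ℕ) (hz : M A B x y n 2 ≠ 0) :
    ∃ h', n • (Affine.Point.some x y h) =
      Affine.Point.some (M A B x y n 0 / M A B x y n 2 ^ 2) (M A B x y n 1 / M A B x y n 2 ^ 3)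
        h' := by
  rw [← M_toAffine h n]
  exact ⟨_, Jacobian.Point.toAffine_of_Z_ne_zero (M_nonsingular h n) hz⟩

lemma M_X_ne_zero (h : (Wc A B).toAffine.Nonsingular x y) (n : ℕ) (hz : M A B x y n 2 = 0) :
    M A B x y n 0 ≠ 0 :=
  Jacobian.X_ne_zero_of_Z_eq_zero (M_nonsingular h n) hz

lemma M_nonsing (h : (Wc A B).toAffine.Nonsingular x y) (n : ℕ) (hz : M A B x y n 2 ≠ 0) :
    ¬ (2 * M A B x y n 1 = 0 ∧ 3 * M A B x y n 0 ^ 2 + A * M A B x y n 2 ^ 4 = 0) := by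
  rintro ⟨h1, h2⟩
  have h3 := (Jacobian.nonsingular_of_Z_ne_zero hz).1 (M_nonsingular h n)
  have h4 := ((Wc_nonsingular A B _ _).1 h3).2
  rcases h4 with h4 | h4
  · apply h4
    have e : 2 * (M A B x y n 1 / M A B x y n 2 ^ 3) = (2 * M A B x y n 1) / M A B x y n 2 ^ 3 := by
      ring
    exact e.trans (by rw [h1, zero_div])
  · apply h4
    have e : 3 * (M A B x y n 0 / M A B x y n 2 ^ 2) ^ 2 + A =
        (3 * M A B x y n 0 ^ 2 + A * M A B x y n 2 ^ 4) / M A B x y n 2 ^ 4 := by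
      field_simp
    exact e.trans (by rw [h2, zero_div])

end field

section integers

variable {A B x y : ℤ}

lemma NS.mod (hB : y ^ 2 = x ^ 3 + A * x + B) (h : NS A x y) (ℓ : ℕ) [hℓ : Fact ℓ.Prime] :
    (Wc (A : ZMod ℓ) (B : ZMod ℓ)).toAffine.Nonsingular (x : ZMod ℓ) (y : ZMod ℓ) := by
  rw [Wc_nonsingular]
  constructor
  · have := congrArg (fun z : ℤ => (z : ZMod ℓ)) hB
    push_cast at this
    exact this
  · by_contra h1
    push Not at h1
    apply h ℓ hℓ.out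
    constructor
    · rw [← ZMod.intCast_zmod_eq_zero_iff_dvd _ ℓ]
      push_cast
      exact h1.1
    · rw [← ZMod.intCast_zmod_eq_zero_iff_dvd _ ℓ]
      push_cast
      exact h1.2

lemma M_cast (R : Type*) [CommRing R] (A B x y : ℤ) (n : ℕ) (i : Fin 3) :
    M (A : R) (B : R) (x : R) (y : R) n i = ((M A B x y n i : ℤ) : R) :=
  M_map (Int.castRingHom R) A B x y n i

lemma nonsingular_rat (hB : y ^ 2 = x ^ 3 + A * x + B) (hD : 4 * A ^ 3 + 27 * B ^ 2 ≠ 0) :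
    (EQ A B).Nonsingular (x : ℚ) (y : ℚ) := by
  refine (Wc_nonsingular_iff two_ne_zero ?_ _ _).2 ?_
  · exact_mod_cast hD
  · exact_mod_cast hB

/-- the equation of the multiples -/
lemma Mi_equation (hB : y ^ 2 = x ^ 3 + A * x + B) (hD : 4 * A ^ 3 + 27 * B ^ 2 ≠ 0) (n : ℕ) :
    M A B x y n 1 ^ 2 = M A B x y n 0 ^ 3 + A * M A B x y n 0 * M A B x y n 2 ^ 4 +
      B * M A B x y n 2 ^ 6 := by
  have h := M_equation (nonsingular_rat hB hD) n
  rw [M_cast, M_cast, M_cast] at h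
  exact_mod_cast h

lemma Mi_coprime (hB : y ^ 2 = x ^ 3 + A * x + B) (h : NS A x y) (n : ℕ) :
    IsCoprime (M A B x y n 0) (M A B x y n 2) := by
  rw [Int.isCoprime_iff_gcd_eq_one]
  by_contra h1
  obtain ⟨ℓ, hℓ, h2⟩ := Nat.exists_prime_and_dvd h1
  haveI : Fact ℓ.Prime := ⟨hℓ⟩
  have h3 : (ℓ : ℤ) ∣ M A B x y n 0 := (Int.natCast_dvd_natCast.2 h2).trans (Int.gcd_dvd_left ..)
  have h4 : (ℓ : ℤ) ∣ M A B x y n 2 := (Int.natCast_dvd_natCast.2 h2).trans (Int.gcd_dvd_right ..)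
  rw [← ZMod.intCast_zmod_eq_zero_iff_dvd _ ℓ, ← M_cast] at h3 h4
  exact M_X_ne_zero (h.mod hB ℓ) n h4 h3

lemma Mi_nonsing (hB : y ^ 2 = x ^ 3 + A * x + B) (h : NS A x y) (n : ℕ) (ℓ : ℕ)
    (hℓ : ℓ.Prime) : (ℓ : ℤ) ∣ M A B x y n 2 ∨ ¬ ((ℓ : ℤ) ∣ 2 * M A B x y n 1 ∧
      (ℓ : ℤ) ∣ 3 * M A B x y n 0 ^ 2 + A * M A B x y n 2 ^ 4) := by
  haveI : Fact ℓ.Prime := ⟨hℓ⟩
  by_cases h1 : (ℓ : ℤ) ∣ M A B x y n 2
  · exact Or.inl h1
  · right
    rw [← ZMod.intCast_zmod_eq_zero_iff_dvd _ ℓ, ← M_cast] at h1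
    have h2 := M_nonsing (h.mod hB ℓ) n h1
    rw [M_cast, M_cast, M_cast] at h2
    rintro ⟨h3, h4⟩
    apply h2
    rw [← ZMod.intCast_zmod_eq_zero_iff_dvd _ ℓ] at h3 h4
    push_cast at h3 h4
    exact ⟨h3, h4⟩

/-- the multiples over `ℚ` -/
lemma Mi_some (hB : y ^ 2 = x ^ 3 + A * x + B) (hD : 4 * A ^ 3 + 27 * B ^ 2 ≠ 0)
    (hP : (EQ A B).Nonsingular (x : ℚ) (y : ℚ)) (n : ℕ) (hz : M A B x y n 2 ≠ 0) :
    ∃ h' : (EQ A B).Nonsingular ((M A B x y n 0 : ℤ) / (M A B x y n 2 : ℤ) ^ 2 : ℚ)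
      ((M A B x y n 1 : ℤ) / (M A B x y n 2 : ℤ) ^ 3 : ℚ),
      n • (Affine.Point.some (x : ℚ) (y : ℚ) hP) = Affine.Point.some _ _ h' := by
  have hz' : M (A : ℚ) (B : ℚ) (x : ℚ) (y : ℚ) n 2 ≠ 0 := by
    rw [M_cast]
    exact_mod_cast hz
  have h1 := M_some hP n hz'
  rw [M_cast, M_cast, M_cast] at h1
  exact h1

lemma Mi_zero_iff (hP : (EQ A B).Nonsingular (x : ℚ) (y : ℚ)) (n : ℕ) :
    n • (Affine.Point.some (x : ℚ) (y : ℚ) hP) = 0 ↔ M A B x y n 2 = 0 := by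
  rw [M_zero_iff, M_cast]
  exact_mod_cast Iff.rfl

end integers

end Pool.Agent.Y732
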