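import Pool.Agent.Y732.Jac
import Pool.Agent.Y732.Form

/-!
# The number of points of `y² = x³ + A x + B` over `ZMod p`

It is at most `2 p + 1`, and it is `1 - hasse p A B` modulo `p`.
-/

set_option autoImplicit false

namespace Pool.Agent.Y732

open Polynomial

variable {p : ℕ} [hp : Fact p.Prime]

/-- the affine equation of `Wc A B` -/
lemma Wc_equation {R : Type*} [CommRing R] (A B x y : R) :
    (Wc A B).toAffine.Equation x y ↔ y ^ 2 = x ^ 3 + A * x + B := by
  rw [WeierstrassCurve.Affine.equation_iff]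
  have e1 : (Wc A B).toAffine.a₁ = 0 := rfl
  have e2 : (Wc A B).toAffine.a₂ = 0 := rfl
  have e3 : (Wc A B).toAffine.a₃ = 0 := rfl
  have e4 : (Wc A B).toAffine.a₄ = A := rfl
  have e6 : (Wc A B).toAffine.a₆ = B := rfl
  rw [e1, e2, e3, e4, e6]
  constructor
  · intro h
    linear_combination h
  · intro h
    linear_combination h

lemma Wc_nonsingular {R : Type*} [CommRing R] (A B x y : R) :
    (Wc A B).toAffine.Nonsingular x y ↔
      y ^ 2 = x ^ 3 + A * x + B ∧ (2 * y ≠ 0 ∨ 3 * x ^ 2 + A ≠ 0) := by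
  rw [WeierstrassCurve.Affine.nonsingular_iff', Wc_equation]
  have e1 : (Wc A B).toAffine.a₁ = 0 := rfl
  have e2 : (Wc A B).toAffine.a₂ = 0 := rfl
  have e3 : (Wc A B).toAffine.a₃ = 0 := rfl
  have e4 : (Wc A B).toAffine.a₄ = A := rfl
  rw [e1, e2, e3, e4]
  have h1 : (0 : R) * y - (3 * x ^ 2 + 2 * 0 * x + A) ≠ 0 ↔ 3 * x ^ 2 + A ≠ 0 := by
    rw [not_iff_not]
    constructor
    · intro h
      linear_combination -h
    · intro h
      linear_combination -h
  have h2 : 2 * y + 0 * x + 0 ≠ 0 ↔ 2 * y ≠ 0 := by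
    rw [zero_mul, add_zero, add_zero]
  rw [h1, h2]
  tauto

lemma Wc_nonsingular_iff {F : Type*} [Field F] {A B : F} (h2 : (2 : F) ≠ 0)
    (h : 4 * A ^ 3 + 27 * B ^ 2 ≠ 0)
    (x y : F) : (Wc A B).toAffine.Nonsingular x y ↔ y ^ 2 = x ^ 3 + A * x + B := by
  rw [Wc_nonsingular]
  refine ⟨fun h => h.1, fun h1 => ⟨h1, ?_⟩⟩
  by_contra h3
  push Not at h3
  obtain ⟨h3, h4⟩ := h3
  apply h
  have h5 : y = 0 := (mul_eq_zero.1 h3).resolve_left h2
  rw [h5] at h1
  linear_combination (-(-18 * A * x + 27 * B)) * h1 + (6 * A * x ^ 2 - 9 * B * x + 4 * A ^ 2) * h4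

/-- the number of points -/
lemma card_point {A B : ZMod p} (hp2 : p ≠ 2) (h : 4 * A ^ 3 + 27 * B ^ 2 ≠ 0) :
    Nat.card (Wc A B).toAffine.Point =
      1 + ∑ x : ZMod p, {y : ZMod p | y ^ 2 = x ^ 3 + A * x + B}.toFinset.card := by
  classical
  have h2 : (2 : ZMod p) ≠ 0 := by
    intro h6
    have h7 : ((2 : ℕ) : ZMod p) = 0 := by exact_mod_cast h6
    rw [ZMod.natCast_eq_zero_iff] at h7
    exact hp2 ((Nat.prime_dvd_prime_iff_eq hp.out Nat.prime_two).1 h7)
  rw [Nat.card_congr (WeierstrassCurve.Affine.nonsingularPointEquiv (Wc A B).toAffine)]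
  have h3 : Nat.card (WithZero {xy : ZMod p × ZMod p //
      (Wc A B).toAffine.Nonsingular xy.fst xy.snd}) = Nat.card (Option {xy : ZMod p × ZMod p //
      (Wc A B).toAffine.Nonsingular xy.fst xy.snd}) := rfl
  rw [h3, Nat.card_eq_fintype_card, Fintype.card_option, add_comm]
  congr 1
  rw [Fintype.card_subtype]
  rw [← Finset.card_sigma]
  refine Finset.card_bij' (fun z _ => ⟨z.1, z.2⟩) (fun z _ => (z.1, z.2)) ?_ ?_ ?_ ?_
  · intro z hz
    rw [Finset.mem_filter] at hz
    rw [Finset.mem_sigma]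
    refine ⟨Finset.mem_univ _, ?_⟩
    rw [Set.mem_toFinset, Set.mem_ofPred_eq]
    exact (Wc_nonsingular_iff h2 h _ _).1 hz.2
  · intro z hz
    rw [Finset.mem_sigma] at hz
    rw [Finset.mem_filter]
    refine ⟨Finset.mem_univ _, ?_⟩
    have h4 := hz.2
    rw [Set.mem_toFinset, Set.mem_ofPred_eq] at h4
    exact (Wc_nonsingular_iff h2 h _ _).2 h4
  · intro z _
    rfl
  · intro z _
    rfl

lemma ringChar_ne (hp2 : p ≠ 2) : ringChar (ZMod p) ≠ 2 := by
  rwa [ZMod.ringChar_zmod_n]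

/-- there are at most `2 p + 1` points -/
theorem card_point_le {A B : ZMod p} (hp2 : p ≠ 2) (h : 4 * A ^ 3 + 27 * B ^ 2 ≠ 0) :
    Nat.card (Wc A B).toAffine.Point ≤ 2 * p + 1 := by
  rw [card_point hp2 h]
  have h1 : ∀ x ∈ (Finset.univ : Finset (ZMod p)),
      {y : ZMod p | y ^ 2 = x ^ 3 + A * x + B}.toFinset.card ≤ 2 := by
    intro x _
    have h2 := quadraticChar_card_sqrts (ringChar_ne hp2) (x ^ 3 + A * x + B)
    have h3 : quadraticChar (ZMod p) (x ^ 3 + A * x + B) ≤ 1 := by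
      by_cases h0 : x ^ 3 + A * x + B = 0
      · rw [h0, quadraticChar_zero]
        norm_num
      · rcases quadraticChar_dichotomy h0 with h1 | h1 <;> rw [h1] <;> norm_num
    omega
  have h2 := Finset.sum_le_card_nsmul _ _ _ h1
  rw [Finset.card_univ, ZMod.card, smul_eq_mul] at h2
  omega

lemma sum_pow_mid {i : ℕ} (hi : i ≤ 3 * ((p - 1) / 2)) (hp3 : 3 ≤ p) (hodd : p % 2 = 1) :
    ∑ x : ZMod p, x ^ i = if i = p - 1 then -1 else 0 := by
  classical
  by_cases h1 : i = p - 1
  · rw [if_pos h1, h1]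
    have h2 : ∀ x : ZMod p, x ^ (p - 1) = if x = 0 then 0 else 1 := by
      intro x
      split_ifs with h
      · rw [h, zero_pow (by omega)]
      · exact ZMod.pow_card_sub_one_eq_one h
    simp_rw [h2]
    rw [Finset.sum_ite, Finset.sum_const_zero, zero_add, Finset.sum_const, nsmul_eq_mul, mul_one]
    have h3 : (Finset.univ.filter fun x : ZMod p => ¬ x = 0).card = p - 1 := by
      rw [Finset.filter_ne' , Finset.card_erase_of_mem (Finset.mem_univ _), Finset.card_univ,
        ZMod.card]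
    rw [h3, Nat.cast_sub hp.out.one_le, ZMod.natCast_self]
    simp
  · rw [if_neg h1]
    rcases lt_or_ge i (p - 1) with h2 | h2
    · have := FiniteField.sum_pow_lt_card_sub_one (ZMod p) i (by rw [ZMod.card]; exact h2)
      exact this
    · have h3 : ∀ x : ZMod p, x ^ i = x ^ (i - (p - 1)) := by
        intro x
        have h4 : i = p + (i - p) := by omega
        have h5 : i - (p - 1) = 1 + (i - p) := by omega
        rw [h5]
        conv_lhs => rw [h4]
        rw [pow_add, pow_add, ZMod.pow_card, pow_one]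
      simp_rw [h3]
      have := FiniteField.sum_pow_lt_card_sub_one (ZMod p) (i - (p - 1))
        (by rw [ZMod.card]; omega)
      exact this

lemma coeff_reverse (A B : ZMod p) (m : ℕ) :
    ((X ^ 3 + C A * X + C B : (ZMod p)[X]) ^ m).coeff (2 * m) =
      ((1 + C A * X ^ 2 + C B * X ^ 3 : (ZMod p)[X]) ^ m).coeff m := by
  have h1 : ∀ m, reflect (3 * m) ((X ^ 3 + C A * X + C B : (ZMod p)[X]) ^ m) =
      (1 + C A * X ^ 2 + C B * X ^ 3 : (ZMod p)[X]) ^ m := by
    intro m
    have h3 : (X ^ 3 + C A * X + C B : (ZMod p)[X]).natDegree ≤ 3 := by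
      compute_degree
    induction m with
    | zero =>
      rw [pow_zero, pow_zero, mul_zero, reflect_one, pow_zero]
    | succ m ih =>
      rw [pow_succ _ m, pow_succ _ m, mul_add, mul_one, reflect_mul _ _ (natDegree_pow_le_of_le m h3 |>.trans
        (by rw [mul_comm])) h3, ih]
      congr 1
      rw [reflect_add, reflect_add, reflect_C_mul, reflect_C]
      have e1 : reflect 3 (X ^ 3 : (ZMod p)[X]) = 1 := by
        have := reflect_C_mul_X_pow (R := ZMod p) 3 3 (c := 1)
        rw [C_1, one_mul, one_mul] at this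
        rw [this, revAt_le (le_refl 3), Nat.sub_self, pow_zero]
      have e2 : reflect 3 (X : (ZMod p)[X]) = X ^ 2 := by
        have := reflect_C_mul_X_pow (R := ZMod p) 3 1 (c := 1)
        rw [C_1, one_mul, one_mul, pow_one] at this
        rw [this, revAt_le (by norm_num)]
      rw [e1, e2]
  rw [← h1 m, coeff_reflect, revAt_le (by omega)]
  congr 1
  omega

/-- the number of points modulo `p` -/
theorem card_point_mod {A B : ZMod p} (hp2 : p ≠ 2) (h : 4 * A ^ 3 + 27 * B ^ 2 ≠ 0) :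
    ((Nat.card (Wc A B).toAffine.Point : ℕ) : ZMod p) = 1 - hasse p A B := by
  classical
  have hp3 : 3 ≤ p := by
    have := hp.out.two_le
    omega
  have hodd : p % 2 = 1 := by
    rcases hp.out.eq_two_or_odd with h | h
    · exact absurd h hp2
    · exact h
  rw [card_point hp2 h]
  push_cast
  have h1 : ∀ x : ZMod p, (({y : ZMod p | y ^ 2 = x ^ 3 + A * x + B}.toFinset.card : ℕ) : ZMod p) =
      (x ^ 3 + A * x + B) ^ ((p - 1) / 2) + 1 := by
    intro x
    have h2 := quadraticChar_card_sqrts (ringChar_ne hp2) (x ^ 3 + A * x + B)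
    have h3 := quadraticChar_eq_pow_of_char_ne_two' (ringChar_ne hp2) (x ^ 3 + A * x + B)
    have h4 := congrArg (fun z : ℤ => (z : ZMod p)) h2
    push_cast at h4
    rw [h4, h3, ZMod.card]
    congr 2
    omega
  simp_rw [h1]
  rw [Finset.sum_add_distrib, Finset.sum_const, Finset.card_univ, ZMod.card, nsmul_eq_mul,
    ZMod.natCast_self, zero_mul, add_zero]
  set m := (p - 1) / 2 with hm
  set G : (ZMod p)[X] := (X ^ 3 + C A * X + C B) ^ m with hG
  have h3 : ∀ x : ZMod p, (x ^ 3 + A * x + B) ^ m = ∑ i ∈ Finset.range (3 * m + 1),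
      G.coeff i * x ^ i := by
    intro x
    have h4 : G.natDegree < 3 * m + 1 := by
      have h3 : (X ^ 3 + C A * X + C B : (ZMod p)[X]).natDegree ≤ 3 := by
        compute_degree
      have h4 := natDegree_pow_le_of_le m h3
      rw [← hG] at h4
      omega
    rw [← eval_eq_sum_range' h4, hG]
    simp
  simp_rw [h3]
  rw [Finset.sum_comm]
  have h4 : ∀ i ∈ Finset.range (3 * m + 1), ∑ x : ZMod p, G.coeff i * x ^ i =
      if i = 2 * m then -G.coeff i else 0 := by
    intro i hi
    rw [Finset.mem_range] at hi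
    rw [← Finset.mul_sum, sum_pow_mid (by omega) hp3 hodd]
    have h5 : (i = p - 1) ↔ (i = 2 * m) := by omega
    simp only [h5]
    split_ifs <;> ring
  rw [Finset.sum_congr rfl h4, Finset.sum_ite_eq' (Finset.range (3 * m + 1)) (2 * m)
    (fun i => -G.coeff i), if_pos (Finset.mem_range.2 (by omega)), hG, coeff_reverse, hasse]
  ring

/-- at an ordinary prime the Hasse invariant does not vanish -/
theorem hasse_ne_zero {A B : ZMod p} (hp2 : p ≠ 2) (h : 4 * A ^ 3 + 27 * B ^ 2 ≠ 0)
    (ho : ¬ (p : ℤ) ∣ (Nat.card (Wc A B).toAffine.Point : ℤ) - 1) : hasse p A B ≠ 0 := by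
  intro h0
  apply ho
  have h1 := card_point_mod hp2 h
  rw [h0, sub_zero] at h1
  rw [← ZMod.intCast_zmod_eq_zero_iff_dvd _ p]
  push_cast
  rw [h1, sub_self]

end Pool.Agent.Y732
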