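import Pool.Agent.Y732.GenCmp

/-!
# The heights of two points along the scaling
-/

set_option autoImplicit false

namespace Pool.Agent.Y732

open WeierstrassCurve

variable {p : ℕ} [hp : Fact p.Prime]

/-- the norm of the index of a multiple -/
lemma norm_index (hp3 : 3 ≤ p) {m : ℕ} (hm1 : 1 ≤ m) (hm2 : m ≤ 2 * p + 1) :
    (p : ℝ)⁻¹ ≤ ‖(m : ℚ_[p])‖ := by
  by_contra h
  rw [not_le] at h
  have hp0 : (0 : ℝ) < p := by exact_mod_cast hp.out.pos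
  have h1 : ‖((m : ℤ) : ℚ_[p])‖ ≤ (p : ℝ) ^ (-(2 : ℤ)) := by
    have h2 : ‖((m : ℤ) : ℚ_[p])‖ < (p : ℝ) ^ (-(1 : ℤ)) := by
      rw [zpow_neg, zpow_one]
      exact_mod_cast h
    have h3 := (Padic.norm_le_pow_iff_norm_lt_pow_add_one ((m : ℤ) : ℚ_[p]) (-2)).2
      (by norm_num; exact_mod_cast h)
    exact h3
  have h2 := (Padic.norm_int_le_pow_iff_dvd (m : ℤ) 2).1 h1
  have h3 : p ^ 2 ∣ m := by exact_mod_cast h2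
  have h4 := Nat.le_of_dvd (by omega) h3
  nlinarith

/-- the difference of the heights of two points -/
theorem height_diff (hp3 : 3 ≤ p) {m k : ℕ} (hk : 1 ≤ k) (hm1 : 1 ≤ m) (hm2 : m ≤ 2 * p + 1)
    {μ Λ Λ' : ℤ_[p]} (hμ : IsUnit μ) (hΛ : ‖Λ‖ = 1) (hΛ' : ‖Λ'‖ = 1)
    (h : (p : ℤ_[p]) ^ k ∣ μ ^ (m ^ 2) * Λ' - Λ) {y y' : ℚ_[p]}
    (hy : (m : ℚ_[p]) ^ 2 * y = plog p Λ) (hy' : (m : ℚ_[p]) ^ 2 * y' = plog p Λ') :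
    ‖y - y' - plog p μ‖ ≤ (p : ℝ) ^ 2 * ((p : ℝ)⁻¹) ^ k := by
  have hp0 : (0 : ℝ) < p := by exact_mod_cast hp.out.pos
  have hp1 : (1 : ℝ) < p := by exact_mod_cast hp.out.one_lt
  have hμ1 : ‖(μ : ℚ_[p])‖ = 1 := PadicInt.isUnit_iff.1 hμ
  have hΛ1 : ‖(Λ : ℚ_[p])‖ = 1 := hΛ
  have hΛ1' : ‖(Λ' : ℚ_[p])‖ = 1 := hΛ'
  have hc : ‖(μ : ℚ_[p]) ^ (m ^ 2) * Λ' - Λ‖ ≤ ((p : ℝ)⁻¹) ^ k := by
    obtain ⟨z, hz⟩ := h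
    have h1 : (μ : ℚ_[p]) ^ (m ^ 2) * Λ' - Λ = ((μ ^ (m ^ 2) * Λ' - Λ : ℤ_[p]) : ℚ_[p]) := by
      push_cast
      ring
    rw [h1, hz]
    have h2 : ‖(p : ℤ_[p]) ^ k * z‖ ≤ ((p : ℝ)⁻¹) ^ k := by
      rw [norm_mul, norm_pow, PadicInt.norm_p]
      have h3 := PadicInt.norm_le_one z
      have h4 : (0 : ℝ) ≤ ((p : ℝ)⁻¹) ^ k := by positivity
      nlinarith
    exact h2
  have hc1 : ‖(μ : ℚ_[p]) ^ (m ^ 2) * Λ' - Λ‖ ≤ (p : ℝ)⁻¹ := by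
    refine hc.trans ?_
    have := pow_le_pow_of_le_one (a := (p : ℝ)⁻¹) (by positivity) (inv_lt_one_of_one_lt₀ hp1).le hk
    rwa [pow_one] at this
  have hpow : ∀ j : ℕ, ‖(μ : ℚ_[p]) ^ j‖ = 1 ∧ plog p ((μ : ℚ_[p]) ^ j) = j * plog p μ := by
    intro j
    induction j with
    | zero =>
      refine ⟨by simp, ?_⟩
      rw [pow_zero]
      have := plog_mul (p := p) (z₁ := 1) (z₂ := 1) norm_one norm_one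
      rw [mul_one] at this
      have h2 : plog p (1 : ℚ_[p]) = 0 := by linear_combination -this
      rw [h2]
      simp
    | succ j ih =>
      rw [pow_succ]
      refine ⟨by rw [norm_mul, ih.1, hμ1, one_mul], ?_⟩
      rw [plog_mul ih.1 hμ1, ih.2]
      push_cast
      ring
  obtain ⟨n1, n2⟩ := hpow (m ^ 2)
  have h1 : ‖(μ : ℚ_[p]) ^ (m ^ 2) * Λ'‖ = 1 := by rw [norm_mul, n1, hΛ1', one_mul]
  have h2 := norm_plog_sub hp3 h1 hΛ1 hc1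
  rw [plog_mul n1 hΛ1', n2] at h2
  have h3 : ((m ^ 2 : ℕ) : ℚ_[p]) * plog p μ + plog p Λ' - plog p Λ =
      -((m : ℚ_[p]) ^ 2 * (y - y' - plog p μ)) := by
    rw [← hy, ← hy']
    push_cast
    ring
  rw [h3, norm_neg, norm_mul, norm_pow] at h2
  have h4 := norm_index hp3 hm1 hm2
  have h5 : (p : ℝ)⁻¹ ^ 2 ≤ ‖(m : ℚ_[p])‖ ^ 2 := pow_le_pow_left₀ (by positivity) h4 2
  have h6 : (p : ℝ)⁻¹ ^ 2 * ‖y - y' - plog p μ‖ ≤ ((p : ℝ)⁻¹) ^ k := by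
    calc (p : ℝ)⁻¹ ^ 2 * ‖y - y' - plog p μ‖ ≤ ‖(m : ℚ_[p])‖ ^ 2 * ‖y - y' - plog p μ‖ :=
          mul_le_mul_of_nonneg_right h5 (norm_nonneg _)
      _ = _ := h2
      _ ≤ _ := hc
  calc ‖y - y' - plog p μ‖ = (p : ℝ) ^ 2 * ((p : ℝ)⁻¹ ^ 2 * ‖y - y' - plog p μ‖) := by
        field_simp
    _ ≤ (p : ℝ) ^ 2 * ((p : ℝ)⁻¹) ^ k := mul_le_mul_of_nonneg_left h6 (by positivity)

/-- the size of the height -/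
theorem height_le (hp3 : 3 ≤ p) {m : ℕ} (hm1 : 1 ≤ m) (hm2 : m ≤ 2 * p + 1)
    {Λ : ℤ_[p]} (hΛ : ‖Λ‖ = 1) {y : ℚ_[p]} (hy : (m : ℚ_[p]) ^ 2 * y = plog p Λ) :
    ‖y‖ ≤ p := by
  have hp0 : (0 : ℝ) < p := by exact_mod_cast hp.out.pos
  have h1 := norm_plog_le hp3 (z := (Λ : ℚ_[p])) hΛ
  rw [← hy, norm_mul, norm_pow] at h1
  have h4 := norm_index hp3 hm1 hm2
  have h5 : (p : ℝ)⁻¹ ^ 2 ≤ ‖(m : ℚ_[p])‖ ^ 2 := pow_le_pow_left₀ (by positivity) h4 2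
  have h6 : (p : ℝ)⁻¹ ^ 2 * ‖y‖ ≤ (p : ℝ)⁻¹ :=
    (mul_le_mul_of_nonneg_right h5 (norm_nonneg _)).trans h1
  calc ‖y‖ = (p : ℝ) ^ 2 * ((p : ℝ)⁻¹ ^ 2 * ‖y‖) := by field_simp
    _ ≤ (p : ℝ) ^ 2 * (p : ℝ)⁻¹ := mul_le_mul_of_nonneg_left h6 (by positivity)
    _ = p := by field_simp

lemma norm_nat_mul_le (n : ℕ) (x : ℚ_[p]) : ‖(n : ℚ_[p]) * x‖ ≤ ‖x‖ := by
  rw [norm_mul]
  have h : ‖(n : ℚ_[p])‖ ≤ 1 := by exact_mod_cast Padic.norm_int_le_one (p := p) (n : ℤ)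
  have := norm_nonneg x
  nlinarith

end Pool.Agent.Y732
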