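import Pool.Agent.Y732.GenCmp
import Pool.Agent.Y732.RegCmp
import Pool.Agent.Y732.Defs3

/-!
# The heights of two points on one orbit
-/

set_option autoImplicit false

namespace Pool.Agent.Y732

open WeierstrassCurve

variable {p : ℕ} [hp : Fact p.Prime]

/-- the data of a height -/
structure HD (p : ℕ) [Fact p.Prime] (W : WeierstrassCurve ℤ) (h : (WQ W).Point → ℚ_[p]) where
  q : ∀ P Q, h (P + Q) + h (P - Q) = 2 * h P + 2 * h Q
  A : ℤ_[p]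
  B : ℤ_[p]
  s : PowerSeries ℤ_[p]
  hA : 48 * A = -(W.c₄ : ℤ_[p])
  hB : 864 * B = -(W.c₆ : ℤ_[p])
  d : Dat A B s
  f : HasFormula p W h s

lemma IsHeightW.hd {W : WeierstrassCurve ℤ} {h : (WQ W).Point → ℚ_[p]} (hh : IsHeightW p W h) :
    Nonempty (HD p W h) := by
  obtain ⟨hq, A, B, σ, hA, hB, hσ, hf⟩ := hh
  obtain ⟨s, rfl, ⟨d⟩⟩ := hσ.dat
  exact ⟨⟨hq, A, B, s, hA, hB, d, hf⟩⟩

/-- the multiple of the second point reduces to the origin as well -/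
lemma mult_second {k : ℕ} (hk : 1 ≤ k) {W W' : WeierstrassCurve ℤ} {X Y e X' Y' e' : ℤ}
    {κ ν : ℤ_[p]} (hκ : (p : ℤ_[p]) ∣ κ - 1) (hν : (p : ℤ_[p]) ∣ ν - 1)
    (hW : red W' (ZMod (p ^ k)) = twist (PadicInt.toZModPow k κ) (red W (ZMod (p ^ k))))
    (he : (e' : ZMod (p ^ k)) = PadicInt.toZModPow k ν * e)
    (hX : (X' : ZMod (p ^ k)) = PadicInt.toZModPow k (κ * ν) ^ 2 * X)
    (hY : (Y' : ZMod (p ^ k)) = PadicInt.toZModPow k (κ * ν) ^ 3 * Y) {m : ℕ}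
    (hm : (p : ℤ) ∣ T W X Y e m 2) : (p : ℤ) ∣ T W' X' Y' e' m 2 := by
  obtain ⟨-, -, j2⟩ := T_compare hκ hν hW he hX hY m
  have hdvd : p ∣ p ^ k := dvd_pow_self p (by omega)
  have h1 := congrArg (ZMod.castHom hdvd (ZMod p)) j2
  rw [map_mul, map_mul, map_intCast, map_intCast] at h1
  rw [← ZMod.intCast_zmod_eq_zero_iff_dvd _ p] at hm ⊢
  rw [hm, mul_zero] at h1
  have hU : IsUnit (ZMod.castHom hdvd (ZMod p) (PadicInt.toZModPow k κ)) :=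
    ((isUnit_of_one hκ).map (PadicInt.toZModPow k)).map (ZMod.castHom hdvd (ZMod p))
  exact hU.mul_left_cancel (by rw [h1, mul_zero])

lemma hasse_pad (hp5 : 5 ≤ p) {W : WeierstrassCurve ℤ} (ho : IsOrdinaryW p W) {A B : ℤ_[p]}
    (hA : 48 * A = -(W.c₄ : ℤ_[p])) (hB : 864 * B = -(W.c₆ : ℤ_[p])) :
    hasse p (PadicInt.toZMod A) (PadicInt.toZMod B) ≠ 0 := by
  apply hasse_red hp5 ho
  · have := congrArg (PadicInt.toZMod (p := p)) hA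
    rw [map_mul, map_neg, map_intCast] at this
    rw [← this]
    congr 1
    exact (map_ofNat _ 48).symm
  · have := congrArg (PadicInt.toZMod (p := p)) hB
    rw [map_mul, map_neg, map_intCast] at this
    rw [← this]
    congr 1
    exact (map_ofNat _ 864).symm

/-- the heights of two rational points on one orbit -/
theorem pair_diff (hp5 : 5 ≤ p) {k : ℕ} (hk : 1 ≤ k) {W W' : WeierstrassCurve ℤ}
    {X Y e X' Y' e' : ℤ} {κ ν : ℤ_[p]} (hκ : (p : ℤ_[p]) ∣ κ - 1) (hν : (p : ℤ_[p]) ∣ ν - 1)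
    (hW : red W' (ZMod (p ^ k)) = twist (PadicInt.toZModPow k κ) (red W (ZMod (p ^ k))))
    (he : (e' : ZMod (p ^ k)) = PadicInt.toZModPow k ν * e)
    (hX : (X' : ZMod (p ^ k)) = PadicInt.toZModPow k (κ * ν) ^ 2 * X)
    (hY : (Y' : ZMod (p ^ k)) = PadicInt.toZModPow k (κ * ν) ^ 3 * Y)
    (heq : OnCurve W X Y e) (heq' : OnCurve W' X' Y' e') (hc : IsCoprime X e)
    (hc' : IsCoprime X' e') (hN : EverywhereNonsingular W X Y e)
    (hN' : EverywhereNonsingular W' X' Y' e') (he0 : e ≠ 0) (he0' : e' ≠ 0)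
    (ho : IsOrdinaryW p W)
    (hP : (WQ W).Nonsingular ((X : ℚ) / (e : ℚ) ^ 2) ((Y : ℚ) / (e : ℚ) ^ 3))
    (hP' : (WQ W').Nonsingular ((X' : ℚ) / (e' : ℚ) ^ 2) ((Y' : ℚ) / (e' : ℚ) ^ 3))
    {h : (WQ W).Point → ℚ_[p]}
    {h' : (WQ W').Point → ℚ_[p]} (D : HD p W h) (D' : HD p W' h') :
    ‖h (.some _ _ hP) - h' (.some _ _ hP') - plog p (κ * ν : ℤ_[p])‖ ≤
        (p : ℝ) ^ 2 * ((p : ℝ)⁻¹) ^ k ∧
      ‖h (.some _ _ hP)‖ ≤ p ∧ ‖h' (.some _ _ hP')‖ ≤ p := by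
  obtain ⟨m, hm1, hm2, hm⟩ := exists_multT hp5 heq hc hN ho.1
  have hm' := mult_second hk hκ hν hW he hX hY hm
  obtain ⟨t, Λ, ht, h1, hΛ, h2, h3⟩ := valueT hp5 heq hc hN he0 hP D.q D.d D.f hm
  obtain ⟨t', Λ', ht', h1', hΛ', h2', h3'⟩ :=
    valueT hp5 heq' hc' hN' he0' hP' D'.q D'.d D'.f hm'
  have key := compareT hp5 hκ hν hW he hX hY D.hA D.hB D'.hA D'.hB D.d D'.d
    (hasse_pad hp5 ho D.hA D.hB) ht ht' (unitsT hp5 heq hc hN he0 hP hm).2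
    (unitsT hp5 heq' hc' hN' he0' hP' hm').2 h1 h1' h2 h2'
  exact ⟨height_diff (by omega) hk hm1 hm2 ((isUnit_of_one hκ).mul (isUnit_of_one hν)) hΛ hΛ'
      key h3 h3',
    height_le (by omega) hm1 hm2 hΛ h3, height_le (by omega) hm1 hm2 hΛ' h3'⟩

end Pool.Agent.Y732
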