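import Pool.Agent.Y732.Mult

/-!
# An integral point with everywhere nonsingular reduction and `y ≠ 0` has infinite order
-/

set_option autoImplicit false

namespace Pool.Agent.Y732

open WeierstrassCurve

/-- scaling over a field -/
lemma M_scale {F : Type*} [Field F] (A B x y : F) {u : F} (hu : u ≠ 0) (n : ℕ) :
    M (u ^ 4 * A) (u ^ 6 * B) (u ^ 2 * x) (u ^ 3 * y) n 0 = (u ^ (n ^ 2)) ^ 2 * M A B x y n 0 ∧
      M (u ^ 4 * A) (u ^ 6 * B) (u ^ 2 * x) (u ^ 3 * y) n 1 =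
        (u ^ (n ^ 2)) ^ 3 * M A B x y n 1 ∧
      u * M (u ^ 4 * A) (u ^ 6 * B) (u ^ 2 * x) (u ^ 3 * y) n 2 =
        u ^ (n ^ 2) * M A B x y n 2 :=
  J_scale A B x y u hu.isUnit n

lemma M_two {R : Type*} [CommRing R] (A B a b : R) : M A B a b 2 2 = 2 * b := by
  have h := J_dbl (Wc A B).toJacobian ![a, b, 1] 1 (le_refl 1)
  rw [J_one] at h
  have h2 : M A B a b 2 = (Wc A B).toJacobian.dblXYZ ![a, b, 1] := h
  have e1 : (Wc A B).toJacobian.a₁ = 0 := rfl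
  have e3 : (Wc A B).toJacobian.a₃ = 0 := rfl
  rw [h2, Jacobian.dblXYZ_Z, Jacobian.dblZ, Jacobian.negY, e1, e3]
  simp only [Matrix.cons_val_zero, Matrix.cons_val_one, Matrix.cons_val]
  ring

lemma M_mod_two {A B a b : ℤ} (n : ℕ) (hA : (2 : ℤ) ∣ A) (hB : (2 : ℤ) ∣ B) (ha : ¬ (2 : ℤ) ∣ a)
    (hb : ¬ (2 : ℤ) ∣ b) :
    ((M A B a b n 0 : ℤ) : ZMod 2) = 1 ∧ ((M A B a b n 1 : ℤ) : ZMod 2) = 1 ∧
      ((M A B a b n 2 : ℤ) : ZMod 2) = n := by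
  have h0 : ∀ z : ℤ, (2 : ℤ) ∣ z → (z : ZMod 2) = 0 := fun z hz =>
    (ZMod.intCast_zmod_eq_zero_iff_dvd z 2).2 hz
  have h1 : ∀ z : ℤ, ¬ (2 : ℤ) ∣ z → (z : ZMod 2) = 1 := by
    intro z hz
    have h2 : (z : ZMod 2) ≠ 0 := fun h => hz ((ZMod.intCast_zmod_eq_zero_iff_dvd z 2).1 h)
    generalize (z : ZMod 2) = w at h2
    revert w
    decide
  rw [← M_cast, ← M_cast, ← M_cast, h0 A hA, h0 B hB, h1 a ha, h1 b hb]
  unfold M
  rw [J_cusp]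
  exact ⟨rfl, rfl, rfl⟩

/-- the group of points of `E(ℚ_2)` reducing to the origin has no torsion -/
theorem two_adic (A B : ℤ) (n : ℕ) (hn : 1 ≤ n) : ∀ (a b e : ℤ)
    (hP : (EQ A B).Nonsingular (a / e ^ 2) (b / e ^ 3)), e ≠ 0 → (2 : ℤ) ∣ e → ¬ (2 : ℤ) ∣ a →
    n • (Affine.Point.some _ _ hP) ≠ 0 := by
  induction n using Nat.strong_induction_on with
  | _ n ih =>
  intro a b e hP he h2e h2a
  have heQ : (e : ℚ) ≠ 0 := by exact_mod_cast he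
  have hE : b ^ 2 = a ^ 3 + A * a * e ^ 4 + B * e ^ 6 := by
    have h1 := ((Wc_nonsingular _ _ _ _).1 hP).1
    field_simp at h1
    have h2 : b ^ 2 = a * (a ^ 2 + e ^ 4 * A) + e ^ 6 * B := by exact_mod_cast h1
    rw [h2]
    ring
  have hb : ¬ (2 : ℤ) ∣ b := by
    intro h
    have h3 : (2 : ℤ) ∣ a ^ 3 := by
      have h4 : a ^ 3 = b * b - e * (A * a * e ^ 3 + B * e ^ 5) := by linear_combination -hE
      rw [h4]
      exact dvd_sub (h.mul_right _) (h2e.mul_right _)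
    exact h2a (Int.prime_two.dvd_of_dvd_pow h3)
  have hA' : (2 : ℤ) ∣ e ^ 4 * A := (h2e.pow (by norm_num)).mul_right _
  have hB' : (2 : ℤ) ∣ e ^ 6 * B := (h2e.pow (by norm_num)).mul_right _
  have hsc : ∀ k : ℕ, ((M (e ^ 4 * A) (e ^ 6 * B) a b k 0 : ℤ) : ℚ) =
        ((e : ℚ) ^ (k ^ 2)) ^ 2 * M (A : ℚ) (B : ℚ) (a / e ^ 2) (b / e ^ 3) k 0 ∧
      ((M (e ^ 4 * A) (e ^ 6 * B) a b k 1 : ℤ) : ℚ) =
        ((e : ℚ) ^ (k ^ 2)) ^ 3 * M (A : ℚ) (B : ℚ) (a / e ^ 2) (b / e ^ 3) k 1 ∧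
      (e : ℚ) * ((M (e ^ 4 * A) (e ^ 6 * B) a b k 2 : ℤ) : ℚ) =
        (e : ℚ) ^ (k ^ 2) * M (A : ℚ) (B : ℚ) (a / e ^ 2) (b / e ^ 3) k 2 := by
    intro k
    have h1 := M_scale (A : ℚ) (B : ℚ) (a / e ^ 2) (b / e ^ 3) heQ k
    have h2 : (e : ℚ) ^ 2 * (a / e ^ 2) = (a : ℤ) := by field_simp
    have h3 : (e : ℚ) ^ 3 * (b / e ^ 3) = (b : ℤ) := by field_simp
    have h4 : (e : ℚ) ^ 4 * A = ((e ^ 4 * A : ℤ) : ℚ) := by push_cast; ring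
    have h5 : (e : ℚ) ^ 6 * B = ((e ^ 6 * B : ℤ) : ℚ) := by push_cast; ring
    rw [h2, h3, h4, h5, M_cast, M_cast, M_cast] at h1
    exact h1
  rcases Nat.even_or_odd n with hev | hod
  · obtain ⟨m, hm⟩ := hev
    have hm' : n = m * 2 := by omega
    obtain ⟨h0, h1, h2⟩ := hsc 2
    have hz2 : M (e ^ 4 * A) (e ^ 6 * B) a b 2 2 = 2 * b := M_two _ _ _ _
    have hbne : b ≠ 0 := by
      rintro rfl
      exact hb (dvd_zero _)
    have hzQ : ((M (e ^ 4 * A) (e ^ 6 * B) a b 2 2 : ℤ) : ℚ) ≠ 0 := by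
      rw [hz2]
      exact_mod_cast mul_ne_zero two_ne_zero hbne
    have hz : M (A : ℚ) (B : ℚ) (a / e ^ 2) (b / e ^ 3) 2 2 ≠ 0 := by
      intro h
      rw [h, mul_zero] at h2
      exact (mul_ne_zero heQ hzQ) h2
    obtain ⟨h', hh⟩ := M_some hP 2 hz
    set a' := M (e ^ 4 * A) (e ^ 6 * B) a b 2 0 with ha'
    set b' := M (e ^ 4 * A) (e ^ 6 * B) a b 2 1 with hb'
    set z' := M (e ^ 4 * A) (e ^ 6 * B) a b 2 2 with hz'
    have hX : M (A : ℚ) (B : ℚ) (a / e ^ 2) (b / e ^ 3) 2 0 /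
        M (A : ℚ) (B : ℚ) (a / e ^ 2) (b / e ^ 3) 2 2 ^ 2 = (a' : ℤ) / ((e * z' : ℤ) : ℚ) ^ 2 := by
      rw [h0]
      push_cast
      rw [h2]
      field_simp
      ring
    have hY : M (A : ℚ) (B : ℚ) (a / e ^ 2) (b / e ^ 3) 2 1 /
        M (A : ℚ) (B : ℚ) (a / e ^ 2) (b / e ^ 3) 2 2 ^ 3 = (b' : ℤ) / ((e * z' : ℤ) : ℚ) ^ 3 := by
      rw [h1]
      push_cast
      rw [h2]
      field_simp
      ring
    have hmod := M_mod_two 2 hA' hB' h2a hb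
    have ha'2 : ¬ (2 : ℤ) ∣ a' := by
      intro h
      have h3 := (ZMod.intCast_zmod_eq_zero_iff_dvd a' 2).2 h
      rw [hmod.1] at h3
      exact one_ne_zero h3
    have hez : e * z' ≠ 0 := mul_ne_zero he (by rw [hz2]; exact mul_ne_zero two_ne_zero hbne)
    have h'' : (EQ A B).Nonsingular ((a' : ℤ) / ((e * z' : ℤ) : ℚ) ^ 2)
        ((b' : ℤ) / ((e * z' : ℤ) : ℚ) ^ 3) := by
      rw [← hX, ← hY]
      exact h'
    have hpt : 2 • (Affine.Point.some _ _ hP) = Affine.Point.some _ _ h'' := by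
      rw [hh]
      congr 1
    rw [hm', mul_smul, hpt]
    exact ih m (by omega) (by omega) a' b' (e * z') h'' hez (h2e.mul_right _) ha'2
  · intro h
    rw [M_zero_iff hP] at h
    obtain ⟨-, -, h2⟩ := hsc n
    rw [h, mul_zero] at h2
    have h3 : M (e ^ 4 * A) (e ^ 6 * B) a b n 2 = 0 := by
      have := (mul_eq_zero.1 h2).resolve_left heQ
      exact_mod_cast this
    have h4 := (M_mod_two n hA' hB' h2a hb).2.2
    rw [h3] at h4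
    obtain ⟨m, rfl⟩ := hod
    push_cast at h4
    have h5 : (2 : ZMod 2) = 0 := rfl
    rw [h5, zero_mul, zero_add] at h4
    exact zero_ne_one h4

/-- the marked point has infinite order -/
theorem infinite_order {A B x y : ℤ} (hB : y ^ 2 = x ^ 3 + A * x + B)
    (h : NS A x y) (hy : y ≠ 0) (hP : (EQ A B).Nonsingular (x : ℚ) (y : ℚ)) (n : ℕ) (hn : 1 ≤ n) :
    n • (Affine.Point.some (x : ℚ) (y : ℚ) hP) ≠ 0 := by
  intro h0
  have hz2 : M A B x y 2 2 = 2 * y := M_two _ _ _ _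
  have hz : M A B x y 2 2 ≠ 0 := by
    rw [hz2]
    exact mul_ne_zero two_ne_zero hy
  have h2z : (2 : ℤ) ∣ M A B x y 2 2 := by
    rw [hz2]
    exact dvd_mul_right _ _
  have h2a : ¬ (2 : ℤ) ∣ M A B x y 2 0 := by
    intro h3
    have h4 := Mi_coprime hB h 2
    have h5 := h4.isUnit_of_dvd' h3 h2z
    rw [Int.isUnit_iff] at h5
    omega
  have hzQ : M (A : ℚ) (B : ℚ) (x : ℚ) (y : ℚ) 2 2 ≠ 0 := by
    rw [M_cast]
    exact_mod_cast hz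
  obtain ⟨h', hh⟩ := M_some hP 2 hzQ
  have hX : M (A : ℚ) (B : ℚ) (x : ℚ) (y : ℚ) 2 0 / M (A : ℚ) (B : ℚ) (x : ℚ) (y : ℚ) 2 2 ^ 2 =
      (M A B x y 2 0 : ℤ) / ((M A B x y 2 2 : ℤ) : ℚ) ^ 2 := by
    rw [M_cast, M_cast]
  have hY : M (A : ℚ) (B : ℚ) (x : ℚ) (y : ℚ) 2 1 / M (A : ℚ) (B : ℚ) (x : ℚ) (y : ℚ) 2 2 ^ 3 =
      (M A B x y 2 1 : ℤ) / ((M A B x y 2 2 : ℤ) : ℚ) ^ 3 := by
    rw [M_cast, M_cast]
  have h'' : (EQ A B).Nonsingular ((M A B x y 2 0 : ℤ) / ((M A B x y 2 2 : ℤ) : ℚ) ^ 2)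
      ((M A B x y 2 1 : ℤ) / ((M A B x y 2 2 : ℤ) : ℚ) ^ 3) := by
    rw [← hX, ← hY]
    exact h'
  have hpt : 2 • (Affine.Point.some _ _ hP) = Affine.Point.some _ _ h'' := by
    rw [hh]
    congr 1
  apply two_adic A B n hn _ _ _ h'' hz h2z h2a
  rw [← hpt, ← mul_smul, mul_comm, mul_smul, h0]
  exact nsmul_zero 2

end Pool.Agent.Y732
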