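import Pool.Agent.Y732.Tors
import Pool.Agent.Y732.Ev
import Pool.Agent.Y732.Log

/-!
# Points of vanishing height
-/

set_option autoImplicit false

namespace Pool.Agent.Y732

open WeierstrassCurve

/-- functions with the parallelogram law are quadratic -/
lemma quadratic {G K : Type*} [AddCommGroup G] [Field K] [CharZero K] {h : G → K}
    (hq : ∀ P Q, h (P + Q) + h (P - Q) = 2 * h P + 2 * h Q) (P : G) (n : ℕ) :
    h (n • P) = (n : K) ^ 2 * h P := by
  have h0 : h 0 = 0 := by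
    have h1 := hq 0 0
    rw [add_zero, sub_zero] at h1
    have h2 : (2 : K) * h 0 = 0 := by linear_combination -h1
    exact (mul_eq_zero.1 h2).resolve_left two_ne_zero
  have h1 : ∀ n : ℕ, h (n • P) = (n : K) ^ 2 * h P ∧
      h ((n + 1) • P) = ((n + 1 : ℕ) : K) ^ 2 * h P := by
    intro n
    induction n with
    | zero => simp [h0]
    | succ n ih =>
      refine ⟨ih.2, ?_⟩
      have h2 := hq ((n + 1) • P) P
      have e1 : (n + 1) • P + P = (n + 1 + 1) • P := by rw [succ_nsmul _ (n + 1)]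
      have e2 : (n + 1) • P - P = n • P := by rw [succ_nsmul, add_sub_cancel_right]
      rw [e1, e2, ih.1, ih.2] at h2
      push_cast at h2 ⊢
      linear_combination h2
  exact (h1 n).1

lemma quadratic_neg {G K : Type*} [AddCommGroup G] [Field K] [CharZero K] {h : G → K}
    (hq : ∀ P Q, h (P + Q) + h (P - Q) = 2 * h P + 2 * h Q) (P : G) : h (-P) = h P := by
  have h0 : h 0 = 0 := by
    have := quadratic hq P 0
    simpa using this
  have h1 := hq 0 P
  rw [zero_add, zero_sub, h0] at h1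
  linear_combination h1

lemma quadratic_int {G K : Type*} [AddCommGroup G] [Field K] [CharZero K] {h : G → K}
    (hq : ∀ P Q, h (P + Q) + h (P - Q) = 2 * h P + 2 * h Q) (P : G) (n : ℤ) :
    h (n • P) = (n : K) ^ 2 * h P := by
  obtain ⟨m, rfl | rfl⟩ := n.eq_nat_or_neg
  · rw [natCast_zsmul, quadratic hq]
    push_cast
    rfl
  · rw [neg_smul, quadratic_neg hq, natCast_zsmul, quadratic hq]
    push_cast
    ring

variable {p : ℕ} [hp : Fact p.Prime]

lemma ev_X_mul {t : ℤ_[p]} (ht : (p : ℤ_[p]) ∣ t) (s : PowerSeries ℤ_[p]) :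
    ev t (PowerSeries.X * s) = t * ev t s := by
  rw [ev_mul ht]
  congr 1
  unfold ev
  rw [tsum_eq_single 1]
  · simp
  · intro n hn
    rw [PowerSeries.coeff_X, if_neg hn, zero_mul]

lemma ev_unit {t : ℤ_[p]} (ht : (p : ℤ_[p]) ∣ t) {s : PowerSeries ℤ_[p]}
    (hs : PowerSeries.constantCoeff s = 1) : IsUnit (ev t s) := by
  have h1 : (p : ℤ_[p]) ^ 1 ∣ ev t s - ev 0 s := by
    apply ev_congr ht (dvd_zero _)
    rw [sub_zero, pow_one]
    exact ht
  have h2 : ev 0 s = 1 := by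
    unfold ev
    rw [tsum_eq_single 0]
    · rw [pow_zero, mul_one, PowerSeries.coeff_zero_eq_constantCoeff_apply, hs]
    · intro n hn
      rw [zero_pow hn, mul_zero]
  rw [h2, pow_one] at h1
  rw [PadicInt.isUnit_iff]
  by_contra h3
  have h4 : (p : ℤ_[p]) ∣ ev t s := by
    rw [← PadicInt.norm_lt_one_iff_dvd]
    exact lt_of_le_of_ne (PadicInt.norm_le_one _) h3
  have h5 := dvd_sub h4 h1
  rw [sub_sub_cancel] at h5
  exact PadicInt.prime_p.not_isUnit (isUnit_of_dvd_one h5)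

lemma not_dvd_unit {b : ℤ} (hb : ¬ (p : ℤ) ∣ b) : IsUnit (b : ℤ_[p]) := by
  rw [PadicInt.isUnit_iff]
  by_contra h3
  have h4 : (p : ℤ_[p]) ∣ (b : ℤ_[p]) := by
    rw [← PadicInt.norm_lt_one_iff_dvd]
    exact lt_of_le_of_ne (PadicInt.norm_le_one _) h3
  have h5 := (PadicInt.pow_p_dvd_int_iff 1 b).1 (by rwa [pow_one])
  rw [pow_one] at h5
  exact hb h5

/-- the coordinates of the multiples reducing to the origin -/
lemma units {A B x y : ℤ} (hB : y ^ 2 = x ^ 3 + A * x + B) (hD : 4 * A ^ 3 + 27 * B ^ 2 ≠ 0)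
    (hN : NS A x y) {m : ℕ} (hm : (p : ℤ) ∣ M A B x y m 2) :
    ¬ (p : ℤ) ∣ M A B x y m 0 ∧ ¬ (p : ℤ) ∣ M A B x y m 1 := by
  have h1 : ¬ (p : ℤ) ∣ M A B x y m 0 := by
    intro h
    have h2 := (Mi_coprime hB hN m).isUnit_of_dvd' h hm
    exact (Nat.prime_iff_prime_int.1 hp.out).not_isUnit h2
  refine ⟨h1, fun h => h1 ?_⟩
  have h2 := Mi_equation hB hD m
  have h3 : (p : ℤ) ∣ M A B x y m 0 ^ 3 := by
    have h4 : M A B x y m 0 ^ 3 = M A B x y m 1 * M A B x y m 1 - M A B x y m 2 *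
        (A * M A B x y m 0 * M A B x y m 2 ^ 3 + B * M A B x y m 2 ^ 5) := by
      linear_combination -h2
    rw [h4]
    exact dvd_sub (h.mul_right _) (hm.mul_right _)
  exact (Nat.prime_iff_prime_int.1 hp.out).dvd_of_dvd_pow h3

/-- the consequence of the vanishing of the height -/
theorem value {A B x y : ℤ} (hp3 : 3 ≤ p) (hB : y ^ 2 = x ^ 3 + A * x + B)
    (hD : 4 * A ^ 3 + 27 * B ^ 2 ≠ 0) (hN : NS A x y) (hy : y ≠ 0)
    (hP : (EQ A B).Nonsingular (x : ℚ) (y : ℚ)) {h : (EQ A B).Point → ℚ_[p]}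
    (hh : IsHeight p A B h) (h0 : h (.some _ _ hP) = 0) {m : ℕ} (hm1 : 1 ≤ m)
    (hm : (p : ℤ) ∣ M A B x y m 2) :
    ∃ (s : PowerSeries ℤ_[p]) (_ : Dat (A : ℤ_[p]) (B : ℤ_[p]) s) (t : ℤ_[p]),
      (p : ℤ_[p]) ∣ t ∧ (M A B x y m 1 : ℤ) * t = -((M A B x y m 0 : ℤ) * (M A B x y m 2 : ℤ)) ∧
      ((M A B x y m 0 : ℤ) * ev t s) ^ (p - 1) = ((M A B x y m 1 : ℤ) : ℤ_[p]) ^ (p - 1) := by
  obtain ⟨hq, σ, hσ, hf⟩ := hh
  obtain ⟨s, rfl, ⟨d⟩⟩ := hσ.dat
  have he : M A B x y m 2 ≠ 0 := by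
    intro h1
    exact infinite_order hB hN hy hP m hm1 ((Mi_zero_iff hP m).2 h1)
  obtain ⟨ha, hb⟩ := units hB hD hN hm
  have haU := not_dvd_unit (p := p) ha
  have hbU := not_dvd_unit (p := p) hb
  obtain ⟨h', hpt⟩ := Mi_some hB hD hP m he
  have hcop := Mi_coprime hB hN m
  have hns := Mi_nonsing hB hN m
  set a := M A B x y m 0 with hadef
  set b := M A B x y m 1 with hbdef
  set e := M A B x y m 2 with hedef
  obtain ⟨r, hr⟩ := hbU.exists_right_inv
  set t : ℤ_[p] := -(a * e) * r with ht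
  have hbt : (b : ℤ_[p]) * t = -(a * e) := by
    rw [ht]
    linear_combination (-((a : ℤ_[p]) * e)) * hr
  have hpe : (p : ℤ_[p]) ∣ (e : ℤ_[p]) := by
    have := (PadicInt.pow_p_dvd_int_iff (p := p) 1 e).2 (by rwa [pow_one])
    rwa [pow_one] at this
  have hpt' : (p : ℤ_[p]) ∣ t := by
    rw [ht]
    exact ((hpe.mul_left _).neg_right).mul_right _
  refine ⟨s, d, t, hpt', hbt, ?_⟩
  have h1 := hf a b e h' t he hcop hm hns hbt
  have h2 : h (m • (Affine.Point.some (x : ℚ) (y : ℚ) hP)) = 0 := by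
    rw [quadratic hq, h0, mul_zero]
  rw [hpt] at h2
  rw [h2] at h1
  have hE := ev_unit hpt' d.s0
  obtain ⟨z, hz⟩ : ∃ z : ℤ_[p], z = -(a * r) * ev t s := ⟨_, rfl⟩
  have heQ : ((e : ℤ) : ℚ_[p]) ≠ 0 := by exact_mod_cast he
  have hzQ : ((ev t (PowerSeries.X * s) : ℤ_[p]) : ℚ_[p]) / (e : ℚ_[p]) = (z : ℚ_[p]) := by
    rw [div_eq_iff heQ, ev_X_mul hpt', hz, ht]
    push_cast
    ring
  rw [hzQ] at h1
  have hzU : IsUnit z := by
    rw [hz]
    exact ((haU.mul (IsUnit.of_mul_eq_one b (by rw [mul_comm]; exact hr))).neg).mul hE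
  have h3 := plog_eq_zero hp3 (PadicInt.isUnit_iff.1 hzU) h1.symm
  have hpe : Even (p - 1) := by
    rcases hp.out.eq_two_or_odd' with h | h
    · omega
    · exact Nat.Odd.sub_odd h odd_one
  have h4 : (a * ev t s : ℤ_[p]) = -(b * z) := by
    rw [hz]
    linear_combination (-(a * ev t s)) * hr
  rw [h4, hpe.neg_pow, mul_pow, h3, mul_one]

end Pool.Agent.Y732
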